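import Pool.Agent.P.MP_8be758_nt.Av2.Basic

/-! The step `S_BES`. -/

namespace Pool.Agent.P.MP_8be758_nt.Av2

open Finset Real Filter Topology
open Pool.Agent.P.MP_e86632_nt (ee)
open Pool.Agent.P.MP_8be758_nt.Avg
open scoped ComplexConjugate

theorem bes_abs {ι : Type} (s : Finset ι) (φ : ι → ℝ → ℂ) (w : ι → ι → ℝ) (g : ℝ → ℂ)
    {a b G R : ℝ} (ha : 0 < a) (hab : a ≤ b) (hR : 0 < R) (hφ : ∀ j, Continuous (φ j))
    (hg : Continuous g) (hG : ∀ θ, a ≤ θ → θ ≤ b → ‖g θ‖ ≤ G) (hw : ∀ i j, w i j = w j i)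
    (h1 : ∀ i ∈ s, ∀ j ∈ s, ‖∫ θ in a..b, φ i θ * conj (φ j θ) * θ‖ ≤ w i j)
    (h2 : ∀ i ∈ s, ∑ j ∈ s, w i j ≤ R) :
    ∑ j ∈ s, ‖∫ θ in a..b, φ j θ * g θ‖ ^ 2 ≤ R * G ^ 2 * Real.log (b / a) := by
  obtain ⟨c, hc⟩ : ∃ c : ι → ℂ, c = fun j => ∫ θ in a..b, φ j θ * g θ := ⟨_, rfl⟩
  obtain ⟨Φ, hΦ⟩ : ∃ Φ : ℝ → ℂ, Φ = fun θ => ∑ j ∈ s, conj (c j) * φ j θ := ⟨_, rfl⟩
  have cΦ : Continuous Φ := by rw [hΦ]; fun_prop
  have e1 : ∫ θ in a..b, Φ θ * g θ = (∑ j ∈ s, ‖c j‖ ^ 2 : ℝ) := by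
    simp only [hΦ, sum_mul, mul_assoc]
    rw [intervalIntegral.integral_finsetSum fun j _ => Continuous.intervalIntegrable (by fun_prop) _ _]
    push_cast
    refine sum_congr rfl fun j _ => ?_
    rw [intervalIntegral.integral_const_mul, ← Complex.conj_mul', hc]
  have e2 : ((∫ θ in a..b, ‖Φ θ‖ ^ 2 * θ : ℝ) : ℂ) =
      ∑ i ∈ s, ∑ j ∈ s, conj (c i) * c j * ∫ θ in a..b, φ i θ * conj (φ j θ) * θ := by
    simp only [← intervalIntegral.integral_const_mul, ← intervalIntegral.integral_ofReal]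
    rw [sum_congr rfl fun i _ => (intervalIntegral.integral_finsetSum fun j _ =>
      Continuous.intervalIntegrable (by fun_prop) _ _).symm,
      ← intervalIntegral.integral_finsetSum fun j _ =>
        Continuous.intervalIntegrable (by fun_prop) _ _]
    congr 1
    funext θ
    push_cast
    rw [← Complex.mul_conj', hΦ]
    simp only [map_sum, map_mul, Complex.conj_conj, sum_mul_sum]
    simp only [sum_mul]
    exact sum_congr rfl fun i _ => sum_congr rfl fun j _ => by ring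
  have e3 : ∫ θ in a..b, ‖Φ θ‖ ^ 2 * θ ≤ R * ∑ j ∈ s, ‖c j‖ ^ 2 := by
    refine (Complex.re_le_norm ((∫ θ in a..b, ‖Φ θ‖ ^ 2 * θ : ℝ) : ℂ)).trans ?_
    rw [e2]
    have h3 : ∑ i ∈ s, ∑ j ∈ s, ‖c i‖ ^ 2 * w i j ≤ R * ∑ j ∈ s, ‖c j‖ ^ 2 := by
      rw [mul_comm, sum_mul]
      exact sum_le_sum fun i hi => by
        rw [← mul_sum]
        exact mul_le_mul_of_nonneg_left (h2 i hi) (sq_nonneg _)
    have h4 : ∑ i ∈ s, ∑ j ∈ s, ‖c j‖ ^ 2 * w i j = ∑ i ∈ s, ∑ j ∈ s, ‖c i‖ ^ 2 * w i j := by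
      rw [sum_comm]
      simp only [hw]
    calc _ ≤ ∑ i ∈ s, ∑ j ∈ s, (‖c i‖ ^ 2 * w i j + ‖c j‖ ^ 2 * w i j) / 2 := by
          refine norm_sum_le_of_le _ fun i hi => norm_sum_le_of_le _ fun j hj => ?_
          rw [norm_mul, norm_mul, Complex.norm_conj]
          have := h1 i hi j hj
          have h5 := (norm_nonneg _).trans this
          calc _ ≤ ‖c i‖ * ‖c j‖ * w i j := by gcongr
            _ ≤ _ := by nlinarith [mul_nonneg (sq_nonneg (‖c i‖ - ‖c j‖)) h5]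
      _ ≤ _ := by
          simp only [← sum_div, sum_add_distrib, h4]
          linarith
  have i1 : IntervalIntegrable (fun θ : ℝ => θ⁻¹) MeasureTheory.volume a b :=
    intervalIntegral.intervalIntegrable_inv (fun x hx => by
      rw [Set.uIcc_of_le hab] at hx
      exact (ha.trans_le hx.1).ne') continuousOn_id
  have i2 : IntervalIntegrable (fun θ : ℝ => ‖Φ θ‖ ^ 2 * θ) MeasureTheory.volume a b :=
    Continuous.intervalIntegrable (by fun_prop) _ _
  have e4 : ∑ j ∈ s, ‖c j‖ ^ 2 ≤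
      ∫ θ in a..b, ((2 * R)⁻¹ * (‖Φ θ‖ ^ 2 * θ) + R * G ^ 2 / 2 * θ⁻¹) := by
    refine (Complex.re_le_norm ((∑ j ∈ s, ‖c j‖ ^ 2 : ℝ) : ℂ)).trans ?_
    rw [← e1]
    refine (intervalIntegral.norm_integral_le_integral_norm hab).trans
      (intervalIntegral.integral_mono_on hab (Continuous.intervalIntegrable (by fun_prop) _ _)
        ((i2.const_mul _).add (i1.const_mul _)) fun θ hθ => ?_)
    have t0 := ha.trans_le hθ.1
    have h3 : (2 * R)⁻¹ * (‖Φ θ‖ ^ 2 * θ) + R * G ^ 2 / 2 * θ⁻¹ - ‖Φ θ‖ * G =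
        (‖Φ θ‖ * θ - R * G) ^ 2 / (2 * R * θ) := by
      field_simp
      ring
    have h4 : 0 ≤ (‖Φ θ‖ * θ - R * G) ^ 2 / (2 * R * θ) := by positivity
    have h5 := mul_le_mul_of_nonneg_left (hG θ hθ.1 hθ.2) (norm_nonneg (Φ θ))
    rw [norm_mul]
    linarith
  rw [intervalIntegral.integral_add (i2.const_mul _) (i1.const_mul _),
    intervalIntegral.integral_const_mul, intervalIntegral.integral_const_mul,
    integral_inv_of_pos ha (ha.trans_le hab)] at e4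
  have e5 := mul_le_mul_of_nonneg_left e3 (show 0 ≤ (2 * R)⁻¹ by positivity)
  rw [show ∀ S : ℝ, (2 * R)⁻¹ * (R * S) = S / 2 from fun S => by field_simp] at e5
  subst hc
  linarith

theorem bes_gram {z : ℂ} (hz : 0 ≤ z.re) {a b : ℝ} (ha : 0 < a) (hab : a ≤ b) :
    ‖∫ θ in a..b, Complex.exp (-(π * θ ^ 2 * z)) * θ‖ ≤ b ^ 2 ∧
      (z ≠ 0 → ‖∫ θ in a..b, Complex.exp (-(π * θ ^ 2 * z)) * θ‖ ≤ 1 / (π * ‖z‖)) := by
  have h1 : ∀ θ : ℝ, ‖Complex.exp (-(π * θ ^ 2 * z))‖ ≤ 1 := fun θ => by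
    rw [Complex.norm_exp, Real.exp_le_one_iff, Complex.neg_re, neg_nonpos,
      show (π * θ ^ 2 : ℂ) = (π * θ ^ 2 : ℝ) by push_cast; rfl, Complex.re_ofReal_mul]
    positivity
  refine ⟨(intervalIntegral.norm_integral_le_of_norm_le_const (C := b) fun θ hθ => ?_).trans ?_,
    fun z0 => ?_⟩
  · rw [Set.uIoc_of_le hab] at hθ
    rw [norm_mul, Complex.norm_real, Real.norm_of_nonneg (by linarith [hθ.1])]
    exact (mul_le_of_le_one_left (by linarith [hθ.1]) (h1 θ)).trans hθ.2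
  · rw [abs_of_nonneg (by linarith)]
    nlinarith
  · have p0 : (π : ℂ) ≠ 0 := by exact_mod_cast Real.pi_ne_zero
    rw [intervalIntegral.integral_eq_sub_of_hasDerivAt
      (f := fun θ : ℝ => Complex.exp (-(π * θ ^ 2 * z)) / (-(2 * π * z))) (fun θ _ => ?_)
      (Continuous.intervalIntegrable (by fun_prop) _ _)]
    · rw [← sub_div, norm_div, norm_neg, norm_mul, norm_mul, Complex.norm_real,
        Real.norm_of_nonneg Real.pi_pos.le, Complex.norm_two, mul_assoc 2, ← div_div]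
      gcongr
      linarith [norm_sub_le (Complex.exp (-(π * b ^ 2 * z))) (Complex.exp (-(π * a ^ 2 * z))),
        h1 a, h1 b]
    · have := (((((hasDerivAt_id (θ : ℂ)).pow 2).const_mul (π : ℂ)).mul_const z).neg.cexp.div_const
        (-(2 * π * z))).comp_ofReal
      refine this.congr_deriv ?_
      simp only [Pi.neg_apply, Pi.pow_apply, id]
      field_simp
      ring

theorem bes_row {J : ℕ} {i : ℤ} (hi : i ∈ Icc (-(J : ℤ)) J) :
    ∑ j ∈ Icc (-(J : ℤ)) J, 1 / |(i : ℝ) - j| ≤ 2 * (1 + Real.log (2 * J : ℕ)) := by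
  have key : ∀ t ⊆ Icc (-(J : ℤ)) J, Set.InjOn (fun j : ℤ => (i - j).natAbs) t →
      ∑ j ∈ t, 1 / |(i : ℝ) - j| ≤ 1 + Real.log (2 * J : ℕ) := fun t ht hinj => by
    have e : ∑ j ∈ t, 1 / |(i : ℝ) - j| =
        ∑ m ∈ t.image fun j : ℤ => (i - j).natAbs, 1 / (m : ℝ) := by
      rw [sum_image hinj]
      simp [Nat.cast_natAbs]
    rw [e, ← sum_filter_ne_zero]
    refine le_trans (sum_le_sum_of_subset_of_nonneg (fun m hm => ?_) fun _ _ _ => by positivity)
      (Pool.Agent.P.MP_e86632_nt.sum_inv_le _)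
    obtain ⟨hm, h0⟩ := mem_filter.1 hm
    obtain ⟨j, hj, rfl⟩ := mem_image.1 hm
    have := mem_Icc.1 (ht hj)
    have := mem_Icc.1 hi
    exact mem_Ioc.2 ⟨Nat.pos_of_ne_zero fun e => h0 (by simp [e]), by omega⟩
  rw [← sum_filter_add_sum_filter_not _ (i < ·), two_mul]
  refine add_le_add (key _ (filter_subset _ _) fun x hx y hy e => ?_)
    (key _ (filter_subset _ _) fun x hx y hy e => ?_) <;>
  · have := (mem_filter.1 hx).2
    have := (mem_filter.1 hy).2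
    simp only at e
    omega

theorem t_BES : S_BES := by
  refine ⟨12, by norm_num, fun ε a b G J g e0 e2 ha hab hJ hg hG => ?_⟩
  have J1 : (1 : ℝ) ≤ J := by exact_mod_cast hJ
  have l0 := Real.log_nonneg J1
  have b0 := ha.trans_le hab
  refine bes_abs _ (chp ε) (fun i j => (if i = j then b ^ 2 else 0) + 3 * J ^ 2 * (1 / |(i : ℝ) - j|))
    g ha hab (by positivity) (fun j => by unfold chp; fun_prop) hg hG
    (fun i j => by simp only [eq_comm, abs_sub_comm]) (fun i hi j hj => ?_) fun i hi => ?_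
  · have n1 : ∀ y : ℝ, (ε + y * Complex.I : ℂ) ≠ 0 := fun y h =>
      e0.ne' (by simpa using congrArg Complex.re h)
    have n2 : ∀ y : ℝ, 0 ≤ (ε + y * Complex.I : ℂ)⁻¹.re := fun y => by
      rw [Complex.inv_re]
      exact div_nonneg (by simpa using e0.le) (Complex.normSq_nonneg _)
    have n3 : ∀ y : ℝ, |y| ≤ J → ‖(ε + y * Complex.I : ℂ)‖ ≤ 3 * J := fun y hy => by
      refine (norm_add_le _ _).trans ?_
      rw [norm_mul, Complex.norm_I, Complex.norm_real, Complex.norm_real, Real.norm_of_nonneg e0.le,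
        Real.norm_eq_abs]
      linarith
    have m1 : |(i : ℝ)| ≤ J := by exact_mod_cast abs_le.2 (mem_Icc.1 hi)
    have m2 : |-(j : ℝ)| ≤ J := by rw [abs_neg]; exact_mod_cast abs_le.2 (mem_Icc.1 hj)
    obtain ⟨z, hz⟩ : ∃ z : ℂ, z = (ε + (i : ℝ) * Complex.I)⁻¹ + (ε + (-j : ℝ) * Complex.I)⁻¹ :=
      ⟨_, rfl⟩
    obtain ⟨g1, g2⟩ := bes_gram (z := z) (hz ▸ add_nonneg (n2 _) (n2 _)) ha hab
    have e : ∀ θ : ℝ, chp ε i θ * conj (chp ε j θ) = Complex.exp (-(π * θ ^ 2 * z)) := fun θ => by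
      rw [chp, chp, ← Complex.exp_conj, ← Complex.exp_add, hz]
      congr 1
      simp [div_eq_mul_inv]
      ring
    simp only [e]
    split_ifs with h
    · exact g1.trans (le_add_of_nonneg_right (by positivity))
    · have d0 : 0 < |(i : ℝ) - j| := abs_pos.2 (sub_ne_zero.2 (by exact_mod_cast h))
      have h1 : |(i : ℝ) - j| ≤ ‖z‖ * (3 * J * (3 * J)) := by
        calc |(i : ℝ) - j| = |(z * ((ε + (i : ℝ) * Complex.I) * (ε + (-j : ℝ) * Complex.I))).im| := by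
              rw [hz, add_mul, inv_mul_cancel_left₀ (n1 _), mul_comm (ε + _ : ℂ),
                inv_mul_cancel_left₀ (n1 _)]
              simp [sub_eq_neg_add]
          _ ≤ _ := (Complex.abs_im_le_norm _).trans (by
              rw [norm_mul, norm_mul]
              gcongr
              exacts [n3 _ m1, n3 _ m2])
      have z0 : 0 < ‖z‖ := by
        by_contra h2
        rw [le_antisymm (not_lt.1 h2) (norm_nonneg _)] at h1
        linarith
      refine (g2 (norm_pos_iff.1 z0)).trans ?_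
      rw [zero_add, mul_one_div, div_le_div_iff₀ (by positivity) d0]
      nlinarith [Real.pi_gt_three, mul_pos z0 (show 0 < (J : ℝ) ^ 2 by positivity)]
  · rw [sum_add_distrib, sum_ite_eq, if_pos hi, ← mul_sum]
    have h1 := mul_le_mul_of_nonneg_left (bes_row hi) (show 0 ≤ 3 * (J : ℝ) ^ 2 by positivity)
    rw [Nat.cast_mul, Real.log_mul (by norm_num) (by linarith), Nat.cast_ofNat] at h1
    have h2 : Real.log 2 ≤ 1 := by linarith [Real.log_two_lt_d9]
    nlinarith [sq_nonneg b, sq_nonneg (J : ℝ), mul_nonneg (sq_nonneg (J : ℝ)) l0,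
      mul_nonneg (sq_nonneg (J : ℝ)) (sub_nonneg.2 h2)]

end Pool.Agent.P.MP_8be758_nt.Av2
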