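import Pool.Agent.P.MP_8be758_nt.Av2.Basic

/-! The step `S_BOX3`. -/

namespace Pool.Agent.P.MP_8be758_nt.Av2

open Finset Real Filter Topology
open Pool.Agent.P.MP_e86632_nt (ee)
open Pool.Agent.P.MP_8be758_nt.Avg

theorem box3_tauJ (z x y : ℝ) (a : ℕ) :
    0 ≤ tauJ z x y a ∧ tauJ z x y a ≤ (a.divisors.card : ℝ) := by
  unfold tauJ
  split_ifs
  · exact ⟨Nat.cast_nonneg _, by exact_mod_cast card_filter_le _ _⟩
  · exact ⟨le_rfl, Nat.cast_nonneg _⟩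

theorem box3_tauR (z : ℝ) (U1 U2 V1 V2 a : ℕ) :
    0 ≤ tauR z U1 U2 V1 V2 a ∧ tauR z U1 U2 V1 V2 a ≤ (a.divisors.card : ℝ) := by
  unfold tauR tauG
  split_ifs
  · simp only [mul_one, sum_const, nsmul_eq_mul]
    refine ⟨Nat.cast_nonneg _, ?_⟩
    have h : a.divisorsAntidiagonal.card = a.divisors.card := by
      rw [← Nat.map_div_right_divisors, card_map]
    rw [← h]
    exact_mod_cast card_filter_le _ _
  · exact ⟨le_rfl, Nat.cast_nonneg _⟩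

theorem box3_self (z x : ℝ) (a : ℕ) : tauJ z x x a = 0 := by
  unfold tauJ
  split_ifs
  · rw [filter_false_of_mem fun u _ h => absurd h.2 (not_le.2 h.1)]
    simp
  · rfl

theorem box3_arith {CU CE K N σ s t B e1 L η Z P T : ℝ} (hCU : 0 < CU) (hK : 0 ≤ K)
    (hN : 0 < N) (hσ : 0 ≤ σ) (hB : 0 < B) (he : 0 < e1) (hL : 0 < L)
    (ht0 : 0 ≤ t) (hs : s ≤ 2 * B * σ) (ht : t ≤ CE * (N ^ 2 / B) / (e1 * L) ^ 2)
    (h1 : 2 * CU * CE / e1 ^ 2 ≤ η * L) (h2 : Z * P * L ^ 4 ≤ N)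
    (hT : T ≤ CU * (K / N) * s * t + Z * (K * P)) :
    T ≤ (η * σ + 1 / L ^ 3) * K * N / L := by
  have a1 : CU * (K / N) * s * t ≤
      CU * (K / N) * (2 * B * σ) * (CE * (N ^ 2 / B) / (e1 * L) ^ 2) := by
    have b1 : CU * (K / N) * s * t ≤ CU * (K / N) * (2 * B * σ) * t := by gcongr
    refine b1.trans ?_
    gcongr
  have a2 : CU * (K / N) * (2 * B * σ) * (CE * (N ^ 2 / B) / (e1 * L) ^ 2) =
      (2 * CU * CE / e1 ^ 2) * (σ * K * N / L ^ 2) := by field_simp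
  have a3 : (2 * CU * CE / e1 ^ 2) * (σ * K * N / L ^ 2) ≤ (η * L) * (σ * K * N / L ^ 2) := by
    gcongr
  have a4 : Z * (K * P) = (Z * P * L ^ 4) * (K / L ^ 4) := by field_simp
  have a5 : (Z * P * L ^ 4) * (K / L ^ 4) ≤ N * (K / L ^ 4) := by gcongr
  have a6 : (η * σ + 1 / L ^ 3) * K * N / L =
      (η * L) * (σ * K * N / L ^ 2) + N * (K / L ^ 4) := by field_simp
  linarith

theorem box3_lam {N B : ℝ} {A1 U1 U2 V1 V2 : ℕ} (hN : 1 ≤ N) (hB : 0 < B)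
    (h1 : 24 / 25 * N ^ 2 ≤ A1 * B) (hU : N ^ (1 / 5 : ℝ) ≤ U1) (hV : N ^ (1 / 5 : ℝ) ≤ V1)
    (hU2 : (U2 : ℝ) ≤ U1 * N ^ (1 / 20 : ℝ)) (h : lamB N B U1 U2 V1 V2 ≠ 1) :
    loB N B U1 V2 * lamB N B U1 U2 V1 V2 * N ^ (1 / 10 : ℝ) ≤ A1 ∧
      lamB N B U1 U2 V1 V2 ≤ N ^ (1 / 20 : ℝ) := by
  have hN0 : 0 < N := by linarith
  have p5 : 0 < N ^ (1 / 5 : ℝ) := Real.rpow_pos_of_pos hN0 _
  have hU0 : (0 : ℝ) < U1 := p5.trans_le hU
  have hV0 : (0 : ℝ) < V1 := p5.trans_le hV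
  have l1 : (U1 : ℝ) ≤ loB N B U1 V2 := le_max_left _ _
  have l0 : 0 < loB N B U1 V2 := hU0.trans_le l1
  have e : lamB N B U1 U2 V1 V2 = min (U2 : ℝ) (24 / 25 * N ^ 2 / (B * V1)) / loB N B U1 V2 := by
    rcases max_choice 1 (min (U2 : ℝ) (24 / 25 * N ^ 2 / (B * V1)) / loB N B U1 V2) with h2 | h2
    · exact absurd h2 h
    · exact h2
  rw [e]
  constructor
  · rw [mul_div_cancel₀ _ l0.ne']
    have a1 : N ^ (1 / 10 : ℝ) ≤ V1 :=
      (Real.rpow_le_rpow_of_exponent_le hN (by norm_num)).trans hV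
    calc _ ≤ 24 / 25 * N ^ 2 / (B * V1) * V1 := by
          gcongr
          exact min_le_right _ _
      _ = 24 / 25 * N ^ 2 / B := by field_simp
      _ ≤ _ := by rwa [div_le_iff₀ hB]
  · rw [div_le_iff₀ l0]
    have p : 0 < N ^ (1 / 20 : ℝ) := Real.rpow_pos_of_pos hN0 _
    calc _ ≤ (U2 : ℝ) := min_le_left _ _
      _ ≤ U1 * N ^ (1 / 20 : ℝ) := hU2
      _ ≤ loB N B U1 V2 * N ^ (1 / 20 : ℝ) := by gcongr
      _ = _ := mul_comm _ _

theorem t_BOX3 (hSW2 : S_SW2) (hEDG : S_EDG) (hUPW : S_UPW) : S_BOX3 := by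
  intro j ε hε
  obtain ⟨e0, he0, hS⟩ := hSW2 j (ε / 2) (by positivity)
  obtain ⟨CE, hCE, hE⟩ := hEDG
  obtain ⟨CU, hCU, hP⟩ := hUPW
  refine ⟨min e0 (1 / 30), by positivity, fun e1 he1 he2 W hW => ?_⟩
  filter_upwards [hS e1 he1 (he2.trans (min_le_left _ _)) W hW,
    hE e1 he1 (he2.trans (min_le_right _ _)), hP W hW, ev_zs_tau 2,
    ev_log (2 * CU * CE / e1 ^ 2 / (ε / 2 * e1 ^ j)), ev_log 2,
    ev_pow 1 4 (show (1 / 10000 + 49 / 50 : ℝ) < 1 by norm_num),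
    bx_ev2 (25 / 24) (show (3 / 10 + 4 / 5 : ℝ) < 2 by norm_num),
    ev_const (6 / 5) (show (0 : ℝ) < 13 / 20 by norm_num),
    eventually_ge_atTop 1] with N k1 k2 k3 k4 k5 k6 k7 k8 k9 hN
  intro K A1 A2 U1 U2 V1 V2 B S β hT h1 h2 hU hV hV2 hU2
  have hN0 : 0 < N := by linarith
  have hB1 : 6 / 5 ≤ B := k9.trans hT.b1
  have hB : 0 < B := by linarith
  have hL : 0 < Real.log N := by linarith
  have hK : (0 : ℝ) ≤ K := Nat.cast_nonneg _
  set σ := ∑ b ∈ S, |β b| / b with hσ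
  have hσ0 : 0 ≤ σ := sum_nonneg fun _ _ => by positivity
  set lo := loB N B U1 V2 with hlo
  set lam := lamB N B U1 U2 V1 V2 with hlam
  have hη : 0 < ε / 2 * e1 ^ j := by positivity
  have q1 : tb K W S β (Ioc A1 A2)
      (fun a => tauR (N ^ e1) U1 U2 V1 V2 a - tauJ (N ^ e1) lo (lo * lam) a) ≤
      (ε / 2 * e1 ^ j * σ + 1 / Real.log N ^ 3) * K * N / Real.log N := by
    have hs : ∑ b ∈ S, |β b| ≤ 2 * B * σ := by
      rw [hσ, mul_sum]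
      refine sum_le_sum fun b hb => ?_
      obtain ⟨b1, b2, -⟩ := hT.s b hb
      have b0 : (0 : ℝ) < b := hB.trans_le b1
      rw [← mul_div_assoc, le_div_iff₀ b0, mul_comm]
      gcongr
    refine box3_arith hCU hK hN0 hσ0 hB he1 hL (sum_nonneg fun _ _ => abs_nonneg _) hs
      (k2 B A1 A2 U1 U2 V1 V2 (by linarith) h1 h2 hU hV hV2) ?_ (Z := Zs N)
      (P := N ^ (49 / 50 : ℝ)) ?_
      (k3 K B (Zs N) S (Ioc A1 A2) β _ hT.lo hT.b1
        (hT.b2.trans (Real.rpow_le_rpow_of_exponent_le hN (by norm_num)))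
        (fun b hb => ⟨(hT.s b hb).1, (hT.s b hb).2.1⟩) (ioc_sub_AR hB h1 h2) hT.c
        (zs_pos hN0).le fun a ha => ?_)
    · rwa [div_le_iff₀' hη] at k5
    · rwa [one_mul, Real.rpow_add hN0, Real.rpow_one] at k7
    · have a2 : (a : ℝ) ≤ A2 := by exact_mod_cast (mem_Ioc.1 ha).2
      have a0 : (0 : ℝ) ≤ A2 := Nat.cast_nonneg _
      have a3 : (a : ℝ) ≤ N ^ 2 := by nlinarith
      have a4 := k4 a a3
      have a5 := box3_tauR (N ^ e1) U1 U2 V1 V2 a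
      have a6 := box3_tauJ (N ^ e1) lo (lo * lam) a
      rw [abs_le]
      constructor <;> linarith [a5.1, a5.2, a6.1, a6.2]
  have q2 : tb K W S β (Ioc A1 A2) (fun a => tauJ (N ^ e1) lo (lo * lam) a -
      tauJ (N ^ e1) (N ^ (3 / 20 : ℝ)) (N ^ (3 / 20 : ℝ) * lam) a) ≤
      (ε / 2 * e1 ^ j * σ + 1 / Real.log N ^ 3) * K * N / Real.log N := by
    by_cases hl : lam = 1
    · rw [hl]
      simp only [mul_one, box3_self, sub_zero]
      refine le_trans (le_of_eq ?_) (by positivity)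
      simp [tb]
    · obtain ⟨c1, c2⟩ := box3_lam (V2 := V2) hN hB h1 hU hV hU2 hl
      refine k1 K A1 A2 B lo _ lam S β hT h1 h2 (le_max_left _ _) ?_
        (Real.rpow_le_rpow_of_exponent_le hN (by norm_num)) c1 ?_
      · exact ((Real.rpow_le_rpow_of_exponent_le hN (by norm_num)).trans hU).trans
          (le_max_left _ _)
      · have p1 : 0 < N ^ (3 / 20 : ℝ) := Real.rpow_pos_of_pos hN0 _
        have p2 : 0 < N ^ (1 / 10 : ℝ) := Real.rpow_pos_of_pos hN0 _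
        have p3 : 0 < N ^ (3 / 10 : ℝ) := Real.rpow_pos_of_pos hN0 _
        have d1 : N ^ (3 / 20 : ℝ) * lam * N ^ (1 / 10 : ℝ) ≤ N ^ (3 / 10 : ℝ) := by
          calc _ ≤ N ^ (3 / 20 : ℝ) * N ^ (1 / 20 : ℝ) * N ^ (1 / 10 : ℝ) := by gcongr
            _ = _ := by rw [← Real.rpow_add hN0, ← Real.rpow_add hN0]; norm_num
        refine d1.trans (le_of_mul_le_mul_right ?_ hB)
        rw [Real.rpow_add hN0, Real.rpow_two] at k8
        have d2 : N ^ (3 / 10 : ℝ) * B ≤ N ^ (3 / 10 : ℝ) * N ^ (4 / 5 : ℝ) := by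
          gcongr
          exact hT.b2
        linarith
  have q3 := tb_add_le K W S β (Ioc A1 A2)
    (fun a => tauR (N ^ e1) U1 U2 V1 V2 a - tauJ (N ^ e1) lo (lo * lam) a)
    (fun a => tauJ (N ^ e1) lo (lo * lam) a -
      tauJ (N ^ e1) (N ^ (3 / 20 : ℝ)) (N ^ (3 / 20 : ℝ) * lam) a)
  simp only [sub_add_sub_cancel] at q3
  refine (q3.trans (add_le_add q1 q2)).trans ?_
  have r1 : 2 * (1 / Real.log N ^ 3) ≤ 1 / Real.log N ^ 2 := by
    rw [mul_one_div, div_le_div_iff₀ (by positivity) (by positivity)]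
    nlinarith [sq_nonneg (Real.log N)]
  calc _ = (ε * e1 ^ j * σ + 2 * (1 / Real.log N ^ 3)) * K * N / Real.log N := by ring
    _ ≤ _ := by gcongr

end Pool.Agent.P.MP_8be758_nt.Av2
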