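import Pool.Agent.P.MP_8be758_nt.Av2.Basic

/-! The step `S_CELL`. -/

namespace Pool.Agent.P.MP_8be758_nt.Av2

open Finset Real Filter Topology
open Pool.Agent.P.MP_e86632_nt (ee)
open Pool.Agent.P.MP_8be758_nt.Avg

theorem cell_dd (W k m : ℕ) : |dd W k m| ≤ 1 + W := by
  refine (abs_dd_le W k m).trans (add_le_add (rr_le_one k m) ?_)
  have h : (vr W k m : ℝ) ≤ W := by exact_mod_cast vr_le W k m
  rcases Nat.eq_zero_or_pos m with rfl | h0
  · simp [md]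
  · have h1 : 1 ≤ √(m : ℝ) := Real.one_le_sqrt.2 (by exact_mod_cast h0)
    exact (div_le_self (Nat.cast_nonneg _) (by linarith)).trans h

theorem cell_triv (K W : ℕ) {S J : Finset ℕ} {β α : ℕ → ℝ} {Ω : ℝ} (hβ : ∀ b, |β b| ≤ 1)
    (hα : ∀ a ∈ J, |α a| ≤ Ω) : tb K W S β J α ≤ K * (S.card * (J.card * (Ω * (1 + W)))) := by
  refine (tb_le_abs K W S β J α).trans ?_
  calc _ ≤ ∑ _k ∈ Icc 1 K, ∑ _b ∈ S, ∑ _a ∈ J, Ω * (1 + W) :=
        sum_le_sum fun k _ => sum_le_sum fun b _ => sum_le_sum fun a ha =>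
          mul_le_mul ((mul_le_of_le_one_left (abs_nonneg _) (hβ b)).trans (hα a ha))
            (cell_dd W k _) (abs_nonneg _) ((abs_nonneg _).trans (hα a ha))
    _ = _ := by simp

theorem cell_shp {A s M ν θ : ℝ} (hA : 0 < √A) (h1 : √A ≤ s) (h2 : s ≤ 2 * √A) (hM : 0 ≤ M)
    (hν0 : 0 ≤ ν) (hν : ν ≤ 4 * M) : shp s ν θ ≤ 8 * shp (√A) M θ := by
  have a1 : |θ| / s ≤ |θ| / √A := by gcongr
  have a0 : 0 ≤ |θ| / √A := by positivity
  have b0 : 0 ≤ min 1 (M / |θ|) := le_min zero_le_one (by positivity)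
  have a2 : min 1 (ν / |θ|) ≤ 4 * min 1 (M / |θ|) := by
    rw [mul_min_of_nonneg _ _ (by norm_num : (0 : ℝ) ≤ 4)]
    refine min_le_min (by norm_num) ?_
    rw [← mul_div_assoc]
    gcongr
  have a3 : s * min 1 (ν / |θ|) ≤ 2 * √A * (4 * min 1 (M / |θ|)) :=
    mul_le_mul h2 a2 (le_min zero_le_one (by positivity)) (by positivity)
  unfold shp
  nlinarith

theorem cell_len {Y n1 E1 E2 : ℕ} {ρ T j1 j2 τ1 τ2 : ℝ} (h : Par Y n1 ρ T j1 j2 τ1 τ2 E1 E2) :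
    j2 - j1 ≤ Y := by
  have h1 : (1 : ℝ) ≤ E1 := by exact_mod_cast h.e1
  have h2 := Real.one_le_exp_iff.1 (h1.trans h.u1)
  have h3 := Real.add_one_le_exp (2 * j2)
  have h4 : (n1 : ℝ) ≤ Y := by exact_mod_cast h.n
  linarith [h.u2, h.j12]

theorem cell_al (hWW : S_WW) {Y n1 E1 E2 a : ℕ} {ρ T τ j1 j2 τ1 τ2 : ℝ}
    (h : Par Y n1 ρ T j1 j2 τ1 τ2 E1 E2) (hτ : (a.divisors.card : ℝ) ≤ τ) :
    (Y * gs T ≤ ρ ^ 3 → al ρ j1 j2 τ1 τ2 E1 E2 a ≤ τ * (9 * ρ ^ 2)) ∧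
    ((a : ℝ) ≤ Real.exp (2 * τ1 - 8 * (ρ * T)) ∨ Real.exp (2 * τ2 + 8 * (ρ * T)) ≤ a →
      al ρ j1 j2 τ1 τ2 E1 E2 a ≤ τ * (Y * gs T)) := by
  obtain ⟨C, -, hW⟩ := hWW
  have hY : (1 : ℝ) ≤ Y := by exact_mod_cast one_le_two.trans h.y2
  have key : ∀ M : ℝ, 0 ≤ M → (∀ u v : ℕ, 1 ≤ u → 1 ≤ v → u * v = a → WW ρ j1 j2 τ1 τ2 u v ≤ M) →
      al ρ j1 j2 τ1 τ2 E1 E2 a ≤ τ * M := fun M hM hb => by
    refine (sum_le_card_nsmul _ _ M fun p hp => ?_).trans ?_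
    · obtain ⟨e, h0⟩ := Nat.mem_divisorsAntidiagonal.1 (mem_filter.1 hp).1
      rw [← e] at h0
      exact hb _ _ (Nat.pos_of_ne_zero (left_ne_zero_of_mul h0))
        (Nat.pos_of_ne_zero (right_ne_zero_of_mul h0)) e
    · rw [nsmul_eq_mul]
      refine mul_le_mul_of_nonneg_right (le_trans ?_ hτ) hM
      rw [← Nat.map_div_right_divisors, Nat.cast_le]
      exact (card_filter_le _ _).trans (card_map _).le
  have H := fun u v hu hv => hW ρ T Y j1 j2 τ1 τ2 u v h.r0 h.t1 h.t2 hu hv h.j12 h.s12 hY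
    (cell_len h) (by linarith [h.s21])
  have := gs_pos T
  refine ⟨fun h1 => key _ (by positivity) fun u v hu hv _ => ((H u v hu hv).2 h1).1,
    fun h1 => key _ (by positivity) fun u v hu hv e => (H u v hu hv).1 ?_⟩
  have h0 : (0 : ℝ) < u * v := by positivity
  rw [← e, Nat.cast_mul] at h1
  rcases h1 with h1 | h1
  · have := (Real.log_le_iff_le_exp h0).2 h1
    exact Or.inr (Or.inr (Or.inl (by linarith)))
  · have := (Real.le_log_iff_exp_le h0).2 h1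
    exact Or.inr (Or.inr (Or.inr (by linarith)))

/-- the numerical facts -/
structure cell_H (C N Z K B x : ℝ) (Y : ℕ) : Prop where
  z : 16 ≤ Z
  c : C ≤ Z
  n : Z ^ 100 ≤ N
  b1 : Z ^ 300 ≤ B
  b2 : B ≤ K
  b3 : 2 * Z ^ 600 * B ^ 2 ≤ N ^ 2
  k1 : 2 * Z ^ 30 * (K * B) ≤ N ^ 2
  k2 : 2 * Z ^ 800 * N ^ 2 ≤ K ^ 2 * B
  k3 : 2 * Z ^ 400 * N ^ 2 ≤ K * B ^ 2
  l : 5 * Real.log N ≤ Z
  l1 : 1 ≤ Real.log N
  g1 : N ^ 10 * gs (Z / 2) ≤ 1
  g2 : N ^ 210 * gs Z ≤ 1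
  t : TauB (N ^ 8) Z
  x : 2 * Z ^ 85 ≤ x
  y1 : N ^ 3 ≤ Y
  y2 : (Y : ℝ) ≤ N ^ 4

theorem cell_ev (C : ℝ) : ∀ᶠ N : ℝ in atTop, ∀ (K : ℕ) (B : ℝ) (S : Finset ℕ) (β : ℕ → ℝ),
    T3 N K B S β → cell_H C N (Zs N) K B (N ^ (1 / 10 : ℝ)) ⌈N ^ 3⌉₊ := by
  filter_upwards [ev_zs0 16, ev_zs0 C, ev_zs_pow 1 100 (a := 0) (b := 1) (by norm_num),
    ev_zs_pow 1 300 (a := 0) (b := 13 / 20) (by norm_num),
    ev_zs_pow 2 600 (a := 4 / 5 + 4 / 5) (b := 2) (by norm_num),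
    ev_zs_pow 2 30 (a := 91 / 100 + 4 / 5) (b := 2) (by norm_num),
    ev_zs_pow 2 800 (a := 2) (b := 4 / 5 + 4 / 5 + 13 / 20) (by norm_num),
    ev_zs_pow 2 400 (a := 2) (b := 4 / 5 + (13 / 20 + 13 / 20)) (by norm_num),
    ev_zs 5 1, ev_log 1, ev_zs_gs 10 (c := 1 / 2) (by norm_num), ev_zs_gs 210 one_pos,
    ev_zs_tau 8, ev_zs_pow 2 85 (a := 0) (b := 1 / 10) (by norm_num), eventually_ge_atTop 2]
    with N a1 a2 a3 a4 a5 a6 a7 a8 a9 a10 a11 a12 a13 a14 hN K B S β h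
  have hN0 : 0 < N := by linarith
  have pos : ∀ x : ℝ, 0 < N ^ x := fun x => Real.rpow_pos_of_pos hN0 x
  have hB : 0 < B := (pos _).trans_le h.b1
  have hK : (0 : ℝ) < K := (pos _).trans_le h.lo
  have hZ := zs_pos hN0
  simp only [Real.rpow_zero, Real.rpow_one, Real.rpow_two, mul_one, one_mul, pow_one,
    Real.rpow_add hN0, one_div_mul_eq_div] at a3 a4 a5 a6 a7 a8 a9 a11 a12 a14
  refine ⟨a1, a2, a3, a4.trans h.b1, h.b2.trans h.lo, le_trans ?_ a5, le_trans ?_ a6,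
    a7.trans ?_, a8.trans ?_, a9, a10, a11, a12, a13, a14, Nat.le_ceil _, ?_⟩
  · rw [sq B]; gcongr <;> exact h.b2
  · gcongr
    exacts [h.hi, h.b2]
  · rw [sq]; gcongr
    exacts [h.lo, h.lo, h.b1]
  · rw [sq]; gcongr
    exacts [h.lo, h.b1, h.b1]
  · have := (Nat.ceil_lt_add_one (show 0 ≤ N ^ 3 by positivity)).le
    have h3 : 1 ≤ N ^ 3 := one_le_pow₀ (by linarith)
    nlinarith

namespace cell_H

variable {C N Z K B x : ℝ} {Y : ℕ} (h : cell_H C N Z K B x Y)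
include h

theorem z0 : 0 < Z := by linarith [h.z]

theorem z1 : 1 ≤ Z := by linarith [h.z]

theorem pw {m n : ℕ} (hmn : m ≤ n) : Z ^ m ≤ Z ^ n := pow_le_pow_right₀ h.z1 hmn

theorem zp {n : ℕ} (hn : 1 ≤ n) : 16 ≤ Z ^ n := h.z.trans (by simpa using h.pw hn)

theorem zn {m : ℕ} (hm : m ≤ 100) : Z ^ m ≤ N := (h.pw hm).trans h.n

theorem n1 : 16 ≤ N := (h.zp (by norm_num)).trans h.n

theorem np {m n : ℕ} (hmn : m ≤ n) : N ^ m ≤ N ^ n := pow_le_pow_right₀ (by linarith [h.n1]) hmn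

theorem bb : 16 ≤ B := (h.zp (by norm_num)).trans h.b1

theorem ny : N ≤ Y := le_trans (by simpa using h.np (m := 1) (n := 3) (by norm_num)) h.y1

theorem kap : 1 / Z ^ 22 * Z = 1 / Z ^ 21 := by have := h.z0; field_simp

theorem kap1 : 1 / Z ^ 22 * Z ≤ 1 / 24 := by
  rw [h.kap]
  refine one_div_le_one_div_of_le (by norm_num) (le_trans ?_ (h.pw (m := 2) (by norm_num)))
  nlinarith [h.z]

theorem par {j j' l τ1 τ2 : ℝ} {E1 E2 : ℕ} (l0 : 0 ≤ l) (s12 : τ1 ≤ τ2)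
    (s21 : τ2 ≤ τ1 + 1 / Z ^ 20) (a2 : Real.exp (2 * τ2) * B ≤ 13 / 10 * N ^ 2)
    (u : x ≤ Real.exp (2 * j)) (v : x ≤ Real.exp (2 * (τ1 - j'))) (e : j' = j + l)
    (e1 : 1 ≤ E1) (e2 : 1 ≤ E2) (f1 : (E1 : ℝ) ≤ Z ^ 2) (f2 : (E2 : ℝ) ≤ Z ^ 2) :
    Par Y Y (1 / Z ^ 22) Z j j' τ1 τ2 E1 E2 := by
  have hz := h.z0
  have hx : Z ^ 2 ≤ x := by linarith [h.x, h.pw (m := 2) (n := 85) (by norm_num), pow_pos hz 85]
  have hx1 : 1 ≤ x := by linarith [h.zp (n := 2) (by norm_num)]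
  have p1 := Real.one_le_exp_iff.1 (hx1.trans u)
  have p2 := Real.one_le_exp_iff.1 (hx1.trans v)
  have hN := h.n1
  have q : 4 * Real.exp (2 * τ2) ≤ Y := by
    have := mul_le_mul_of_nonneg_left h.bb (Real.exp_pos (2 * τ2)).le
    have h3 := h.np (m := 2) (n := 3) (by norm_num)
    have h4 := sq_nonneg N
    linarith [h.y1]
  refine ⟨?_, by positivity, ?_, h.z1, h.kap1.trans (by norm_num), by linarith, s12, ?_, e1, e2,
    f1.trans (hx.trans u), f2.trans (hx.trans v), le_trans ?_ q, le_trans ?_ q, le_rfl⟩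
  · exact_mod_cast (show (2 : ℝ) ≤ Y by linarith [h.ny])
  · rw [one_div_one_div]; exact (h.zn (by norm_num)).trans h.ny
  · have : 1 / Z ^ 20 ≤ 1 / 4 :=
      one_div_le_one_div_of_le (by norm_num) (by linarith [h.zp (n := 20) (by norm_num)])
    linarith
  · gcongr; linarith
  · gcongr; linarith

theorem neg1 : Y * Neg Y Z ≤ 2 / N ^ 6 := by
  have hN : 0 < N := by linarith [h.n1]
  have hY : (0 : ℝ) < Y := hN.trans_le h.ny
  have g := gs_pos Z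
  have a1 : (Y : ℝ) * (1 / Y ^ 3) ≤ 1 / N ^ 6 := by
    calc (Y : ℝ) * (1 / Y ^ 3) = 1 / Y ^ 2 := by field_simp
      _ ≤ 1 / (N ^ 3) ^ 2 := by gcongr; exact h.y1
      _ = _ := by rw [← pow_mul]
  have a2 : (Y : ℝ) * (Y ^ 50 * gs Z) ≤ 1 / N ^ 6 := by
    rw [le_div_iff₀ (by positivity)]
    calc (Y : ℝ) * (Y ^ 50 * gs Z) * N ^ 6 ≤ N ^ 4 * ((N ^ 4) ^ 50 * gs Z) * N ^ 6 := by
          gcongr <;> exact h.y2
      _ = N ^ 210 * gs Z := by ring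
      _ ≤ 1 := h.g2
  rw [Neg, mul_add]
  linarith [show 2 / N ^ 6 = 1 / N ^ 6 + 1 / N ^ 6 by ring]

theorem neg2 : Neg Y Z ≤ 1 := by
  have hN := h.n1
  have a1 : Neg Y Z ≤ Y * Neg Y Z :=
    le_mul_of_one_le_left (neg_nonneg' _ _) (by linarith [h.ny])
  refine a1.trans (h.neg1.trans ?_)
  rw [div_le_one (by positivity)]
  linarith [show N ≤ N ^ 6 by simpa using h.np (m := 1) (n := 6) (by norm_num)]

theorem ygs : Y * gs Z ≤ 1 / N ^ 5 := by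
  have hN : 0 < N := by linarith [h.n1]
  have g := gs_pos Z
  rw [le_div_iff₀ (by positivity)]
  calc Y * gs Z * N ^ 5 ≤ N ^ 4 * gs Z * N ^ 5 := by gcongr; exact h.y2
    _ = N ^ 9 * gs Z := by ring
    _ ≤ N ^ 210 * gs Z := by gcongr; exacts [by linarith [h.n1], by norm_num]
    _ ≤ 1 := h.g2

theorem logy : 1 + Real.log Y ≤ Z := by
  have hN : 0 < N := by linarith [h.n1]
  have := Real.log_le_log (hN.trans_le h.ny) h.y2
  rw [Real.log_pow] at this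
  push_cast at this
  linarith [h.l, h.l1]

end cell_H

/-- the energy bound for one of the two functions -/
theorem cell_gg {C C' N Z K B x A τ1 τ2 j1 j2 θ : ℝ} {Y E1 E2 : ℕ} {I : Finset ℕ}
    (h : cell_H C' N Z K B x Y) (_hC : 0 < C) (hC' : C ≤ C')
    (hG : ∀ (Y n1 E1 E2 ν0 : ℕ) (ρ T τ j1 j2 τ1 τ2 θ : ℝ) (I : Finset ℕ),
      Par Y n1 ρ T j1 j2 τ1 τ2 E1 E2 → Cov n1 ρ T τ1 τ2 I → 1 ≤ ν0 → ν0 ≤ Y →
      |θ| * (E1 * E2) ≤ Y → TauB ((Y : ℝ) ^ 2) τ →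
      16 * T / ρ * ν0 * (E1 * E2) ≤ |θ| * Real.exp τ1 →
      GG (SI I (al ρ j1 j2 τ1 τ2 E1 E2)) ν0 θ ≤ C * (1 + Real.log Y) ^ 4 *
        (E1 * E2 * τ ^ 2 * T ^ 2 * shp (Real.exp τ1) ν0 θ + Neg Y T ^ 2))
    (hP : Par Y Y (1 / Z ^ 22) Z j1 j2 τ1 τ2 E1 E2) (hI : Cov Y (1 / Z ^ 22) Z τ1 τ2 I)
    (f1 : (E1 : ℝ) ≤ Z ^ 2) (f2 : (E2 : ℝ) ≤ Z ^ 2) (hBA : B ≤ A) (hA : A ≤ N ^ 2)
    (s1 : √A ≤ Real.exp τ1) (s2 : Real.exp τ1 ≤ 2 * √A) (t1 : Z ^ 120 / √B ≤ |θ|)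
    (t2 : |θ| ≤ A) :
    GG (SI I (al (1 / Z ^ 22) j1 j2 τ1 τ2 E1 E2)) (2 * ⌈√(A / B)⌉₊) θ ≤
      9 * Z ^ 13 * shp (√A) (√(A / B)) θ := by
  have hz := h.z0
  have hB : 0 < B := by linarith [h.bb]
  have hA0 : 0 < A := hB.trans_le hBA
  have hN := h.n1
  have hM : 1 ≤ √(A / B) := Real.one_le_sqrt.2 ((one_le_div hB).2 hBA)
  have hν : ((2 * ⌈√(A / B)⌉₊ : ℕ) : ℝ) ≤ 4 * √(A / B) := by
    have := (Nat.ceil_lt_add_one (Real.sqrt_nonneg (A / B))).le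
    push_cast
    linarith
  have hE : (E1 : ℝ) * E2 ≤ Z ^ 4 := (mul_le_mul f1 f2 (by positivity) (by positivity)).trans_eq
    (by ring)
  have hMN : √(A / B) ≤ N :=
    Real.sqrt_le_iff.2 ⟨by linarith, (div_le_self hA0.le (by linarith [h.bb])).trans hA⟩
  have H := hG Y Y E1 E2 (2 * ⌈√(A / B)⌉₊) _ Z Z j1 j2 τ1 τ2 θ I hP hI
    (by have := Nat.ceil_pos.2 (show 0 < √(A / B) by linarith); omega)
    (by exact_mod_cast hν.trans (by nlinarith [h.y1] : 4 * √(A / B) ≤ (Y : ℝ)))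
    (le_trans (by
      calc |θ| * (E1 * E2) ≤ N ^ 2 * N :=
            mul_le_mul (t2.trans hA) (hE.trans (h.zn (by norm_num))) (by positivity) (by positivity)
        _ = N ^ 3 := by ring) h.y1)
    (h.t.mono ((pow_le_pow_left₀ (by positivity) h.y2 2).trans_eq (by ring)) le_rfl)
    (by
      have hs : 0 < √B := Real.sqrt_pos.2 hB
      calc 16 * Z / (1 / Z ^ 22) * ((2 * ⌈√(A / B)⌉₊ : ℕ) : ℝ) * (E1 * E2)
          ≤ 16 * Z / (1 / Z ^ 22) * (4 * √(A / B)) * Z ^ 4 := by gcongr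
        _ = 64 * Z ^ 27 / √B * √A := by rw [Real.sqrt_div hA0.le]; field_simp; norm_num
        _ ≤ Z ^ 120 / √B * √A := by
          gcongr
          calc 64 * Z ^ 27 ≤ Z ^ 2 * Z ^ 27 := by gcongr; nlinarith [h.z]
            _ = Z ^ 29 := by ring
            _ ≤ _ := h.pw (by norm_num)
        _ ≤ _ := by gcongr)
  have h1 := cell_shp (θ := θ) (Real.sqrt_pos.2 hA0) s1 s2 (by linarith) (Nat.cast_nonneg _) hν
  have h2 : 1 ≤ shp (√A) (√(A / B)) θ := by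
    have : 0 ≤ min 1 (√(A / B) / |θ|) := le_min zero_le_one (by positivity)
    have : 0 ≤ |θ| / √A + √A * min 1 (√(A / B) / |θ|) := by positivity
    unfold shp
    linarith
  have h3 : Neg Y Z ^ 2 ≤ Z ^ 8 * shp (√A) (√(A / B)) θ :=
    (pow_le_one₀ (neg_nonneg' _ _) h.neg2).trans
      (one_le_mul_of_one_le_of_one_le (one_le_pow₀ h.z1) h2)
  have h4 : 0 ≤ 1 + Real.log Y := by linarith [Real.log_natCast_nonneg Y]
  have h5 := shp_nonneg (Real.exp_pos τ1).le (Nat.cast_nonneg (2 * ⌈√(A / B)⌉₊)) θ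
  refine H.trans ?_
  calc _ ≤ Z * Z ^ 4 * (Z ^ 4 * Z ^ 2 * Z ^ 2 * (8 * shp (√A) (√(A / B)) θ) +
        Z ^ 8 * shp (√A) (√(A / B)) θ) := by
        gcongr
        exacts [hC'.trans h.c, h.logy]
    _ = _ := by ring

theorem t_CELL (hCELL0 : S_CELL0) (hGA : S_GA) (hZF : S_ZF) (hWW : S_WW) : S_CELL := by
  intro W hW
  obtain ⟨C0, hC0, H0⟩ := hCELL0
  obtain ⟨C1, hC1, H1⟩ := hGA
  obtain ⟨C2, hC2, H2⟩ := hZF
  filter_upwards [cell_ev (36 * C0 + C1 + C2 + W)] with N hev K E1 E2 B j j' l τ1 τ2 S β hT hS s21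
    e1 e2 f1 f2
  have h := hev K B S β hT
  rw [rh]
  generalize Zs N = Z at *
  generalize ⌈N ^ 3⌉₊ = Y at h
  have hz := h.z0
  have hN := h.n1
  have hN0 : 0 < N := by linarith
  have hB := h.bb
  have hB0 : 0 < B := by linarith
  have hK0 : (0 : ℝ) < K := hB0.trans_le h.b2
  have hW0 : (0 : ℝ) ≤ W := Nat.cast_nonneg W
  have hc := h.c
  have P := h.par hS.l0 hS.s12 s21 hS.a2 hS.u hS.v rfl e1 e2 f1 f2
  have P' := h.par hS.l0 hS.s12 s21 hS.a2 hS.u' hS.v' rfl e1 e2 f1 f2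
  have k1 := h.kap1
  have k0 : 0 < 1 / Z ^ 22 * Z := by positivity
  obtain ⟨A, hA⟩ : ∃ A, A = Real.exp (2 * τ1 - 8 * (1 / Z ^ 22 * Z)) := ⟨_, rfl⟩
  have hA0 : 0 < A := hA ▸ Real.exp_pos _
  have x12 : Real.exp (2 * τ1) ≤ Real.exp (2 * τ2) := by gcongr; exact hS.s12
  have A1 : A ≤ Real.exp (2 * τ1) := by rw [hA]; gcongr; linarith
  have A2 : 2 / 3 * Real.exp (2 * τ1) ≤ A := by
    rw [hA, sub_eq_add_neg, Real.exp_add, mul_comm]
    gcongr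
    linarith [Real.add_one_le_exp (-(8 * (1 / Z ^ 22 * Z)))]
  have AB1 : N ^ 2 / 2 ≤ A * B := by
    nlinarith [mul_le_mul_of_nonneg_right A2 hB0.le, hS.a1, sq_nonneg N]
  have AB2 : A * B ≤ 13 / 10 * N ^ 2 :=
    (mul_le_mul_of_nonneg_right (A1.trans x12) hB0.le).trans hS.a2
  have hN2 : 0 < N ^ 2 := by positivity
  have AN : 2 * A ≤ N ^ 2 := by nlinarith
  have eta1 : 4 / Z ^ 20 ≤ 1 / 4 := by
    rw [div_le_div_iff₀ (by positivity) (by norm_num)]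
    linarith [h.zp (n := 20) (by norm_num)]
  have eta0 : 0 < 4 / Z ^ 20 := by positivity
  obtain ⟨I, hI⟩ : ∃ I, I = Ioc ⌊A⌋₊ ⌊(1 + 4 / Z ^ 20) * A⌋₊ := ⟨_, rfl⟩
  have mI : ∀ a : ℕ, a ∈ I ↔ A < a ∧ (a : ℝ) ≤ (1 + 4 / Z ^ 20) * A := fun a => by
    rw [hI, mem_Ioc, Nat.floor_lt hA0.le, Nat.le_floor_iff (by positivity)]
  have top : Real.exp (2 * τ2 + 8 * (1 / Z ^ 22 * Z)) ≤ (1 + 4 / Z ^ 20) * A := by
    have w1 : 16 * (1 / Z ^ 22 * Z) ≤ 1 / Z ^ 20 := by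
      rw [h.kap, mul_one_div, div_le_div_iff₀ (by positivity) (by positivity), one_mul,
        pow_succ' Z 20]
      gcongr
      exact h.z
    have w2 : 4 / Z ^ 20 = 4 * (1 / Z ^ 20) := by ring
    rw [w2] at eta1 eta0 ⊢
    generalize 1 / Z ^ 20 = y at *
    have w3 := Real.abs_exp_sub_one_sub_id_le (x := 3 * y) (by rw [abs_le]; constructor <;> linarith)
    have w4 : Real.exp (3 * y) ≤ 1 + 4 * y := by nlinarith [(abs_le.1 w3).2]
    refine le_trans ?_ (mul_le_mul_of_nonneg_right w4 hA0.le)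
    rw [hA, ← Real.exp_add]
    exact Real.exp_le_exp.2 (by linarith)
  have hIA : I ⊆ AR N B := fun a ha => by
    obtain ⟨a1, a2⟩ := (mI a).1 ha
    refine (mem_AR (by positivity)).2 ⟨by exact_mod_cast hA0.trans a1, ?_, ?_⟩
    · rw [div_le_iff₀ (by positivity)]; nlinarith
    · rw [le_div_iff₀ hB0]
      have : (a : ℝ) ≤ 5 / 4 * A := a2.trans (by gcongr; linarith)
      nlinarith
  have aN : ∀ a ∈ AR N B, (a : ℝ) ≤ N ^ 2 := fun a ha => by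
    refine ((mem_AR (by positivity)).1 ha).2.2.trans ?_
    rw [div_le_iff₀ hB0]; nlinarith
  have hτ : ∀ a ∈ AR N B, (a.divisors.card : ℝ) ≤ Z := fun a ha =>
    h.t a ((aN a ha).trans (h.np (by norm_num)))
  have hCov : Cov Y (1 / Z ^ 22) Z τ1 τ2 I := by
    refine ⟨fun a ha => mem_Icc.2 ⟨((mem_AR (by positivity)).1 (hIA ha)).1, ?_⟩,
      fun a a1 a2 => (mI a).2 ⟨hA ▸ a1, a2.trans top⟩⟩
    exact_mod_cast (aN a (hIA ha)).trans ((h.np (by norm_num)).trans h.y1)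
  have hyg := h.ygs
  have N5 : N ≤ N ^ 5 := by simpa using h.np (m := 1) (n := 5) (by norm_num)
  have hy3 : Y * gs Z ≤ (1 / Z ^ 22) ^ 3 := by
    refine hyg.trans ?_
    rw [one_div_pow, ← pow_mul]
    exact one_div_le_one_div_of_le (by positivity) ((h.zn (by norm_num)).trans N5)
  have dif : ∀ {p q M : ℝ}, 0 ≤ p → 0 ≤ q → p ≤ M → q ≤ M → |p - q| ≤ M := fun a b c d =>
    abs_le.2 ⟨by linarith, by linarith⟩
  set α : ℕ → ℝ := fun a => al (1 / Z ^ 22) j (j + l) τ1 τ2 E1 E2 a -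
    al (1 / Z ^ 22) j' (j' + l) τ1 τ2 E1 E2 a with hα
  obtain ⟨D, hD⟩ : ∃ D, D = Z * (9 * (1 / Z ^ 22) ^ 2) := ⟨_, rfl⟩
  have hD0 : 0 < D := by rw [hD]; positivity
  have hD1 : 1 / D = Z ^ 43 / 9 := by rw [hD]; field_simp
  have b1 : ∀ a ∈ AR N B, |α a| ≤ D := fun a ha => hD ▸
    dif (al_nonneg _ P.j12 P.s12 _ _ _) (al_nonneg _ P'.j12 P'.s12 _ _ _)
      ((cell_al hWW P (hτ a ha)).1 hy3) ((cell_al hWW P' (hτ a ha)).1 hy3)
  have b2 : ∀ a ∈ AR N B \ I, |α a| ≤ Z * (Y * gs Z) := fun a ha => by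
    obtain ⟨a1, a2⟩ := mem_sdiff.1 ha
    have a3 : (a : ℝ) ≤ Real.exp (2 * τ1 - 8 * (1 / Z ^ 22 * Z)) ∨
        Real.exp (2 * τ2 + 8 * (1 / Z ^ 22 * Z)) ≤ a := by
      by_contra hc
      rw [not_or, not_le, not_le] at hc
      exact a2 (hCov.2 a hc.1 hc.2.le)
    exact dif (al_nonneg _ P.j12 P.s12 _ _ _) (al_nonneg _ P'.j12 P'.s12 _ _ _)
      ((cell_al hWW P (hτ a a1)).2 a3) ((cell_al hWW P' (hτ a a1)).2 a3)
  set α0 : ℕ → ℝ := fun a => if a ∈ I then 1 / D * α a else 0 with hα0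
  have eS : ∀ γ t, SI I α0 γ t = (1 / D : ℝ) * SI I α γ t := fun γ t => by
    rw [SI_congr (α' := fun a => 1 / D * α a) fun a ha => if_pos ha, SI_smul]
  have nD : ‖((1 / D : ℝ) : ℂ)‖ = Z ^ 43 / 9 := by
    rw [Complex.norm_real, hD1, Real.norm_of_nonneg (by positivity)]
  have hBA : Z ^ 600 * B ≤ A := le_of_mul_le_mul_right (by nlinarith [h.b3]) hB0
  have hBA' : B ≤ A := le_trans (le_mul_of_one_le_left hB0.le (one_le_pow₀ h.z1)) hBA
  have q1 : Real.exp τ1 ^ 2 = Real.exp (2 * τ1) := by rw [← Real.exp_nat_mul]; norm_num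
  have main := H0 A B Z K W I S α0 β (by linarith [h.z]) hBA h.b1 h.b2
    (le_of_mul_le_mul_right (by nlinarith [h.k1]) hB0)
    (le_of_mul_le_mul_right (by nlinarith [h.k2, pow_pos hz 800]) hB0)
    (le_of_mul_le_mul_right (by nlinarith [h.k3, pow_pos hz 400]) hB0)
    (by
      have := Real.log_le_log hA0 (show A ≤ N ^ 2 by linarith)
      rw [Real.log_pow] at this
      push_cast at this
      linarith [h.l, h.l1])
    (le_trans (by
      have := gs_pos (Z / 2)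
      rw [show N ^ 10 = (N ^ 2) ^ 5 by ring]
      gcongr
      linarith) h.g1)
    (h.t.mono (le_trans (by nlinarith : 4 * A ^ 2 ≤ (N ^ 2) ^ 2)
      (by rw [← pow_mul]; exact h.np (by norm_num))) le_rfl)
    (fun a ha => (mI a).1 ha)
    (fun a => by
      simp only [hα0]
      split_ifs with ha
      · rw [abs_mul, abs_of_pos (by positivity), one_div_mul_eq_div, div_le_one hD0]
        exact b1 a (hIA ha)
      · simp)
    hT.s hT.c hW (by linarith)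
    (fun θ t1 t2 => by
      have s1 : √A ≤ Real.exp τ1 := Real.sqrt_le_iff.2 ⟨(Real.exp_pos _).le, by rwa [q1]⟩
      have s2 : Real.exp τ1 ≤ 2 * √A := by
        refine abs_le_of_sq_le_sq' ?_ (by positivity) |>.2
        rw [q1, mul_pow, Real.sq_sqrt hA0.le]
        linarith
      have g1 := cell_gg h hC1 (by linarith) H1 P hCov f1 f2 hBA' (by linarith) s1 s2 t1 t2
      have g2 := cell_gg h hC1 (by linarith) H1 P' hCov f1 f2 hBA' (by linarith) s1 s2 t1 t2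
      have g3 := GG_le_two (S := SI I α) (fun γ t => by
        rw [hα, SI_sub]; exact norm_sub_le _ _) (2 * ⌈√(A / B)⌉₊) θ
      have g4 := shp_nonneg (Real.sqrt_nonneg A) (Real.sqrt_nonneg (A / B)) θ
      rw [show SI I α0 = fun γ t => (1 / D : ℝ) * SI I α γ t from funext₂ eS, GG_smul, nD]
      calc _ ≤ (Z ^ 43 / 9) ^ 2 * (36 * Z ^ 13 * shp (√A) (√(A / B)) θ) := by
            gcongr; linarith
        _ = 4 / 9 * Z ^ 99 * shp (√A) (√(A / B)) θ := by ring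
        _ ≤ _ := by
            gcongr
            linarith [h.pw (m := 99) (n := 120) (by norm_num), pow_pos hz 99])
    (fun q r q1 q2 => by
      have lt : ∀ {E y : ℝ}, 0 ≤ E → E ≤ Z ^ 2 → N ^ (1 / 10 : ℝ) ≤ y →
          q * Z / (1 / Z ^ 22) * E < y := fun {E y} a b c => by
        have : q * Z / (1 / Z ^ 22) * E ≤ Z ^ 60 * Z / (1 / Z ^ 22) * Z ^ 2 := by gcongr
        have e : Z ^ 60 * Z / (1 / Z ^ 22) * Z ^ 2 = Z ^ 85 := by field_simp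
        linarith [h.x, pow_pos hz 85]
      have g := H2 Y Y E1 E2 q r _ Z j j' l τ1 τ2 I P P' hCov q1
        (lt (Nat.cast_nonneg _) f1 hS.u) (lt (Nat.cast_nonneg _) f1 hS.u')
        (lt (Nat.cast_nonneg _) f2 hS.v) (lt (Nat.cast_nonneg _) f2 hS.v')
      rw [eS, norm_mul, nD]
      calc _ ≤ Z ^ 43 / 9 * (Z * (2 / N ^ 6)) := by
            gcongr
            refine g.trans (mul_le_mul (by linarith) h.neg1 ?_ hz.le)
            exact mul_nonneg (Nat.cast_nonneg _) (neg_nonneg' _ _)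
        _ = 2 / 9 * Z ^ 44 / N ^ 6 := by ring
        _ ≤ 1 := by
            rw [div_le_one (by positivity)]
            linarith [h.zn (m := 44) (by norm_num), pow_pos hz 44,
              show N ≤ N ^ 6 by simpa using h.np (m := 1) (n := 6) (by norm_num)])
  have eT : tb K W S β I α = D * tb K W S β I α0 := by
    rw [← abs_of_pos hD0, ← tb_smul]
    exact tb_congr (fun _ _ => rfl) fun a ha => by
      simp only [hα0, if_pos ha]
      field_simp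
  have r1 : tb K W S β I α ≤ K * N / Z ^ 69 / 2 := by
    have sq : √(A * B) ≤ 2 * N := Real.sqrt_le_iff.2 ⟨by positivity, by nlinarith⟩
    rw [eT]
    calc D * tb K W S β I α0 ≤ D * (Z / 36 * K * (2 * N) / Z ^ 27) := by
          refine mul_le_mul_of_nonneg_left (main.trans ?_) hD0.le
          gcongr
          linarith
      _ = _ := by rw [hD]; field_simp; norm_num
  have cS : (S.card : ℝ) ≤ 2 * B := by
    have d1 : S ⊆ Icc 1 ⌊2 * B⌋₊ := fun b hb =>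
      mem_Icc.2 ⟨(hT.s b hb).2.2.2.pos, Nat.le_floor (hT.s b hb).2.1⟩
    have d2 := card_le_card d1
    rw [Nat.card_Icc, Nat.add_sub_cancel] at d2
    exact le_trans (by exact_mod_cast d2) (Nat.floor_le (by positivity))
  have cJ : ((AR N B \ I).card : ℝ) ≤ 2 * N ^ 2 / B :=
    le_trans (by exact_mod_cast card_le_card sdiff_subset) (card_AR (by positivity))
  have r2 : tb K W S β (AR N B \ I) α ≤ K * N / Z ^ 69 / 2 := by
    refine (cell_triv K W hT.c b2).trans ?_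
    calc _ ≤ K * (2 * B * (2 * N ^ 2 / B * (Z * (1 / N ^ 5) * (2 * Z)))) := by
          have := gs_pos Z
          gcongr
          linarith [h.z1]
      _ = K * N / Z ^ 69 / 2 * (16 * Z ^ 71 / N ^ 4) := by field_simp; norm_num
      _ ≤ _ := by
          refine mul_le_of_le_one_right (by positivity) ?_
          rw [div_le_one (by positivity)]
          calc 16 * Z ^ 71 ≤ N * N := by gcongr; exact h.zn (by norm_num)
            _ = N ^ 2 := by ring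
            _ ≤ _ := h.np (by norm_num)
  refine (tb_sdiff_le β α hIA).trans ((add_le_add r1 r2).trans_eq ?_)
  field_simp
  norm_num

end Pool.Agent.P.MP_8be758_nt.Av2
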