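import Pool.Agent.P.MP_8be758_nt.Av2.Basic

/-! The step `S_CELL0`. -/

namespace Pool.Agent.P.MP_8be758_nt.Av2

open Finset Real Filter Topology
open Pool.Agent.P.MP_e86632_nt (ee)
open Pool.Agent.P.MP_8be758_nt.Avg

theorem cell0_split (W k : ℕ) (I S : Finset ℕ) (α β : ℕ → ℝ) (hβ : ∀ b, |β b| ≤ 1) :
    |∑ b ∈ S, ∑ a ∈ I, β b * α a * dd W k (a * b)| ≤
      ∑ b ∈ S, |∑ a ∈ I, α a * rr k (a * b)| + ∑ b ∈ S, |∑ a ∈ I, α a * md W k (a * b)| := by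
  rw [← sum_add_distrib]
  refine (abs_sum_le_sum_abs _ _).trans (sum_le_sum fun b _ => ?_)
  have e : ∑ a ∈ I, β b * α a * dd W k (a * b) =
      β b * (∑ a ∈ I, α a * rr k (a * b) - ∑ a ∈ I, α a * md W k (a * b)) := by
    rw [← sum_sub_distrib, mul_sum]
    exact sum_congr rfl fun a _ => by unfold dd; ring
  rw [e, abs_mul]
  exact (mul_le_of_le_one_left (abs_nonneg _) (hβ b)).trans (abs_sub _ _)

theorem cell0_en (I : Finset ℕ) (α : ℕ → ℝ) (Q : ℕ)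
    (h : ∀ q r : ℕ, 1 ≤ q → q ≤ Q → ‖SI I α ((r : ℝ) / q) 0‖ ≤ 1) : enS I (gam α) Q ≤ Q := by
  refine (sum_le_card_nsmul _ _ 1 fun q hq => ?_).trans (by simp)
  obtain ⟨h1, h2⟩ := mem_Icc.1 hq
  have h3 : (0 : ℝ) < q := by exact_mod_cast h1
  rw [one_div, inv_mul_le_iff₀ h3, mul_one]
  refine (sum_le_card_nsmul _ _ 1 fun r _ => ?_).trans (by simpa using card_red_le q)
  rw [← SI_zero]
  exact pow_le_one₀ (norm_nonneg _) (h q r h1 h2)

theorem cell0_fin {T A B Z C K s U E : ℝ} (hZ : 1 ≤ Z) (hA : 0 ≤ A) (hB : 0 ≤ B) (hC : 0 ≤ C)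
    (hK : 0 ≤ K) (hU : 0 ≤ U) (hT : T ^ 2 ≤ K * s * (Z * U)) (hs : s ≤ 2 * B)
    (hd : U ≤ C * K * (E + A / Z ^ 56)) (hE : E ≤ A / Z ^ 56) :
    T ≤ 2 * √C * K * √(A * B) / Z ^ 27 := by
  have hZ0 : 0 < Z := by linarith
  refine (abs_le_of_sq_le_sq' (hT.trans ?_) (by positivity)).2
  rw [div_pow, mul_pow, mul_pow, mul_pow, Real.sq_sqrt hC, Real.sq_sqrt (by positivity)]
  calc _ ≤ K * (2 * B) * (Z * (C * K * (A / Z ^ 56 + A / Z ^ 56))) := by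
        gcongr
        exact hd.trans (by gcongr)
    _ = 2 ^ 2 * C * K ^ 2 * (A * B) / Z ^ 55 := by field_simp; ring
    _ ≤ _ := by
        rw [← pow_mul]
        gcongr
        norm_num

theorem cell0_sqrt {A B Z : ℝ} (hZ : 1 ≤ Z) (hB : 0 ≤ B) (h : Z ^ 600 * B ≤ A) :
    B * Z ^ 29 ≤ √(A * B) := Real.le_sqrt_of_sq_le <|
  calc (B * Z ^ 29) ^ 2 = Z ^ 58 * B * B := by ring
    _ ≤ A * B := mul_le_mul_of_nonneg_right ((mul_le_mul_of_nonneg_right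
        (pow_le_pow_right₀ hZ (by norm_num)) hB).trans h) hB

theorem t_CELL0 (hQF : S_QF) (hMD : S_MD) : S_CELL0 := by
  obtain ⟨C, hC, hQF⟩ := hQF
  refine ⟨2 * √C + 2, by positivity,
    fun A B Z K W I S α β hZ d1 d2 d3 d4 d5 d6 d7 d8 hτ hI hα hS hβ hW hW' hG hq => ?_⟩
  have hZ1 : 1 ≤ Z := by linarith
  have hZ0 : 0 < Z := by linarith
  have mono : ∀ {i j : ℕ}, i ≤ j → Z ^ i ≤ Z ^ j := fun h => pow_le_pow_right₀ hZ1 h
  have hB1 : 1 ≤ B := (one_le_pow₀ hZ1).trans d2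
  have hB0 : 0 < B := by linarith
  have hBA : B ≤ A := (le_mul_of_one_le_left hB0.le (one_le_pow₀ hZ1)).trans d1
  have hA0 : 0 < A := by linarith
  have hb : ∀ b ∈ S, 1 ≤ b := fun b hb => by exact_mod_cast hB1.trans (hS b hb).1
  have hcard : (S.card : ℝ) ≤ 2 * B := by
    have h1 : S ⊆ Icc 1 ⌊2 * B⌋₊ := fun b h =>
      mem_Icc.2 ⟨hb b h, Nat.le_floor (hS b h).2.1⟩
    have h2 := card_le_card h1
    rw [Nat.card_Icc, Nat.add_sub_cancel] at h2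
    exact le_trans (by exact_mod_cast h2) (Nat.floor_le (by positivity))
  have hd := hQF A B Z K I S α hZ d1 d2 d3 d4 d5 d6 d7 d8 hτ hI hα
    (fun b h => ⟨(hS b h).1, (hS b h).2.1, (hS b h).2.2.2⟩) hG
  have hQ : (⌊Z ^ 60⌋₊ : ℝ) ≤ Z ^ 60 := Nat.floor_le (by positivity)
  have hE : enS I (gam α) ⌊Z ^ 60⌋₊ ≤ A / Z ^ 56 := by
    refine (cell0_en I α _ fun q r h1 h2 => hq q r h1 (le_trans (by exact_mod_cast h2) hQ)).trans
      (hQ.trans ?_)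
    rw [le_div_iff₀ (by positivity), ← pow_add]
    exact (mono (by norm_num)).trans ((le_mul_of_one_le_right (by positivity) hB1).trans d1)
  have hη : 4 / Z ^ 20 ≤ 1 := by
    rw [div_le_one (by positivity)]
    exact le_trans (by nlinarith) (mono (show 2 ≤ 20 by norm_num))
  have hcs := bx_cs (Icc 1 K) S (fun k b => ∑ a ∈ I, α a * rr k (a * b))
    (fun k b => Z * Qf α I ⌈2 * A⌉₊ b k) fun k hk b h => by
      obtain ⟨b1, b2, b3, b4⟩ := hS b h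
      obtain ⟨q1, q2⟩ := lib_D1 α I ⌈2 * A⌉₊ b (hb b h)
      have q3 := q2 k (mem_Icc.1 hk).1 fun a ha => by
        have h1 := (hI a ha).2
        have h2 := Nat.le_ceil (2 * A)
        have h3 : (a : ℝ) * b ≤ (⌈2 * A⌉₊ : ℝ) ^ 2 :=
          calc (a : ℝ) * b ≤ 2 * A * (2 * A) := by
                gcongr <;> nlinarith
            _ ≤ _ := by rw [sq]; gcongr
        exact_mod_cast h3
      have q4 : (rho k b : ℝ) ≤ b.divisors.card := by
        exact_mod_cast (lib_ROOT.2.2.2.1 k b (mem_Icc.1 hk).1 b4 b3).2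
      exact q3.trans (mul_le_mul_of_nonneg_right (q4.trans (hτ b (by nlinarith))) (q1 k))
  simp only [← mul_sum] at hcs
  rw [Nat.card_Icc, Nat.add_sub_cancel] at hcs
  have hU : 0 ≤ ∑ k ∈ Icc 1 K, ∑ b ∈ S, Qf α I ⌈2 * A⌉₊ b k :=
    sum_nonneg fun (k : ℕ) _ => sum_nonneg fun b h => (lib_D1 _ _ _ b (hb b h)).1 k
  have h1 : ∑ k ∈ Icc 1 K, ∑ b ∈ S, |∑ a ∈ I, α a * rr k (a * b)| ≤
      2 * √C * K * √(A * B) / Z ^ 27 := by
    exact cell0_fin hZ1 hA0.le hB0.le hC.le (Nat.cast_nonneg K) hU hcs hcard hd hE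
  have h2 : ∑ k ∈ Icc 1 K, ∑ b ∈ S, |∑ a ∈ I, α a * md W k (a * b)| ≤
      2 * K * √(A * B) / Z ^ 27 := by
    have e1 := cell0_sqrt hZ1 hB0.le d1
    calc _ ≤ ∑ k ∈ Icc 1 K, ∑ b ∈ S, Z ^ 2 := sum_le_sum fun k _ => sum_le_sum fun b h =>
          (hMD W k b I α 1 hW (hb b h) fun r _ => hq W r hW
            (hW'.trans ((pow_one Z).ge.trans (mono (by norm_num))))).trans (by
              rw [mul_one]
              gcongr)
      _ = K * (S.card * Z ^ 2) := by simp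
      _ ≤ K * (2 * B * Z ^ 2) := by gcongr
      _ = 2 * K * (B * Z ^ 29) / Z ^ 27 := by field_simp
      _ ≤ _ := by gcongr
  refine (sum_le_sum fun k _ => cell0_split W k I S α β hβ).trans ?_
  rw [sum_add_distrib]
  exact (add_le_add h1 h2).trans_eq (by ring)

end Pool.Agent.P.MP_8be758_nt.Av2
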