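import Pool.Agent.P.MP_8be758_nt.Av2.Basic

/-! The step `S_CG`. -/

namespace Pool.Agent.P.MP_8be758_nt.Av2

open Finset Real Filter Topology
open Pool.Agent.P.MP_e86632_nt (ee)
open Pool.Agent.P.MP_8be758_nt.Avg

/-- energy at the fractions with a fixed denominator -/
noncomputable def cg_T (I : Finset ℕ) (α : ℕ → ℝ) (ν : ℕ) (t : ℝ) : ℝ :=
  1 / (ν : ℝ) * ∑ r ∈ range ν, ‖SI I α ((r : ℝ) / ν) t‖ ^ 2

theorem cg_T0 (I : Finset ℕ) (α : ℕ → ℝ) (ν : ℕ) (t : ℝ) : 0 ≤ cg_T I α ν t := by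
  unfold cg_T; positivity

theorem cg_SI (I : Finset ℕ) (α : ℕ → ℝ) (γ θ : ℝ) :
    SI I α γ θ = ft I (lq_co (fun a => α a / √(a : ℝ)) θ) γ := by
  unfold SI ft lq_co
  refine sum_congr rfl fun a _ => ?_
  rw [Pool.Agent.P.MP_e86632_nt.ee_add]
  ring

theorem cg_sum (I : Finset ℕ) (α : ℕ → ℝ) {ν : ℕ} (hν : 0 < ν) (t : ℝ) :
    ∑ a1 ∈ I, ∑ a2 ∈ I, ((if (ν : ℤ) ∣ (a2 : ℤ) - a1 then 1 else 0 : ℝ) : ℂ) *
      (((α a1 / √(a1 : ℝ) * (α a2 / √(a2 : ℝ)) : ℝ) : ℂ) * ee (t * sg a1 a2)) =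
      (cg_T I α ν t : ℂ) := by
  have h0 : (ν : ℂ) ≠ 0 := by exact_mod_cast hν.ne'
  rw [cg_T, Complex.ofReal_mul, Complex.ofReal_sum]
  simp only [cg_SI, lq_sq]
  rw [sum_comm (s := range ν), mul_sum]
  refine sum_congr rfl fun a1 _ => ?_
  rw [sum_comm (s := range ν), mul_sum]
  refine sum_congr rfl fun a2 _ => ?_
  have := far_two ν ((a2 : ℤ) - a1) hν
  push_cast at this
  rw [← sum_mul, ← mul_sum, this]
  split_ifs
  · push_cast; field_simp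
  · simp

theorem cg_mu (I : Finset ℕ) (α : ℕ → ℝ) {μ : ℕ} (hμ : 0 < μ) (t : ℝ) :
    ‖∑ a1 ∈ I, ∑ a2 ∈ I, ((if Cg μ a1 a2 then 1 else 0 : ℝ) : ℂ) *
      (((α a1 / √(a1 : ℝ) * (α a2 / √(a2 : ℝ)) : ℝ) : ℂ) * ee (t * sg a1 a2))‖ ≤
      cg_T I α (2 * μ) t + cg_T I α μ t := by
  have h1 := cg_sum I α (show 0 < 2 * μ by omega) t
  have h2 := cg_sum I α hμ t
  have p1 := cg_T0 I α (2 * μ) t
  have p2 := cg_T0 I α μ t
  simp only [main_cg hμ.ne']
  by_cases e : 2 ∣ μ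
  · have e' : 4 ∣ 2 * μ := by omega
    simp only [if_pos e, if_pos e', Complex.ofReal_add, Complex.ofReal_sub, Complex.ofReal_mul
      (2 : ℝ), add_mul, sub_mul, mul_assoc ((2 : ℝ) : ℂ), sum_add_distrib, sum_sub_distrib,
      ← mul_sum, h1, h2]
    rw [← Complex.ofReal_mul, ← Complex.ofReal_sub, ← Complex.ofReal_add, Complex.norm_real,
      Real.norm_eq_abs, abs_le]
    constructor <;> linarith
  · have e' : ¬ 4 ∣ 2 * μ := by omega
    simp only [if_neg e, if_neg e', mul_zero, sub_zero, add_zero, h1]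
    rw [Complex.norm_real, Real.norm_eq_abs, abs_of_nonneg p1]
    linarith

theorem cg_triv {I : Finset ℕ} {μ0 : ℕ} {A τ : ℝ} (hA : 1 ≤ A) (hI : Rng A I)
    (hτ : TauB (2 * A) τ) (F : ℕ → ℕ → ℕ → ℂ)
    (hF : ∀ a1 ∈ I, ∀ a2 ∈ I, ∀ μ, ‖F a1 a2 μ‖ ≤ 1 / A) :
    ‖∑ a1 ∈ I, ∑ a2 ∈ I, ∑ μ ∈ (Icc 1 μ0).filter (fun μ => Cg μ a1 a2), F a1 a2 μ‖ ≤
      2 * μ0 + 4 * A * τ := by
  have t0 : 0 ≤ τ := zero_le_one.trans (hτ.one_le (by linarith))
  have A0 : 0 < A := by linarith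
  have hc := hI.card_le hA
  have k1 : ∀ a1 ∈ I, ∀ a2 ∈ I, (((Icc 1 μ0).filter (fun μ => Cg μ a1 a2)).card : ℝ) ≤
      (if a1 = a2 then (μ0 : ℝ) else 0) + τ := fun a1 h1 a2 h2 => by
    split_ifs with e
    · have := card_filter_le (Icc 1 μ0) fun μ => Cg μ a1 a2
      rw [Nat.card_Icc, Nat.add_sub_cancel] at this
      have : (((Icc 1 μ0).filter (fun μ => Cg μ a1 a2)).card : ℝ) ≤ μ0 := by exact_mod_cast this
      linarith
    · rw [zero_add]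
      refine le_trans ?_ (hτ ((a2 : ℤ) - a1).natAbs ?_)
      · refine Nat.cast_le.2 (card_le_card fun μ hμ => Nat.mem_divisors.2 ⟨?_, by omega⟩)
        exact Int.natCast_dvd.1 (d4_dvd (mem_filter.1 hμ).2)
      · rw [Nat.cast_natAbs]
        push_cast
        have := hI a1 h1
        have := hI a2 h2
        rw [abs_le]
        constructor <;> linarith
  calc _ ≤ ∑ _a1 ∈ I, (μ0 + 2 * A * τ) * (1 / A) := by
        refine (norm_sum_le _ _).trans (sum_le_sum fun a1 h1 => (norm_sum_le _ _).trans ?_)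
        calc _ ≤ ∑ a2 ∈ I, ((if a1 = a2 then (μ0 : ℝ) else 0) + τ) * (1 / A) := by
              refine sum_le_sum fun a2 h2 => (norm_sum_le _ _).trans ?_
              refine (sum_le_sum fun μ _ => hF a1 h1 a2 h2 μ).trans ?_
              rw [sum_const, nsmul_eq_mul]
              exact mul_le_mul_of_nonneg_right (k1 a1 h1 a2 h2) (by positivity)
          _ ≤ _ := by
              rw [← sum_mul, sum_add_distrib, sum_ite_eq, if_pos h1, sum_const, nsmul_eq_mul]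
              gcongr
    _ ≤ 2 * A * ((μ0 + 2 * A * τ) * (1 / A)) := by
        rw [sum_const, nsmul_eq_mul]
        gcongr
    _ = _ := by field_simp; ring

theorem cg_co {I : Finset ℕ} {α : ℕ → ℝ} {A : ℝ} (hA : 1 ≤ A) (hI : Rng A I)
    (hα : ∀ a, |α a| ≤ 1) {a1 a2 : ℕ} (h1 : a1 ∈ I) (h2 : a2 ∈ I) :
    |α a1 / √(a1 : ℝ) * (α a2 / √(a2 : ℝ))| ≤ 1 / A := by
  have A0 : 0 < A := by linarith
  have s0 : 0 < √A := Real.sqrt_pos.2 A0
  have k : ∀ a ∈ I, |α a / √(a : ℝ)| ≤ 1 / √A := fun a ha => by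
    rw [abs_div, abs_of_nonneg (Real.sqrt_nonneg _)]
    exact div_le_div₀ zero_le_one (hα a) s0 (Real.sqrt_le_sqrt (hI a ha).1.le)
  rw [abs_mul]
  refine (mul_le_mul (k _ h1) (k _ h2) (abs_nonneg _) (by positivity)).trans_eq ?_
  rw [div_mul_div_comm, Real.mul_self_sqrt A0.le, one_mul]

theorem t_CG : S_CG := by
  intro α I μ0
  refine ⟨fun θ => ?_, fun A τ hA hI hα hτ => ⟨fun θ => cg_triv hA hI hτ _ fun a1 h1 a2 h2 μ => ?_,
    fun B ξ hB => cg_triv hA hI hτ _ fun a1 h1 a2 h2 μ => ?_⟩⟩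
  · have e : cG α I μ0 θ = ∑ μ ∈ Icc 1 μ0, ∑ a1 ∈ I, ∑ a2 ∈ I,
        ((if Cg μ a1 a2 then 1 else 0 : ℝ) : ℂ) *
        (((α a1 / √(a1 : ℝ) * (α a2 / √(a2 : ℝ)) : ℝ) : ℂ) * ee (θ / μ * sg a1 a2)) := by
      rw [cG, sum_comm (s := Icc 1 μ0)]
      refine sum_congr rfl fun a1 _ => ?_
      rw [sum_comm (s := Icc 1 μ0)]
      refine sum_congr rfl fun a2 _ => ?_
      rw [sum_filter]
      refine sum_congr rfl fun μ _ => ?_
      rw [show θ / μ * sg a1 a2 = θ * (sg a1 a2 / μ) by ring]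
      split_ifs <;> simp
    rw [e]
    refine (norm_sum_le _ _).trans ((sum_le_sum fun (μ : ℕ) hμ =>
      cg_mu I α (μ := μ) (mem_Icc.1 hμ).1 (θ / μ)).trans ?_)
    rw [sum_add_distrib]
    refine add_le_add ?_ (GG_mono (SI I α) (show μ0 ≤ 2 * μ0 by omega) θ)
    calc _ = ∑ ν ∈ (Icc 1 μ0).image (2 * ·), cg_T I α ν (2 * θ / ν) := by
          rw [sum_image fun a _ b _ h => by simpa using h]
          refine sum_congr rfl fun μ _ => ?_
          congr 1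
          push_cast
          rw [mul_div_mul_left _ _ two_ne_zero]
      _ ≤ ∑ ν ∈ Icc 1 (2 * μ0), cg_T I α ν (2 * θ / ν) := by
          refine sum_le_sum_of_subset_of_nonneg (fun ν hν => ?_) fun _ _ _ => cg_T0 _ _ _ _
          obtain ⟨μ, hμ, rfl⟩ := mem_image.1 hν
          rw [mem_Icc] at hμ ⊢
          omega
  · rw [norm_mul, Pool.Agent.P.MP_e86632_nt.norm_ee, mul_one, Complex.norm_real]
    exact cg_co hA hI hα h1 h2
  · rw [norm_mul, Pool.Agent.P.MP_e86632_nt.norm_ee, mul_one, Complex.norm_real, Real.norm_eq_abs,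
      abs_mul, abs_of_nonneg (psi_nonneg hB (by positivity))]
    exact (mul_le_of_le_one_right (abs_nonneg _) (psi_le_one hB (by positivity))).trans
      (cg_co hA hI hα h1 h2)

end Pool.Agent.P.MP_8be758_nt.Av2
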