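import Pool.Agent.P.MP_8be758_nt.Av2.Basic

/-! The step `S_CH`. -/

namespace Pool.Agent.P.MP_8be758_nt.Av2

open Finset Real Filter Topology
open Pool.Agent.P.MP_e86632_nt (ee)
open Pool.Agent.P.MP_8be758_nt.Avg

theorem ch_norm (ε : ℝ) (j : ℤ) (θ : ℝ) :
    ‖chp ε j θ‖ = Real.exp (-(π * θ ^ 2 * (ε / (ε ^ 2 + j ^ 2)))) := by
  rw [chp, Complex.norm_exp]; congr 1
  simp [Complex.div_re, Complex.normSq_apply, ← Complex.ofReal_pow]; ring

theorem ch_le {ε B : ℝ} {J : ℕ} {j : ℤ} (h1 : 1 / B ≤ ε) (h2 : ε ≤ 1) (hB : 0 < B) (hJ : 1 ≤ J)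
    (hj : j ∈ Icc (-(J : ℤ)) J) (θ : ℝ) : ‖chp ε j θ‖ ≤ gs (θ / (2 * √B * J)) := by
  have hε : 0 < ε := lt_of_lt_of_le (by positivity) h1
  have hJ' : (1 : ℝ) ≤ J := by exact_mod_cast hJ
  have a1 : (j : ℝ) ^ 2 ≤ (J : ℝ) ^ 2 := by
    rw [mem_Icc] at hj
    exact sq_le_sq' (by exact_mod_cast hj.1) (by exact_mod_cast hj.2)
  have a2 : 1 ≤ ε * B := (div_le_iff₀ hB).1 h1
  have a3 : 1 / (2 * √B * J) ^ 2 ≤ ε / (ε ^ 2 + j ^ 2) := by
    rw [div_le_div_iff₀ (by positivity) (by positivity), mul_pow, mul_pow, Real.sq_sqrt hB.le]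
    have : (J : ℝ) ^ 2 ≤ ε * B * J ^ 2 := le_mul_of_one_le_left (by positivity) a2
    nlinarith
  rw [ch_norm, gs, div_pow, Real.exp_le_exp, neg_le_neg_iff, div_eq_mul_one_div, ← mul_assoc]
  exact mul_le_mul_of_nonneg_left a3 (by positivity)

theorem ch_cont (ε : ℝ) (j : ℤ) : Continuous (chp ε j) := by unfold chp; fun_prop

theorem ch_neg (ε : ℝ) (j : ℤ) (θ : ℝ) : chp ε j (-θ) = chp ε j θ := by simp [chp]

theorem ch_split {f : ℝ → ℂ} (hf : MeasureTheory.Integrable f) (t0 t1 : ℝ) {t2 : ℝ} (h : 0 ≤ t2) :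
    ∫ θ, f θ = (∫ θ in (Set.Ioc (-t2) t2)ᶜ, f θ) + (∫ θ in -t0..t0, f θ) +
      ((∫ θ in t0..t1, f θ) + ∫ θ in t0..t1, f (-θ)) +
      ((∫ θ in t1..t2, f θ) + ∫ θ in t1..t2, f (-θ)) := by
  have i : ∀ a b, IntervalIntegrable f MeasureTheory.volume a b := fun _ _ => hf.intervalIntegrable
  rw [← MeasureTheory.integral_add_compl (s := Set.Ioc (-t2) t2) measurableSet_Ioc hf,
    ← intervalIntegral.integral_of_le (by linarith), intervalIntegral.integral_comp_neg,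
    intervalIntegral.integral_comp_neg,
    ← intervalIntegral.integral_add_adjacent_intervals (i (-t2) (-t1)) (i _ _),
    ← intervalIntegral.integral_add_adjacent_intervals (i (-t1) (-t0)) (i _ t2),
    ← intervalIntegral.integral_add_adjacent_intervals (i (-t0) t0) (i _ t2),
    ← intervalIntegral.integral_add_adjacent_intervals (i t0 t1) (i _ t2)]
  ring

theorem ch_sum (F : ℝ → ℝ) (J : ℕ) :
    ∑ j ∈ (Icc (-(J : ℤ)) J).erase 0, F |(j : ℝ)| = 2 * ∑ i ∈ Ioc 0 J, F i := by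
  induction J with
  | zero => simp
  | succ J ih =>
    have e : (Icc (-((J + 1 : ℕ) : ℤ)) (J + 1 : ℕ)).erase 0 =
        insert ((J : ℤ) + 1) (insert (-((J : ℤ) + 1)) ((Icc (-(J : ℤ)) J).erase 0)) := by
      ext x; simp only [mem_erase, mem_Icc, mem_insert]; push_cast; omega
    rw [e, sum_insert (by simp only [mem_erase, mem_Icc, mem_insert]; omega),
      sum_insert (by simp only [mem_erase, mem_Icc]; omega), ih, sum_Ioc_succ_top (Nat.zero_le J)]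
    push_cast
    rw [abs_neg, abs_of_nonneg (by positivity)]
    ring

theorem ch_piece {C b G l : ℝ} {J : ℕ} {x : ℤ → ℝ} (hC : 0 < C) (hb : 0 ≤ b) (hG : 0 ≤ G)
    (hl : 0 ≤ l) (hJ : 1 ≤ J)
    (h : ∑ j ∈ Icc (-(J : ℤ)) J, x j ^ 2 ≤
      C * (b ^ 2 + (J : ℝ) ^ 2 * (1 + Real.log J)) * G ^ 2 * l) :
    ∑ j ∈ (Icc (-(J : ℤ)) J).erase 0, 1 / √|(j : ℝ)| * x j ≤
      √(2 * C) * ((1 + Real.log J) * ((b + J) * G * √l)) := by
  have hL : 0 ≤ Real.log J := Real.log_natCast_nonneg J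
  have a1 : ∑ j ∈ (Icc (-(J : ℤ)) J).erase 0, (1 / √|(j : ℝ)|) ^ 2 ≤ 2 * (1 + Real.log J) := by
    rw [ch_sum (fun y => (1 / √y) ^ 2) J]
    refine mul_le_mul_of_nonneg_left (le_trans (le_of_eq (sum_congr rfl fun i _ => ?_))
      (Pool.Agent.P.MP_e86632_nt.sum_inv_le J)) zero_le_two
    rw [div_pow, one_pow, Real.sq_sqrt (Nat.cast_nonneg i)]
  have a2 := (sum_le_sum_of_subset_of_nonneg (erase_subset 0 _) fun j _ _ => sq_nonneg (x j)).trans h
  have a3 : b ^ 2 + (J : ℝ) ^ 2 * (1 + Real.log J) ≤ (1 + Real.log J) * (b + J) ^ 2 := by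
    have : 0 ≤ b * J := by positivity
    nlinarith [mul_nonneg hL (sq_nonneg b), mul_nonneg hL this]
  refine le_trans (le_abs_self _) (abs_le_of_sq_le_sq' ?_ (by positivity)).2 |>.trans' (le_abs_self _)
  rw [sq_abs, sq_abs]
  refine (sum_mul_sq_le_sq_mul_sq _ _ _).trans ?_
  refine (mul_le_mul a1 a2 (sum_nonneg fun _ _ => sq_nonneg _) (by positivity)).trans ?_
  simp only [mul_pow, Real.sq_sqrt hl, Real.sq_sqrt (by positivity : 0 ≤ 2 * C)]
  calc _ ≤ 2 * (1 + Real.log J) * (C * ((1 + Real.log J) * (b + J) ^ 2) * G ^ 2 * l) := by gcongr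
    _ = _ := by ring

theorem t_CH (hBES : S_BES) : S_CH := by
  obtain ⟨C, hC, H⟩ := hBES
  refine ⟨16 + 2 * √(2 * C), by positivity, ?_⟩
  intro ε B T G0 G1 G2 t0 t1 t2 J g h1 h2 hB hT hJ h0 h01 h12 ht hg hG0 hG1 hG2
  have hε : 0 < ε := lt_of_lt_of_le (by positivity) h1
  have hJ' : (1 : ℝ) ≤ J := by exact_mod_cast hJ
  have ht1 : 0 < t1 := h0.trans_le h01
  have ht2 : 0 < t2 := ht1.trans_le h12
  have g0 : 0 ≤ G0 := (norm_nonneg _).trans (hG0 0)
  have hσ : 0 < 2 * √B * J := by positivity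
  have P : ∀ (a b G : ℝ) (u : ℝ → ℂ), 0 < a → a ≤ b → Continuous u →
      (∀ θ, a ≤ |θ| → |θ| ≤ b → ‖u θ‖ ≤ G) →
      ∑ j ∈ (Icc (-(J : ℤ)) J).erase 0, 1 / √|(j : ℝ)| * ‖∫ θ in a..b, chp ε j θ * u θ‖ ≤
        √(2 * C) * ((1 + Real.log J) * ((b + J) * G * √(Real.log (b / a)))) := by
    intro a b G u ha hab hu hG
    have hG' : ∀ θ, a ≤ θ → θ ≤ b → ‖u θ‖ ≤ G := fun θ h h' =>
      hG θ (h.trans (le_abs_self θ)) (by rwa [abs_of_pos (ha.trans_le h)])
    exact ch_piece hC (ha.le.trans hab) ((norm_nonneg _).trans (hG' a le_rfl hab))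
      (Real.log_nonneg ((one_le_div ha).2 hab)) hJ
      (H ε a b G J u hε (by linarith) ha hab hJ hu hG')
  have gn : Continuous fun θ => g (-θ) := by fun_prop
  have P1 := P t0 t1 G1 g h0 h01 hg hG1
  have P2 := P t1 t2 G2 g ht1 h12 hg hG2
  have P3 := P t0 t1 G1 _ h0 h01 gn fun θ h h' => hG1 _ (by rwa [abs_neg]) (by rwa [abs_neg])
  have P4 := P t1 t2 G2 _ ht1 h12 gn fun θ h h' => hG2 _ (by rwa [abs_neg]) (by rwa [abs_neg])
  have key : ∀ j ∈ (Icc (-(J : ℤ)) J).erase 0, ‖∫ θ : ℝ, chp ε j θ * g θ‖ ≤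
      (2 * (2 * √B * J) * gs T * G0 + 2 * t0 * G0) +
      (‖∫ θ in t0..t1, chp ε j θ * g θ‖ + ‖∫ θ in t0..t1, chp ε j θ * g (-θ)‖) +
      (‖∫ θ in t1..t2, chp ε j θ * g θ‖ + ‖∫ θ in t1..t2, chp ε j θ * g (-θ)‖) := by
    intro j hj
    have b : ∀ θ, ‖chp ε j θ * g θ‖ ≤ gs ((θ - 0) / (2 * √B * J)) * G0 := fun θ => by
      rw [norm_mul, sub_zero]
      exact mul_le_mul (ch_le h1 h2 hB hJ (mem_of_mem_erase hj) θ) (hG0 θ) (norm_nonneg _)
        (gs_pos _).le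
    have i0 := (integrable_gs hσ 0).mul_const G0
    have i : MeasureTheory.Integrable fun θ => chp ε j θ * g θ :=
      i0.mono' ((ch_cont ε j).mul hg).aestronglyMeasurable (Eventually.of_forall b)
    rw [ch_split i t0 t1 ht2.le]
    simp only [ch_neg]
    refine norm_add_le_of_le (norm_add_le_of_le (norm_add_le_of_le ?_ ?_) (norm_add_le _ _))
      (norm_add_le _ _)
    · refine (MeasureTheory.norm_integral_le_of_norm_le i0.integrableOn
        (Eventually.of_forall b)).trans ?_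
      rw [MeasureTheory.integral_mul_const]
      refine mul_le_mul_of_nonneg_right (integral_gs_tail hσ (by linarith) 0
        measurableSet_Ioc.compl fun x hx => ht.trans ?_) g0
      rw [sub_zero]
      by_contra hc
      rw [not_le, abs_lt] at hc
      exact hx ⟨hc.1, hc.2.le⟩
    · refine (intervalIntegral.norm_integral_le_of_norm_le_const (C := G0) fun θ _ =>
        (b θ).trans (mul_le_of_le_one_left g0 (gs_le_one _))).trans (le_of_eq ?_)
      rw [abs_of_pos (by linarith)]; ring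
  have S : ∑ j ∈ (Icc (-(J : ℤ)) J).erase 0, 1 / √|(j : ℝ)| ≤ 4 * √(J : ℝ) := by
    rw [ch_sum (fun y => 1 / √y) J]
    linarith [Pool.Agent.P.MP_e86632_nt.sum_inv_sqrt_le J]
  have sJ : √(J : ℝ) ≤ J := Real.sqrt_le_self_iff.2 (.inr hJ')
  refine (sum_le_sum fun j hj => mul_le_mul_of_nonneg_left (key j hj) (by positivity)).trans ?_
  have gT := (gs_pos T).le
  have c1 : 0 ≤ (J : ℝ) ^ 2 * √B * G0 * gs T := by positivity
  have c2 : 0 ≤ √(J : ℝ) * t0 * G0 := by positivity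
  have c3 := (sum_nonneg fun j _ => by positivity).trans P1
  have c4 := (sum_nonneg fun j _ => by positivity).trans P2
  have c5 : 0 < √(2 * C) := by positivity
  have c6 := mul_le_mul_of_nonneg_right S
    (show 0 ≤ 2 * (2 * √B * J) * gs T * G0 + 2 * t0 * G0 by positivity)
  have c7 := mul_le_mul_of_nonneg_right sJ (show 0 ≤ √B * J * gs T * G0 by positivity)
  simp only [mul_add _ (_ + _ : ℝ), mul_add _ (‖_‖ : ℝ), sum_add_distrib]
  rw [← sum_mul]
  have d3 := nonneg_of_mul_nonneg_right c3 c5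
  have d4 := nonneg_of_mul_nonneg_right c4 c5
  nlinarith [mul_nonneg c5.le c1, mul_nonneg c5.le c2]

end Pool.Agent.P.MP_8be758_nt.Av2
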