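import Pool.Agent.P.MP_8be758_nt.Av2.Basic

/-! The step `S_CUT`. -/

namespace Pool.Agent.P.MP_8be758_nt.Av2

open Finset Real Filter Topology
open Pool.Agent.P.MP_e86632_nt (ee)
open Pool.Agent.P.MP_8be758_nt.Avg
open scoped ContDiff

/-- smooth functions which vanish outside the basic interval -/
def cut_H (h : ℝ → ℂ) : Prop := ContDiff ℝ ∞ h ∧ ∀ w, w ∉ Set.Icc (1 / 4 : ℝ) 4 → h w = 0

/-- the derivative of the square root -/
noncomputable def cut_q (w : ℝ) : ℂ := (((2 * √w)⁻¹ : ℝ) : ℂ)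

/-- the twisted derivative -/
noncomputable def cut_D (a b : ℂ) (h : ℝ → ℂ) (w : ℝ) : ℂ :=
  deriv h w + a * h w + b * (h w * cut_q w)

/-- the exponential factor -/
noncomputable def cut_E (κ a b : ℂ) (w : ℝ) : ℂ := κ * Complex.exp (a * w + b * (√w : ℝ))

variable {h : ℝ → ℂ} {w : ℝ}

theorem cut_ev (H : cut_H h) (hw : w ∉ Set.Icc (1 / 4 : ℝ) 4) : h =ᶠ[𝓝 w] fun _ => 0 :=
  mem_of_superset (isClosed_Icc.isOpen_compl.mem_nhds hw) H.2

theorem cut_deriv (H : cut_H h) : cut_H (deriv h) :=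
  ⟨(contDiff_infty_iff_deriv.1 H.1).2, fun _ hw => by rw [(cut_ev H hw).deriv_eq, deriv_const]⟩

theorem cut_out (hw : w ≤ 0) : w ∉ Set.Icc (1 / 4 : ℝ) 4 := fun h => by linarith [h.1]

theorem cut_r (H : cut_H h) : cut_H fun w => h w * cut_q w := by
  refine ⟨contDiff_iff_contDiffAt.2 fun w => ?_, fun w hw => by simp only [H.2 w hw, zero_mul]⟩
  rcases lt_or_ge 0 w with hw | hw
  · exact H.1.contDiffAt.mul (Complex.ofRealCLM.contDiff.contDiffAt.comp w
      ((contDiffAt_const.mul (Real.contDiffAt_sqrt hw.ne')).inv (by positivity)))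
  · refine contDiffAt_const (c := (0 : ℂ)).congr_of_eventuallyEq ?_
    filter_upwards [cut_ev H (cut_out hw)] with x hx
    rw [hx, zero_mul]

theorem cut_DH (a b : ℂ) (H : cut_H h) : cut_H (cut_D a b h) :=
  ⟨((cut_deriv H).1.add (contDiff_const.mul H.1)).add (contDiff_const.mul (cut_r H).1),
    fun w hw => by rw [cut_D, (cut_deriv H).2 w hw, H.2 w hw]; simp⟩

theorem cut_bd (H : cut_H h) : ∃ B, 0 < B ∧ ∀ w, ‖h w‖ ≤ B := by
  obtain ⟨B, hB⟩ := (isCompact_Icc (a := (1 / 4 : ℝ)) (b := 4)).exists_bound_of_continuousOn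
    H.1.continuous.continuousOn
  refine ⟨max B 1, by positivity, fun w => ?_⟩
  by_cases hw : w ∈ Set.Icc (1 / 4 : ℝ) 4
  · exact (hB w hw).trans (le_max_left _ _)
  · rw [H.2 w hw, norm_zero]
    positivity

theorem cut_dif (H : cut_H h) (w : ℝ) : HasDerivAt h (deriv h w) w :=
  (H.1.differentiable (by simp) w).hasDerivAt

theorem cut_key (κ a b : ℂ) (H : cut_H h) (w : ℝ) :
    HasDerivAt (fun w => h w * cut_E κ a b w) (cut_D a b h w * cut_E κ a b w) w := by
  rcases lt_or_ge 0 w with hw | hw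
  · have h1 : HasDerivAt (fun w : ℝ => a * w + b * (√w : ℝ)) (a * 1 + b * cut_q w) w := by
      refine ((hasDerivAt_id w).ofReal_comp.const_mul a).add (HasDerivAt.const_mul b ?_)
      rw [cut_q, ← one_div]
      exact (Real.hasDerivAt_sqrt hw.ne').ofReal_comp
    refine ((cut_dif H w).mul (h1.cexp.const_mul κ)).congr_deriv ?_
    rw [cut_D, cut_E]
    ring
  · rw [(cut_DH a b H).2 w (cut_out hw), zero_mul]
    refine (hasDerivAt_const w (0 : ℂ)).congr_of_eventuallyEq ?_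
    filter_upwards [cut_ev H (cut_out hw)] with x hx
    rw [hx, zero_mul]

theorem cut_Dle (a b : ℂ) (H : cut_H h) {B : ℝ} (h0 : ‖h w‖ ≤ B) (h1 : ‖deriv h w‖ ≤ B) :
    ‖cut_D a b h w‖ ≤ B * (1 + ‖a‖ + ‖b‖) := by
  have h2 : ‖h w * cut_q w‖ ≤ B := by
    by_cases hw : w ∈ Set.Icc (1 / 4 : ℝ) 4
    · have h3 : 1 / 2 ≤ √w := Real.le_sqrt_of_sq_le (by linarith [hw.1])
      rw [norm_mul, cut_q, Complex.norm_real, Real.norm_of_nonneg (by positivity)]
      exact (mul_le_of_le_one_right (norm_nonneg _) (inv_le_one_of_one_le₀ (by linarith))).trans h0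
    · rwa [H.2 w hw, zero_mul, ← H.2 w hw]
  refine (norm_add₃_le.trans ?_).trans_eq (show B + ‖a‖ * B + ‖b‖ * B = _ by ring)
  rw [norm_mul, norm_mul]
  gcongr

theorem cut_DD (H : cut_H h) : ∃ B, 0 < B ∧ ∀ (a b : ℂ) w,
    ‖cut_D a b (cut_D a b h) w‖ ≤ B * (1 + ‖a‖ + ‖b‖) ^ 2 := by
  obtain ⟨B0, p0, h0⟩ := cut_bd H
  obtain ⟨B1, p1, h1⟩ := cut_bd (cut_deriv H)
  obtain ⟨B2, p2, h2⟩ := cut_bd (cut_deriv (cut_deriv H))
  obtain ⟨B3, p3, h3⟩ := cut_bd (cut_deriv (cut_r H))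
  refine ⟨B0 + B1 + B2 + B3, by positivity, fun a b w => ?_⟩
  rw [sq, ← mul_assoc]
  refine cut_Dle a b (cut_DH a b H) (cut_Dle a b H (by linarith [h0 w]) (by linarith [h1 w])) ?_
  have d : HasDerivAt (cut_D a b h) _ w := ((cut_dif (cut_deriv H) w).add
    ((cut_dif H w).const_mul a)).add ((cut_dif (cut_r H) w).const_mul b)
  rw [d.deriv]
  refine (norm_add₃_le.trans ?_).trans_eq (show (B0 + B1 + B2 + B3) + ‖a‖ * (B0 + B1 + B2 + B3) +
    ‖b‖ * (B0 + B1 + B2 + B3) = _ by ring)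
  rw [norm_mul, norm_mul]
  gcongr
  exacts [by linarith [h2 w], by linarith [h1 w], by linarith [h3 w]]

theorem cut_sc {φ φ' : ℝ → ℂ} (H : ∀ w, HasDerivAt φ (φ' w) w) (s : ℝ) (n : ℕ) (u : ℝ) :
    HasDerivAt (fun u => φ (u / s ^ 2) / s ^ n) (φ' (u / s ^ 2) / s ^ (n + 2)) u := by
  refine (((H _).scomp u ((hasDerivAt_id u).div_const (s ^ 2))).div_const _).congr_deriv ?_
  rw [Complex.real_smul, pow_add]
  push_cast
  simp only [id]
  ring

theorem t_CUT : S_CUT := by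
  obtain ⟨χ, hχ⟩ : ∃ χ : ℝ → ℝ, χ = fun w => smoothTransition (4 * w - 1) *
    smoothTransition ((4 - w) / 2) := ⟨_, rfl⟩
  have c0 : ∀ w, w ∉ Set.Icc (1 / 4 : ℝ) 4 → χ w = 0 := fun w hw => by
    rw [Set.mem_Icc, not_and_or, not_le, not_le] at hw
    rcases hw with h | h
    · simp only [hχ, smoothTransition.zero_of_nonpos (show 4 * w - 1 ≤ 0 by linarith), zero_mul]
    · simp only [hχ, smoothTransition.zero_of_nonpos (show (4 - w) / 2 ≤ 0 by linarith), mul_zero]
  have H0 : cut_H fun w => ((2 * χ w : ℝ) : ℂ) := by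
    refine ⟨Complex.ofRealCLM.contDiff.comp (contDiff_const.mul ?_), fun w hw => by simp [c0 w hw]⟩
    rw [hχ]
    exact (smoothTransition.contDiff.comp (by fun_prop)).mul
      (smoothTransition.contDiff.comp (by fun_prop))
  have H := cut_r H0
  obtain ⟨B, hB, hb⟩ := cut_DD H
  refine ⟨4 * B, by positivity, χ, fun w => ?_, fun w h1 h2 => ?_, c0, fun κ a b M s hs hM => ?_⟩
  · rw [hχ]
    exact ⟨mul_nonneg (smoothTransition.nonneg _) (smoothTransition.nonneg _),
      mul_le_one₀ (smoothTransition.le_one _) (smoothTransition.nonneg _)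
        (smoothTransition.le_one _)⟩
  · simp only [hχ, smoothTransition.one_of_one_le (show 1 ≤ 4 * w - 1 by linarith),
      smoothTransition.one_of_one_le (show 1 ≤ (4 - w) / 2 by linarith), mul_one]
  have s0 : 0 < s := by linarith
  have M0 : 0 ≤ M := (norm_nonneg _).trans (hM 0)
  have H1 := cut_DH a b H
  have H2 := cut_DH a b H1
  refine ⟨_, _, fun u => (cut_sc (cut_key κ a b H) s 1 u).congr_of_eventuallyEq
    (.of_forall fun u => ?_), cut_sc (cut_key κ a b H1) s 3,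
    continuous_iff_continuousAt.2 fun u => (cut_sc (cut_key κ a b H2) s 5 u).continuousAt, ?_⟩
  · rcases le_or_gt u 0 with hu | hu
    · simp [c0 _ (cut_out (div_nonpos_of_nonpos_of_nonneg hu (sq_nonneg s)))]
    · have e1 : √(u / s ^ 2) = √u / s := by rw [Real.sqrt_div hu.le, Real.sqrt_sq s0.le]
      have e2 : ((√u / s : ℝ) : ℂ) ^ 2 = (u / s ^ 2 : ℝ) := by
        rw [← Complex.ofReal_pow, div_pow, Real.sq_sqrt hu.le]
      have n1 : ((√u : ℝ) : ℂ) ≠ 0 := by exact_mod_cast (Real.sqrt_pos.2 hu).ne'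
      have n2 : (s : ℂ) ≠ 0 := by exact_mod_cast s0.ne'
      simp only [cut_E, cut_q, e1, e2]
      generalize Complex.exp _ = y
      push_cast
      field_simp
  · rw [← MeasureTheory.setIntegral_eq_integral_of_forall_compl_eq_zero (s := Set.Icc 0 (4 * s ^ 2))
      fun u hu => by
        rw [H2.2, zero_mul, zero_div, norm_zero]
        intro h1
        have h2 := (le_div_iff₀ (by positivity)).1 h1.1
        exact hu ⟨le_trans (by positivity) h2, (div_le_iff₀ (by positivity)).1 h1.2⟩]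
    refine (Real.le_norm_self _).trans ((MeasureTheory.norm_setIntegral_le_of_norm_le_const
      (C := B * (1 + ‖a‖ + ‖b‖) ^ 2 * M / s ^ 2) isCompact_Icc.measure_lt_top fun u hu => ?_).trans_eq ?_)
    · have h1 := hM √(u / s ^ 2)
      rw [← Complex.ofReal_pow, Real.sq_sqrt (div_nonneg hu.1 (sq_nonneg s))] at h1
      rw [norm_norm, norm_div, norm_mul, norm_pow, Complex.norm_real, Real.norm_of_nonneg s0.le]
      gcongr
      exacts [hb _ _ _, h1, by norm_num]
    · rw [Real.volume_real_Icc_of_le (by positivity)]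
      field_simp
      ring

end Pool.Agent.P.MP_8be758_nt.Av2
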