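import Pool.Agent.P.MP_8be758_nt.Av2.Basic

/-! The step `S_EXP`. -/

namespace Pool.Agent.P.MP_8be758_nt.Av2

open Finset Real Filter Topology
open Pool.Agent.P.MP_e86632_nt (ee)
open Pool.Agent.P.MP_8be758_nt.Avg

theorem exp_pos_mem {ι : Type*} {l : ι → ℝ} {S : Finset ι} (h : 0 < ∑ i ∈ S, l i) :
    ∃ i ∈ S, 0 < l i := by
  by_contra h1
  push Not at h1
  exact absurd (sum_nonpos h1) (not_le.2 h)

theorem t_EXP : S_EXP := by
  intro n l β τ hl h1 h2 h3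
  rw [or_iff_not_imp_left]
  intro hc
  push Not at hc
  obtain ⟨S, hS, hm⟩ := exists_max_image (univ.filter fun S : Finset (Fin n) => ∑ i ∈ S, l i ≤ β)
    (fun S => ∑ i ∈ S, l i) ⟨∅, by simpa using h3⟩
  have s1 := (mem_filter.1 hS).2
  have s2 : ∀ T : Finset (Fin n), ∑ i ∈ T, l i ≤ β → ∑ i ∈ T, l i ≤ ∑ i ∈ S, l i :=
    fun T hT => hm T (mem_filter.2 ⟨mem_univ _, hT⟩)
  have s3 : ∀ i, l i ≤ ∑ i ∈ S, l i := fun i => by simpa using s2 {i} (by simpa using (hl i).2)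
  have key : ∀ i, i ∉ S → 0 < l i → ∑ j ∈ (insert i S)ᶜ, l j ≤ β ∧
      ∑ j ∈ (insert i S)ᶜ, l j = ∑ j, l j - l i - ∑ j ∈ S, l j := fun i hi hp => by
    have e := sum_add_sum_compl (insert i S) l
    refine ⟨hc _ (not_le.1 fun h => ?_), by rw [sum_insert hi] at e; linarith⟩
    have := s2 _ h
    rw [sum_insert hi] at this
    linarith
  obtain ⟨i2, a1, a2⟩ := exp_pos_mem (l := l) (S := Sᶜ) (by linarith [sum_add_sum_compl S l])
  obtain ⟨a3, a4⟩ := key i2 (mem_compl.1 a1) a2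
  obtain ⟨i3, b1, b2⟩ := exp_pos_mem (l := l) (S := (insert i2 S)ᶜ) (by linarith [(hl i2).2])
  have b0 := mem_compl.1 b1
  rw [mem_insert, not_or] at b0
  obtain ⟨b3, b4⟩ := key i3 b0.2 b2
  have c1 := add_sum_erase _ l b1
  have c2 : ∑ j ∈ (insert i2 S)ᶜ.erase i3, l j = 0 := by
    refine le_antisymm (not_lt.1 fun h => ?_) (sum_nonneg fun j _ => (hl j).1)
    obtain ⟨i4, d1, d2⟩ := exp_pos_mem h
    obtain ⟨d3, d4⟩ := key i4
      (fun c => mem_compl.1 (mem_of_mem_erase d1) (mem_insert_of_mem c)) d2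
    have := single_le_sum (fun j _ => (hl j).1) d1
    linarith
  have c3 := add_sum_erase univ l (mem_univ i2)
  have c4 := add_sum_erase (univ.erase i2) l (mem_erase.2 ⟨b0.1, mem_univ i3⟩)
  exact ⟨i2, i3, Ne.symm b0.1, by linarith, by linarith, by linarith,
    by linarith [s3 i2, s3 i3]⟩

end Pool.Agent.P.MP_8be758_nt.Av2
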