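import Pool.Agent.P.MP_8be758_nt.Av2.Basic

/-! The step `S_FINAL2`. -/

namespace Pool.Agent.P.MP_8be758_nt.Av2

open Finset Real Filter Topology
open Pool.Agent.P.MP_e86632_nt (ee)
open Pool.Agent.P.MP_8be758_nt.Avg

theorem t_FINAL2 (θ δ : ℝ) (hθ : 4 / 5 ≤ θ) (hδ : 0 < δ) (hP : S_PIECES2 θ δ) : S_FINAL2 θ δ := by
  classical
  intro ε hε
  obtain ⟨e, he0, he1, heε⟩ : ∃ e : ℝ, 0 < e ∧ e ≤ 1 ∧ e ≤ ε :=
    ⟨min 1 ε, by positivity, min_le_left _ _, min_le_right _ _⟩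
  obtain ⟨c0, hc0, hS⟩ := lib_SING (e / 2) (by positivity)
  obtain ⟨R1, hR1⟩ := hS (e / 10) (by positivity)
  obtain ⟨f, hf0, hf1, hf2⟩ : ∃ f : ℝ, 0 < f ∧ f ≤ e / 2 ∧ f ≤ e * c0 / (20 * (1 + c0)) :=
    ⟨min (e / 2) (e * c0 / (20 * (1 + c0))), by positivity, min_le_left _ _, min_le_right _ _⟩
  obtain ⟨R2, hR2⟩ := hP f hf0
  have h1 := tendsto_natCast_atTop_atTop.eventually
    (ev_K (hR1 (max R1 R2) (le_max_left _ _)) (show 0 < θ by linarith))
  have h2 := hR2 (max R1 R2) (le_max_right _ _)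
  generalize max R1 R2 = R at h1 h2
  obtain ⟨n₀, hn₀⟩ := eventually_atTop.1
    (h1.and (h2.and ((lib_LA (e / 10) (by positivity)).and (eventually_ge_atTop 2))))
  refine ⟨n₀, fun n K hn hK1 hK2 => ?_⟩
  obtain ⟨a1, a2, a3, a4⟩ := hn₀ n hn
  have b1 := a1 K hK1
  have b2 := a2 K hK1 hK2
  have hn2 : (2 : ℝ) ≤ n := by exact_mod_cast a4
  have hKn : K ≤ n ^ 2 := by
    have := hK2.trans (Real.rpow_le_rpow_of_exponent_le (by linarith : (1 : ℝ) ≤ n)
      (show 2 - δ ≤ (2 : ℕ) by push_cast; linarith))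
    rw [Real.rpow_natCast] at this
    exact_mod_cast this
  have hM : 0 < n / Real.log n := div_pos (by linarith) (Real.log_pos (by linarith))
  refine le_trans ?_ ((add_le_add b1 b2).trans ?_)
  · rw [← Nat.cast_add, Nat.cast_le]
    refine le_trans ?_ (card_union_le _ _)
    rw [← Set.ncard_coe_finset]
    refine Set.ncard_le_ncard (fun A hA => ?_) (Finset.finite_toSet _)
    obtain ⟨c1, c2, c3, c4⟩ := hA
    by_contra hcon
    rw [mem_coe, mem_union, not_or, mem_filter, mem_filter] at hcon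
    have hA : A ∈ Icc 1 K := mem_Icc.2 ⟨by omega, c2⟩
    obtain ⟨d1, C, d2, d3⟩ := not_not.1 fun h => hcon.1 ⟨hA, c3, h⟩
    have d4 := not_lt.1 fun h => hcon.2 ⟨hA, h⟩
    have hs : 0 < sing R A := hc0.trans_le d1
    have d5 : f * (1 + sing R A) ≤ e / 20 * sing R A := by
      rw [le_div_iff₀ (by positivity)] at hf2
      have d6 : c0 * (1 + sing R A) ≤ sing R A * (1 + c0) := by nlinarith
      refine le_of_mul_le_mul_right ?_ (show 0 < 20 * (1 + c0) by positivity)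
      nlinarith [mul_le_mul_of_nonneg_right hf2 (show 0 ≤ 1 + sing R A by linarith),
        mul_le_mul_of_nonneg_left d6 he0.le]
    have d7 := final_num he0 he1 heε hs hM d3 (a3 A c1 (c2.trans hKn))
      (d4.trans (by nlinarith [mul_le_mul_of_nonneg_right d5 hM.le]))
    exact c4 ⟨C, d7.1, d2, d7.2⟩
  · have : (0 : ℝ) ≤ K := Nat.cast_nonneg K
    nlinarith

end Pool.Agent.P.MP_8be758_nt.Av2
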