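import Pool.Agent.P.MP_8be758_nt.Av2.Basic

/-! The step `S_FLT`. -/

namespace Pool.Agent.P.MP_8be758_nt.Av2

open Finset Real Filter Topology
open Pool.Agent.P.MP_e86632_nt (ee)
open Pool.Agent.P.MP_8be758_nt.Avg

theorem t_FLT : S_FLT := by
  classical
  intro z L δ lam Del hL ⟨h1, h2, h3⟩
  have hL0 : 0 < L := by linarith
  have he : ∀ E ∈ (PL z).powerset, (1 : ℝ) ≤ ∏ p ∈ E, (p : ℝ) := fun E hE =>
    Finset.one_le_prod fun p hp => by
      exact_mod_cast (prime_of_mem_PL (mem_powerset.1 hE hp)).one_le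
  obtain ⟨t, ht⟩ : ∃ t, t = ∑ E ∈ (PL z).powerset,
    if L ^ 2 < ∏ p ∈ E, (p : ℝ) then |lam E| else 0 := ⟨_, rfl⟩
  have t0 : 0 ≤ t := ht ▸ sum_nonneg fun _ _ => by positivity
  have t1 : t ≤ 1 / L := by
    rw [le_div_iff₀ hL0]
    refine le_of_mul_le_mul_right (a := L) ?_ hL0
    rw [one_mul, mul_assoc, ht, sum_mul]
    refine (sum_le_sum fun E hE => ?_).trans h1
    have := he E hE
    have a := abs_nonneg (lam E)
    have b := abs_nonneg (Del E)
    split_ifs with h
    · nlinarith [mul_le_mul_of_nonneg_left h.le a]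
    · rw [zero_mul]; positivity
  have t2 : t ≤ 1 := t1.trans ((div_le_one hL0).2 hL)
  have hs : ∀ (c : ℝ) (g : ℕ → ℝ), ∑ E ∈ (PL z).powerset,
      (if E = ∅ then c else 0) * ∏ p ∈ E, g p = c := fun c g => by simp
  refine ⟨fun E => (if L ^ 2 < ∏ p ∈ E, (p : ℝ) then 0 else lam E) + if E = ∅ then t else 0,
    fun E => Del E + if E = ∅ then 2 * t else 0, ⟨?_, fun g hg => ?_, ?_⟩, fun E hE h => ?_⟩
  · have : ∑ E ∈ (PL z).powerset, ((|lam E| + |Del E|) * ∏ p ∈ E, (p : ℝ) +
        (if E = ∅ then 3 * t else 0) * ∏ p ∈ E, (p : ℝ)) ≤ 4 * L := by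
      rw [sum_add_distrib, hs]
      linarith
    refine (sum_le_sum fun E hE => ?_).trans this
    rw [← add_mul]
    refine mul_le_mul_of_nonneg_right ?_ (by linarith [he E hE])
    have a := abs_nonneg (lam E)
    have b := abs_add_le (lam E) t
    have c := abs_add_le (Del E) (2 * t)
    rw [abs_of_nonneg t0] at b
    rw [abs_of_nonneg (a := 2 * t) (by linarith)] at c
    beta_reduce
    split_ifs <;> (try simp only [add_zero, zero_add, abs_zero, abs_of_nonneg t0]) <;> linarith
  · obtain ⟨a, b⟩ := h2 g hg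
    have c : |∑ E ∈ (PL z).powerset, lam E * ∏ p ∈ E, g p - ∑ E ∈ (PL z).powerset,
        (if L ^ 2 < ∏ p ∈ E, (p : ℝ) then 0 else lam E) * ∏ p ∈ E, g p| ≤ t := by
      rw [← sum_sub_distrib, ht]
      refine (abs_sum_le_sum_abs _ _).trans (sum_le_sum fun E hE => ?_)
      have g0 := fun p hp => hg p (mem_powerset.1 hE hp)
      split_ifs
      · rw [zero_mul, sub_zero, abs_mul, abs_of_nonneg (prod_nonneg fun p hp => (g0 p hp).1)]
        exact mul_le_of_le_one_right (abs_nonneg _)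
          (prod_le_one (fun p hp => (g0 p hp).1) fun p hp => (g0 p hp).2)
      · simp
    simp only [add_mul, sum_add_distrib, hs]
    rw [abs_le] at c
    constructor <;> linarith
  · simp only [add_mul, sum_add_distrib, hs]
    have : 2 / L = 2 * (1 / L) := by ring
    linarith
  · by_contra hc
    rw [not_le] at hc
    have : E ≠ ∅ := by
      rintro rfl
      rw [prod_empty] at hc
      nlinarith
    simp [hc, this] at h

end Pool.Agent.P.MP_8be758_nt.Av2
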