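import Pool.Agent.P.MP_8be758_nt.Av2.Basic

/-! The step `S_FRZ`. -/

namespace Pool.Agent.P.MP_8be758_nt.Av2

open Finset Real Filter Topology
open Pool.Agent.P.MP_e86632_nt (ee)
open Pool.Agent.P.MP_8be758_nt.Avg

theorem frz_gen {α : ℕ → ℝ} {I : Finset ℕ} {n0 μ0 : ℕ} (h : μ0 ≤ n0) (T1 T2 G : ℕ → ℕ → ℕ → ℝ)
    {M : ℝ} (hα : ∀ a ∈ I, |α a| ≤ M) (hG : ∀ a1 ∈ I, ∀ a2 ∈ I, ∀ μ, 1 ≤ μ →
      |T1 μ a1 a2 - if μ ≤ μ0 then T2 μ a1 a2 else 0| ≤ G μ a1 a2) :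
    |offS α I n0 T1 - offS α I μ0 T2| ≤ M * M * offS (fun _ => 1) I n0 G := by
  simp only [offS, one_mul]
  rw [← sum_sub_distrib, mul_sum]
  refine (abs_sum_le_sum_abs _ _).trans (sum_le_sum fun a1 h1 => ?_)
  rw [← sum_sub_distrib, mul_sum]
  refine (abs_sum_le_sum_abs _ _).trans (sum_le_sum fun a2 h2 => ?_)
  have e : (Icc 1 μ0).filter (fun μ => Cg μ a1 a2) =
      ((Icc 1 n0).filter fun μ => Cg μ a1 a2).filter (· ≤ μ0) := by
    ext μ
    simp only [mem_filter, mem_Icc]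
    exact ⟨fun ⟨⟨a, b⟩, c⟩ => ⟨⟨⟨a, b.trans h⟩, c⟩, b⟩, fun ⟨⟨⟨a, _⟩, c⟩, b⟩ => ⟨⟨a, b⟩, c⟩⟩
  rw [e, sum_filter (· ≤ μ0), ← mul_sub, ← sum_sub_distrib, abs_mul, abs_mul]
  have hM := (abs_nonneg _).trans (hα a1 h1)
  refine mul_le_mul (mul_le_mul (hα a1 h1) (hα a2 h2) (abs_nonneg _) hM)
    ((abs_sum_le_sum_abs _ _).trans (sum_le_sum fun μ hμ => ?_)) (abs_nonneg _) (by positivity)
  exact hG a1 h1 a2 h2 μ (mem_Icc.1 (mem_filter.1 hμ).1).1

theorem frz_exp {s s' ρ η : ℝ} (h0 : 0 ≤ s) (h1 : s ≤ s') (h2 : s' ≤ (1 + η) ^ 2 * s) (e0 : 0 < η)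
    (e1 : η ≤ 1 / 4) (r0 : 1 - η ≤ ρ) (r1 : ρ ≤ 1) :
    |exp (-s') - ρ * exp (-s)| ≤ 4 * η * exp (-(s' / 4)) := by
  have hE := exp_pos (-s)
  have a0 : s' ≤ s + 9 / 4 * (η * s) := by
    nlinarith [mul_nonneg (mul_nonneg e0.le h0) (sub_nonneg.2 e1)]
  have a1 : η * s ≤ 1 / 4 * s := by gcongr
  have b1 : exp (-s') ≤ exp (-s) := exp_le_exp.2 (by linarith)
  have b2 : exp (-s) * (1 - 9 / 4 * (η * s)) ≤ exp (-s') := by
    rw [show -s' = -s + -(s' - s) by ring, exp_add]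
    exact mul_le_mul_of_nonneg_left (by linarith [add_one_le_exp (-(s' - s))]) hE.le
  have b3 : exp (-s) * (1 + 9 / 16 * s) ≤ exp (-(s' / 4)) := by
    rw [show -(s' / 4) = -s + (s - s' / 4) by ring, exp_add]
    exact mul_le_mul_of_nonneg_left (by linarith [add_one_le_exp (s - s' / 4)]) hE.le
  have b4 := mul_le_mul_of_nonneg_left b3 e0.le
  have b5 : 0 ≤ η * exp (-s) := by positivity
  have b6 : 0 ≤ η * exp (-s) * s := by positivity
  have b7 := mul_le_mul_of_nonneg_right r0 hE.le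
  have b8 := mul_le_mul_of_nonneg_right r1 hE.le
  rw [abs_le]
  constructor <;> linarith

theorem frz_pt {A K η r : ℝ} (hA : 0 < A) (hK : 0 < K) (e0 : 0 < η) (e1 : η ≤ 1 / 4)
    (h1 : A ≤ r) (h2 : r ≤ (1 + η) * A) (y : ℝ) :
    |gs (r / K * y) - A / r * gs (A / K * y)| ≤ 4 * η * gs (r / (2 * K) * y) := by
  have hr : 0 < r := by linarith
  have e : gs (r / (2 * K) * y) = exp (-(π * (r / K * y) ^ 2 / 4)) := by
    rw [gs]; congr 2; field_simp; ring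
  rw [e, gs, gs]
  refine frz_exp (by positivity) ?_ ?_ e0 e1 ?_ ((div_le_one hr).2 h1)
  · simp only [mul_pow]
    gcongr
  · rw [show (1 + η) ^ 2 * (π * (A / K * y) ^ 2) = π * (((1 + η) * A / K) ^ 2 * y ^ 2) by ring,
      mul_pow]
    gcongr
  · rw [le_div_iff₀ hr]
    nlinarith [mul_le_mul_of_nonneg_left h2 (by linarith : 0 ≤ 1 - η), mul_pos (mul_pos e0 e0) hA]

theorem frz_sum {r : ℝ} (hr : 0 < r) (c : ℝ) : Summable fun b : ℤ => nuo b * gs (r * (b - c)) :=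
  (gs_summable hr c).of_nonneg_of_le (fun b => mul_nonneg (nuo_bd b).1 (gs_pos _).le) fun b =>
    mul_le_of_le_one_left (gs_pos _).le (nuo_bd b).2

theorem frz_psi {B c η : ℝ} (hB : 0 < B) (e0 : 0 < η) (c0 : 0 ≤ c) (c1 : c ≤ η ^ 2 * B / 4) :
    psi B c ≤ η ^ 2 ∧ psi B c ≤ 10 * η ^ 2 * psi (η ^ 2 * B) c := by
  have h := psi_le_lin hB c0
  obtain ⟨y, hy⟩ : ∃ y, y = π * c / (η ^ 2 * B) := ⟨_, rfl⟩
  have y0 : 0 ≤ y := by rw [hy]; positivity
  have y1 : y ≤ 4 / 5 := by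
    rw [hy, div_le_iff₀ (by positivity)]
    nlinarith [Real.pi_lt_d2]
  rw [show π * c / B = η ^ 2 * y by rw [hy]; field_simp] at h
  have e2 : 0 < η ^ 2 := by positivity
  refine ⟨h.trans (by nlinarith), h.trans ?_⟩
  rw [psi_eq, ← hy, mul_comm 10, mul_assoc]
  refine mul_le_mul_of_nonneg_left ?_ e2.le
  have a1 : 1 / 5 ≤ exp (-y) := by linarith [add_one_le_exp (-y)]
  have a2 : exp (-y) * (y + 1) ≤ 1 := by
    refine (mul_le_mul_of_nonneg_left (add_one_le_exp y) (exp_pos _).le).trans_eq ?_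
    rw [← exp_add, neg_add_cancel, exp_zero]
  have a3 : y / 2 ≤ 1 - exp (-y) := by
    refine le_of_mul_le_mul_right (a := y + 1) ?_ (by linarith)
    nlinarith
  have := mul_le_mul a1 a3 (by linarith) (exp_pos _).le
  linarith

theorem frz_nar {A B η : ℝ} {I : Finset ℕ} (hA : 0 < A) (hB : 0 < B) (e0 : 0 < η) (hI : Nar A η I)
    {a1 a2 : ℕ} (h1 : a1 ∈ I) (h2 : a2 ∈ I) :
    (A ≤ √((a1 : ℝ) * a2) ∧ √((a1 : ℝ) * a2) ≤ (1 + η) * A) ∧ |(a2 : ℝ) - a1| ≤ η * A ∧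
      ∀ μ : ℝ, √(A / B) ≤ μ → sg a1 a2 ^ 2 / μ ^ 2 ≤ η ^ 2 * B / 4 := by
  obtain ⟨p1, q1⟩ := hI a1 h1
  obtain ⟨p2, q2⟩ := hI a2 h2
  have d : |(a2 : ℝ) - a1| ≤ η * A := abs_le.2 ⟨by linarith, by linarith⟩
  have r1 : A ≤ √((a1 : ℝ) * a2) := Real.le_sqrt_of_sq_le (by nlinarith)
  refine ⟨⟨r1, Real.sqrt_le_iff.2 ⟨by positivity, ?_⟩⟩, d, fun μ hμ => ?_⟩
  · rw [sq]; gcongr
  · have m0 : 0 < √(A / B) := by positivity
    have m1 : A / B ≤ μ ^ 2 := (Real.sqrt_le_iff.1 hμ).2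
    rw [div_le_iff₀ hB] at m1
    rw [Real.sqrt_mul (Nat.cast_nonneg _)] at r1
    have s1 := Real.sq_sqrt (Nat.cast_nonneg (α := ℝ) a1)
    have s2 := Real.sq_sqrt (Nat.cast_nonneg (α := ℝ) a2)
    have e : sg a1 a2 ^ 2 * (√(a1 : ℝ) + √(a2 : ℝ)) ^ 2 = ((a2 : ℝ) - a1) ^ 2 := by
      rw [sg, ← mul_pow]; congr 1; linear_combination s2 - s1
    have t1 : ((a2 : ℝ) - a1) ^ 2 ≤ (η * A) ^ 2 := sq_le_sq' (abs_le.1 d).1 (abs_le.1 d).2
    have t2 : 4 * A ≤ (√(a1 : ℝ) + √(a2 : ℝ)) ^ 2 := by nlinarith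
    have t3 := mul_le_mul_of_nonneg_left t2 (sq_nonneg (sg a1 a2))
    have t4 : sg a1 a2 ^ 2 ≤ η ^ 2 * A / 4 := by
      refine le_of_mul_le_mul_right (a := 4 * A) ?_ (by linarith)
      linarith
    rw [div_le_iff₀ (pow_pos (m0.trans_le hμ) 2)]
    have := mul_le_mul_of_nonneg_left m1 (sq_nonneg η)
    linarith

theorem t_FRZ : S_FRZ := by
  refine ⟨10, by norm_num, fun A B K η n0 μ0 I α hA hB hK e0 e1 hμ hn hI hα => ⟨?_, ?_⟩⟩
  · refine (frz_gen hn _ _ (fun μ a1 a2 => 10 * (η * modT nuo B (2 * K) μ a1 a2 +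
      η ^ 2 * modT nuo (η ^ 2 * B) (2 * K) μ a1 a2)) (fun a _ => hα a)
      fun a1 h1 a2 h2 μ _ => ?_).trans_eq (by
        simp only [offS, one_mul, mul_add, sum_add_distrib, mul_sum])
    obtain ⟨⟨r1, r2⟩, -, hc⟩ := frz_nar hA hB e0 hI h1 h2
    simp only [modT, modF]
    have c0 : 0 ≤ sg a1 a2 ^ 2 / (μ : ℝ) ^ 2 := by positivity
    generalize √((a1 : ℝ) * a2) = r at *
    have hr : 0 < r := by linarith
    have s1 := frz_sum (r := r / K) (by positivity) (sg a1 a2 ^ 2 / (μ : ℝ) ^ 2)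
    have s2 := frz_sum (r := A / K) (by positivity) (sg a1 a2 ^ 2 / (μ : ℝ) ^ 2)
    have s3 := frz_sum (r := r / (2 * K)) (by positivity) (sg a1 a2 ^ 2 / (μ : ℝ) ^ 2)
    have p1 := psi_nonneg hB c0
    have p2 := psi_nonneg (B := η ^ 2 * B) (by positivity) c0
    have n3 : 0 ≤ ∑' b : ℤ, nuo b * gs (r / (2 * K) * (b - sg a1 a2 ^ 2 / (μ : ℝ) ^ 2)) :=
      tsum_nonneg fun b => mul_nonneg (nuo_bd b).1 (gs_pos _).le
    have q1 := mul_nonneg e0.le (mul_nonneg p1 n3)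
    have q2 := mul_nonneg (sq_nonneg η) (mul_nonneg p2 n3)
    split_ifs with h
    · rw [mul_assoc, ← mul_sub, abs_mul, abs_of_nonneg p1, ← tsum_mul_left,
        ← s1.tsum_sub (s2.mul_left _)]
      have := tsum_of_norm_bounded (s3.mul_left (4 * η)).hasSum
        (f := fun b : ℤ => nuo b * gs (r / K * (b - sg a1 a2 ^ 2 / (μ : ℝ) ^ 2)) -
          A / r * (nuo b * gs (A / K * (b - sg a1 a2 ^ 2 / (μ : ℝ) ^ 2)))) fun b => by
        rw [mul_left_comm (A / r), ← mul_sub, mul_left_comm, Real.norm_eq_abs, abs_mul,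
          abs_of_nonneg (nuo_bd b).1]
        exact mul_le_mul_of_nonneg_left (frz_pt hA hK e0 e1 r1 r2 _) (nuo_bd b).1
      rw [tsum_mul_left, Real.norm_eq_abs] at this
      have := mul_le_mul_of_nonneg_left this p1
      linarith
    · have n1 : 0 ≤ ∑' b : ℤ, nuo b * gs (r / K * (b - sg a1 a2 ^ 2 / (μ : ℝ) ^ 2)) :=
        tsum_nonneg fun b => mul_nonneg (nuo_bd b).1 (gs_pos _).le
      rw [sub_zero, abs_of_nonneg (mul_nonneg p1 n1)]
      have := mul_le_mul (frz_psi hB e0 c0 (hc μ (hμ.trans (by exact_mod_cast (not_le.1 h).le)))).2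
        (s1.tsum_le_tsum (fun b => mul_le_mul_of_nonneg_left (gs_anti (by
          rw [abs_mul, abs_mul, abs_of_pos (a := r / K) (by positivity),
            abs_of_pos (a := r / (2 * K)) (by positivity)]
          gcongr
          linarith)) (nuo_bd b).1) s3) n1 (by positivity)
      linarith
  · intro τ h1 hτ
    have τ0 : 0 ≤ τ := by simpa using hτ 0 (by simp [hA.le])
    have sA : 0 < √A := Real.sqrt_pos.2 hA
    refine (frz_gen hn _ _ (fun μ a1 a2 => if a1 = a2 then 0 else η ^ 2) (M := 1 / √A)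
      (fun a ha => ?_) fun a1 h1 a2 h2 μ _ => ?_).trans ?_
    · rw [abs_div, abs_of_nonneg (Real.sqrt_nonneg _)]
      exact div_le_div₀ zero_le_one (hα a) sA (Real.sqrt_le_sqrt (hI a ha).1.le)
    · have c0 : 0 ≤ sg a1 a2 ^ 2 / (μ : ℝ) ^ 2 := by positivity
      by_cases h : μ ≤ μ0
      · rw [if_pos h, sub_self, abs_zero]
        positivity
      · rw [if_neg h, sub_zero, abs_of_nonneg (psi_nonneg hB c0)]
        split_ifs with h'
        · simp [h', sg, psi_zero]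
        · exact (frz_psi hB e0 c0 ((frz_nar hA hB e0 hI h1 h2).2.2 μ
            (hμ.trans (by exact_mod_cast (not_le.1 h).le)))).1
    · have hc : (I.card : ℝ) ≤ 2 * (η * A) := by
        have s : I ⊆ Ioc ⌊A⌋₊ ⌊(1 + η) * A⌋₊ := fun a ha =>
          mem_Ioc.2 ⟨(Nat.floor_lt hA.le).2 (hI a ha).1, Nat.le_floor (hI a ha).2⟩
        have s1 := card_le_card s
        rw [Nat.card_Ioc] at s1
        have s2 : ⌊A⌋₊ ≤ ⌊(1 + η) * A⌋₊ := Nat.floor_le_floor (by linarith)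
        have s3 : (I.card : ℝ) ≤ ⌊(1 + η) * A⌋₊ - ⌊A⌋₊ := by
          rw [← Nat.cast_sub s2]; exact_mod_cast s1
        linarith [Nat.floor_le (by positivity : 0 ≤ (1 + η) * A), Nat.lt_floor_add_one A]
      have hs : offS (fun _ => 1) I n0 (fun μ a1 a2 => if a1 = a2 then 0 else η ^ 2) ≤
          I.card * (I.card * (τ * η ^ 2)) := by
        rw [← nsmul_eq_mul, ← nsmul_eq_mul]
        refine sum_le_card_nsmul _ _ _ fun a1 h1 => sum_le_card_nsmul _ _ _ fun a2 h2 => ?_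
        rw [one_mul, one_mul, sum_const, nsmul_eq_mul]
        split_ifs with h
        · rw [mul_zero]; positivity
        refine mul_le_mul_of_nonneg_right (le_trans ?_ (hτ ((a2 : ℤ) - a1).natAbs ?_)) (sq_nonneg _)
        · exact_mod_cast card_le_card fun μ hμ => Nat.mem_divisors.2
            ⟨Int.natCast_dvd.1 (d4_dvd (mem_filter.1 hμ).2), by omega⟩
        · rw [Nat.cast_natAbs]
          push_cast
          nlinarith [(frz_nar hA hB e0 hI h1 h2).2.1]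
      calc _ ≤ 1 / √A * (1 / √A) * (2 * (η * A) * (2 * (η * A) * (τ * η ^ 2))) := by
            refine mul_le_mul_of_nonneg_left (hs.trans ?_) (by positivity)
            gcongr
        _ = 4 * τ * η ^ 4 * A := by
            rw [div_mul_div_comm, Real.mul_self_sqrt hA.le]; field_simp; ring
        _ ≤ _ := by gcongr; norm_num

end Pool.Agent.P.MP_8be758_nt.Av2
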