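import Pool.Agent.P.MP_8be758_nt.Av2.Basic

/-! The step `S_G2`. -/

namespace Pool.Agent.P.MP_8be758_nt.Av2

open Finset Real Filter Topology
open Pool.Agent.P.MP_e86632_nt (ee)
open Pool.Agent.P.MP_8be758_nt.Avg

theorem g2_coef {N z y D : ℝ} {φ : ℕ → ℝ} (hD : 0 < D) (h : Bdd N z D φ)
    (h' : ∀ u, φ u ≠ 0 → y < u) :
    Coef z y fun u => if Rough z u then (if (u : ℝ) ≤ N ^ 3 then φ u / D else 0) else 0 := by
  refine ⟨fun u => ?_, fun u hu => ?_⟩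
  · beta_reduce
    split_ifs with h1 h2
    · rw [abs_div, abs_of_pos hD, div_le_one hD]
      exact h u h1 h2
    · simp
    · simp
  · refine ⟨by_contra fun c => hu (if_neg c), h' u fun c => hu ?_⟩
    simp [c]

theorem g2_main {θ δ β : ℝ} (hII2 : S_II2 θ δ β) (e1 : ℝ) (h1 : 0 < e1) (h2 : e1 ≤ 1 / 10)
    (D ε' : ℝ) (hD : 0 < D) (hε : 0 < ε') : ∃ R1 : ℕ, ∀ R : ℕ, R1 ≤ R → ∀ᶠ N : ℝ in atTop,
    ∀ (K X1 X2 : ℕ) (φ ψ : ArithmeticFunction ℝ), Setup2 θ δ N K X1 X2 → Bdd N (N ^ e1) D φ →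
      Bdd N (N ^ e1) D ψ → (∀ u, φ u ≠ 0 → N ^ β < u) → (∀ u, ψ u ≠ 0 → N ^ β < u) →
      Good N (N ^ e1) R K X1 X2 (φ * ψ : ArithmeticFunction ℝ) 0 ε' := by
  obtain ⟨R1, h3⟩ := hII2 e1 h1 h2 (ε' / D ^ 2) (by positivity)
  refine ⟨R1, fun R hR => ?_⟩
  filter_upwards [h3 R hR, eventually_ge_atTop 2] with N h4 hN K X1 X2 φ ψ hS b1 b2 c1 c2
  have h5 := h4 K X1 X2 _ _ hS (g2_coef hD b1 c1) (g2_coef hD b2 c2)
  simp only [bil_eq_conv] at h5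
  refine (((good_of_le h5).smul (D ^ 2)).congr fun m m1 m2 _ => ?_).mono (by linarith)
    (by simp) (le_of_eq ?_)
  · have m3 : (m : ℝ) ≤ N ^ 3 := by
      have : (m : ℝ) ≤ X2 := by exact_mod_cast m2
      nlinarith [hS.x2, sq_nonneg N]
    rw [ArithmeticFunction.mul_apply, mul_sum]
    refine sum_congr rfl fun p hp => ?_
    have p1 : (p.1 : ℝ) ≤ m := by
      exact_mod_cast Nat.divisor_le (Nat.fst_mem_divisors_of_mem_antidiagonal hp)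
    have p2 : (p.2 : ℝ) ≤ m := by
      exact_mod_cast Nat.divisor_le (Nat.snd_mem_divisors_of_mem_antidiagonal hp)
    rw [if_pos (p1.trans m3), if_pos (p2.trans m3)]
    field_simp
  · rw [abs_of_pos (by positivity)]
    field_simp

theorem t_G2 (θ δ β : ℝ) (hII2 : S_II2 θ δ β) : S_G2 θ δ β := g2_main hII2

end Pool.Agent.P.MP_8be758_nt.Av2
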