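import Pool.Agent.P.MP_8be758_nt.Av2.G3a

/-! The step `S_G3`. -/

namespace Pool.Agent.P.MP_8be758_nt.Av2

theorem t_G3 (hLAY : S_LAY) (θ δ : ℝ) (hIII : S_III θ δ) : S_G3 θ δ := g3_main hLAY θ δ hIII

end Pool.Agent.P.MP_8be758_nt.Av2
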