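import Pool.Agent.P.MP_8be758_nt.Av2.Basic

/-! The step `S_GA`. -/

namespace Pool.Agent.P.MP_8be758_nt.Av2

open Finset Real Filter Topology
open Pool.Agent.P.MP_e86632_nt (ee)
open Pool.Agent.P.MP_8be758_nt.Avg

theorem ga_shp {s M q d : ℝ} (hs : 0 < s) (hM : 0 ≤ M) (hq : 1 ≤ q) (hd : 1 ≤ d) (hd2 : d ≤ q ^ 2)
    (θ : ℝ) : shp (s / q) M (q * θ / d) ≤ q ^ 2 * shp s M θ := by
  have hq0 : 0 < q := by linarith
  have hd0 : 0 < d := by linarith
  have hq2 : 1 ≤ q ^ 2 := one_le_pow₀ hq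
  have hm : 0 ≤ M / |θ| := by positivity
  have h0 : 0 ≤ min 1 (M / |θ|) := le_min zero_le_one hm
  unfold shp
  rw [abs_div, abs_mul, abs_of_pos hq0, abs_of_pos hd0, mul_add, mul_add]
  refine add_le_add (add_le_add ?_ (le_mul_of_one_le_left hM hq2)) ?_
  · calc q * |θ| / d / (s / q) = q ^ 2 * (|θ| / s) / d := by field_simp
      _ ≤ _ := div_le_self (by positivity) hd
  · have h1 : min 1 (M / (q * |θ| / d)) ≤ q * min 1 (M / |θ|) := by
      rw [show M / (q * |θ| / d) = d / q * (M / |θ|) by rw [div_div_eq_mul_div]; ring]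
      rcases le_total (M / |θ|) 1 with h | h
      · rw [min_eq_right h]
        refine (min_le_right _ _).trans (mul_le_mul_of_nonneg_right ?_ hm)
        rw [div_le_iff₀ hq0]
        linarith
      · rw [min_eq_left h, mul_one]
        exact (min_le_left _ _).trans hq
    calc s / q * min 1 (M / (q * |θ| / d)) ≤ s / q * (q * min 1 (M / |θ|)) := by gcongr
      _ = s * min 1 (M / |θ|) := by field_simp
      _ ≤ _ := le_mul_of_one_le_left (by positivity) hq2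

theorem ga_par {Y n1 E1 E2 : ℕ} {ρ T j1 j2 τ1 τ2 : ℝ} (h : Par Y n1 ρ T j1 j2 τ1 τ2 E1 E2) :
    Par Y n1 ρ T (j1 - Real.log E1 / 2) (j2 - Real.log E1 / 2) (τ1 - Real.log (E1 * E2) / 2)
      (τ2 - Real.log (E1 * E2) / 2) 1 1 := by
  have a1 : (1 : ℝ) ≤ E1 := by exact_mod_cast h.e1
  have a2 : (1 : ℝ) ≤ E2 := by exact_mod_cast h.e2
  have l1 := Real.log_nonneg a1
  have l2 := Real.log_nonneg a2
  have b1 := (Real.log_le_iff_le_exp (by linarith)).2 h.u1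
  have b2 := (Real.log_le_iff_le_exp (by linarith)).2 h.v1
  rw [Real.log_mul (by linarith) (by linarith)]
  refine ⟨h.y2, h.r0, h.r1, h.t1, h.t2, by linarith [h.j12], by linarith [h.s12],
    by linarith [h.s21], le_rfl, le_rfl, ?_, ?_, le_trans ?_ h.u2, le_trans ?_ h.v2, h.n⟩
  · rw [Nat.cast_one]
    exact Real.one_le_exp (by linarith)
  · rw [Nat.cast_one]
    exact Real.one_le_exp (by linarith)
  · gcongr
    linarith
  · exact mul_le_mul_of_nonneg_left (Real.exp_le_exp.2 (by linarith)) (by norm_num)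

theorem t_GA (hTRU : S_TRU) (hGE0 : S_GE0) (hGR : S_GR) : S_GA := by
  obtain ⟨C, hC, hGR⟩ := hGR
  refine ⟨2 * C + 2, by positivity,
    fun Y n1 E1 E2 ν0 ρ T τ j1 j2 τ1 τ2 θ I hP hI hν1 hν2 hθ hτ hlo => ?_⟩
  have a1 : (1 : ℝ) ≤ E1 := by exact_mod_cast hP.e1
  have a2 : (1 : ℝ) ≤ E2 := by exact_mod_cast hP.e2
  have hE : (1 : ℝ) ≤ E1 * E2 := one_le_mul_of_one_le_of_one_le a1 a2
  have hE' : 1 ≤ E1 * E2 := by exact_mod_cast hE
  have hY : (1 : ℝ) ≤ Y := by have := hP.y2; exact_mod_cast (by omega : 1 ≤ Y)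
  have hL : 1 ≤ (1 + Real.log Y) ^ 4 := one_le_pow₀ (by linarith [Real.log_nonneg hY])
  have hT := hP.t1
  have hρ := hP.r0
  have hg := gs_pos T
  set q := √((E1 : ℝ) * E2) with hq
  have hq2 : q ^ 2 = E1 * E2 := Real.sq_sqrt (by linarith)
  have hq1 : 1 ≤ q := Real.one_le_sqrt.2 hE
  have hq0 : 0 < q := by linarith
  have hex : Real.exp (τ1 - Real.log (E1 * E2) / 2) = Real.exp τ1 / q := by
    rw [Real.exp_sub, hq, Real.sqrt_eq_rpow, Real.rpow_def_of_pos (by linarith)]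
    congr 2
    ring
  set S := SR ρ n1 (j1 - Real.log E1 / 2) (j2 - Real.log E1 / 2) (τ1 - Real.log (E1 * E2) / 2)
    (τ2 - Real.log (E1 * E2) / 2) with hS
  set X := (E1 : ℝ) * E2 * τ ^ 2 * T ^ 2 * shp (Real.exp τ1) ν0 θ + Neg Y T ^ 2 with hX
  have hsh := shp_nonneg (Real.exp_pos τ1).le (Nat.cast_nonneg ν0) θ
  have hX0 : Neg Y T ^ 2 ≤ X := le_add_of_nonneg_left (by positivity)
  have hX1 : 0 ≤ X := (sq_nonneg _).trans hX0
  have k1 : ∀ d ∈ (E1 * E2).divisors, GG S ν0 (q * θ / d) ≤ C * (1 + Real.log Y) ^ 4 * X := by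
    intro d hd
    have d1 : (1 : ℝ) ≤ d := by exact_mod_cast Nat.pos_of_mem_divisors hd
    have d2 : (d : ℝ) ≤ E1 * E2 := by exact_mod_cast Nat.divisor_le hd
    have e : |q * θ / d| = q * |θ| / d := by
      rw [abs_div, abs_mul, abs_of_pos hq0, Nat.abs_cast]
    refine (hGR Y n1 ν0 ρ T τ _ _ _ _ (q * θ / d) (ga_par hP) hν1 hν2 ?_ hτ ?_).trans ?_
    · rw [e]
      refine (div_le_self (by positivity) d1).trans (le_trans ?_ hθ)
      rw [mul_comm, ← hq2]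
      exact mul_le_mul_of_nonneg_left (le_self_pow₀ hq1 two_ne_zero) (abs_nonneg _)
    · rw [e, hex, show q * |θ| / d * (Real.exp τ1 / q) = |θ| * Real.exp τ1 / d by field_simp,
        le_div_iff₀ (by linarith)]
      exact le_trans (by gcongr) hlo
    · rw [hex, hX]
      have := ga_shp (Real.exp_pos τ1) (Nat.cast_nonneg ν0) hq1 d1 (hq2 ▸ d2) θ
      rw [hq2] at this
      refine mul_le_mul_of_nonneg_left (add_le_add ?_ le_rfl) (by positivity)
      calc _ ≤ τ ^ 2 * T ^ 2 * (E1 * E2 * shp (Real.exp τ1) ν0 θ) := by gcongr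
        _ = _ := by ring
  have k2 : GG (fun γ t => ((1 / q : ℝ) : ℂ) * S ((E1 * E2 : ℕ) * γ) (q * t)) ν0 θ ≤
      C * (1 + Real.log Y) ^ 4 * X := by
    rw [GG_smul (fun γ t => S ((E1 * E2 : ℕ) * γ) (q * t)), Complex.norm_real, Real.norm_eq_abs,
      sq_abs, div_pow, one_pow, hq2, one_div_mul_eq_div, div_le_iff₀ (by linarith)]
    refine (hGE0 S (E1 * E2) ν0 q θ hE' fun γ t n => SR_add_int _ _ _ _ _ _ _ _ _).trans
      ((sum_le_sum k1).trans ?_)
    rw [sum_const, nsmul_eq_mul, mul_comm]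
    gcongr
    exact_mod_cast Nat.card_divisors_le_self _
  have k3 : GG (fun _ _ => (((Y : ℝ) ^ 3 * gs T : ℝ) : ℂ)) ν0 θ ≤ Neg Y T ^ 2 := by
    refine (GG_le_const (e := (Y : ℝ) ^ 3 * gs T) (fun _ _ => ?_) ν0 θ).trans ?_
    · rw [Complex.norm_real, Real.norm_of_nonneg (by positivity)]
    · have h1 : (ν0 : ℝ) ≤ Y := by exact_mod_cast hν2
      calc (ν0 : ℝ) * ((Y : ℝ) ^ 3 * gs T) ^ 2 ≤ Y * ((Y : ℝ) ^ 3 * gs T) ^ 2 := by gcongr
        _ = (Y : ℝ) ^ 7 * gs T ^ 2 := by ring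
        _ ≤ (Y : ℝ) ^ 100 * gs T ^ 2 := by gcongr; norm_num
        _ = ((Y : ℝ) ^ 50 * gs T) ^ 2 := by ring
        _ ≤ _ := by
          unfold Neg
          gcongr
          exact le_add_of_nonneg_left (by positivity)
  refine (GG_le_two (S1 := fun γ t => ((1 / q : ℝ) : ℂ) * S ((E1 * E2 : ℕ) * γ) (q * t))
    (S2 := fun _ _ => (((Y : ℝ) ^ 3 * gs T : ℝ) : ℂ)) (fun γ t => ?_) ν0 θ).trans ?_
  · have h1 := hTRU Y n1 E1 E2 ρ T j1 j2 τ1 τ2 γ t I hP hI
    rw [Complex.norm_real (_ * _), Real.norm_of_nonneg (by positivity)]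
    exact (norm_le_norm_add_norm_sub' _ _).trans (add_le_add le_rfl h1)
  · have h1 : X ≤ (1 + Real.log Y) ^ 4 * X := le_mul_of_one_le_left hX1 hL
    nlinarith

end Pool.Agent.P.MP_8be758_nt.Av2
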