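import Pool.Agent.P.MP_8be758_nt.Av2.GI0

/-! The step `S_GI`. -/

namespace Pool.Agent.P.MP_8be758_nt.Av2

open Finset Real Filter Topology
open Pool.Agent.P.MP_e86632_nt (ee)
open Pool.Agent.P.MP_8be758_nt.Avg

/-- the determinant of the quadratic form -/
noncomputable def giDet (σ P Q F : ℝ) : ℂ :=
  ((σ : ℂ) + 2 * Complex.I * P) * (σ + 2 * Complex.I * Q) + F ^ 2

/-- the square of its norm -/
def giD (σ P Q F : ℝ) : ℝ :=
  σ ^ 4 + σ ^ 2 * (4 * P ^ 2 + 4 * Q ^ 2 + 2 * F ^ 2) + (F ^ 2 - 4 * P * Q) ^ 2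

theorem gi_re (σ P Q F : ℝ) : (giDet σ P Q F).re = σ ^ 2 - 4 * P * Q + F ^ 2 := by
  simp [giDet, sq]
  ring

theorem gi_im (σ P Q F : ℝ) : (giDet σ P Q F).im = 2 * σ * (P + Q) := by
  simp [giDet, sq]
  ring

theorem gi_normSq (σ P Q F : ℝ) : Complex.normSq (giDet σ P Q F) = giD σ P Q F := by
  rw [Complex.normSq_apply, gi_re, gi_im, giD]
  ring

theorem gi_D_pos {σ : ℝ} (h : 0 < σ) (P Q F : ℝ) : 0 < giD σ P Q F := by
  unfold giD
  positivity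

theorem gi_ne {σ : ℝ} (h : 0 < σ) (P Q F : ℝ) : giDet σ P Q F ≠ 0 := by
  rw [← Complex.normSq_pos, gi_normSq]
  exact gi_D_pos h P Q F

theorem gi_norm1 (σ P Q F : ℝ) : σ ^ 2 ≤ ‖giDet σ P Q F‖ := by
  refine abs_le_of_sq_le_sq' ?_ (norm_nonneg _) |>.2
  rw [Complex.sq_norm, gi_normSq, giD]
  have : 0 ≤ σ ^ 2 * (4 * P ^ 2 + 4 * Q ^ 2 + 2 * F ^ 2) := by positivity
  nlinarith [sq_nonneg (F ^ 2 - 4 * P * Q)]

theorem gi_norm2 (σ P Q F : ℝ) : σ * |F| ≤ ‖giDet σ P Q F‖ := by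
  refine abs_le_of_sq_le_sq' ?_ (norm_nonneg _) |>.2
  rw [Complex.sq_norm, gi_normSq, giD, mul_pow, sq_abs]
  have h1 : 0 ≤ σ ^ 2 * (4 * P ^ 2 + 4 * Q ^ 2 + F ^ 2) := by positivity
  have h2 : 0 ≤ σ ^ 4 := by positivity
  nlinarith [sq_nonneg (F ^ 2 - 4 * P * Q)]

/-- the double integral in closed form -/
theorem gi_II {ρ σ : ℝ} (h : 0 < ρ) (hσ : σ = 1 / ρ ^ 2) (P Q F : ℝ) :
    II ρ P Q F = (1 / ((σ : ℂ) + 2 * Complex.I * Q)) ^ (1 / 2 : ℂ) *
      ((((σ : ℂ) + 2 * Complex.I * Q) / giDet σ P Q F) ^ (1 / 2 : ℂ) *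
      Complex.exp (π * (σ ^ 2 * (2 * σ + 2 * Complex.I * (P + Q + F)) / giDet σ P Q F - 2 * σ))) := by
  have h0 : 0 < σ := by rw [hσ]; positivity
  have hm := gi0_ne h0 Q
  have hd := gi_ne h0 P Q F
  have hp : (π : ℂ) ≠ 0 := Complex.ofReal_ne_zero.2 Real.pi_ne_zero
  have hb : (-(π : ℂ) * (σ + 2 * Complex.I * P + ((F ^ 2 : ℝ) : ℂ) / (σ + 2 * Complex.I * Q))).re
      < 0 := by
    rw [neg_mul, Complex.neg_re, Complex.re_ofReal_mul, Complex.add_re, gi0_re, div_eq_mul_inv,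
      Complex.re_ofReal_mul, Complex.inv_re, gi0_re]
    have h1 := Complex.normSq_pos.2 hm
    have h2 : 0 < π * (σ + F ^ 2 * (σ / Complex.normSq (σ + 2 * Complex.I * Q))) := by
      have := Real.pi_pos
      positivity
    linarith
  have e := integral_cexp_quadratic hb
    (2 * π * σ + 2 * π * σ * Complex.I * F / (σ + 2 * Complex.I * Q))
    (-(2 * π * σ) + π * σ ^ 2 / (σ + 2 * Complex.I * Q))
  have e1 : ∀ X : ℝ, (gs ((X - 1) / ρ) : ℂ) * I1 ρ Q F X * ee (-(P * X ^ 2)) =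
      (1 / ((σ : ℂ) + 2 * Complex.I * Q)) ^ (1 / 2 : ℂ) * Complex.exp
        (-(π : ℂ) * (σ + 2 * Complex.I * P + ((F ^ 2 : ℝ) : ℂ) / (σ + 2 * Complex.I * Q)) * X ^ 2 +
        (2 * π * σ + 2 * π * σ * Complex.I * F / (σ + 2 * Complex.I * Q)) * X +
        (-(2 * π * σ) + π * σ ^ 2 / (σ + 2 * Complex.I * Q))) := fun X => by
    rw [gi0_I1 h hσ, gi0_gs hσ, ee_eq, mul_left_comm, mul_assoc, ← Complex.exp_add,
      ← Complex.exp_add]
    congr 2
    generalize (σ : ℂ) + 2 * Complex.I * Q = m at hm ⊢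
    push_cast
    field_simp
    linear_combination (F : ℂ) ^ 2 * X ^ 2 * Complex.I_mul_I
  have e2 : (σ : ℂ) + 2 * Complex.I * P + ((F ^ 2 : ℝ) : ℂ) / (σ + 2 * Complex.I * Q) =
      giDet σ P Q F / (σ + 2 * Complex.I * Q) := by
    rw [giDet]
    push_cast
    field_simp
  have e3 : 2 * (σ : ℂ) + 2 * Complex.I * (P + Q + F) =
      (giDet σ P Q F + (σ + 2 * Complex.I * Q + Complex.I * F) ^ 2) / (σ + 2 * Complex.I * Q) := by
    rw [giDet, eq_div_iff hm]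
    linear_combination -(F : ℂ) ^ 2 * Complex.I_mul_I
  simp only [II, e1]
  rw [MeasureTheory.integral_const_mul, e, e2, e3]
  generalize (σ : ℂ) + 2 * Complex.I * Q = m at hm ⊢
  generalize giDet σ P Q F = d at hd ⊢
  congr 3
  · field_simp
  · field_simp
    ring

theorem gi_half (z : ℂ) : ‖z ^ (1 / 2 : ℂ)‖ = √‖z‖ := by
  rw [Real.sqrt_eq_rpow, ← Complex.norm_cpow_real]
  norm_num

/-- the first coordinate of the stationary point -/
noncomputable def giX (σ P Q F : ℝ) : ℝ :=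
  σ ^ 2 * (σ ^ 2 + 4 * Q ^ 2 + F ^ 2 + 2 * F * (P + Q)) / giD σ P Q F

/-- the second coordinate of the stationary point -/
noncomputable def giY (σ P Q F : ℝ) : ℝ :=
  σ ^ 2 * (σ ^ 2 + 4 * P ^ 2 + F ^ 2 + 2 * F * (P + Q)) / giD σ P Q F

/-- the exponent -/
noncomputable def giPhi (σ P Q F : ℝ) : ℝ :=
  σ * ((1 - giX σ P Q F) ^ 2 + (1 - giY σ P Q F) ^ 2) +
    ((2 * P * giX σ P Q F - F * giY σ P Q F) ^ 2 + (2 * Q * giY σ P Q F - F * giX σ P Q F) ^ 2) / σ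

theorem gi_exp {σ : ℝ} (h : 0 < σ) (P Q F : ℝ) :
    ((σ : ℂ) ^ 2 * (2 * σ + 2 * Complex.I * (P + Q + F)) / giDet σ P Q F - 2 * σ).re =
      -giPhi σ P Q F := by
  have hD := (gi_D_pos h P Q F).ne'
  have h1 : ((σ : ℂ) ^ 2 * (2 * σ + 2 * Complex.I * (P + Q + F))).re = 2 * σ ^ 3 := by
    simp [sq]
    ring
  have h2 : ((σ : ℂ) ^ 2 * (2 * σ + 2 * Complex.I * (P + Q + F))).im = 2 * σ ^ 2 * (P + Q + F) := by
    simp [sq]
    ring
  have h3 : (2 * (σ : ℂ)).re = 2 * σ := by simp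
  rw [Complex.sub_re, Complex.div_re, h1, h2, h3, gi_re, gi_im, gi_normSq, giPhi, giX, giY]
  field_simp
  rw [giD]
  ring

theorem gi_normII {ρ σ : ℝ} (h : 0 < ρ) (hσ : σ = 1 / ρ ^ 2) (P Q F : ℝ) :
    ‖II ρ P Q F‖ = Real.exp (-π * giPhi σ P Q F) / √‖giDet σ P Q F‖ := by
  have h0 : 0 < σ := by rw [hσ]; positivity
  have hm := norm_pos_iff.2 (gi0_ne h0 Q)
  have hd := norm_pos_iff.2 (gi_ne h0 P Q F)
  rw [gi_II h hσ, norm_mul, norm_mul, gi_half, gi_half, Complex.norm_exp, Complex.re_ofReal_mul,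
    gi_exp h0, norm_div, norm_div, norm_one, Real.sqrt_div zero_le_one, Real.sqrt_div hm.le,
    Real.sqrt_one, mul_neg, neg_mul]
  have h1 := Real.sqrt_pos.2 hm
  have h2 := Real.sqrt_pos.2 hd
  field_simp

theorem t_GI (hGI0 : S_GI0) : S_GI := by
  intro ρ h
  have _ := hGI0
  obtain ⟨σ, hσ⟩ : ∃ σ : ℝ, σ = 1 / ρ ^ 2 := ⟨_, rfl⟩
  have h0 : 0 < σ := by rw [hσ]; positivity
  have h1 : σ * ρ ^ 2 = 1 := by rw [hσ]; field_simp
  have hg : ∫ x : ℝ, (gs ((x - 1) / ρ) : ℂ) = ρ := by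
    rw [integral_complex_ofReal, integral_gs h]
  refine ⟨?_, fun P Q F => ?_⟩
  · have e0 : ee 0 = 1 := by simp [ee_eq]
    simp only [II, I1, zero_mul, sub_zero, neg_zero, e0, mul_one, hg]
    rw [MeasureTheory.integral_mul_const, hg, sq]
  have hΦ : 0 ≤ giPhi σ P Q F := by
    unfold giPhi
    positivity
  rw [gi_normII h hσ]
  refine ⟨fun hF => ?_, fun T hT hρT => ?_⟩
  · have hF' := abs_pos.2 hF
    have h2 : Real.exp (-π * giPhi σ P Q F) ≤ 1 := by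
      rw [Real.exp_le_one_iff]
      nlinarith [Real.pi_pos]
    have h3 : √|F| / ρ ≤ √‖giDet σ P Q F‖ := by
      refine Real.le_sqrt_of_sq_le (le_trans (le_of_eq ?_) (gi_norm2 σ P Q F))
      rw [div_pow, Real.sq_sqrt hF'.le, hσ]
      ring
    have h4 := Real.sqrt_pos.2 hF'
    calc _ ≤ 1 / (√|F| / ρ) := by gcongr
      _ = _ := by field_simp
  · by_cases hc : T ^ 2 ≤ giPhi σ P Q F
    · left
      have h2 : Real.exp (-π * giPhi σ P Q F) ≤ gs T := by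
        rw [gs, Real.exp_le_exp]
        nlinarith [Real.pi_pos]
      have h3 : σ ≤ √‖giDet σ P Q F‖ := Real.le_sqrt_of_sq_le (gi_norm1 σ P Q F)
      have h4 := (gs_pos T).le
      calc _ ≤ gs T / σ := by gcongr
        _ = _ := by rw [hσ]; field_simp
    · right
      rw [not_le, giPhi] at hc
      generalize giX σ P Q F = x at hc
      generalize giY σ P Q F = y at hc
      have a1 : 0 ≤ σ * (1 - x) ^ 2 := by positivity
      have a2 : 0 ≤ σ * (1 - y) ^ 2 := by positivity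
      have a3 : 0 ≤ (2 * P * x - F * y) ^ 2 / σ := by positivity
      have a4 : 0 ≤ (2 * Q * y - F * x) ^ 2 / σ := by positivity
      rw [mul_add, add_div] at hc
      have k1 : ∀ t : ℝ, σ * (1 - t) ^ 2 ≤ T ^ 2 → 1 / 2 ≤ t ∧ t ≤ 3 / 2 := fun t ht => by
        have h2 : (1 - t) ^ 2 ≤ (ρ * T) ^ 2 := by
          calc _ = ρ ^ 2 * (σ * (1 - t) ^ 2) := by linear_combination -(1 - t) ^ 2 * h1
            _ ≤ ρ ^ 2 * T ^ 2 := by gcongr
            _ = _ := by ring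
        have h3 := abs_le_of_sq_le_sq' h2 (by positivity)
        constructor <;> linarith [h3.1, h3.2]
      have k2 : ∀ t : ℝ, (2 * t) ^ 2 / σ ≤ T ^ 2 → |t| ≤ T / (2 * ρ) := fun t ht => by
        refine abs_le_of_sq_le_sq ?_ (by positivity)
        rw [div_le_iff₀ h0, hσ] at ht
        calc _ = (2 * t) ^ 2 / 4 := by ring
          _ ≤ T ^ 2 * (1 / ρ ^ 2) / 4 := by gcongr
          _ = _ := by field_simp; norm_num
      obtain ⟨b1, b2⟩ := k1 x (by linarith)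
      obtain ⟨b3, b4⟩ := k1 y (by linarith)
      refine ⟨x, y, b1, b2, b3, b4, k2 _ ?_, k2 _ ?_⟩
      · rw [show 2 * (P * x - F * y / 2) = 2 * P * x - F * y by ring]
        linarith
      · rw [show 2 * (Q * y - F * x / 2) = 2 * Q * y - F * x by ring]
        linarith

end Pool.Agent.P.MP_8be758_nt.Av2
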