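import Pool.Agent.P.MP_8be758_nt.Av2.Basic

/-! The step `S_GI0`. -/

namespace Pool.Agent.P.MP_8be758_nt.Av2

open Finset Real Filter Topology
open Pool.Agent.P.MP_e86632_nt (ee)
open Pool.Agent.P.MP_8be758_nt.Avg

theorem gi0_re (σ Q : ℝ) : ((σ : ℂ) + 2 * Complex.I * Q).re = σ := by simp

theorem gi0_norm {σ : ℝ} (Q : ℝ) : σ ≤ ‖(σ : ℂ) + 2 * Complex.I * Q‖ :=
  (gi0_re σ Q).symm.le.trans (Complex.re_le_norm _)

theorem gi0_ne {σ : ℝ} (h : 0 < σ) (Q : ℝ) : (σ : ℂ) + 2 * Complex.I * Q ≠ 0 :=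
  norm_pos_iff.1 (h.trans_le (gi0_norm Q))

theorem gi0_gs {ρ σ : ℝ} (hσ : σ = 1 / ρ ^ 2) (X : ℝ) :
    (gs ((X - 1) / ρ) : ℂ) = Complex.exp (-(π * σ) * X ^ 2 + 2 * π * σ * X - π * σ) := by
  rw [gs_cast, hσ]
  congr 1
  push_cast
  ring

/-- the inner integral in closed form -/
theorem gi0_I1 {ρ σ : ℝ} (h : 0 < ρ) (hσ : σ = 1 / ρ ^ 2) (Q F X : ℝ) :
    I1 ρ Q F X = (1 / ((σ : ℂ) + 2 * Complex.I * Q)) ^ (1 / 2 : ℂ) *
      Complex.exp (-(π * σ) + π * (σ + Complex.I * F * X) ^ 2 / (σ + 2 * Complex.I * Q)) := by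
  have h0 : 0 < σ := by rw [hσ]; positivity
  have hm := gi0_ne h0 Q
  have hp : (π : ℂ) ≠ 0 := Complex.ofReal_ne_zero.2 Real.pi_ne_zero
  have hb : (-(π : ℂ) * (σ + 2 * Complex.I * Q)).re < 0 := by
    rw [neg_mul, Complex.neg_re, Complex.re_ofReal_mul, gi0_re]
    have := mul_pos Real.pi_pos h0
    linarith
  have e := integral_cexp_quadratic hb (2 * π * (σ + Complex.I * F * X)) (-(π * σ))
  have e1 : ∀ Y : ℝ, (gs ((Y - 1) / ρ) : ℂ) * ee (F * X * Y - Q * Y ^ 2) =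
      Complex.exp (-(π : ℂ) * (σ + 2 * Complex.I * Q) * Y ^ 2 +
        2 * π * (σ + Complex.I * F * X) * Y + -(π * σ)) := fun Y => by
    rw [gi0_gs hσ, ee_eq, ← Complex.exp_add]
    congr 1
    push_cast
    ring
  simp only [I1, e1, e]
  congr 2
  · field_simp
  · field_simp
    ring

theorem gi0_le {ρ : ℝ} (h : 0 < ρ) (Q F X : ℝ) : ‖I1 ρ Q F X‖ ≤ ρ := by
  refine (MeasureTheory.norm_integral_le_integral_norm _).trans_eq ?_
  refine Eq.trans ?_ (integral_gs h 1)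
  congr 1
  funext Y
  rw [norm_mul, Pool.Agent.P.MP_e86632_nt.norm_ee, mul_one, Complex.norm_real,
    Real.norm_of_nonneg (gs_pos _).le]

theorem t_GI0 : S_GI0 := by
  intro ρ Q F h
  refine ⟨gi0_le h Q F, ?_⟩
  obtain ⟨σ, hσ⟩ : ∃ σ : ℝ, σ = 1 / ρ ^ 2 := ⟨_, rfl⟩
  have h0 : 0 < σ := by rw [hσ]; positivity
  have hm := gi0_ne h0 Q
  have hn := gi0_norm (σ := σ) Q
  have h1 : σ * ρ ^ 2 = 1 := by rw [hσ]; field_simp
  have hpi := Real.pi_pos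
  have hpi2 := Real.pi_lt_d2
  simp only [gi0_I1 h hσ, gi0_gs hσ]
  generalize (σ : ℂ) + 2 * Complex.I * Q = m at hm hn ⊢
  have hinv : 1 / ‖m‖ ≤ ρ ^ 2 := by
    rw [div_le_iff₀ (by linarith)]
    nlinarith [sq_nonneg ρ]
  refine ⟨(1 / m) ^ (1 / 2 : ℂ) * Complex.exp (-(2 * π * σ) + π * σ ^ 2 / m),
    -(π * σ) - π * F ^ 2 / m, 2 * π * σ + 2 * π * σ * Complex.I * F / m, ?_, ?_, fun X => ?_⟩
  · refine (norm_sub_le _ _).trans ?_
    simp only [norm_neg, norm_mul, norm_div, norm_pow, Complex.norm_real, Real.norm_eq_abs, sq_abs,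
      abs_of_pos hpi, abs_of_pos h0]
    have h2 : π * F ^ 2 / ‖m‖ ≤ π * F ^ 2 * ρ ^ 2 := by
      rw [div_eq_mul_one_div]; gcongr
    have h3 : 0 ≤ F ^ 2 * ρ ^ 2 := by positivity
    rw [← hσ]
    nlinarith
  · refine (norm_add_le _ _).trans ?_
    simp only [norm_mul, norm_div, Complex.norm_real, Real.norm_eq_abs, Complex.norm_I,
      Complex.norm_ofNat, abs_of_pos hpi, abs_of_pos h0, mul_one]
    have h2 : 2 * π * σ * |F| / ‖m‖ ≤ 2 * π * |F| := by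
      rw [div_le_iff₀ (by linarith), mul_right_comm]; gcongr
    rw [← hσ]
    nlinarith [abs_nonneg F]
  · rw [mul_left_comm, ← Complex.exp_add, mul_assoc ((1 / m) ^ _), ← Complex.exp_add]
    congr 2
    field_simp
    linear_combination (F : ℂ) ^ 2 * X ^ 2 * Complex.I_mul_I

end Pool.Agent.P.MP_8be758_nt.Av2
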