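import Pool.Agent.P.MP_8be758_nt.Av2.Basic

/-! The step `S_GP`. -/

namespace Pool.Agent.P.MP_8be758_nt.Av2

open Finset Real Filter Topology
open Pool.Agent.P.MP_e86632_nt (ee)
open Pool.Agent.P.MP_8be758_nt.Avg

theorem gp_hat {e : ℕ} (he : 0 < e) {h : ℤ → ℂ} (hh : ∀ n, ‖h n‖ ≤ 1) (p : ℤ) :
    ‖hat e h p‖ ≤ 1 := by
  have e0 : (0 : ℝ) < e := by exact_mod_cast he
  rw [hat, norm_mul, norm_div, norm_one, Complex.norm_natCast, one_div, inv_mul_le_iff₀ e0]
  refine (norm_sum_le _ _).trans ((sum_le_card_nsmul _ _ 1 fun x _ => ?_).trans (by simp))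
  rw [norm_mul, MP_e86632_nt.norm_ee, mul_one]
  exact hh _

section

variable {χ : ℝ → ℝ} {g : ℝ → ℂ} {ρ s M : ℝ} (c0 : ∀ w, 0 ≤ χ w ∧ χ w ≤ 1)
  (c1 : ∀ w, 1 / 2 ≤ w → w ≤ 2 → χ w = 1) (hρ : 0 < ρ) (hs : 1 ≤ s)
  (hg : ∀ X, ‖g X‖ ≤ M * gs ((X - 1) / ρ))

include c1 in
theorem gp_chi {X : ℝ} (h : ¬ 1 / 4 ≤ |X - 1|) : 0 < X ∧ χ (X ^ 2) = 1 := by
  obtain ⟨h1, h2⟩ := abs_lt.1 (not_le.1 h)
  exact ⟨by linarith, c1 _ (by nlinarith) (by nlinarith)⟩

include hg in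
theorem gp_M : 0 ≤ M := nonneg_of_mul_nonneg_left ((norm_nonneg _).trans (hg 0)) (gs_pos _)

include hρ in
theorem gp_gs : gs (1 / (4 * ρ)) ≤ gs (1 / (6 * ρ)) :=
  gs_mono (by positivity) (one_div_le_one_div_of_le (by positivity) (by linarith))

include c0 c1 hρ hg in
theorem gp_pt {u : ℝ} (hu : 1 ≤ u) : ‖g (√u / s) / (√u : ℝ) -
    (χ (u / s ^ 2) : ℂ) * g (√u / s) / (√u : ℝ)‖ ≤ M * gs (1 / (6 * ρ)) := by
  have M0 := gp_M hg
  have h1 : 1 ≤ √u := Real.one_le_sqrt.2 hu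
  have e : u / s ^ 2 = (√u / s) ^ 2 := by rw [div_pow, Real.sq_sqrt (by linarith)]
  rw [e]
  generalize √u / s = X
  by_cases h : 1 / 4 ≤ |X - 1|
  · rw [← sub_div, ← one_sub_mul, norm_div, norm_mul, Complex.norm_real,
      Real.norm_of_nonneg (by linarith), ← Complex.ofReal_one, ← Complex.ofReal_sub,
      Complex.norm_real, Real.norm_of_nonneg (sub_nonneg.2 (c0 _).2)]
    refine (div_le_self (mul_nonneg (sub_nonneg.2 (c0 _).2) (norm_nonneg _)) h1).trans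
      ((mul_le_of_le_one_left (norm_nonneg _) (sub_le_self _ (c0 _).1)).trans ((hg X).trans
        (mul_le_mul_of_nonneg_left (le_trans (gs_anti ?_) (gp_gs hρ)) M0)))
    rw [abs_div (X - 1), abs_of_pos hρ, abs_of_pos (by positivity), ← div_div]
    gcongr
  · rw [(gp_chi c1 h).2, Complex.ofReal_one, one_mul, sub_self, norm_zero]
    exact mul_nonneg M0 (gs_pos _).le

open MeasureTheory in
include c0 c1 hρ hs hg in
theorem gp_int (c2 : ∀ w, w ∉ Set.Icc (1 / 4 : ℝ) 4 → χ w = 0) (hρ1 : ρ ≤ 1) (gc : Continuous g)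
    {f w : ℝ → ℂ} (hf : ∀ u, f u = (χ (u / s ^ 2) : ℂ) * g (√u / s) / (√u : ℝ))
    (fc : Continuous f) (wc : Continuous w) (hw : ∀ t, ‖w t‖ = 1) :
    ‖(∫ t, f t * w t) - 2 * s * ∫ X, g X * w (s ^ 2 * X ^ 2)‖ ≤ 4 * s * M * gs (1 / (6 * ρ)) := by
  have M0 := gp_M hg
  have s0 : 0 < s := by linarith
  have e1 : ∫ t in Set.Ioi 0, f t * w t = ∫ t, f t * w t :=
    setIntegral_eq_integral_of_forall_compl_eq_zero fun t ht => by
      rw [hf, c2 _ fun c => ht ?_, Complex.ofReal_zero, zero_mul, zero_div, zero_mul]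
      exact (div_pos_iff_of_pos_right (by positivity)).1 (lt_of_lt_of_le (by norm_num) c.1)
  have e2 : (fun X : ℝ => s ^ 2 * X ^ 2) '' Set.Ioi 0 = Set.Ioi 0 := by
    refine Set.Subset.antisymm ?_ fun t ht => ⟨√t / s, div_pos (Real.sqrt_pos.2 ht) s0, ?_⟩
    · rintro _ ⟨X, hX, rfl⟩
      exact mul_pos (pow_pos s0 2) (pow_pos (Set.mem_Ioi.1 hX) 2)
    · simp only
      rw [div_pow, Real.sq_sqrt (le_of_lt ht)]
      field_simp
  have e3 := integral_image_eq_integral_abs_deriv_smul (s := Set.Ioi 0)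
    (f := fun X : ℝ => s ^ 2 * X ^ 2) (f' := fun X => s ^ 2 * (2 * X)) measurableSet_Ioi
    (fun X _ => by
      simpa using ((hasDerivAt_pow 2 X).const_mul (s ^ 2)).hasDerivWithinAt (s := Set.Ioi 0))
    (fun x hx y hy h => (pow_left_inj₀ (le_of_lt hx) (le_of_lt hy) two_ne_zero).1
      (mul_left_cancel₀ (by positivity) h)) fun t => f t * w t
  obtain ⟨c, hc, hc1, hF⟩ : ∃ c : ℝ → ℝ, (∀ X, 0 ≤ c X ∧ c X ≤ 1) ∧
      (∀ X, ¬ 1 / 4 ≤ |X - 1| → c X = 1) ∧ ∀ X, (Set.Ioi 0).indicator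
        (fun X => |s ^ 2 * (2 * X)| • (f (s ^ 2 * X ^ 2) * w (s ^ 2 * X ^ 2))) X =
        c X * (2 * s * (g X * w (s ^ 2 * X ^ 2))) := by
    refine ⟨fun X => if 0 < X then χ (X ^ 2) else 0, fun X => ?_, fun X h => ?_, fun X => ?_⟩
    · dsimp only
      split_ifs
      exacts [c0 _, ⟨le_rfl, zero_le_one⟩]
    · simp only [(gp_chi c1 h).1, (gp_chi c1 h).2, if_true]
    · by_cases h : 0 < X
      · have h1 : (X : ℂ) ≠ 0 := by exact_mod_cast h.ne'
        have h2 : (s : ℂ) ≠ 0 := by exact_mod_cast s0.ne'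
        rw [Set.indicator_of_mem (Set.mem_Ioi.2 h), hf, ← mul_pow, Real.sqrt_sq (by positivity),
          abs_of_pos (by positivity), mul_div_cancel_left₀ _ s0.ne', mul_pow,
          mul_div_cancel_left₀ _ (by positivity), Complex.real_smul]
        simp only [h, if_true]
        push_cast
        field_simp
      · rw [Set.indicator_of_notMem (by simpa using h)]
        simp [h]
  have n1 : ∀ X, ‖2 * s * (g X * w (s ^ 2 * X ^ 2))‖ ≤ 2 * s * M * gs ((X - 1) / ρ) := fun X => by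
    rw [norm_mul, norm_mul, norm_mul, hw, mul_one, Complex.norm_real, Real.norm_of_nonneg s0.le,
      Complex.norm_ofNat, mul_assoc (2 * s)]
    exact mul_le_mul_of_nonneg_left (hg X) (by positivity)
  have i0 := (integrable_gs hρ 1).const_mul (2 * s * M)
  have i1 : Integrable fun X => 2 * s * (g X * w (s ^ 2 * X ^ 2)) :=
    i0.mono' (Continuous.aestronglyMeasurable (by fun_prop)) (Eventually.of_forall n1)
  have i2 : Integrable ((Set.Ioi 0).indicator
      fun X => |s ^ 2 * (2 * X)| • (f (s ^ 2 * X ^ 2) * w (s ^ 2 * X ^ 2))) :=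
    i0.mono' ((Continuous.aestronglyMeasurable (by fun_prop)).indicator measurableSet_Ioi)
      (Eventually.of_forall fun X => by
        rw [hF, norm_mul, Complex.norm_real, Real.norm_of_nonneg (hc X).1]
        exact (mul_le_of_le_one_left (norm_nonneg _) (hc X).2).trans (n1 X))
  have mS : MeasurableSet {X : ℝ | 1 / 4 ≤ |X - 1|} :=
    (isClosed_le continuous_const (by fun_prop)).measurableSet
  rw [← e1, ← e2, e3, ← integral_indicator measurableSet_Ioi, ← integral_const_mul,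
    ← integral_sub i2 i1]
  refine (norm_integral_le_of_norm_le (i0.indicator mS) (Eventually.of_forall fun X => ?_)).trans ?_
  · rw [hF]
    by_cases h : 1 / 4 ≤ |X - 1|
    · rw [Set.indicator_of_mem (by exact h), ← sub_one_mul, norm_mul, ← Complex.ofReal_one,
        ← Complex.ofReal_sub, Complex.norm_real]
      exact (mul_le_of_le_one_left (norm_nonneg _)
        (abs_le.2 ⟨by linarith [(hc X).1], by linarith [(hc X).2]⟩)).trans (n1 X)
    · rw [Set.indicator_of_notMem (by exact h), hc1 X h, Complex.ofReal_one, one_mul, sub_self,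
        norm_zero]
  · rw [integral_indicator mS, integral_const_mul]
    have h1 := integral_gs_tail hρ (T := 1 / (4 * ρ)) (by positivity) 1 mS fun x hx => by
      rw [show ρ * (1 / (4 * ρ)) = 1 / 4 by field_simp]
      exact hx
    have h2 := mul_le_mul hρ1 (gp_gs hρ) (gs_pos _).le zero_le_one
    refine (mul_le_mul_of_nonneg_left (h1.trans (show _ ≤ 2 * gs (1 / (6 * ρ)) by linarith))
      (by positivity)).trans (le_of_eq (by ring))

end

theorem t_GP (hPOI : S_POI) (hCUT : S_CUT) : S_GP := by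
  obtain ⟨C, hC, χ, c0, c1, c2, H⟩ := hCUT
  refine ⟨C + 12, by linarith, fun κ a b ρ s M e P n1 h hρ hρ1 hs hn he hP hh hper hg => ?_⟩
  obtain ⟨g, eg⟩ : ∃ g : ℝ → ℂ, ∀ X, g X = κ * Complex.exp (a * X ^ 2 + b * X) := ⟨_, fun _ => rfl⟩
  have gc : Continuous g := by rw [funext eg]; fun_prop
  have M0 := gp_M hg
  have s0 : 0 < s := by linarith
  obtain ⟨f1, f2, d1, d2, d3, d4⟩ := H κ a b M s hs fun X =>
    (hg X).trans (mul_le_of_le_one_right M0 (gs_le_one _))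
  simp only [← eg] at hg d1 ⊢
  obtain ⟨f, hf⟩ : ∃ f : ℝ → ℂ, ∀ u, f u = (χ (u / s ^ 2) : ℂ) * g (√u / s) / (√u : ℝ) :=
    ⟨_, fun _ => rfl⟩
  simp only [← hf] at d1
  have f0 : ∀ x, x ∉ Set.Icc (1 / 4 * s ^ 2) (4 * s ^ 2) → f x = 0 := fun x hx => by
    rw [hf, c2 _ fun c => hx ⟨(le_div_iff₀ (by positivity)).1 c.1,
      (div_le_iff₀ (by positivity)).1 c.2⟩, Complex.ofReal_zero, zero_mul, zero_div]
  have h1 := hPOI f f1 f2 _ _ e P h ((Icc 1 n1).image Nat.cast) he hP d1 d2 d3 f0 hh hper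
    fun n hn' => f0 _ fun c => hn' (by
      have a1 : (0 : ℝ) < n := lt_of_lt_of_le (by positivity) c.1
      have a2 : 0 < n := by exact_mod_cast a1
      have a3 : n ≤ n1 := by exact_mod_cast c.2.trans hn
      exact mem_image.2 ⟨n.toNat, mem_Icc.2 (by omega), by omega⟩)
  rw [sum_image fun x _ y _ c => by exact_mod_cast c] at h1
  simp only [Int.cast_natCast] at h1
  have h2 : ‖∑ u ∈ Icc 1 n1, h u * (g (√(u : ℝ) / s) / (√(u : ℝ) : ℝ)) -
      ∑ u ∈ Icc 1 n1, h u * f u‖ ≤ n1 * (M * gs (1 / (6 * ρ))) := by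
    rw [← sum_sub_distrib]
    refine (norm_sum_le _ _).trans ((sum_le_card_nsmul _ _ _ fun u hu => ?_).trans
      (le_of_eq (by rw [Nat.card_Icc, Nat.add_sub_cancel, nsmul_eq_mul])))
    rw [← mul_sub, norm_mul, hf]
    exact (mul_le_of_le_one_left (norm_nonneg _) (hh _)).trans
      (gp_pt c0 c1 hρ hg (by exact_mod_cast (mem_Icc.1 hu).1))
  have h3 : ‖∑ p ∈ Icc (-(P : ℤ)) P, hat e h p * (∫ t : ℝ, f t * ee (-(p * t / e))) -
      2 * s * ∑ p ∈ Icc (-(P : ℤ)) P, hat e h p * ∫ X : ℝ, g X * ee (-(p * s ^ 2 / e * X ^ 2))‖ ≤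
      (2 * P + 1) * (4 * s * M * gs (1 / (6 * ρ))) := by
    rw [mul_sum, ← sum_sub_distrib]
    refine (norm_sum_le _ _).trans ((sum_le_card_nsmul _ _ _ fun p _ => ?_).trans
      (le_of_eq (by
        rw [Int.card_Icc, show (P + 1 - -(P : ℤ)).toNat = 2 * P + 1 by omega, nsmul_eq_mul]
        push_cast
        rfl)))
    rw [mul_left_comm, ← mul_sub, norm_mul]
    refine (mul_le_of_le_one_left (norm_nonneg _) (gp_hat he hh p)).trans ?_
    have := gp_int c0 c1 hρ hs hg c2 hρ1 gc (w := fun t => ee (-(p * t / e))) hf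
      (continuous_iff_continuousAt.2 fun x => (d1 x).continuousAt) (by fun_prop)
      fun t => MP_e86632_nt.norm_ee _
    simpa only [show ∀ X : ℝ, p * (s ^ 2 * X ^ 2) / e = p * s ^ 2 / e * X ^ 2 from
      fun X => by ring] using this
  refine (norm_sub_le_norm_sub_add_norm_sub _ _ _).trans ((add_le_add h2
    ((norm_sub_le_norm_sub_add_norm_sub _ _ _).trans (add_le_add h1 h3))).trans ?_)
  have h4 := mul_le_mul_of_nonneg_left d4 (show 0 ≤ (e : ℝ) ^ 2 / P by positivity)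
  have h5 : (1 : ℝ) ≤ P := by exact_mod_cast hP
  have h6 := mul_nonneg M0 (gs_pos (1 / (6 * ρ))).le
  have h7 : 0 ≤ M * ((e : ℝ) ^ 2 * (1 + ‖a‖ + ‖b‖) ^ 2 / P) := by positivity
  have h8 : (e : ℝ) ^ 2 / P * (C * M * (1 + ‖a‖ + ‖b‖) ^ 2) =
      C * (M * ((e : ℝ) ^ 2 * (1 + ‖a‖ + ‖b‖) ^ 2 / P)) := by ring
  have h9 := mul_nonneg (mul_nonneg s0.le (sub_nonneg.2 h5)) h6
  have h10 := mul_nonneg (Nat.cast_nonneg (α := ℝ) n1) h6
  have h11 := mul_nonneg hC.le (mul_nonneg (show 0 ≤ (n1 : ℝ) + s * P by positivity) h6)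
  nlinarith

end Pool.Agent.P.MP_8be758_nt.Av2
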