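import Pool.Agent.P.MP_8be758_nt.Av2.Basic

/-! The step `S_GR`. -/

namespace Pool.Agent.P.MP_8be758_nt.Av2

open Finset Real Filter Topology
open Pool.Agent.P.MP_e86632_nt (ee)
open Pool.Agent.P.MP_8be758_nt.Avg

/-- reduction to reduced fractions -/
theorem gr_far (S : ℝ → ℝ → ℂ) (ν0 : ℕ) (θ : ℝ) :
    GG S ν0 θ = ∑ g ∈ Icc 1 ν0, ∑ e ∈ Icc 1 (ν0 / g), ∑ r ∈ red e,
      1 / ((g : ℝ) * e) * ‖S ((r : ℝ) / e) (θ / (g * e))‖ ^ 2 := by
  have h1 : GG S ν0 θ = ∑ ν ∈ Icc 1 ν0, ∑ e ∈ ν.divisors, ∑ r ∈ red e,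
      1 / (ν : ℝ) * ‖S ((r : ℝ) / e) (θ / ν)‖ ^ 2 := by
    refine sum_congr rfl fun ν hν => ?_
    have h := lib_FAR.1 (fun t => ((‖S t (θ / ν)‖ ^ 2 : ℝ) : ℂ)) ν (mem_Icc.1 hν).1
    simp only [← mul_sum]
    congr 1
    exact_mod_cast h
  rw [h1, sum_sigma' (Icc 1 ν0), sum_sigma' (Icc 1 ν0)]
  refine sum_bij' (fun p _ => ⟨p.1 / p.2, p.2⟩) (fun q _ => ⟨q.1 * q.2, q.2⟩) ?_ ?_ ?_ ?_ ?_
  · rintro ⟨ν, e⟩ hp
    simp only [mem_sigma, mem_Icc, Nat.mem_divisors] at hp ⊢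
    obtain ⟨⟨h2, h3⟩, ⟨g, rfl⟩, h4⟩ := hp
    have he : 0 < e := Nat.pos_of_ne_zero fun c => h4 (by rw [c, zero_mul])
    have hg : 0 < g := Nat.pos_of_ne_zero fun c => h4 (by rw [c, mul_zero])
    rw [Nat.mul_div_cancel_left _ he, Nat.le_div_iff_mul_le hg]
    exact ⟨⟨hg, le_trans (Nat.le_mul_of_pos_left _ he) h3⟩, he, h3⟩
  · rintro ⟨g, e⟩ hq
    simp only [mem_sigma, mem_Icc, Nat.mem_divisors] at hq ⊢
    obtain ⟨⟨h2, h3⟩, h4, h5⟩ := hq
    rw [Nat.le_div_iff_mul_le h2, mul_comm] at h5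
    have := Nat.mul_pos h2 h4
    exact ⟨⟨this, h5⟩, dvd_mul_left _ _, this.ne'⟩
  · rintro ⟨ν, e⟩ hp
    simp only [mem_sigma, Nat.mem_divisors] at hp
    simp only [Nat.div_mul_cancel hp.2.1]
  · rintro ⟨g, e⟩ hq
    simp only [mem_sigma, mem_Icc] at hq
    simp only [Nat.mul_div_cancel _ hq.2.1]
  · rintro ⟨ν, e⟩ hp
    simp only [mem_sigma, Nat.mem_divisors] at hp
    simp only [← Nat.cast_mul, Nat.div_mul_cancel hp.2.1]

/-- change of variables in `SR` -/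
theorem gr_shift (ρ : ℝ) (n1 : ℕ) (j1 j2 τ1 τ2 γ θ l : ℝ) :
    SR ρ n1 j1 j2 τ1 τ2 γ θ = ∫ x in j1 - l / 2..j2 - l / 2, ∫ y in τ1 - l..τ2 - l,
      SA ρ n1 (x + l / 2) (y - x + l / 2) γ θ := by
  have h1 := intervalIntegral.integral_comp_add_right (a := j1 - l / 2) (b := j2 - l / 2)
    (fun t1 => ∫ t in τ1..τ2, SA ρ n1 t1 (t - t1) γ θ) (l / 2)
  rw [sub_add_cancel, sub_add_cancel] at h1
  rw [SR, ← h1]
  congr 1
  funext x
  have h2 := intervalIntegral.integral_comp_add_right (a := τ1 - l) (b := τ2 - l)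
    (fun t => SA ρ n1 (x + l / 2) (t - (x + l / 2)) γ θ) l
  rw [sub_add_cancel, sub_add_cancel] at h2
  rw [← h2]
  congr 1
  funext y
  congr 1
  ring

/-- summation over the common factor -/
theorem gr_sum {s θ : ℝ} (ν0 : ℕ) (hs : 0 < s) (hθ : 0 < |θ|) :
    ∑ g ∈ Icc 1 ν0, (|θ| / ((g : ℝ) ^ 2 * s) + 1 / g + ν0 / (g : ℝ) ^ 2 +
      if (g : ℝ) ≤ |θ| then s / |θ| else 0) ≤ 3 * shp s ν0 θ := by
  have h0 := Pool.Agent.P.MP_74dd9d_nt.sum_inv_sq_Icc ν0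
  have h1 : ∑ g ∈ Icc 1 ν0, |θ| / ((g : ℝ) ^ 2 * s) ≤ |θ| / s * 2 := by
    refine le_trans (le_of_eq ?_) (mul_le_mul_of_nonneg_left h0 (by positivity))
    rw [mul_sum]
    exact sum_congr rfl fun g _ => by ring
  have h2 : ∑ g ∈ Icc 1 ν0, 1 / (g : ℝ) ≤ ν0 := by
    refine (sum_le_sum (g := fun _ => (1 : ℝ)) fun g hg => ?_).trans (by simp)
    have : (1 : ℝ) ≤ g := by exact_mod_cast (mem_Icc.1 hg).1
    exact (div_le_one (by linarith)).2 this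
  have h3 : ∑ g ∈ Icc 1 ν0, (ν0 : ℝ) / (g : ℝ) ^ 2 ≤ ν0 * 2 := by
    refine le_trans (le_of_eq ?_) (mul_le_mul_of_nonneg_left h0 (by positivity))
    rw [mul_sum]
    exact sum_congr rfl fun g _ => by ring
  have h4 : ∑ g ∈ Icc 1 ν0, (if (g : ℝ) ≤ |θ| then s / |θ| else 0) ≤ s * min 1 (ν0 / |θ|) := by
    rw [← sum_filter, sum_const, nsmul_eq_mul]
    have a1 : (((Icc 1 ν0).filter fun g : ℕ => (g : ℝ) ≤ |θ|).card : ℝ) ≤ ν0 := by
      have := card_filter_le (Icc 1 ν0) fun g : ℕ => (g : ℝ) ≤ |θ|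
      rw [Nat.card_Icc, Nat.add_sub_cancel] at this
      exact_mod_cast this
    have a2 : (((Icc 1 ν0).filter fun g : ℕ => (g : ℝ) ≤ |θ|).card : ℝ) ≤ |θ| := by
      have := card_le_card (s := (Icc 1 ν0).filter fun g : ℕ => (g : ℝ) ≤ |θ|)
        (t := Icc 1 ⌊|θ|⌋₊) fun g hg => by
          rw [mem_filter, mem_Icc] at hg
          exact mem_Icc.2 ⟨hg.1.1, Nat.le_floor hg.2⟩
      rw [Nat.card_Icc, Nat.add_sub_cancel] at this
      exact le_trans (by exact_mod_cast this) (Nat.floor_le hθ.le)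
    rw [mul_div_left_comm]
    refine mul_le_mul_of_nonneg_left (le_min ((div_le_one hθ).2 a2) ?_) hs.le
    gcongr
  have h5 : 0 ≤ s * min 1 (ν0 / |θ|) := mul_nonneg hs.le (le_min zero_le_one (by positivity))
  have h6 : 0 ≤ |θ| / s := by positivity
  rw [sum_add_distrib, sum_add_distrib, sum_add_distrib, shp]
  linarith

theorem t_GR (hGR1 : S_GR1) (hSUP : S_SUP) : S_GR := by
  obtain ⟨C, hC, h⟩ := hGR1
  refine ⟨3 * C, by positivity, fun Y n1 ν0 ρ T τ j1 j2 τ1 τ2 θ hP h1 h2 h3 h4 h5 => ?_⟩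
  have hY : (2 : ℝ) ≤ Y := by exact_mod_cast hP.y2
  have hL : 0 ≤ Real.log Y := Real.log_natCast_nonneg Y
  have hs := Real.exp_pos τ1
  have hθ : 0 < |θ| := by
    have a1 : (0 : ℝ) < ν0 := by exact_mod_cast h1
    have a2 : 0 < 16 * T / ρ * ν0 := by have := hP.r0; have := hP.t1; positivity
    exact (mul_pos_iff_of_pos_right hs).1 (a2.trans_le h5)
  have hj1 : 0 ≤ j1 := by
    have := hP.u1
    rw [Nat.cast_one, Real.one_le_exp_iff] at this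
    linarith
  have hj2 : 2 * j2 ≤ Real.log Y := by
    rw [Real.le_log_iff_exp_le (by linarith)]
    have a1 : (n1 : ℝ) ≤ Y := by exact_mod_cast hP.n
    linarith [hP.u2, Real.exp_pos (2 * j2)]
  set D : ℕ → ℝ := fun g => C * (τ ^ 2 * T ^ 2 * (|θ| / ((g : ℝ) ^ 2 * Real.exp τ1) + 1 / g +
    ν0 / (g : ℝ) ^ 2 + if (g : ℝ) ≤ |θ| then Real.exp τ1 / |θ| else 0) + Neg Y T ^ 2 / Y) with hD
  have hD0 : ∀ g, 0 ≤ D g := fun g => by
    have : 0 ≤ if (g : ℝ) ≤ |θ| then Real.exp τ1 / |θ| else 0 := by split_ifs <;> positivity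
    simp only [hD]
    positivity
  have key : ∀ g ∈ Icc 1 ν0, ∑ e ∈ Icc 1 (ν0 / g), ∑ r ∈ red e, 1 / ((g : ℝ) * e) *
      ‖SR ρ n1 j1 j2 τ1 τ2 ((r : ℝ) / e) (θ / (g * e))‖ ^ 2 ≤ (1 + Real.log Y) ^ 4 * D g := by
    intro g hg
    have hg1 := (mem_Icc.1 hg).1
    have a := hSUP ((_ : ℕ) × ℕ) ((Icc 1 (ν0 / g)).sigma red) (fun i => 1 / ((g : ℝ) * i.1))
      (fun i => j1 - Real.log i.1 / 2) (fun i => j2 - Real.log i.1 / 2)
      (fun i => τ1 - Real.log i.1) (fun i => τ2 - Real.log i.1)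
      (fun i x y => SA ρ n1 (x + Real.log i.1 / 2) (y - x + Real.log i.1 / 2) ((i.2 : ℝ) / i.1)
        (θ / (g * i.1))) (j1 - Real.log Y / 2) j2 (τ1 - Real.log Y) τ2 (D g)
      (fun i => by positivity)
      (fun i => (continuous_SA ρ n1).comp (f := fun p : ℝ × ℝ => (p.1 + Real.log i.1 / 2,
        p.2 - p.1 + Real.log i.1 / 2, (i.2 : ℝ) / i.1, θ / (g * i.1))) (by fun_prop))
      (fun i hi => ?_) (by linarith [hP.j12]) (by linarith [hP.s12]) fun x y => ?_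
    · rw [sum_sigma] at a
      simp only [← gr_shift] at a
      refine a.trans (mul_le_mul_of_nonneg_right ?_ (hD0 g))
      rw [show (1 + Real.log Y) ^ 4 = ((1 + Real.log Y) * (1 + Real.log Y)) ^ 2 by ring]
      have b1 : 0 ≤ j2 - (j1 - Real.log Y / 2) := by linarith [hP.j12]
      have b2 : 0 ≤ τ2 - (τ1 - Real.log Y) := by linarith [hP.s12]
      gcongr
      · linarith
      · linarith [hP.s21]
    · have b1 := mem_Icc.1 (mem_sigma.1 hi).1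
      have b2 := Real.log_natCast_nonneg i.1
      have b3 : Real.log i.1 ≤ Real.log Y := Real.log_le_log (by exact_mod_cast b1.1)
        (by exact_mod_cast (b1.2.trans (Nat.div_le_self _ _)).trans h2)
      have := hP.j12
      have := hP.s12
      refine ⟨?_, ?_, ?_, ?_, ?_, ?_⟩ <;> linarith
    · have b := h Y n1 ν0 g ρ T τ j1 j2 τ1 τ2 θ x y ((Icc 1 (ν0 / g)).filter fun e : ℕ =>
        (j1 - Real.log e / 2 ≤ x ∧ x ≤ j2 - Real.log e / 2) ∧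
          τ1 - Real.log e ≤ y ∧ y ≤ τ2 - Real.log e) hP hg1 h2 h3 h4 h5 fun e he => by
        rw [mem_filter, mem_Icc, Nat.le_div_iff_mul_le hg1, mul_comm] at he
        exact ⟨he.1.1, he.1.2, he.2⟩
      refine le_trans (le_of_eq ?_) b
      rw [sum_sigma']
      refine sum_congr ?_ fun _ _ => rfl
      ext i
      simp only [mem_filter, mem_sigma]
      tauto
  rw [gr_far]
  refine (sum_le_sum key).trans ?_
  rw [← mul_sum, mul_comm (3 * C), mul_assoc]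
  refine mul_le_mul_of_nonneg_left ?_ (by positivity)
  simp only [hD]
  rw [← mul_sum, sum_add_distrib, ← mul_sum, sum_const, Nat.card_Icc, Nat.add_sub_cancel,
    nsmul_eq_mul, mul_comm 3 C, mul_assoc C]
  refine mul_le_mul_of_nonneg_left ?_ hC.le
  have c1 := mul_le_mul_of_nonneg_left (gr_sum ν0 hs hθ) (show 0 ≤ τ ^ 2 * T ^ 2 by positivity)
  have c2 : ν0 * (Neg Y T ^ 2 / Y) ≤ Neg Y T ^ 2 := by
    rw [mul_div_left_comm]
    refine mul_le_of_le_one_right (sq_nonneg _) ((div_le_one (by linarith)).2 ?_)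
    exact_mod_cast h2
  nlinarith [sq_nonneg (Neg Y T)]

end Pool.Agent.P.MP_8be758_nt.Av2
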