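import Pool.Agent.P.MP_8be758_nt.Av2.Basic

/-! The step `S_GR1`. -/

namespace Pool.Agent.P.MP_8be758_nt.Av2

open Finset Real Filter Topology
open Pool.Agent.P.MP_e86632_nt (ee)
open Pool.Agent.P.MP_8be758_nt.Avg

theorem gr1_inv {e : ℕ} (he : 1 ≤ e) : ∃ σ : ℕ → ℕ, (∀ r ∈ red e, r * σ r ≡ 1 [MOD e]) ∧
    ∀ F : ℕ → ℝ, (∀ r, 0 ≤ F r) → ∑ r ∈ red e, F (σ r) ≤ ∑ r ∈ red e, F r := by
  have : NeZero e := ⟨by omega⟩
  have h1 : ∀ r ∈ red e, r * ((r : ZMod e)⁻¹).val ≡ 1 [MOD e] := fun r hr => by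
    rw [← ZMod.natCast_eq_natCast_iff, Nat.cast_mul, ZMod.natCast_zmod_val, Nat.cast_one]
    exact ZMod.coe_mul_inv_eq_one r (mem_filter.1 hr).2
  refine ⟨_, h1, fun F hF => ?_⟩
  rw [← sum_image (f := F) fun r hr r' hr' h => ?_]
  · refine sum_le_sum_of_subset_of_nonneg (image_subset_iff.2 fun r hr => mem_filter.2
      ⟨mem_range.2 (ZMod.val_lt _), ?_⟩) fun _ _ _ => hF _
    exact Nat.coprime_of_mul_modEq_one r (mul_comm r _ ▸ h1 r hr)
  · have h2 := h1 r' hr'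
    rw [← h] at h2
    have h3 : r ≡ r' [MOD e] := by
      have a := (h2.mul_left r).symm
      have b := (h1 r hr).mul_left r'
      rw [mul_one] at a b
      exact a.trans (mul_left_comm r r' _ ▸ b)
    exact h3.eq_of_lt_of_lt (mem_range.1 (mem_filter.1 hr).1) (mem_range.1 (mem_filter.1 hr').1)

theorem gr1_main {ρ T τ a g E u s ν : ℝ} (r0 : 0 < ρ) (t1 : 1 ≤ T) (t2 : ρ * T ≤ 1 / 6)
    (g1 : 1 ≤ g) (ga : g ≤ a) (E1 : 1 ≤ E) (u0 : 0 < u) (s0 : 0 < s) (h1 : s ≤ E * u)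
    (h2 : E * u ≤ 2 * s) (h3 : g * E ≤ ν) :
    u ^ 2 / (g * E) * ((T * (a / g) / (ρ * u) + E ^ 2) * (T * (a / g) / (ρ * u) + 1) * τ ^ 2 *
      ρ ^ 2 / (a / g * u)) ≤ 2 * (τ ^ 2 * T ^ 2 * (a / (g ^ 2 * s) + 1 / g + ν / g ^ 2 + s / a)) := by
  have a0 : 0 < a := by linarith
  have g0 : 0 < g := by linarith
  have E0 : 0 < E := by linarith
  have T2 : 1 ≤ T ^ 2 := one_le_pow₀ t1
  have r1 : ρ ≤ 1 := by nlinarith
  have b1 : T ^ 2 * (a / (g ^ 2 * (E * u))) ≤ T ^ 2 * (a / (g ^ 2 * s)) := by gcongr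
  have b2 : ρ * T * (1 / (g * E)) ≤ T ^ 2 * (1 / g) := by
    gcongr
    exacts [by linarith, le_mul_of_one_le_right g0.le E1]
  have b3 : ρ * T * (g * E / g ^ 2) ≤ T ^ 2 * (ν / g ^ 2) := by
    gcongr
    linarith
  have b4 : ρ ^ 2 * (E * u / a) ≤ T ^ 2 * (2 * s / a) := by
    gcongr
    linarith
  have p1 : 0 ≤ T ^ 2 * (a / (g ^ 2 * s)) := by positivity
  have p2 : 0 ≤ T ^ 2 * (1 / g) := by positivity
  have p3 : 0 ≤ T ^ 2 * (ν / g ^ 2) := le_trans (by positivity) b3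
  calc _ = τ ^ 2 * (T ^ 2 * (a / (g ^ 2 * (E * u))) + ρ * T * (1 / (g * E)) +
        ρ * T * (g * E / g ^ 2) + ρ ^ 2 * (E * u / a)) := by field_simp; ring
    _ ≤ τ ^ 2 * (2 * (T ^ 2 * (a / (g ^ 2 * s))) + 2 * (T ^ 2 * (1 / g)) +
        2 * (T ^ 2 * (ν / g ^ 2)) + T ^ 2 * (2 * s / a)) :=
        mul_le_mul_of_nonneg_left (by linarith) (sq_nonneg _)
    _ = _ := by ring

theorem gr1_last {Y : ℕ} {T g E u : ℝ} (y2 : 2 ≤ Y) (g1 : 1 ≤ g) (E1 : 1 ≤ E)
    (h : (E * u) ^ 2 ≤ (Y : ℝ) ^ 2) :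
    u ^ 2 / (g * E) * (E ^ 2 * (((Y ^ 28 : ℕ) + 1) * ((Y ^ 12 : ℕ) + 1) * gs T) ^ 2) ≤
      16 * (Neg Y T ^ 2 / Y) := by
  have y1 : (1 : ℝ) ≤ Y := by exact_mod_cast (by omega : 1 ≤ Y)
  have p := gs_pos T
  have h1 : (Y : ℝ) ^ 50 * gs T ≤ Neg Y T := le_add_of_nonneg_left (by positivity)
  have h2 : ∀ k : ℕ, ((Y ^ k : ℕ) : ℝ) + 1 ≤ 2 * (Y : ℝ) ^ k := fun k => by
    have := one_le_pow₀ y1 (n := k)
    push_cast
    linarith
  have h3 : 1 ≤ g * E := one_le_mul_of_one_le_of_one_le g1 E1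
  calc _ = (E * u) ^ 2 / (g * E) * (((Y ^ 28 : ℕ) + 1) * ((Y ^ 12 : ℕ) + 1) * gs T) ^ 2 := by ring
    _ ≤ (Y : ℝ) ^ 2 / 1 * (2 * (Y : ℝ) ^ 28 * (2 * (Y : ℝ) ^ 12) * gs T) ^ 2 := by
        gcongr
        exacts [h2 28, h2 12]
    _ = 16 * ((Y : ℝ) ^ 83 * gs T ^ 2 / Y) := by field_simp; ring
    _ ≤ 16 * ((Y : ℝ) ^ 100 * gs T ^ 2 / Y) := by gcongr; omega
    _ = 16 * (((Y : ℝ) ^ 50 * gs T) ^ 2 / Y) := by ring
    _ ≤ _ := by gcongr

theorem t_GR1 (hVOR : S_VOR) (hLSV : S_LSV) : S_GR1 := by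
  obtain ⟨C1, c1, hV⟩ := hVOR
  obtain ⟨C2, c2, hL⟩ := hLSV
  refine ⟨1024 * C2 + 2 * C1 ^ 2, by positivity, ?_⟩
  intro Y n1 ν0 g ρ T τ j1 j2 τ1 τ2 θ x y R hP g1 hν hθ hτ hT hR
  have r0 := hP.r0
  have t1 := hP.t1
  have t2 := hP.t2
  have r1 : ρ ≤ 1 := by nlinarith
  have y1 : (1 : ℝ) ≤ Y := by exact_mod_cast (by have := hP.y2; omega : 1 ≤ Y)
  have G1 : (1 : ℝ) ≤ g := by exact_mod_cast g1
  have N0 := neg_nonneg' Y T
  set s := Real.exp τ1 with hs
  set u := Real.exp y with hu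
  have s0 : 0 < s := Real.exp_pos _
  have u0 : 0 < u := Real.exp_pos _
  set A := τ ^ 2 * T ^ 2 * (|θ| / ((g : ℝ) ^ 2 * s) + 1 / g + ν0 / (g : ℝ) ^ 2 +
    if (g : ℝ) ≤ |θ| then s / |θ| else 0) with hA
  have A0 : 0 ≤ A := by
    rw [hA]
    split_ifs <;> positivity
  rcases R.eq_empty_or_nonempty with rfl | hne
  · rw [sum_empty]
    positivity
  have rng : ∀ e ∈ R, s ≤ e * u ∧ e * u ≤ 2 * s := fun e he => by
    obtain ⟨h1, -, -, h2, h3⟩ := hR e he
    have e0 : (0 : ℝ) < e := by exact_mod_cast h1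
    rw [← Real.exp_log e0, ← Real.exp_add, ← Real.exp_log two_pos, ← Real.exp_add]
    have := Real.log_two_gt_d9
    have := hP.s21
    exact ⟨Real.exp_le_exp.2 (by linarith), Real.exp_le_exp.2 (by linarith)⟩
  set E := R.max' hne with hE
  have ER : E ∈ R := R.max'_mem hne
  obtain ⟨E1, gE, -⟩ := hR E ER
  have E1' : (1 : ℝ) ≤ E := by exact_mod_cast E1
  have gE' : (g : ℝ) * E ≤ ν0 := by exact_mod_cast gE
  have sub : R ⊆ Icc 1 E := fun e he => mem_Icc.2 ⟨(hR e he).1, R.le_max' e he⟩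
  have EY : E ≤ Y := (Nat.le_mul_of_pos_left _ g1).trans (gE.trans hν)
  have aφ : |θ / g| = |θ| / g := by rw [abs_div, Nat.abs_cast]
  have φY : |θ / g| ≤ Y := aφ ▸ (div_le_self (abs_nonneg _) G1).trans hθ
  have j0 : 0 ≤ j1 := by have := Real.one_le_exp_iff.1 (Nat.cast_one (R := ℝ) ▸ hP.u1); linarith
  have j3 : 0 ≤ τ1 - j2 := by
    have := Real.one_le_exp_iff.1 (Nat.cast_one (R := ℝ) ▸ hP.v1); linarith
  have key := hL ρ T τ x (y - x) (θ / g) E (Y ^ 28) (Y ^ 12) r0 t1 (by linarith) E1 (by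
    rw [add_sub_cancel, aφ, div_mul_eq_mul_div, le_div_iff₀ (by linarith)]
    refine le_of_mul_le_mul_right ?_ (show (0 : ℝ) < E by linarith)
    calc _ = 16 * T / ρ * (g * E) := by ring
      _ ≤ 16 * T / ρ * ν0 := by gcongr
      _ ≤ |θ| * (E * u) := hT.trans (by gcongr; exact (rng E ER).1)
      _ = _ := by ring) (hτ.mono (by rw [← sq_abs]; gcongr) le_rfl)
  rw [add_sub_cancel, aφ, ← hu] at key
  set D := fun e r : ℕ => ‖DS ρ (Y ^ 28) (Y ^ 12) x (y - x) (θ / g) ((r : ℝ) / e)‖ ^ 2 with hD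
  have pt : ∀ e ∈ R, ∑ r ∈ red e, 1 / ((g : ℝ) * e) *
      ‖SA ρ n1 (x + Real.log e / 2) (y - x + Real.log e / 2) ((r : ℝ) / e) (θ / (g * e))‖ ^ 2 ≤
      64 * (u ^ 2 / (g * E)) * ∑ r ∈ red e, D e r + 2 * (C1 * (Neg Y T / Y)) ^ 2 := fun e he => by
    obtain ⟨h1, -, ⟨h2, h3⟩, h4, h5⟩ := hR e he
    have e1 : (1 : ℝ) ≤ e := by exact_mod_cast h1
    obtain ⟨σ, s1, s2⟩ := gr1_inv h1
    have w1 : 1 / ((g : ℝ) * e) ≤ 2 / (g * E) := by
      have : (E : ℝ) ≤ 2 * e := le_of_mul_le_mul_right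
        (by linarith [(rng E ER).2, (rng e he).1]) u0
      rw [div_le_div_iff₀ (by positivity) (by positivity)]
      nlinarith
    calc _ ≤ ∑ r ∈ red e, (64 * (u ^ 2 / (g * E)) * D e (σ r) +
          1 / e * (2 * (C1 * (Neg Y T / Y)) ^ 2)) := sum_le_sum fun r hr => by
          have v := hV Y n1 e r (σ r) ρ x (y - x) (θ / g) hP.y2 hP.n h1
            ((R.le_max' e he).trans EY) (s1 r hr) r0 r1 hP.r1
            (by rw [abs_div _ (e : ℝ), Nat.abs_cast]; exact (div_le_self (abs_nonneg _) e1).trans φY)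
            (by linarith) (by linarith)
            (le_trans (by gcongr; linarith) hP.u2) (le_trans (by gcongr; linarith) hP.v2)
          rw [div_div, add_sub_cancel, ← hu] at v
          have v2 : C1 * (1 / (Y : ℝ) ^ 5 + (Y : ℝ) ^ 42 * gs (1 / (6 * ρ))) ≤
              C1 * (Neg Y T / Y) := by
            have := gs_pos (1 / (6 * ρ))
            rw [Neg, add_div, div_div, ← pow_succ, show (Y : ℝ) ^ 50 * gs T / Y = Y ^ 49 * gs T by
              field_simp]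
            gcongr
            exacts [by omega, by omega,
              gs_mono (by linarith) (by rw [le_div_iff₀ (by positivity)]; linarith)]
          have v3 := (norm_le_norm_add_norm_sub' _ _).trans (add_le_add le_rfl (v.trans v2))
          rw [norm_mul, norm_mul, Complex.norm_real, Real.norm_of_nonneg u0.le,
            Complex.norm_ofNat] at v3
          have v4 := (pow_le_pow_left₀ (norm_nonneg _) v3 2).trans (add_sq_le ..)
          have w2 : 1 / ((g : ℝ) * e) ≤ 1 / e := by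
            gcongr
            exact le_mul_of_one_le_left (by linarith) G1
          refine (mul_le_mul_of_nonneg_left v4 (by positivity)).trans ?_
          rw [mul_add, mul_add]
          refine add_le_add ((mul_le_mul_of_nonneg_right w1 (by positivity)).trans_eq ?_)
            (mul_le_mul_of_nonneg_right w2 (by positivity))
          simp only [hD]
          ring
      _ ≤ _ := by
          rw [sum_add_distrib, ← mul_sum, sum_const, nsmul_eq_mul, ← mul_assoc]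
          have : ((red e).card : ℝ) ≤ e := by
            exact_mod_cast (card_filter_le _ _).trans_eq (card_range e)
          refine add_le_add (mul_le_mul_of_nonneg_left (s2 (D e) fun r => sq_nonneg _)
            (by positivity)) (mul_le_of_le_one_left (by positivity) ?_)
          rwa [mul_one_div, div_le_one (by linarith)]
  have cR : (R.card : ℝ) ≤ Y := by
    exact_mod_cast (card_le_card sub).trans (by rw [Nat.card_Icc]; omega)
  have last := gr1_last (T := T) (u := u) hP.y2 G1 E1' (by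
    have h1 : s ^ 2 = Real.exp (2 * j1) * Real.exp (2 * (τ1 - j1)) := by
      rw [← Real.exp_add, hs, ← Real.exp_nat_mul]
      congr 1
      push_cast
      ring
    have h2 : (n1 : ℝ) ≤ Y := by exact_mod_cast hP.n
    have h3 : Real.exp (2 * j1) ≤ Y / 4 :=
      (Real.exp_le_exp.2 (by linarith [hP.j12])).trans (by linarith [hP.u2] : Real.exp (2 * j2) ≤ _)
    have h4 : Real.exp (2 * (τ1 - j1)) ≤ Y / 4 := (Real.exp_le_exp.2 (by linarith [hP.s12])).trans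
      (by linarith [hP.v2] : Real.exp (2 * (τ2 - j1)) ≤ _)
    have h5 := mul_le_mul h3 h4 (Real.exp_pos _).le (by positivity)
    have h6 := pow_le_pow_left₀ (by positivity) (rng E ER).2 2
    nlinarith)
  have main : u ^ 2 / (g * E) * (if 1 ≤ |θ| / g then (T * (|θ| / g) / (ρ * u) + (E : ℝ) ^ 2) *
      (T * (|θ| / g) / (ρ * u) + 1) * τ ^ 2 * ρ ^ 2 / (|θ| / g * u) else 0) ≤ 2 * A := by
    rw [hA]
    simp only [one_le_div (show (0 : ℝ) < g by linarith)]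
    split_ifs with h
    · exact gr1_main r0 t1 t2 G1 h E1' u0 s0 (rng E ER).1 (rng E ER).2 gE'
    · rw [mul_zero]
      positivity
  refine (sum_le_sum pt).trans ?_
  rw [sum_add_distrib, ← mul_sum, sum_const, nsmul_eq_mul]
  have k1 := mul_le_mul_of_nonneg_left ((sum_le_sum_of_subset_of_nonneg sub
    fun e _ _ => sum_nonneg fun r _ => sq_nonneg _).trans key)
    (show 0 ≤ 64 * (u ^ 2 / (g * E)) by positivity)
  have k2 : (R.card : ℝ) * (2 * (C1 * (Neg Y T / Y)) ^ 2) ≤ 2 * C1 ^ 2 * (Neg Y T ^ 2 / Y) :=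
    (mul_le_mul_of_nonneg_right cR (by positivity)).trans_eq (by field_simp)
  have k3 := mul_le_mul_of_nonneg_left (add_le_add main last) (show 0 ≤ 64 * C2 by positivity)
  have k4 : 0 ≤ C2 * A := by positivity
  have k5 : 0 ≤ C1 ^ 2 * A := by positivity
  refine (add_le_add (k1.trans (le_of_eq_of_le (by ring) k3)) k2).trans ?_
  nlinarith

end Pool.Agent.P.MP_8be758_nt.Av2
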