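import Pool.Agent.P.MP_8be758_nt.Av2.HBa

/-! The step `S_HB`. -/

namespace Pool.Agent.P.MP_8be758_nt.Av2

theorem t_HB (hHBI : S_HBI) (θ δ : ℝ) (hPR1 : S_PR1 θ δ) : S_HB θ δ := hb_main hHBI θ δ hPR1

end Pool.Agent.P.MP_8be758_nt.Av2
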