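import Pool.Agent.P.MP_8be758_nt.Av2.Basic

/-! The step `S_HBI`. -/

namespace Pool.Agent.P.MP_8be758_nt.Av2

open Finset Real Filter Topology
open Pool.Agent.P.MP_e86632_nt (ee)
open Pool.Agent.P.MP_8be758_nt.Avg
open ArithmeticFunction (moebius vonMangoldt zeta)

theorem hbi_ze : ze = (zeta : ArithmeticFunction ℝ) := by
  ext n
  change (if n = 0 then (0 : ℝ) else 1) = _
  rw [ArithmeticFunction.natCoe_apply, ArithmeticFunction.zeta_apply]
  split_ifs <;> simp

theorem hbi_mul {f g : ArithmeticFunction ℝ} {a b : ℕ} (hf : ∀ n ≤ a, f n = 0)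
    (hg : ∀ n ≤ b, g n = 0) : ∀ n ≤ a * b, (f * g) n = 0 := by
  intro n hn
  rw [ArithmeticFunction.mul_apply]
  refine sum_eq_zero fun p hp => ?_
  have h := (Nat.mem_divisorsAntidiagonal.1 hp).1
  by_cases h1 : p.1 ≤ a
  · rw [hf _ h1, zero_mul]
  · by_cases h2 : p.2 ≤ b
    · rw [hg _ h2, mul_zero]
    · exfalso
      have := Nat.mul_lt_mul'' (not_le.1 h1) (not_le.1 h2)
      omega

theorem hbi_F (y : ℕ) : ∀ n ≤ y, (1 - rs 0 y (moebius : ArithmeticFunction ℝ) * ze) n = 0 := by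
  intro n hn
  have h : (rs 0 y (moebius : ArithmeticFunction ℝ) * ze) n = (1 : ArithmeticFunction ℝ) n := by
    rw [← ArithmeticFunction.coe_moebius_mul_coe_zeta, hbi_ze, ArithmeticFunction.mul_apply,
      ArithmeticFunction.mul_apply]
    refine sum_congr rfl fun p hp => ?_
    have h1 := Nat.fst_mem_divisors_of_mem_antidiagonal hp
    rw [rs_apply, if_pos ⟨Nat.pos_of_mem_divisors h1, (Nat.divisor_le h1).trans hn⟩]
  rw [sub_eq_add_neg, ArithmeticFunction.add_apply, ArithmeticFunction.neg_apply, h, add_neg_cancel]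

theorem hbi_pow {F : ArithmeticFunction ℝ} {y : ℕ} (h : ∀ n ≤ y, F n = 0) (i : ℕ) :
    ∀ n ≤ y ^ (i + 1), (F ^ (i + 1)) n = 0 := by
  induction i with
  | zero => simpa using h
  | succ i ih =>
    rw [pow_succ F, pow_succ y]
    exact hbi_mul ih h

theorem t_HBI : S_HBI := by
  intro N y m hN hm
  set M := rs 0 y (moebius : ArithmeticFunction ℝ) with hM
  set c : ℝ := 1 / (3 * Real.log N) with hc
  have h1 : lg N = (c • vonMangoldt) * ze := by
    rw [smul_mul_assoc, hbi_ze, ArithmeticFunction.vonMangoldt_mul_zeta]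
    ext n
    rw [lg_apply, ArithmeticFunction.smul_map, ArithmeticFunction.log_apply, hc, smul_eq_mul]
    ring
  have h2 : (((1 - M * ze) ^ 5) * (c • vonMangoldt) : ArithmeticFunction ℝ) m = 0 := by
    rw [ArithmeticFunction.mul_apply]
    refine sum_eq_zero fun p hp => ?_
    rw [hbi_pow (hbi_F y) 4 _
      ((Nat.divisor_le (Nat.fst_mem_divisors_of_mem_antidiagonal hp)).trans hm), zero_mul]
  let E : ArithmeticFunction ℝ →+ ℝ := ⟨⟨fun f => f m, rfl⟩, fun _ _ => rfl⟩
  have h3 : c • vonMangoldt + (10 • (M ^ 2 * ze ^ 1 * lg N) + 5 • (M ^ 4 * ze ^ 3 * lg N)) =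
      ((1 - M * ze) ^ 5) * (c • vonMangoldt) + (5 • (M ^ 1 * ze ^ 0 * lg N) +
        10 • (M ^ 3 * ze ^ 2 * lg N) + M ^ 5 * ze ^ 4 * lg N) := by
    rw [h1]
    simp only [nsmul_eq_mul]
    push_cast
    ring
  have h4 := congrArg E h3
  simp only [map_add, map_nsmul] at h4
  simp only [nsmul_eq_mul, Nat.cast_ofNat] at h4
  have h5 : E ((1 - M * ze) ^ 5 * (c • vonMangoldt)) = 0 := h2
  have h6 : E (c • vonMangoldt) = vonMangoldt m / (3 * Real.log N) := by
    change c * vonMangoldt m = _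
    rw [hc]; ring
  rw [h5, h6] at h4
  change _ = ∑ j ∈ range 5, (-1) ^ j * (Nat.choose 5 (j + 1) : ℝ) * E (M ^ (j + 1) * ze ^ j * lg N)
  simp only [sum_range_succ, sum_range_zero, Nat.reduceAdd, Nat.choose, Nat.cast_ofNat,
    Nat.cast_one]
  linear_combination h4

end Pool.Agent.P.MP_8be758_nt.Av2
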