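import Pool.Agent.P.MP_8be758_nt.Av2.Basic

/-! The step `S_HYP`. -/

namespace Pool.Agent.P.MP_8be758_nt.Av2

open Finset Real Filter Topology
open Pool.Agent.P.MP_e86632_nt (ee)
open Pool.Agent.P.MP_8be758_nt.Avg

theorem hyp_box {e1 N η B y Mb Mu Cu Cr : ℝ} {W K X1 X2 : ℕ} {φ ψ : ℕ → ℝ}
    (hX1 : N ^ 2 ≤ X1) (hX12' : X1 ≤ X2) (hX2 : (X2 : ℝ) ≤ 6 / 5 * N ^ 2)
    (hφ : Coef (N ^ e1) y φ) (hψ : Coef (N ^ e1) 0 ψ)
    (hN : 25 ≤ N) (hη0 : 0 < η) (hη1 : η ≤ 1) (hCu : 0 ≤ Cu) (hB0 : 0 < B)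
    (hB3 : B ≤ N) (hz : (N ^ e1) ^ 5 ≤ η * B)
    (HB : ∀ (A1 A2 : ℕ) (S : Finset ℕ), Bx N e1 B A1 A2 S →
      S ⊆ (Icc 1 X2).filter (fun b : ℕ => B < b ∧ (b : ℝ) ≤ B * (1 + η)) →
      ∑ k ∈ Icc 1 K, |∑ b ∈ S, ∑ a ∈ Ioc A1 A2, φ b * ψ a * dd W k (a * b)| ≤ Mb)
    (HU : ∀ S1 S2 : Finset ℕ, (∀ b ∈ S1, B ≤ b ∧ (b : ℝ) ≤ 2 * B) →
      (∀ a ∈ S2, N ^ 2 / (2 * B) ≤ a ∧ (a : ℝ) ≤ 2 * N ^ 2 / B) →
      ∑ k ∈ Icc 1 K, ∑ b ∈ S1, ∑ a ∈ S2, |dd W k (a * b)| ≤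
        Cu * (K / N) * S1.card * S2.card + Mu)
    (HR : ∀ (x H : ℝ) (S : Finset ℕ), (N ^ e1) ^ 5 ≤ H →
      (∀ m ∈ S, x < m ∧ (m : ℝ) ≤ x + H ∧ Rough (N ^ e1) m) → (S.card : ℝ) ≤ Cr * H)
    (HN : ∀ S : Finset ℕ, (∀ b ∈ S, (b : ℝ) ≤ 2 * B ∧ Rough (N ^ e1) b ∧ ¬ Squarefree b) →
      (S.card : ℝ) ≤ 2 * (2 * B) / N ^ e1) :
    ∑ k ∈ Icc 1 K, |∑ b ∈ (Icc 1 X2).filter (fun b : ℕ => B < b ∧ (b : ℝ) ≤ B * (1 + η)),
        ∑ a ∈ half_P X1 X2 b, φ b * ψ a * dd W k (a * b)| ≤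
      Mb + 2 * Mu + Cu * K * N * (3 * Cr ^ 2 * η ^ 2 + 8 / N ^ e1) := by
  have hN0 : 0 < N := by linarith
  have hz0 : 0 < N ^ e1 := Real.rpow_pos_of_pos hN0 _
  have hX12 : (X1 : ℝ) ≤ X2 := by exact_mod_cast hX12'
  have hNB : N ≤ N ^ 2 / B := by rw [le_div_iff₀ hB0]; nlinarith
  set B' := B * (1 + η) with hB'
  have hB'0 : 0 < B' := by positivity
  have hB'2 : B' ≤ 2 * B := by nlinarith
  set T := (Icc 1 X2).filter (fun b : ℕ => (B < b ∧ (b : ℝ) ≤ B') ∧ φ b ≠ 0) with hT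
  set A := (Icc 1 X2).filter (fun a : ℕ => N ^ 2 / (2 * B) ≤ a ∧ (a : ℝ) ≤ 2 * N ^ 2 / B) with hA
  set H := 6 / 5 * η * (N ^ 2 / B) with hH
  set E1 := A.filter (fun a : ℕ => X1 / B' < a ∧ (a : ℝ) ≤ X1 / B' + H ∧ Rough (N ^ e1) a) with hE1
  set E2 := A.filter (fun a : ℕ => X2 / B' < a ∧ (a : ℝ) ≤ X2 / B' + H ∧ Rough (N ^ e1) a) with hE2
  set A1 := ⌊X1 / B⌋₊ with hA1
  set A2 := ⌊X2 / B'⌋₊ with hA2
  have mT : ∀ b ∈ T, B < b ∧ (b : ℝ) ≤ B' ∧ Rough (N ^ e1) b := fun b hb =>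
    ⟨(mem_filter.1 hb).2.1.1, (mem_filter.1 hb).2.1.2, (hφ.2 b (mem_filter.1 hb).2.2).1⟩
  have mP : ∀ b a, a ∈ half_P X1 X2 b → (X1 : ℝ) < a * b ∧ (a : ℝ) * b ≤ X2 := fun b a ha => by
    have := (mem_filter.1 ha).2
    exact ⟨by exact_mod_cast this.1, by exact_mod_cast this.2⟩
  have hH0 : 0 ≤ H := by positivity
  have gapH : ∀ X : ℝ, 0 ≤ X → X ≤ 6 / 5 * N ^ 2 → X / B ≤ X / B' + H := fun X h0 h1 => by
    have e : X / B - X / B' = η * (X / B') := by rw [hB']; field_simp; ring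
    have h2 : X / B' ≤ 6 / 5 * (N ^ 2 / B) := by
      rw [← mul_div_assoc]
      exact div_le_div₀ (by positivity) h1 hB0 (by nlinarith)
    nlinarith
  have h1 : ∀ b ∈ T, Ioc A1 A2 ⊆ half_P X1 X2 b := fun b hb a ha => by
    obtain ⟨b1, b2, -⟩ := mT b hb
    rw [mem_Ioc] at ha
    have a1 : X1 / B < a := (Nat.floor_lt (by positivity)).1 ha.1
    have a2 : (a : ℝ) ≤ X2 / B' := (Nat.le_floor_iff (by positivity)).1 ha.2
    rw [div_lt_iff₀ hB0] at a1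
    rw [le_div_iff₀ hB'0] at a2
    have a0 : (0 : ℝ) ≤ a := Nat.cast_nonneg a
    have c1 : X1 < a * b := by exact_mod_cast (by nlinarith : (X1 : ℝ) < a * b)
    have c2 : a * b ≤ X2 := by exact_mod_cast (by nlinarith : (a : ℝ) * b ≤ X2)
    have b0 : 1 ≤ b := (mem_Icc.1 (mem_filter.1 hb).1).1
    exact mem_filter.2 ⟨mem_Icc.2 ⟨by omega, by nlinarith⟩, c1, c2⟩
  have h2 : ∀ b ∈ T, half_P X1 X2 b ⊆ A := fun b hb a ha => by
    obtain ⟨b1, b2, -⟩ := mT b hb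
    obtain ⟨c1, c2⟩ := mP b a ha
    have a0 : (0 : ℝ) ≤ a := Nat.cast_nonneg a
    refine mem_filter.2 ⟨(mem_filter.1 ha).1, ?_, ?_⟩
    · rw [div_le_iff₀ (by positivity)]; nlinarith
    · rw [le_div_iff₀ hB0]; nlinarith
  have h3 : ∀ b ∈ T, ∀ a ∈ half_P X1 X2 b, a ∉ Ioc A1 A2 → ψ a ≠ 0 → a ∈ E1 ∪ E2 := by
    intro b hb a ha hn h0
    obtain ⟨b1, b2, -⟩ := mT b hb
    obtain ⟨c1, c2⟩ := mP b a ha
    have a0 : (0 : ℝ) ≤ a := Nat.cast_nonneg a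
    have r := (hψ.2 a h0).1
    rw [mem_Ioc, not_and_or, not_lt, not_le] at hn
    rcases hn with hn | hn
    · refine mem_union_left _ (mem_filter.2 ⟨h2 b hb ha, ?_, ?_, r⟩)
      · rw [div_lt_iff₀ hB'0]; nlinarith
      · exact ((Nat.le_floor_iff (by positivity)).1 hn).trans (gapH _ (by positivity) (by linarith))
    · refine mem_union_right _ (mem_filter.2 ⟨h2 b hb ha, (Nat.floor_lt (by positivity)).1 hn,
        le_trans ?_ (gapH _ (by positivity) hX2), r⟩)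
      rw [le_div_iff₀ hB0]; nlinarith
  have e : ∀ k, ∑ b ∈ (Icc 1 X2).filter (fun b : ℕ => B < b ∧ (b : ℝ) ≤ B'),
      ∑ a ∈ half_P X1 X2 b, φ b * ψ a * dd W k (a * b) =
      ∑ b ∈ T, ∑ a ∈ half_P X1 X2 b, φ b * ψ a * dd W k (a * b) := fun k => by
    rw [hT, ← filter_filter (fun b : ℕ => B < b ∧ (b : ℝ) ≤ B') (fun b => φ b ≠ 0)]
    refine (sum_filter_of_ne fun b _ hb => ?_).symm
    exact fun h0 => hb (by simp [h0])
  simp only [e]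
  refine (sum_le_sum fun k _ =>
    half_split T _ (E1 ∪ E2) A _ φ ψ (dd W k) hφ.1 hψ.1 h1 h2 h3).trans ?_
  rw [sum_add_distrib, sum_add_distrib]
  have hfl : X1 / B - 1 < A1 := Nat.sub_one_lt_floor _
  have hfl1 : (A1 : ℝ) ≤ X1 / B := Nat.floor_le (by positivity)
  have hfl2 : (A2 : ℝ) ≤ X2 / B' := Nat.floor_le (by positivity)
  have u1 := HB A1 A2 (T.filter Squarefree) ⟨by
      rw [div_sub_one hB0.ne', div_lt_iff₀ hB0] at hfl
      nlinarith, by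
      rw [le_div_iff₀ hB0] at hfl1
      nlinarith, by
      rw [le_div_iff₀ hB'0] at hfl2
      have : (A2 : ℝ) * B ≤ A2 * B' := mul_le_mul_of_nonneg_left (by nlinarith) (Nat.cast_nonneg _)
      linarith,
    fun b hb => by
      obtain ⟨b1, b2, b3⟩ := mT b (mem_filter.1 hb).1
      exact ⟨b1, by linarith, (mem_filter.1 hb).2, b3⟩⟩ fun b hb =>
    mem_filter.2 ⟨(mem_filter.1 (mem_filter.1 hb).1).1, (mem_filter.1 (mem_filter.1 hb).1).2.1⟩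
  have mT' : ∀ b ∈ T, B ≤ b ∧ (b : ℝ) ≤ 2 * B := fun b hb =>
    ⟨(mT b hb).1.le, (mT b hb).2.1.trans hB'2⟩
  have u2 := HU T (E1 ∪ E2) mT' fun a ha =>
    (mem_filter.1 (union_subset (filter_subset _ _) (filter_subset _ _) ha)).2
  have u3 := HU (T.filter fun b => ¬ Squarefree b) A (fun b hb => mT' b (mem_filter.1 hb).1)
    fun a ha => (mem_filter.1 ha).2
  have c1 : (T.card : ℝ) ≤ Cr * (η * B) := HR B _ T hz fun b hb =>
    ⟨(mT b hb).1, by linarith [(mT b hb).2.1], (mT b hb).2.2⟩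
  have hzH : (N ^ e1) ^ 5 ≤ H := hz.trans (by nlinarith)
  have c2 : ((E1 ∪ E2).card : ℝ) ≤ 2 * (Cr * H) := by
    have d1 := HR _ H E1 hzH fun a ha => (mem_filter.1 ha).2
    have d2 := HR _ H E2 hzH fun a ha => (mem_filter.1 ha).2
    have d3 : ((E1 ∪ E2).card : ℝ) ≤ E1.card + E2.card := by exact_mod_cast card_union_le _ _
    linarith
  have c3 := HN (T.filter fun b => ¬ Squarefree b) fun b hb =>
    ⟨(mT' b (mem_filter.1 hb).1).2, (mT b (mem_filter.1 hb).1).2.2, (mem_filter.1 hb).2⟩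
  have c4 : (A.card : ℝ) ≤ 2 * N ^ 2 / B := by
    have d1 : A ⊆ Icc 1 ⌊2 * N ^ 2 / B⌋₊ := fun a ha =>
      mem_Icc.2 ⟨(mem_Icc.1 (mem_filter.1 ha).1).1, Nat.le_floor (mem_filter.1 ha).2.2⟩
    have d2 := card_le_card d1
    rw [Nat.card_Icc, Nat.add_sub_cancel] at d2
    exact le_trans (by exact_mod_cast d2) (Nat.floor_le (by positivity))
  have hKN : 0 ≤ Cu * (K / N) := by positivity
  have v2 : Cu * (K / N) * T.card * (E1 ∪ E2).card ≤ Cu * K * N * (3 * Cr ^ 2 * η ^ 2) := by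
    calc Cu * (K / N) * T.card * (E1 ∪ E2).card
        ≤ Cu * (K / N) * (Cr * (η * B)) * (2 * (Cr * H)) :=
          mul_le_mul (mul_le_mul_of_nonneg_left c1 hKN) c2 (Nat.cast_nonneg _)
            (mul_nonneg hKN ((Nat.cast_nonneg _).trans c1))
      _ = Cu * K * N * (12 / 5 * Cr ^ 2 * η ^ 2) := by rw [hH]; field_simp; ring
      _ ≤ _ := by gcongr; norm_num
  have v3 : Cu * (K / N) * (T.filter fun b => ¬ Squarefree b).card * A.card ≤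
      Cu * K * N * (8 / N ^ e1) := by
    calc Cu * (K / N) * (T.filter fun b => ¬ Squarefree b).card * A.card
        ≤ Cu * (K / N) * (2 * (2 * B) / N ^ e1) * (2 * N ^ 2 / B) := by gcongr
      _ = _ := by field_simp; ring
  rw [mul_add (Cu * K * N)]
  linarith

theorem hyp_split (s : Finset ℕ) (f : ℕ → ℝ) {y lam : ℝ} (hy : 0 ≤ y) (hl : 1 ≤ lam) (j : ℕ) :
    ∑ b ∈ s.filter (fun b : ℕ => y < b ∧ (b : ℝ) ≤ y * lam ^ (j + 1)), f b =
      ∑ b ∈ s.filter (fun b : ℕ => y < b ∧ (b : ℝ) ≤ y * lam ^ j), f b +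
      ∑ b ∈ s.filter (fun b : ℕ => y * lam ^ j < b ∧ (b : ℝ) ≤ y * lam ^ j * lam), f b := by
  have h1 : y ≤ y * lam ^ j := le_mul_of_one_le_right hy (one_le_pow₀ hl)
  have h2 : y * lam ^ j ≤ y * lam ^ j * lam := le_mul_of_one_le_right (hy.trans h1) hl
  rw [sum_filter, sum_filter, sum_filter, ← sum_add_distrib]
  refine sum_congr rfl fun b _ => ?_
  rw [pow_succ, ← mul_assoc]
  by_cases c1 : (b : ℝ) ≤ y * lam ^ j
  · by_cases c2 : y < b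
    · rw [if_pos ⟨c2, c1.trans h2⟩, if_pos ⟨c2, c1⟩, if_neg fun c => by linarith [c.1], add_zero]
    · rw [if_neg fun c => c2 c.1, if_neg fun c => c2 c.1, if_neg fun c => by linarith [c.1],
        add_zero]
  · have c3 := not_le.1 c1
    by_cases c2 : (b : ℝ) ≤ y * lam ^ j * lam
    · rw [if_pos ⟨h1.trans_lt c3, c2⟩, if_neg fun c => c1 c.2, if_pos ⟨c3, c2⟩, zero_add]
    · rw [if_neg fun c => c2 c.2, if_neg fun c => c1 c.2, if_neg fun c => c2 c.2, add_zero]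

theorem hyp_cover (Ks s : Finset ℕ) (h : ℕ → ℕ → ℝ) (m : ℕ → ℝ) {y lam M : ℝ} (hy : 0 ≤ y)
    (hl : 1 ≤ lam)
    (hM : ∀ j : ℕ, ∑ k ∈ Ks, |∑ b ∈ s.filter
      (fun b : ℕ => y * lam ^ j < b ∧ (b : ℝ) ≤ y * lam ^ j * lam), h k b| ≤
      ∑ b ∈ s.filter (fun b : ℕ => y * lam ^ j < b ∧ (b : ℝ) ≤ y * lam ^ j * lam), m b + M)
    (j : ℕ) :
    ∑ k ∈ Ks, |∑ b ∈ s.filter (fun b : ℕ => y < b ∧ (b : ℝ) ≤ y * lam ^ j), h k b| ≤
      ∑ b ∈ s.filter (fun b : ℕ => y < b ∧ (b : ℝ) ≤ y * lam ^ j), m b + j * M := by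
  induction j with
  | zero =>
    have : s.filter (fun b : ℕ => y < b ∧ (b : ℝ) ≤ y * lam ^ 0) = ∅ :=
      filter_eq_empty_iff.2 fun b _ hb => by
        rw [pow_zero, mul_one] at hb
        linarith [hb.1, hb.2]
    rw [this]
    simp
  | succ j ih =>
    simp only [hyp_split s _ hy hl j]
    refine (sum_le_sum fun k _ => abs_add_le _ _).trans ?_
    rw [sum_add_distrib, Nat.cast_succ, add_mul, one_mul]
    linarith [hM j]

theorem hyp_Bf {y lam : ℝ} (hy : 0 < y) (hl : 1 < lam) : ∃ Bf : ℕ → ℝ, ∀ j b : ℕ,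
    y * lam ^ j < b → (b : ℝ) ≤ y * lam ^ j * lam → Bf b = y * lam ^ j := by
  classical
  have h : ∀ b : ℕ, ∃ j : ℕ, (b : ℝ) ≤ y * lam ^ j * lam := fun b => by
    obtain ⟨j, hj⟩ := pow_unbounded_of_one_lt ((b : ℝ) / y) hl
    rw [div_lt_iff₀ hy, mul_comm] at hj
    exact ⟨j, hj.le.trans (le_mul_of_one_le_right (by positivity) hl.le)⟩
  refine ⟨fun b => y * lam ^ Nat.find (h b), fun j b h1 h2 => ?_⟩
  have : Nat.find (h b) = j := (Nat.find_eq_iff _).2 ⟨h2, fun i hi => not_le.2 (lt_of_le_of_lt (by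
    rw [mul_assoc, ← pow_succ]
    exact mul_le_mul_of_nonneg_left (pow_le_pow_right₀ hl.le hi) hy.le) h1)⟩
  simp only [this]

theorem t_HYP (hUPD2 : S_UPD2) : S_HYP := by
  intro e1 he0 he1 ε hε
  obtain ⟨Cu, hCu, hUPD⟩ := hUPD2
  obtain ⟨Cr, hCr, hRC⟩ := lib_RC
  have hNSQ := lib_NSQ
  obtain ⟨η, hη0, hη1, hη⟩ : ∃ η : ℝ, 0 < η ∧ η ≤ 1 ∧ 27 * Cu * Cr ^ 2 * η ≤ ε * e1 ^ 2 := by
    refine ⟨min 1 (ε * e1 ^ 2 / (27 * Cu * Cr ^ 2)), by positivity, min_le_left _ _, ?_⟩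
    rw [mul_comm, ← le_div_iff₀ (by positivity)]
    exact min_le_right _ _
  refine ⟨η / 3, by positivity, fun W hW => ?_⟩
  filter_upwards [hUPD W hW, eventually_ge_atTop 25, ev_const 2 he0, ev_log 1,
    ev_pow (1 / η) 0 (show (1 / 2 : ℝ) < 13 / 20 by norm_num),
    ev_pow (72 * Cu / (ε * η)) 2 he0,
    ev_pow (18 / (ε * η)) 2 (show (49 / 50 : ℝ) < 1 by norm_num)]
    with N HU hN hz2 hL1 hy hz hw K X1 X2 y y' M φ m ψ hK hX1 hX12 hX2 hyy hy' hM0 hm hφ hφ' hψ HB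
  have hN0 : 0 < N := by linarith
  have hN1 : 1 ≤ N := by linarith
  set L := Real.log N with hLdef
  have hL0 : 0 < L := by linarith
  have hz0 : 0 < N ^ e1 := Real.rpow_pos_of_pos hN0 _
  have hy1 : 1 ≤ N ^ (13 / 20 : ℝ) := Real.one_le_rpow hN1 (by norm_num)
  have hlz : Real.log (N ^ e1) = e1 * L := Real.log_rpow hN0 _
  have hz5 : (N ^ e1) ^ 5 ≤ η * N ^ (13 / 20 : ℝ) := by
    rw [pow_zero, mul_one, one_div_mul_eq_div, div_le_iff₀ hη0, mul_comm] at hy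
    refine le_trans ?_ hy
    rw [← Real.rpow_natCast, ← Real.rpow_mul hN0.le]
    exact Real.rpow_le_rpow_of_exponent_le hN1 (by push_cast; linarith)
  have hup : N ≤ N ^ (27 / 20 : ℝ) := by
    simpa using Real.rpow_le_rpow_of_exponent_le hN1 (show (1 : ℝ) ≤ 27 / 20 by norm_num)
  have hKN : 0 ≤ (K : ℝ) * N := by positivity
  set M0 := ε * η / 3 * (K * N) / L ^ 2 with hM
  have hM1 : 0 ≤ M0 := by positivity
  have key : ∀ B : ℝ, y ≤ B → ∑ k ∈ Icc 1 K,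
      |∑ b ∈ (Icc 1 X2).filter (fun b : ℕ => B < b ∧ (b : ℝ) ≤ B * (1 + η)),
        ∑ a ∈ half_P X1 X2 b, φ b * ψ B a * dd W k (a * b)| ≤
      ∑ b ∈ (Icc 1 X2).filter (fun b : ℕ => B < b ∧ (b : ℝ) ≤ B * (1 + η)), m b + (M + M0) := by
    intro B hB1
    rcases le_or_gt B y' with hB2 | hB2
    · refine (hyp_box (Cr := Cr / (e1 * L)) hX1 hX12 hX2 hφ (hψ B) hN hη0 hη1 hCu.le (by linarith)
        (hB2.trans hy') (hz5.trans (by gcongr; linarith))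
        (fun A1 A2 S hS' hS => (HB B A1 A2 S hB1 hB2 hS').trans (add_le_add_left
          (sum_le_sum_of_subset_of_nonneg hS fun b _ _ => hm b) M))
        (fun S1 S2 => HU K B S1 S2 hK (hyy.trans hB1) (hB2.trans (hy'.trans hup)))
        (fun x H S h1 h2 => by
          rw [div_mul_eq_mul_div, ← hlz]
          exact hRC _ x H S hz2 h1 h2)
        fun S h1 => (hNSQ _ _ S hz2 (by linarith) h1).1).trans ?_
      have t2 : 2 * (N ^ (49 / 50 : ℝ) * L ^ 2 / N) ≤ ε * η / 9 := by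
        rw [Real.rpow_one, mul_assoc, div_mul_eq_mul_div, div_le_iff₀ (by positivity)] at hw
        rw [← mul_div_assoc, div_le_iff₀ hN0]
        linarith
      have t3 : Cu * (3 * Cr ^ 2 * η ^ 2 / e1 ^ 2) ≤ ε * η / 9 := by
        rw [← mul_div_assoc, div_le_iff₀ (by positivity)]
        nlinarith
      have t4 : Cu * (8 * L ^ 2 / N ^ e1) ≤ ε * η / 9 := by
        rw [Real.rpow_zero, mul_one, div_mul_eq_mul_div, div_le_iff₀ (by positivity)] at hz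
        rw [← mul_div_assoc, div_le_iff₀ hz0]
        linarith
      have t5 : 2 * (K * N ^ (49 / 50 : ℝ)) +
          Cu * K * N * (3 * (Cr / (e1 * L)) ^ 2 * η ^ 2 + 8 / N ^ e1) ≤ M0 :=
        calc _ = (2 * (N ^ (49 / 50 : ℝ) * L ^ 2 / N) + Cu * (3 * Cr ^ 2 * η ^ 2 / e1 ^ 2) +
              Cu * (8 * L ^ 2 / N ^ e1)) * (K * N) / L ^ 2 := by
              field_simp
              ring
          _ ≤ M0 := by
              rw [hM]
              gcongr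
              linarith
      linarith
    · rw [sum_eq_zero fun k _ => ?_]
      · exact add_nonneg (sum_nonneg fun b _ => hm b) (by linarith)
      rw [sum_eq_zero fun b hb => ?_, abs_zero]
      have : φ b = 0 := by
        by_contra h0
        linarith [hφ' b h0, (mem_filter.1 hb).2.1]
      simp [this]
  obtain ⟨Bf, hBf⟩ := hyp_Bf (y := y) (lam := 1 + η) (by linarith) (by linarith)
  refine ⟨Bf, ?_⟩
  have hj := hyp_cover (Icc 1 K) (Icc 1 X2)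
    (fun k b => ∑ a ∈ half_P X1 X2 b, φ b * ψ (Bf b) a * dd W k (a * b)) m
    (y := y) (lam := 1 + η) (M := M + M0) (by linarith) (by linarith)
    (fun j => le_trans (le_of_eq (sum_congr rfl fun k _ => congrArg _ (sum_congr rfl fun b hb => by
        rw [hBf j b (mem_filter.1 hb).2.1 (mem_filter.1 hb).2.2])))
      (key _ (le_mul_of_one_le_right (by linarith) (one_le_pow₀ (by linarith)))))
    ⌈2 * L / η⌉₊
  have hpw := half_pow hη0 hη1 hN0 (Nat.le_ceil (2 * L / η))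
  have e : ∀ k, ∑ b ∈ Icc 1 X2, ∑ a ∈ half_P X1 X2 b, φ b * ψ (Bf b) a * dd W k (a * b) =
      ∑ b ∈ (Icc 1 X2).filter (fun b : ℕ => y < b ∧ (b : ℝ) ≤ y * (1 + η) ^ ⌈2 * L / η⌉₊),
        ∑ a ∈ half_P X1 X2 b, φ b * ψ (Bf b) a * dd W k (a * b) := fun k => by
    refine (sum_filter_of_ne fun b _ hb => ?_).symm
    have h0 : φ b ≠ 0 := fun h0 => hb (by simp [h0])
    refine ⟨(hφ.2 b h0).2, (hφ' b h0).trans (hy'.trans (hpw.trans ?_))⟩
    exact le_mul_of_one_le_left (by positivity) (by linarith)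
  simp only [e]
  refine hj.trans ?_
  have hc : (⌈2 * L / η⌉₊ : ℝ) ≤ 3 * L / η := by
    have h1 := (Nat.ceil_lt_add_one (show 0 ≤ 2 * L / η by positivity)).le
    have h2 : 1 ≤ L / η := by rw [le_div_iff₀ hη0]; linarith
    have h3 : 3 * L / η = 2 * L / η + L / η := by ring
    linarith
  rw [add_assoc]
  refine add_le_add (sum_le_sum_of_subset_of_nonneg (filter_subset _ _) fun b _ _ => hm b) ?_
  calc (⌈2 * L / η⌉₊ : ℝ) * (M + M0) ≤ 3 * L / η * (M + M0) := by gcongr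
    _ = _ := by rw [hM]; field_simp

end Pool.Agent.P.MP_8be758_nt.Av2
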