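import Pool.Agent.P.MP_8be758_nt.Av2.Basic

/-! The step `S_I2`. -/

namespace Pool.Agent.P.MP_8be758_nt.Av2

open Finset Real Filter Topology
open Pool.Agent.P.MP_e86632_nt (ee)
open Pool.Agent.P.MP_8be758_nt.Avg

theorem i2_coef (y z G : ℝ) (K : ℕ) (c : ℕ → ℝ) (hy : 1 ≤ y) (hz : 2 ≤ z) (hc : ∀ d, |c d| ≤ 1)
    (hyK : y ≤ K)
    (hG : ∑ k ∈ Icc 1 K, |∑ b ∈ (Ry y z).filter Squarefree, c b / b * ((rho k b : ℝ) - 1)| ≤ G) :
    ∑ k ∈ Icc 1 K, |∑ d ∈ Ry y z, c d * (rho k d : ℝ) / d - ∑ d ∈ Ry y z, c d / d| ≤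
      G + 3 * K * (2 * (1 + Real.log y) / z) := by
  have e : (y ^ (3 / 2 : ℝ)) ^ (2 / 3 : ℝ) = y := by
    rw [← Real.rpow_mul (by linarith)]; norm_num
  have e' : Dy (y ^ (3 / 2 : ℝ)) z = Ry y z := by rw [Dy, e, Ry]
  have h := i_coef lib_ROOT lib_NSQ (y ^ (3 / 2 : ℝ)) z G K c (Real.one_le_rpow hy (by norm_num))
    hz hc (by rwa [e]) (by rwa [e'])
  rwa [e, e'] at h

theorem i2_core (hTI : S_TI2) (y z L δ E1 E2 E3 G : ℝ)
    (K X1 X2 R : ℕ) (c : ℕ → ℝ) (lam Del : Finset ℕ → ℝ) (hy1 : 1 ≤ y) (hz : 2 ≤ z) (hR : 2 ≤ R)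
    (hRz : (R : ℝ) ≤ z) (hX : X1 ≤ X2) (hc : ∀ d, |c d| ≤ 1) (hyK : y ≤ K)
    (hF : FLData z L δ lam Del) (hE1 : 0 ≤ E1) (hE2 : 0 ≤ E2) (hE3 : 0 ≤ E3)
    (k1 : ∀ q : ℕ, 1 ≤ q → ∑ k ∈ Icc 1 K, |∑ m ∈ (Ioc X1 X2).filter (q ∣ ·), rr k m -
      (√(X2 : ℝ) - √(X1 : ℝ)) * rho k q / q| ≤ E1 * (K + q) + E3 / q)
    (k2 : ∀ q : ℕ, 1 ≤ q → ∀ k : ℕ, |∑ m ∈ (Ioc X1 X2).filter (q ∣ ·), md R.factorial k m -
      (√(X2 : ℝ) - √(X1 : ℝ)) * rho k (Nat.gcd q R.factorial) / q| ≤ E2)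
    (hG : ∑ k ∈ Icc 1 K, |∑ b ∈ (Ry y z).filter Squarefree, c b / b * ((rho k b : ℝ) - 1)| ≤ G) :
    ∑ k ∈ Icc 1 K, |∑ m ∈ (Ioc X1 X2).filter (Rough z),
      (∑ d ∈ (Ry y z).filter (· ∣ m), c d) * dd R.factorial k m -
      (∑ d ∈ Ry y z, c d / d) * MT R z X1 X2 k| ≤
    ((E1 + E2) * (K + y) + 2 * (√(X2 : ℝ) - √(X1 : ℝ))) * L * y +
      E3 * L * ∑ d ∈ Ry y z, 1 / (d : ℝ) + 2 * ((√(X2 : ℝ) - √(X1 : ℝ)) * K * δ * ms y z c) +
      (√(X2 : ℝ) - √(X1 : ℝ)) * (G + 3 * K * (2 * (1 + Real.log y) / z)) := by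
  have hROOT := lib_ROOT
  unfold MT ms
  set l := √(X2 : ℝ) - √(X1 : ℝ) with hl
  set W := R.factorial with hW
  have hW0 : 0 < W := Nat.factorial_pos R
  have hl0 : 0 ≤ l := sub_nonneg.2 (Real.sqrt_le_sqrt (by exact_mod_cast hX))
  have hy : 0 ≤ y := by linarith
  have hD : ∀ d ∈ Ry y z, 1 ≤ d ∧ (d : ℝ) ≤ y ∧ Rough z d ∧ |c d| ≤ 1 := fun d hd =>
    have h := (mem_Ry hy).1 hd
    ⟨h.1, h.2.1, h.2.2, hc d⟩
  have m1 : ∀ k a b : ℕ, a.Coprime b → (rho k (a * b) : ℝ) = rho k a * rho k b := fun k a b h => by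
    rw [hROOT.1 k a b h]; push_cast; rfl
  have m2 : ∀ k a b : ℕ, a.Coprime b →
      (rho k (Nat.gcd (a * b) W) : ℝ) = rho k (Nat.gcd a W) * rho k (Nat.gcd b W) :=
    fun k a b h => by
      rw [Nat.gcd_comm, Nat.Coprime.gcd_mul W h, Nat.gcd_comm W a, Nat.gcd_comm W b]
      exact m1 k _ _ ((h.coprime_dvd_left (Nat.gcd_dvd_left _ _)).coprime_dvd_right
        (Nat.gcd_dvd_left _ _))
  have T1 := hTI z _ L δ E1 E3 l K (Ioc X1 X2) (Ry y z) rr (fun k q => (rho k q : ℝ)) c lam Del hF hy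
    hl0 hE1 hE3 rr_nonneg hD k1 (fun q hq => hROOT.2.2.2.2.1 q K hq) (fun _ _ => Nat.cast_nonneg _)
    (fun k p _ => by exact_mod_cast rho_le k p)
    (fun k d hd E hE => i_mult (fun q => (rho k q : ℝ)) (by simp [rho_one]) (m1 k)
      (hD d hd).2.2.1 E hE)
  have T2 := hTI z _ L δ E2 0 l K (Ioc X1 X2) (Ry y z) (md W)
    (fun k q => (rho k (Nat.gcd q W) : ℝ)) c lam Del hF hy hl0 hE2 le_rfl (md_nonneg W) hD
    (fun q hq => by
      refine (sum_le_sum fun k _ => k2 q hq k).trans ?_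
      rw [sum_const, Nat.card_Icc, Nat.add_sub_cancel, nsmul_eq_mul, zero_div, add_zero]
      have : (0 : ℝ) ≤ q := Nat.cast_nonneg _
      nlinarith)
    (fun q hq => (hROOT.2.2.2.2.1 _ K (Nat.gcd_pos_of_pos_left W hq)).trans
      (by exact_mod_cast Nat.gcd_le_left W hq))
    (fun _ _ => Nat.cast_nonneg _)
    (fun k p hp => by exact_mod_cast (rho_le k _).trans (Nat.gcd_le_left W hp.pos))
    (fun k d hd E hE => i_mult (fun q => (rho k (Nat.gcd q W) : ℝ)) (by simp [rho_one]) (m2 k)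
      (hD d hd).2.2.1 E hE)
  have T3 := i2_coef y z G K c hy1 hz hc hyK hG
  have T4 := mul_le_mul_of_nonneg_left T3 hl0
  rw [mul_sum] at T4
  refine le_trans ?_ ((add_le_add (add_le_add T1 T2) T4).trans (le_of_eq (by ring)))
  rw [← sum_add_distrib, ← sum_add_distrib]
  refine sum_le_sum fun k hk => ?_
  have hk1 : 1 ≤ k := (mem_Icc.1 hk).1
  obtain ⟨p1, p2⟩ := lib_SGW.2.2.1 k R z hk1 hR hRz
  have e2 : ∑ d ∈ Ry y z, c d * (rho k (Nat.gcd d W) : ℝ) / d = ∑ d ∈ Ry y z, c d / d :=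
    sum_congr rfl fun d hd => by
      rw [((hD d hd).2.2.1.coprime_factorial hRz).gcd_eq_one, rho_one]; simp
  have e3 : ∑ m ∈ (Ioc X1 X2).filter (Rough z), (∑ d ∈ (Ry y z).filter (· ∣ m), c d) * dd W k m =
      ∑ m ∈ (Ioc X1 X2).filter (Rough z), (∑ d ∈ (Ry y z).filter (· ∣ m), c d) * rr k m -
      ∑ m ∈ (Ioc X1 X2).filter (Rough z), (∑ d ∈ (Ry y z).filter (· ∣ m), c d) * md W k m := by
    rw [← sum_sub_distrib]
    exact sum_congr rfl fun m _ => by rw [dd]; ring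
  have hP : ∀ p ∈ PL z, 0 ≤ 1 - (rho k p : ℝ) / p ∧ 1 - (rho k p : ℝ) / p ≤ 1 := fun p hp => by
    have h1 : (0 : ℝ) < p := by exact_mod_cast (prime_of_mem_PL hp).pos
    have h2 : (rho k p : ℝ) ≤ p := by exact_mod_cast rho_le k p
    have h3 : (rho k p : ℝ) / p ≤ 1 := (div_le_one h1).2 h2
    have h4 : 0 ≤ (rho k p : ℝ) / p := by positivity
    constructor <;> linarith
  have hP0 : 0 ≤ ∏ p ∈ PL z, (1 - (rho k p : ℝ) / p) := prod_nonneg fun p hp => (hP p hp).1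
  have hP1 : ∏ p ∈ PL z, (1 - (rho k p : ℝ) / p) ≤ 1 :=
    prod_le_one (fun p hp => (hP p hp).1) fun p hp => (hP p hp).2
  simp only [e2]
  rw [e3, p2]
  rw [p1] at hP0 hP1 ⊢
  generalize ∑ m ∈ (Ioc X1 X2).filter (Rough z),
    (∑ d ∈ (Ry y z).filter (· ∣ m), c d) * rr k m = a1
  generalize ∑ m ∈ (Ioc X1 X2).filter (Rough z),
    (∑ d ∈ (Ry y z).filter (· ∣ m), c d) * md W k m = a2
  generalize ∑ d ∈ Ry y z, c d * (rho k d : ℝ) / d = B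
  generalize ∑ d ∈ Ry y z, c d / d = A
  have e4 : a1 - a2 - A * (l * Vz z * sing R k * (TT k R z - 1)) =
      (a1 - l * B * (sing R k * Vz z * TT k R z)) + -(a2 - l * A * (sing R k * Vz z)) +
        l * (B - A) * (sing R k * Vz z * TT k R z) := by ring
  rw [e4]
  refine (abs_add_three _ _ _).trans (add_le_add (add_le_add le_rfl (abs_neg _).le) ?_)
  rw [abs_mul, abs_mul, abs_of_nonneg hl0, abs_of_nonneg hP0]
  exact mul_le_of_le_one_right (by positivity) hP1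

theorem i2_s (C c1 ε : ℝ) (j : ℕ) (hε : 0 < ε) :
    ∃ s0 : ℕ, 1 ≤ s0 ∧ ∀ s : ℕ, s0 ≤ s → 2 * (C * (2 * c1 * s) ^ j / 2 ^ s) ≤ ε := by
  have h1 := (tendsto_pow_const_div_const_pow_of_one_lt j (r := 2) (by norm_num)).const_mul
    (2 * C * (2 * c1) ^ j)
  rw [mul_zero] at h1
  obtain ⟨s0, hs⟩ := eventually_atTop.1 (h1.eventually (ge_mem_nhds hε))
  refine ⟨s0 + 1, by omega, fun s h => le_trans (le_of_eq ?_) (hs s (by omega))⟩
  rw [mul_pow]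
  ring

theorem i2_num {N K L l y v u A C2 C e w S V m t η T z : ℝ} (hN : 0 < N) (hK : 0 < K) (hL : 1 ≤ L)
    (hl0 : 0 ≤ l) (hl : l ≤ N) (hy : 0 ≤ y) (hyK : y ≤ K) (hv : 0 ≤ v) (g1 : v ≤ u) (hA : 0 ≤ A)
    (hC2 : 0 < C2) (hC : 0 < C) (he : 0 < e) (g3 : 0 ≤ S) (v2 : S ≤ C * (4 / 5 * L) / (e * L))
    (g4 : K ≤ w) (v0 : 0 ≤ V) (v1 : V ≤ C / (e * L)) (m0 : 0 ≤ m) (ht : 0 < t)
    (a10 : 2 * (C / e / t) ≤ η) (b2 : 16 * A * (u * y) * L ^ 2 ≤ N)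
    (g2 : 16 * (u * y) * L ^ 2 ≤ K) (b6 : 4 * C2 * (C / e) * (w * u) * L ^ 2 ≤ N ^ 2)
    (b3 : 4 * L ^ 2 ≤ T) (b4 : 48 * L ^ 3 ≤ z) :
    (A * (K + y) + 2 * l) * v * y + C2 * K ^ 2 / N * v * S + 2 * (l * K * (V / t) * m) +
      l * (K / T + 3 * K * (2 * (1 + 4 / 5 * L) / z)) ≤ (η * m + 1 / L) * K * N / L := by
  have hL0 : 0 < L := by linarith
  have hu := hv.trans g1
  have hw := hK.le.trans g4
  have hT : 0 < T := lt_of_lt_of_le (by positivity) b3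
  have hz : 0 < z := lt_of_lt_of_le (by positivity) b4
  set Q := K * N / L ^ 2 with hQ
  have f1 : (A * (K + y) + 2 * l) * v * y ≤ Q / 4 := by
    calc _ ≤ (A * (K + K) + 2 * N) * u * y := by gcongr
      _ = (K * (16 * A * (u * y) * L ^ 2) + 16 * (u * y) * L ^ 2 * N) / L ^ 2 / 8 := by
          field_simp; ring
      _ ≤ (K * N + K * N) / L ^ 2 / 8 := by gcongr
      _ = _ := by rw [hQ]; ring
  have f5 : C2 * K ^ 2 / N * v * S ≤ Q / 4 := by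
    have g5 : S ≤ C / e := by
      refine v2.trans ?_
      rw [show C * (4 / 5 * L) / (e * L) = 4 / 5 * (C / e) by field_simp]
      have : 0 < C / e := by positivity
      linarith
    calc _ ≤ C2 * (K * w) / N * u * (C / e) := by rw [sq]; gcongr
      _ = K * (4 * C2 * (C / e) * (w * u) * L ^ 2) / N / L ^ 2 / 4 := by field_simp
      _ ≤ K * N ^ 2 / N / L ^ 2 / 4 := by gcongr
      _ = _ := by rw [hQ]; field_simp
  have f2 : 2 * (l * K * (V / t) * m) ≤ η * (m * K * N / L) := by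
    calc _ ≤ 2 * (N * K * (C / (e * L) / t) * m) := by gcongr
      _ = 2 * (C / e / t) * (m * K * N / L) := by field_simp
      _ ≤ _ := by gcongr
  have f3 : l * (K / T) ≤ Q / 4 := by
    calc l * (K / T) ≤ N * (K / (4 * L ^ 2)) := by gcongr
      _ = _ := by rw [hQ]; field_simp
  have f4 : l * (3 * K * (2 * (1 + 4 / 5 * L) / z)) ≤ Q / 4 := by
    calc l * (3 * K * (2 * (1 + 4 / 5 * L) / z))
        ≤ N * (3 * K * (2 * (2 * L) / (48 * L ^ 3))) := by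
          gcongr
          linarith
      _ = _ := by rw [hQ]; field_simp; norm_num
  have e : (η * m + 1 / L) * K * N / L = η * (m * K * N / L) + Q := by
    rw [hQ]; field_simp
  rw [e, mul_add l]
  linarith

theorem t_I2 (hKER2 : S_KER2) (hTI2 : S_TI2) (θ δ : ℝ) (hθ : 4 / 5 < θ) (hδ : 0 < δ) : S_I2 θ δ := by
  intro j ε hε
  obtain ⟨C1, hFL⟩ := lib_FL
  obtain ⟨C, hC, hHR⟩ := lib_HR
  obtain ⟨C', hC', hKER⟩ := lib_KER
  obtain ⟨C2, hC2, hKER2⟩ := hKER2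
  obtain ⟨κ, κ0, κ1, κ2, κ3⟩ : ∃ κ : ℝ, 0 < κ ∧ 4 / 5 + κ < θ ∧ κ < δ ∧ κ ≤ 1 / 20 := by
    have h1 := min_le_left (θ - 4 / 5) (min δ (1 / 10))
    have h2 := min_le_right (θ - 4 / 5) (min δ (1 / 10))
    have h3 := min_le_left δ (1 / 10)
    have h4 := min_le_right δ (1 / 10)
    have h5 : 0 < min (θ - 4 / 5) (min δ (1 / 10)) :=
      lt_min (by linarith) (lt_min hδ (by norm_num))
    exact ⟨min (θ - 4 / 5) (min δ (1 / 10)) / 2, by linarith, by linarith, by linarith, by linarith⟩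
  set c1 : ℝ := (C1 + 1) / κ with hc1
  have hc10 : 0 < c1 := by positivity
  obtain ⟨s0, hs01, hs0⟩ := i2_s C c1 ε (j + 1) hε
  have hs0' : (1 : ℝ) ≤ s0 := by exact_mod_cast hs01
  refine ⟨1 / (c1 * s0), by positivity, fun e1 he1 he R hR => ?_⟩
  set s := ⌊1 / (c1 * e1)⌋₊ with hs
  have a1 : (s0 : ℝ) ≤ 1 / (c1 * e1) := by
    rw [le_div_iff₀ (by positivity)] at he ⊢
    linarith
  have a2 : s0 ≤ s := Nat.le_floor a1
  have a3 : (s : ℝ) ≤ 1 / (c1 * e1) := Nat.floor_le (by positivity)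
  have a4 : 1 / (c1 * e1) < s + 1 := Nat.lt_floor_add_one _
  have a5 : (1 : ℝ) ≤ s := by exact_mod_cast hs01.trans a2
  rw [le_div_iff₀ (by positivity)] at a3
  rw [div_lt_iff₀ (by positivity)] at a4
  have a6 : 1 / e1 ≤ 2 * c1 * s := by
    rw [div_le_iff₀ he1]
    have := mul_le_mul_of_nonneg_right a5 (by positivity : 0 ≤ c1 * e1)
    linarith
  have hC10 : (0 : ℝ) ≤ C1 := Nat.cast_nonneg _
  have a9 : s * (C1 + 1) * e1 ≤ κ := by
    have := mul_le_mul_of_nonneg_right a3 κ0.le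
    rwa [hc1, one_mul, show s * ((C1 + 1) / κ * e1) * κ = s * (C1 + 1) * e1 by field_simp] at this
  have a7 : e1 * (C1 * s) ≤ κ := by
    have : 0 ≤ s * e1 := by positivity
    linarith
  have a8 : e1 ≤ κ := by
    have : 0 ≤ s * e1 * C1 := by positivity
    have := mul_le_mul_of_nonneg_right a5 he1.le
    linarith
  have a10 : 2 * (C / e1 / 2 ^ s) ≤ ε * e1 ^ j := by
    refine le_trans ?_ (mul_le_mul_of_nonneg_right (hs0 s a2) (by positivity))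
    calc 2 * (C / e1 / 2 ^ s) = 2 * (C * (1 / e1) ^ (j + 1) / 2 ^ s) * e1 ^ j := by
          rw [one_div_pow, pow_succ]
          field_simp
      _ ≤ _ := by gcongr
  obtain ⟨c, hc, hRHO⟩ := lib_RHO (e1 / 2) (half_pos he1)
  set W : ℝ := (R.factorial : ℝ) with hW
  have hW0 : 0 ≤ W := Nat.cast_nonneg _
  filter_upwards [ev_K hRHO (θ := θ) (by linarith), eventually_ge_atTop 1, ev_log 1,
    ev_const (R : ℝ) he1,
    ev_pow (16 * (C2 + C' * W ^ 2)) 2 (a := κ + 4 / 5) (b := 1) (by linarith),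
    ev_pow 16 2 (a := κ + 4 / 5) (b := θ) (by linarith),
    ev_pow (4 * C2 * (C / e1)) 2 (a := 2 - δ + κ) (b := 2) (by linarith),
    ev_pow 4 2 (a := 0) (b := θ * c) (mul_pos (by linarith) hc),
    ev_pow 48 3 (a := 0) (b := e1) he1] with N b1 hN hL hRz b2 b5 b6 b3 b4 K X1 X2 cc hS hcc
  have hN0 : 0 < N := by linarith
  have hR' : (2 : ℝ) ≤ R := by exact_mod_cast hR
  have hz : 2 ≤ N ^ e1 := hR'.trans hRz
  have hyK : N ^ (4 / 5 : ℝ) ≤ K :=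
    (Real.rpow_le_rpow_of_exponent_le hN hθ.le).trans hS.lo
  have hzy : N ^ e1 ≤ N ^ (4 / 5 : ℝ) := Real.rpow_le_rpow_of_exponent_le hN (by linarith)
  have hK1 : (1 : ℝ) ≤ K := by linarith
  have hK0 : (0 : ℝ) < K := by linarith
  obtain ⟨lam, Del, hF⟩ := hFL s (hs01.trans a2) _ hz
  have hG := b1 K hS.lo ((Ry (N ^ (4 / 5 : ℝ)) (N ^ e1)).filter Squarefree) (fun b => cc b / b)
    fun b hb => by
    have h := mem_filter.1 hb
    have h2 := (mem_Ry (by positivity)).1 h.1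
    refine ⟨h.2, h2.2.2.mono ?_, ?_, ?_⟩
    · calc (K : ℝ) ^ (e1 / 2) ≤ (N ^ (2 - δ)) ^ (e1 / 2) :=
            Real.rpow_le_rpow hK0.le hS.hi (by positivity)
        _ = N ^ ((2 - δ) * (e1 / 2)) := (Real.rpow_mul hN0.le _ _).symm
        _ ≤ _ := Real.rpow_le_rpow_of_exponent_le hN (by nlinarith)
    · have : (b : ℝ) ≤ (K : ℝ) ^ 2 :=
        (h2.2.1.trans hyK).trans (le_self_pow₀ hK1 two_ne_zero)
      exact_mod_cast this
    · rw [abs_div, Nat.abs_cast]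
      exact div_le_div_of_nonneg_right (hcc b) (Nat.cast_nonneg _)
  refine (i2_core hTI2 _ _ _ _ C2 (C' * W ^ 2) (C2 * (K : ℝ) ^ 2 / N) _ K X1 X2 R cc lam Del
    (by linarith) hz hR hRz hS.x12 hcc hyK hF hC2.le (by positivity) (by positivity)
    (fun q hq => hKER2 N K X1 X2 q hN hS.x1 hS.x12 hq)
    (fun q hq => (hKER N K X1 X2 R.factorial q hN0 hS.x1 hS.x12 hq (Nat.factorial_pos R)).2)
    hG).trans ?_
  have hl0 : 0 ≤ √(X2 : ℝ) - √(X1 : ℝ) :=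
    sub_nonneg.2 (Real.sqrt_le_sqrt (by exact_mod_cast hS.x12))
  have hl := i_l hN0.le hS.x1 hS.x2
  generalize √(X2 : ℝ) - √(X1 : ℝ) = l at hl0 hl
  obtain ⟨v0, v1, v2⟩ := hHR _ _ hz hzy
  rw [Real.log_rpow hN0] at v1
  rw [Real.log_rpow hN0, Real.log_rpow hN0, ← Ry] at v2
  rw [Real.log_rpow hN0]
  have m0 := ms_nonneg (N ^ (4 / 5 : ℝ)) (N ^ e1) cc
  generalize ms (N ^ (4 / 5 : ℝ)) (N ^ e1) cc = m at m0
  simp only [Real.rpow_zero, Real.rpow_one, mul_one, Real.rpow_two, Real.rpow_add hN0] at b2 b3 b4 b5 b6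
  have g1 : (N ^ e1) ^ (C1 * s) ≤ N ^ κ := by
    rw [← Real.rpow_natCast, ← Real.rpow_mul hN0.le]
    exact Real.rpow_le_rpow_of_exponent_le hN (by push_cast; exact a7)
  have g2 : N ^ (θ * c) ≤ (K : ℝ) ^ c := by
    rw [Real.rpow_mul hN0.le]
    exact Real.rpow_le_rpow (by positivity) hS.lo hc.le
  rw [Real.rpow_sub hK0, Real.rpow_one]
  exact i2_num hN0 hK0 hL hl0 hl (by positivity) hyK (by positivity) g1 (by positivity) hC2 hC he1
    (sum_nonneg fun _ _ => by positivity) v2 hS.hi v0 v1 m0 (by positivity) a10 b2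
    (b5.trans hS.lo) b6 (b3.trans g2) b4

end Pool.Agent.P.MP_8be758_nt.Av2
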