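import Pool.Agent.P.MP_8be758_nt.Av2.Basic

/-! The step `S_II2`. -/

namespace Pool.Agent.P.MP_8be758_nt.Av2

open Finset Real Filter Topology
open Pool.Agent.P.MP_e86632_nt (ee)
open Pool.Agent.P.MP_8be758_nt.Avg

theorem ii2_half (hHYP : S_HYP) (θ δ β : ℝ) (hθ : 4 / 5 ≤ θ) (hβ : 13 / 20 ≤ β)
    (hBX2 : S_BX2 θ δ β) (e1 : ℝ) (he1 : 0 < e1) (he1' : e1 ≤ 1 / 10) : ∃ g0 : ℝ, 0 < g0 ∧
    ∀ eg : ℝ, 0 < eg → eg ≤ g0 → ∀ ε : ℝ, 0 < ε → ∃ R1 : ℕ, ∀ R : ℕ, R1 ≤ R → ∀ᶠ N : ℝ in atTop,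
      ∀ (K X1 X2 : ℕ) (φ ψ : ℕ → ℝ), Setup2 θ δ N K X1 X2 → Coef (N ^ e1) (N ^ β) φ →
        (∀ u, φ u ≠ 0 → (u : ℝ) ≤ N ^ (1 - eg)) → Coef (N ^ e1) 0 ψ →
        ∑ k ∈ Icc 1 K, |bil X1 X2 φ ψ (dd R.factorial k)| ≤ ε * K * N / Real.log N := by
  obtain ⟨g0, hg0, hB⟩ := hBX2 e1 he1 he1'
  refine ⟨g0, hg0, fun eg heg h1 ε hε => ?_⟩
  obtain ⟨C, hC, hB⟩ := hB eg heg h1
  obtain ⟨η, hη, hH⟩ := hHYP e1 he1 he1' (ε / 2) (half_pos hε)
  obtain ⟨R1, hR1⟩ := eventually_atTop.1 (half_sqrt (c := ε * η / (2 * C)) (by positivity))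
  refine ⟨max R1 2, fun R hR => ?_⟩
  have hR2 := hR1 R (le_of_max_le_left hR)
  filter_upwards [hB R (le_of_max_le_right hR), hH R.factorial R.factorial_pos,
    eventually_gt_atTop 1] with N HB HH hN K X1 X2 φ ψ hS hφ hφ' hψ
  have hN0 : 0 < N := by linarith
  have hL := Real.log_pos hN
  obtain ⟨Bf, h⟩ := HH K X1 X2 (N ^ β) (N ^ (1 - eg))
    (C * √(Real.log R / R) * K * N / Real.log N ^ 2) φ (fun _ => 0) (fun _ => ψ)
    ((Real.rpow_le_rpow_of_exponent_le hN.le hθ).trans hS.lo) hS.x1 hS.x12 hS.x2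
    (Real.rpow_le_rpow_of_exponent_le hN.le hβ)
    ((Real.rpow_le_rpow_of_exponent_le hN.le (by linarith)).trans_eq (Real.rpow_one N))
    (by positivity) (fun _ => le_rfl) hφ hφ' (fun _ => hψ) fun B A1 A2 S b1 b2 hb => by
      rw [sum_const_zero, zero_add]
      exact HB K A1 A2 B S φ ψ hS.lo hS.hi b1 b2 hb hφ.1 hψ
  simp only [half_bil]
  refine h.trans ?_
  rw [sum_const_zero, zero_add]
  have : Real.log N / η * (C * √(Real.log R / R) * K * N / Real.log N ^ 2) ≤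
      ε / 2 * K * N / Real.log N :=
    calc _ ≤ Real.log N / η * (C * (ε * η / (2 * C)) * K * N / Real.log N ^ 2) := by gcongr
      _ = _ := by field_simp
  linarith [show ε * K * N / Real.log N = 2 * (ε / 2 * K * N / Real.log N) by ring]

theorem t_II2 (hHYP : S_HYP) (hGAP2 : S_GAP2) (θ δ β : ℝ) (hθ : 4 / 5 ≤ θ) (hβ : 13 / 20 ≤ β)
    (hBX2 : S_BX2 θ δ β) : S_II2 θ δ β := by
  intro e1 he1 he1' ε hε
  obtain ⟨C, hC, hG⟩ := hGAP2
  obtain ⟨g0, hg0, hH⟩ := ii2_half hHYP θ δ β hθ hβ hBX2 e1 he1 he1'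
  obtain ⟨eg, heg, h1, h2, h3⟩ : ∃ eg : ℝ, 0 < eg ∧ eg ≤ g0 ∧ eg ≤ 1 / 4 ∧
      eg ≤ ε * e1 ^ 2 / (3 * C) :=
    ⟨min g0 (min (1 / 4) (ε * e1 ^ 2 / (3 * C))), by positivity, min_le_left _ _,
      (min_le_right _ _).trans (min_le_left _ _), (min_le_right _ _).trans (min_le_right _ _)⟩
  obtain ⟨R1, hR1⟩ := hH eg heg h1 (ε / 3) (by positivity)
  refine ⟨R1, fun R hR => ?_⟩
  filter_upwards [hR1 R hR, hG e1 eg he1 he1' heg h2 R.factorial (Nat.factorial_pos R),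
    eventually_ge_atTop 1] with N hH hG hN
  intro K X1 X2 φ ψ hS hφ hψ
  have hN0 : 0 < N := by linarith
  have b1 := hH K X1 X2 _ ψ hS (gap_lo (G := N ^ (1 - eg)) hφ).1 (gap_lo hφ).2
    (gap_weak hψ (by positivity))
  have b2 := hH K X1 X2 _ _ hS (gap_lo (G := N ^ (1 - eg)) hψ).1 (gap_lo hψ).2
    (gap_weak (gap_hi (G := N ^ (1 - eg)) hφ) (by positivity))
  have b3 := hG K X1 X2 _ _ ((Real.rpow_le_rpow_of_exponent_le hN hθ).trans hS.lo) hS.x1 hS.x2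
    (gap_hi hφ) (gap_hi hψ)
  have hL : 0 ≤ Real.log N := Real.log_nonneg hN
  have b4 : C * (eg / e1 ^ 2) * K * N / Real.log N ≤ ε / 3 * K * N / Real.log N := by
    have : C * (eg / e1 ^ 2) ≤ ε / 3 := by
      rw [le_div_iff₀ (by positivity)] at h3
      rw [← mul_div_assoc, div_le_iff₀ (by positivity)]
      linarith
    gcongr
  have b5 : ε * K * N / Real.log N = 3 * (ε / 3 * K * N / Real.log N) := by ring
  have b6 := (add_le_add (add_le_add b1 b2) (b3.trans b4)).trans_eq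
    (show _ = ε * K * N / Real.log N by linarith)
  rw [← sum_add_distrib, ← sum_add_distrib] at b6
  refine le_trans (sum_le_sum fun k _ => ?_) b6
  rw [gap_split X1 X2 (N ^ (1 - eg)) φ ψ]
  exact abs_add_three _ _ _

end Pool.Agent.P.MP_8be758_nt.Av2
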