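import Pool.Agent.P.MP_8be758_nt.Av2.Basic

/-! The step `S_III`. -/

namespace Pool.Agent.P.MP_8be758_nt.Av2

open Finset Real Filter Topology
open Pool.Agent.P.MP_e86632_nt (ee)
open Pool.Agent.P.MP_8be758_nt.Avg

theorem iii_R {z t : ℝ} {a : ℕ} (U1 U2 V1 V2 : ℕ) (ht : 0 ≤ t)
    (h : Rough z a → (a.divisors.card : ℝ) ≤ t) :
    0 ≤ tauR z U1 U2 V1 V2 a ∧ tauR z U1 U2 V1 V2 a ≤ t := by
  unfold tauR tauG
  split_ifs with h1
  · simp only [mul_one, sum_const, nsmul_eq_mul]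
    refine ⟨Nat.cast_nonneg _, le_trans (Nat.cast_le.2 ((card_filter_le _ _).trans_eq ?_)) (h h1)⟩
    rw [← Nat.map_div_right_divisors, card_map]
  · exact ⟨le_rfl, ht⟩

theorem iii_J {z t : ℝ} {a : ℕ} (x y : ℝ) (ht : 0 ≤ t)
    (h : Rough z a → (a.divisors.card : ℝ) ≤ t) : 0 ≤ tauJ z x y a ∧ tauJ z x y a ≤ t := by
  unfold tauJ
  split_ifs with h1
  · exact ⟨Nat.cast_nonneg _, le_trans (Nat.cast_le.2 (card_filter_le _ _)) (h h1)⟩
  · exact ⟨le_rfl, ht⟩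

theorem iii_coef {z y Y t : ℝ} {f : ℕ → ℝ} (ht : 0 < t) (h1 : ∀ a : ℕ, (a : ℝ) ≤ Y → |f a| ≤ t)
    (h2 : ∀ a, ¬ Rough z a → f a = 0) :
    Coef z y fun a => if y < a ∧ (a : ℝ) ≤ Y then t⁻¹ * f a else 0 := by
  refine ⟨fun a => ?_, fun a ha => ?_⟩
  · dsimp only
    split_ifs with h
    · rw [abs_mul, abs_of_pos (inv_pos.2 ht), inv_mul_le_iff₀ ht, mul_one]
      exact h1 a h.2
    · simp
  · dsimp only at ha
    split_ifs at ha with h
    · exact ⟨by_contra fun c => ha (by rw [h2 a c, mul_zero]), h.1⟩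
    · exact absurd rfl ha

theorem iii_split {X1 X2 K : ℕ} {t : ℝ} (ht : 0 ≤ t) {β g : ℕ → ℝ} {ψ h f : ℕ → ℕ → ℝ}
    (e : ∀ b, β b ≠ 0 → ∀ a ∈ half_P X1 X2 b, g a = t * ψ b a + h b a) :
    ∑ k ∈ Icc 1 K, |bil X1 X2 β g (f k)| ≤
      t * ∑ k ∈ Icc 1 K, |∑ b ∈ Icc 1 X2, ∑ a ∈ half_P X1 X2 b, β b * ψ b a * f k (a * b)| +
      ∑ k ∈ Icc 1 K, |∑ b ∈ Icc 1 X2, ∑ a ∈ half_P X1 X2 b, β b * h b a * f k (a * b)| := by
  rw [mul_sum, ← sum_add_distrib]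
  refine sum_le_sum fun k _ => ?_
  rw [← abs_of_nonneg ht, ← abs_mul]
  refine le_trans (le_of_eq (congrArg _ ?_)) (abs_add_le _ _)
  rw [half_bil, mul_sum, ← sum_add_distrib]
  refine sum_congr rfl fun b _ => ?_
  rw [mul_sum, ← sum_add_distrib]
  refine sum_congr rfl fun a ha => ?_
  by_cases h0 : β b = 0
  · simp [h0]
  · rw [e b h0 a ha]; ring

theorem t_III (hHYP : S_HYP) (hBOX3 : S_BOX3) (θ δ : ℝ) (hθ : 4 / 5 ≤ θ) (hRG : S_RG θ δ)
    (hII2 : S_II2 (91 / 100) δ (13 / 20)) : S_III θ δ := by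
  intro j ε hε
  obtain ⟨e0, he0, hB⟩ := hBOX3 j ε hε
  refine ⟨min e0 (1 / 10), by positivity, fun e1 he1 he ε' hε' => ?_⟩
  have he2 := he.trans (min_le_right _ _)
  obtain ⟨t, htd⟩ : ∃ t : ℝ, t = 2 ^ ⌈3 / e1⌉₊ := ⟨_, rfl⟩
  have ht : 0 < t := by rw [htd]; positivity
  obtain ⟨R1, hR⟩ := hRG e1 he1 he2 (ε' / 3) (by positivity)
  obtain ⟨R2, hI⟩ := hII2 e1 he1 he2 (ε' / t) (by positivity)
  obtain ⟨η, hη, hH⟩ := hHYP e1 he1 he2 (ε' / (3 * t)) (by positivity)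
  refine ⟨max R1 R2, fun R hR1 => ?_⟩
  filter_upwards [hR R (le_of_max_le_left hR1), hI R (le_of_max_le_right hR1),
    hH _ (Nat.factorial_pos R), hB e1 he1 (he.trans (min_le_left _ _)) _ (Nat.factorial_pos R),
    eventually_ge_atTop 2, ev_const 2 he1, ev_log (3 / (η * ε'))] with N hR hI hH hB hN hz hL
  intro K X1 X2 U1 U2 V1 V2 β hS hβ hβ' hU hV hU'
  have hN1 : 1 ≤ N := by linarith
  have hN0 : 0 < N := by linarith
  have hL0 : 0 < Real.log N := Real.log_pos (by linarith)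
  have pw : ∀ {a b : ℝ}, a ≤ b → N ^ a ≤ N ^ b := Real.rpow_le_rpow_of_exponent_le hN1
  have h65 : 6 / 5 * N ^ 2 ≤ N ^ 3 := by nlinarith [sq_nonneg N]
  have hT : ∀ a : ℕ, (a : ℝ) ≤ N ^ 3 → Rough (N ^ e1) a → (a.divisors.card : ℝ) ≤ t :=
    fun a ha hr => by
      have := lib_TAU (N ^ e1) ⌈3 / e1⌉₊ a (by linarith) hr (ha.trans (by
        rw [bx_pw hN0, ← Real.rpow_natCast]
        refine pw ?_
        have := (div_le_iff₀ he1).1 (Nat.le_ceil (3 / e1))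
        push_cast
        linarith))
      rw [htd]
      exact_mod_cast this
  have bR := fun a ha => iii_R U1 U2 V1 V2 ht.le (hT a ha)
  have zR : ∀ a, ¬ Rough (N ^ e1) a → tauR (N ^ e1) U1 U2 V1 V2 a = 0 := fun a h => if_neg h
  have hms := ms_nonneg (N ^ (4 / 5 : ℝ)) (N ^ e1) β
  have mP : ∀ b, ∀ a ∈ half_P X1 X2 b, (0 : ℝ) < a ∧ (a : ℝ) ≤ N ^ 3 ∧ (X1 : ℝ) < a * b :=
    fun b a ha => by
      rw [half_P, mem_filter, mem_Icc] at ha
      exact ⟨by exact_mod_cast ha.1.1, le_trans (by exact_mod_cast ha.1.2) (hS.x2.trans h65),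
        by exact_mod_cast ha.2.1⟩
  rcases lt_or_ge V2 V1 with hV' | hV'
  · have h0 : ∀ a, tauR (N ^ e1) U1 U2 V1 V2 a = 0 := fun a => by
      unfold tauR tauG
      rw [filter_false_of_mem fun p _ => by omega]
      simp
    simp only [bil, h0, mul_zero, zero_mul, sum_const_zero, abs_zero]
    positivity
  rcases le_total (N ^ (91 / 100 : ℝ)) K with hK | hK
  · have c := iii_coef (y := N ^ (13 / 20 : ℝ)) ht
      (fun a ha => (abs_of_nonneg (bR a ha).1).trans_le (bR a ha).2) zR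
    have h1 := hI K X1 X2 β _ ⟨hK, hS.hi, hS.x1, hS.x12, hS.x2⟩ hβ c
    simp only [half_bil] at h1
    refine (iii_split (h := fun _ _ => 0) ht.le fun b hb a ha => ?_).trans
      ((add_le_add (mul_le_mul_of_nonneg_left h1 ht.le) le_rfl).trans ?_)
    · obtain ⟨p1, p2, p3⟩ := mP b a ha
      suffices c : N ^ (13 / 20 : ℝ) < a by
        rw [if_pos ⟨c, p2⟩, add_zero, mul_inv_cancel_left₀ ht.ne']
      by_contra c
      have h2 := mul_le_mul (not_lt.1 c) (hβ' b hb) (Nat.cast_nonneg b) (by positivity)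
      rw [← Real.rpow_add hN0] at h2
      have h3 := h2.trans (pw (b := 2) (by norm_num))
      rw [Real.rpow_two] at h3
      linarith [hS.x1]
    · simp only [mul_zero, zero_mul, sum_const_zero, abs_zero, add_zero]
      rw [show t * (ε' / t * K * N / Real.log N) = ε' * K * N / Real.log N by field_simp]
      have : 0 ≤ ε * e1 ^ j * ms (N ^ (4 / 5 : ℝ)) (N ^ e1) β := by positivity
      gcongr
      linarith
  have hK' : N ^ (4 / 5 : ℝ) ≤ K := (pw hθ).trans hS.lo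
  obtain ⟨Bf, h1⟩ := hH K X1 X2 (N ^ (13 / 20 : ℝ)) (N ^ (4 / 5 : ℝ))
    (K * N / (Real.log N ^ 3 * t)) β
    (fun b => ε * e1 ^ j * (|β b| / b) * (K * N / (Real.log N * t)))
    (fun B a => if (0 : ℝ) < a ∧ (a : ℝ) ≤ N ^ 3 then t⁻¹ * (tauR (N ^ e1) U1 U2 V1 V2 a -
      tauJ (N ^ e1) (N ^ (3 / 20 : ℝ)) (N ^ (3 / 20 : ℝ) * lamB N B U1 U2 V1 V2) a) else 0)
    hK' hS.x1 hS.x12 hS.x2 le_rfl ((pw (b := 1) (by norm_num)).trans_eq (Real.rpow_one N))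
    (by positivity) (fun b => by positivity) hβ hβ'
    (fun B => iii_coef ht (fun a ha => by
      have p := bR a ha
      have q := iii_J (N ^ (3 / 20 : ℝ)) (N ^ (3 / 20 : ℝ) * lamB N B U1 U2 V1 V2) ht.le (hT a ha)
      exact abs_le.2 ⟨by linarith, by linarith⟩) fun a h => by
        rw [zR a h, tauJ, if_neg h, sub_self])
    fun B A1 A2 S b1 b2 hX => by
      have b3 : 1 ≤ B := (Real.one_le_rpow hN1 (by norm_num)).trans b1
      have h2 := hB K A1 A2 U1 U2 V1 V2 B S β ⟨hK', hK, b1, b2, fun b hb =>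
        ⟨(hX.s b hb).1.le, (hX.s b hb).2.1, (hX.s b hb).2.2.1, (hX.s b hb).2.2.2.odd hz⟩, hβ.1⟩
        hX.a1 hX.a3 hU hV hV' hU'
      rw [tb_congr (fun _ _ => rfl) fun a ha => if_pos ⟨by
          exact_mod_cast (Nat.zero_le _).trans_lt (mem_Ioc.1 ha).1, by
          have h3 : (a : ℝ) ≤ A2 := by exact_mod_cast (mem_Ioc.1 ha).2
          nlinarith [hX.a3, Nat.cast_nonneg (α := ℝ) A2]⟩, tb_smul, abs_of_pos (inv_pos.2 ht)]
      refine (mul_le_mul_of_nonneg_left h2 (inv_pos.2 ht).le).trans_eq ?_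
      rw [← sum_mul, ← mul_sum]
      field_simp
  have h2 := hR K X1 X2 β (fun b => lamB N (Bf b) U1 U2 V1 V2) hS hβ hβ' fun b => by
    have u0 : (0 : ℝ) < U1 := lt_of_lt_of_le (by positivity) hU
    have u1 : (U1 : ℝ) ≤ loB N (Bf b) U1 V2 := le_max_left _ _
    refine max_le (Real.one_le_rpow hN1 (by norm_num)) ?_
    rw [div_le_iff₀' (u0.trans_le u1)]
    exact (min_le_left _ _).trans (hU'.trans (by gcongr))
  refine (iii_split ht.le fun b _ a ha => ?_).trans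
    ((add_le_add (mul_le_mul_of_nonneg_left h1 ht.le) h2).trans ?_)
  · rw [if_pos ⟨(mP b a ha).1, (mP b a ha).2.1⟩, mul_inv_cancel_left₀ ht.ne', sub_add_cancel]
  have h3 : ∑ b ∈ Icc 1 X2, |β b| / b ≤ ms (N ^ (4 / 5 : ℝ)) (N ^ e1) β := by
    rw [← sum_filter_of_ne (p := fun b => β b ≠ 0) fun b _ h c => h (by simp [c])]
    refine sum_le_sum_of_subset_of_nonneg (fun b hb => ?_) fun _ _ _ => by positivity
    rw [mem_filter, mem_Icc] at hb
    exact (mem_Ry (by positivity)).2 ⟨hb.1.1, hβ' b hb.2, (hβ.2 b hb.2).1⟩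
  have h4 : 1 / (η * Real.log N) ≤ ε' / 3 := by
    rw [div_le_iff₀ (by positivity)] at hL
    rw [div_le_div_iff₀ (by positivity) (by norm_num)]
    linarith
  rw [← sum_mul, ← mul_sum]
  calc _ = (ε * e1 ^ j * ∑ b ∈ Icc 1 X2, |β b| / b + (1 / (η * Real.log N) + 2 * (ε' / 3))) *
        K * N / Real.log N := by field_simp; ring
    _ ≤ _ := by gcongr; linarith

end Pool.Agent.P.MP_8be758_nt.Av2
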