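import Pool.Agent.P.MP_8be758_nt.Av2.Basic

/-! The step `S_KER2`. -/

namespace Pool.Agent.P.MP_8be758_nt.Av2

open Finset Real Filter Topology
open Pool.Agent.P.MP_e86632_nt (ee)
open Pool.Agent.P.MP_8be758_nt.Avg

theorem t_KER2 : S_KER2 := by
  refine ⟨6, by norm_num, fun N K X1 X2 q hN1 hX h12 hq => ?_⟩
  have hN : 0 < N := by linarith
  have hX1 : 1 ≤ X1 := by
    have : (0 : ℝ) < X1 := lt_of_lt_of_le (by positivity) hX
    exact_mod_cast this
  have hs : N ≤ √(X1 : ℝ) := Real.le_sqrt_of_sq_le hX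
  have hq0 : (0 : ℝ) < q := by exact_mod_cast hq
  have h1 : ∀ k ∈ Icc 1 K, |∑ m ∈ (Ioc X1 X2).filter (q ∣ ·), rr k m -
      (√(X2 : ℝ) - √(X1 : ℝ)) * rho k q / q| ≤ (4 + 2 * (K / (q * N))) * rho k q := fun k hk => by
    have h2 := per0_rr lib_PS (G := fun m => if q ∣ m then (1 : ℝ) else 0) (mem_Icc.1 hk).1 hX1
      h12 hq fun m => by simp only [Nat.dvd_add_self_right]
    have h3 : ∀ m, |if q ∣ m then (1 : ℝ) else 0| = if q ∣ m then (1 : ℝ) else 0 := fun m => by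
      split_ifs <;> simp
    simp only [h3, per0_rho, ite_mul, one_mul, zero_mul] at h2
    rw [sum_filter, mul_div_right_comm]
    refine h2.trans (mul_le_mul_of_nonneg_right ?_ (by positivity))
    have h4 : (k : ℝ) ≤ K := by exact_mod_cast (mem_Icc.1 hk).2
    gcongr
  refine (sum_le_sum h1).trans ?_
  rw [← mul_sum]
  have h2 : ∑ k ∈ Icc 1 K, (rho k q : ℝ) ≤ K + q := by
    have := (abs_le.1 (lib_ROOT.2.2.2.2.1 q K hq)).2
    linarith
  refine (mul_le_mul_of_nonneg_left h2 (by positivity)).trans ?_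
  have h3 : (K : ℝ) / N ≤ K := div_le_self (Nat.cast_nonneg _) hN1
  have h4 : (0 : ℝ) ≤ K ^ 2 / N / q := by positivity
  rw [show (4 + 2 * (K / (q * N))) * (K + q : ℝ) = 4 * (K + q) + 2 * (K ^ 2 / N / q) + 2 * (K / N) by
    field_simp; ring, mul_div_assoc, mul_div_assoc]
  linarith

end Pool.Agent.P.MP_8be758_nt.Av2
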