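import Pool.Agent.P.MP_8be758_nt.Av2.Basic

/-! The step `S_LAY`. -/

namespace Pool.Agent.P.MP_8be758_nt.Av2

open Finset Real Filter Topology
open Pool.Agent.P.MP_e86632_nt (ee)
open Pool.Agent.P.MP_8be758_nt.Avg

/-- A monotone weight on `(U1, U2]` is a convex combination of indicator functions of tails. -/
lemma lay_cake (U1 U2 : ℕ) (g : ℕ → ℝ) (h1 : ∀ u, U1 < u → u ≤ U2 → 0 ≤ g u ∧ g u ≤ 1)
    (h2 : ∀ u u', U1 < u → u ≤ u' → g u ≤ g u') :
    ∃ c : ℕ → ℝ, (∀ t ∈ Ico U1 U2, 0 ≤ c t) ∧ ∑ t ∈ Ico U1 U2, c t ≤ 1 ∧ ∀ u,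
      (if U1 < u ∧ u ≤ U2 then g u else 0) =
        ∑ t ∈ Ico U1 U2, c t * if t < u ∧ u ≤ U2 then 1 else 0 := by
  let c : ℕ → ℝ := fun t => if t = U1 then g (U1 + 1) else g (t + 1) - g t
  have h3 : ∀ u, U1 < u → ∑ t ∈ Ico U1 u, c t = g u := fun u hu => by
    induction u, hu using Nat.le_induction with
    | base => simp [c]
    | succ u hu ih =>
      rw [sum_Ico_succ_top (Nat.le_of_succ_le hu), ih]
      simp only [c, if_neg (Nat.ne_of_gt hu)]
      ring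
  refine ⟨c, fun t ht => ?_, ?_, fun u => ?_⟩
  · rw [mem_Ico] at ht
    simp only [c]
    split_ifs with h
    · exact (h1 _ (by omega) (by omega)).1
    · exact sub_nonneg.mpr (h2 _ _ (by omega) (by omega))
  · rcases lt_or_ge U1 U2 with h | h
    · exact (h3 U2 h).trans_le (h1 U2 h le_rfl).2
    · simp [Ico_eq_empty_of_le h]
  · simp only [mul_ite, mul_one, mul_zero]
    rw [← sum_filter]
    split_ifs with h
    · rw [← h3 u h.1]
      refine sum_congr (Finset.ext fun t => ?_) fun _ _ => rfl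
      simp only [mem_filter, mem_Ico]
      omega
    · refine (sum_eq_zero fun t ht => absurd ?_ h).symm
      simp only [mem_filter, mem_Ico] at ht
      omega

lemma lay_tau (z : ℝ) (g1 g2 : ℕ → ℝ) (U1 U2 V1 V2 a : ℕ) : tauG z g1 g2 U1 U2 V1 V2 a =
    if Rough z a then ∑ p ∈ a.divisorsAntidiagonal, (if U1 < p.1 ∧ p.1 ≤ U2 then g1 p.1 else 0) *
      if V1 < p.2 ∧ p.2 ≤ V2 then g2 p.2 else 0 else 0 := by
  simp only [tauG, sum_filter, ite_zero_mul_ite_zero]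

theorem t_LAY : S_LAY := by
  intro z D K X1 X2 U1 U2 V1 V2 β g1 g2 f hD h1 h2 h3 h4 h5
  obtain ⟨c, c0, c1, hc⟩ := lay_cake U1 U2 g1 h1 h2
  obtain ⟨d, d0, d1, hd⟩ := lay_cake V1 V2 g2 h3 h4
  have e1 : ∀ a, tauG z g1 g2 U1 U2 V1 V2 a =
      ∑ q ∈ Ico U1 U2 ×ˢ Ico V1 V2, c q.1 * d q.2 * tauR z q.1 U2 q.2 V2 a := fun a => by
    simp only [tauR, lay_tau]
    split_ifs
    · simp only [hc, hd, mul_sum, sum_product]
      simp only [sum_mul]
      rw [sum_comm, sum_congr rfl fun _ _ => sum_comm, sum_comm]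
      exact sum_congr rfl fun _ _ => sum_congr rfl fun _ _ => sum_congr rfl fun _ _ => by ring
    · simp
  have e2 : ∀ k, bil X1 X2 β (tauG z g1 g2 U1 U2 V1 V2) (f k) = ∑ q ∈ Ico U1 U2 ×ˢ Ico V1 V2,
      c q.1 * d q.2 * bil X1 X2 β (tauR z q.1 U2 q.2 V2) (f k) := fun k => by
    simp only [bil, e1, mul_sum, sum_mul]
    rw [sum_comm]
    exact sum_congr rfl fun _ _ => sum_congr rfl fun _ _ => by ring
  have p0 : ∀ q ∈ Ico U1 U2 ×ˢ Ico V1 V2, 0 ≤ c q.1 * d q.2 := fun q hq =>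
    mul_nonneg (c0 _ (mem_product.mp hq).1) (d0 _ (mem_product.mp hq).2)
  calc _ ≤ ∑ k ∈ Icc 1 K, ∑ q ∈ Ico U1 U2 ×ˢ Ico V1 V2,
        c q.1 * d q.2 * |bil X1 X2 β (tauR z q.1 U2 q.2 V2) (f k)| :=
        sum_le_sum fun k _ => by
          rw [e2]
          exact (abs_sum_le_sum_abs _ _).trans_eq (sum_congr rfl fun q hq => by
            rw [abs_mul, abs_of_nonneg (p0 q hq)])
    _ ≤ ∑ q ∈ Ico U1 U2 ×ˢ Ico V1 V2, c q.1 * d q.2 * D := by
        rw [sum_comm]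
        refine sum_le_sum fun q hq => ?_
        rw [← mul_sum]
        exact mul_le_mul_of_nonneg_left (h5 _ _ (mem_Ico.mp (mem_product.mp hq).1).1
          (mem_Ico.mp (mem_product.mp hq).2).1) (p0 q hq)
    _ ≤ D := by
        rw [← sum_mul, sum_product, ← sum_mul_sum]
        exact mul_le_of_le_one_left hD (mul_le_one₀ c1 (sum_nonneg d0) d1)

end Pool.Agent.P.MP_8be758_nt.Av2
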