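import Pool.Agent.P.MP_8be758_nt.Av2.Basic

/-! The step `S_LSV`. -/

namespace Pool.Agent.P.MP_8be758_nt.Av2

open Finset Real Filter Topology
open Pool.Agent.P.MP_e86632_nt (ee)
open Pool.Agent.P.MP_8be758_nt.Avg

lemma lsv_prod {P Q F s x y : ℝ} (hx : 1 / 2 ≤ x) (hy : 1 / 2 ≤ y) (hs : 0 ≤ s)
    (hF : 16 * s ≤ |F|) (h1 : |P * x - F * y / 2| ≤ s / 2) (h2 : |Q * y - F * x / 2| ≤ s / 2) :
    |P * Q - F ^ 2 / 4| ≤ 2 * (|F| * s) := by
  have hxy : 1 / 4 ≤ x * y := by nlinarith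
  have h3 : x + y ≤ 4 * (x * y) := by nlinarith
  have e : (P * Q - F ^ 2 / 4) * (x * y) = F / 2 * (y * (Q * y - F * x / 2)) +
      F / 2 * (x * (P * x - F * y / 2)) + (P * x - F * y / 2) * (Q * y - F * x / 2) := by ring
  have h4 : |P * Q - F ^ 2 / 4| * (x * y) ≤
      |F| / 2 * (y * (s / 2)) + |F| / 2 * (x * (s / 2)) + s / 2 * (s / 2) := by
    rw [← abs_of_nonneg (show 0 ≤ x * y by linarith), ← abs_mul, e]
    refine (abs_add_three _ _ _).trans ?_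
    simp only [abs_mul, abs_div F, abs_two, abs_of_nonneg (show 0 ≤ x by linarith),
      abs_of_nonneg (show 0 ≤ y by linarith)]
    gcongr
  refine le_of_mul_le_mul_right (h4.trans ?_) (show 0 < x * y by linarith)
  have h5 : 0 ≤ |F| * s := by positivity
  have h6 : s * s ≤ |F| * s := mul_le_mul_of_nonneg_right (by linarith) hs
  nlinarith [mul_le_mul_of_nonneg_left h3 h5, mul_le_mul_of_nonneg_left hxy h5]

lemma lsv_fib {n : ℕ} (hn : n ≠ 0) (G : Finset (ℤ × ℤ)) (h : ∀ p ∈ G, p.1 * p.2 = n) :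
    G.card ≤ 2 * n.divisors.card := by
  refine (card_le_card_of_injOn (t := (univ : Finset Bool) ×ˢ n.divisors)
    (fun p => (decide (0 < p.1), p.1.natAbs)) (fun p hp => ?_) fun p hp q hq e => ?_).trans_eq
    (by simp)
  · refine mem_coe.mpr (mem_product.mpr ⟨mem_univ _, Nat.mem_divisors.mpr ⟨?_, hn⟩⟩)
    exact Int.natAbs_dvd_natAbs.mpr (Dvd.intro _ (h p hp)) |>.trans (by simp)
  · simp only [Prod.mk.injEq, decide_eq_decide] at e
    have e1 : p.1 = q.1 := by omega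
    have e2 : p.1 ≠ 0 := fun e0 => hn (by have := h p hp; rw [e0, zero_mul] at this; omega)
    exact Prod.ext e1 (mul_left_cancel₀ e2 ((h p hp).trans (e1 ▸ (h q hq).symm)))

lemma lsv_ls : ∃ C : ℝ, 0 < C ∧ ∀ (E : ℕ) (H : ℝ) (I : Finset ℕ) (c : ℕ → ℂ), 1 ≤ E → 0 ≤ H →
    (∀ a ∈ I, (a : ℝ) ≤ H) → ∑ e ∈ Icc 1 E, ∑ r ∈ red e, ‖ft I c (-((r : ℝ) / e))‖ ^ 2 ≤
      C * (H + (E : ℝ) ^ 2) * nsq I c := by
  obtain ⟨C, hC, h⟩ := lib_LS
  refine ⟨C, hC, fun E H I c hE hH hI => ?_⟩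
  have hE' : (1 : ℝ) ≤ E := by exact_mod_cast hE
  have key := h (Σ _ : ℕ, ℕ) ((Icc 1 E).sigma red) (fun x => -((x.2 : ℝ) / x.1))
    (1 / (E : ℝ) ^ 2) H I c (by positivity)
    (by rw [div_le_one (by positivity)]; nlinarith) hH hI (by
      rintro ⟨q, r⟩ hx ⟨q', r'⟩ hy hne k
      obtain ⟨h1, h2⟩ := mem_sigma.1 hx
      obtain ⟨h3, h4⟩ := mem_sigma.1 hy
      have := ls_sep h2 h4 (by rintro ⟨rfl, rfl⟩; exact hne rfl) (-k)
      rw [← abs_neg] at this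
      refine le_trans ?_ (this.trans_eq (congrArg _ (by push_cast; ring)))
      have b1 : (1 : ℝ) ≤ q := by exact_mod_cast (mem_Icc.1 h1).1
      have b2 : (1 : ℝ) ≤ q' := by exact_mod_cast (mem_Icc.1 h3).1
      have b3 : (q : ℝ) ≤ E := by exact_mod_cast (mem_Icc.1 h1).2
      have b4 : (q' : ℝ) ≤ E := by exact_mod_cast (mem_Icc.1 h3).2
      exact one_div_le_one_div_of_le (by positivity) (by nlinarith))
  rwa [sum_sigma, one_div_one_div] at key

/-- The terms concentrated near the hyperbola form a short exponential sum. -/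
lemma lsv_main {φ H τ B : ℝ} (G : Finset (ℤ × ℤ)) (J : ℤ × ℤ → ℂ) (hφ : φ ≠ 0) (h0 : 0 ≤ H)
    (hH : 16 * H ≤ φ ^ 2) (hτ : TauB (φ ^ 2) τ) (hB : 0 ≤ B) (hJ : ∀ p, ‖J p‖ ≤ B)
    (hG : ∀ p ∈ G, |(p.1 : ℝ) * p.2 - φ ^ 2 / 4| ≤ 2 * H) :
    ∃ (I : Finset ℕ) (c : ℕ → ℂ), (∀ a ∈ I, (a : ℝ) ≤ 4 * H) ∧
      nsq I c ≤ (4 * H + 1) * (2 * τ * B) ^ 2 ∧
      ∀ γ : ℝ, ‖∑ p ∈ G, ee (-(p.1 * p.2 * γ)) * J p‖ = ‖ft I c (-γ)‖ := by
  have hφ2 : 0 < φ ^ 2 := by positivity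
  set n0 := ⌈φ ^ 2 / 4 - 2 * H⌉₊ with hn0
  have n1 : φ ^ 2 / 4 - 2 * H ≤ n0 := Nat.le_ceil _
  have n2 : n0 ≠ 0 := (Nat.ceil_pos.mpr (by linarith)).ne'
  set g : ℤ × ℤ → ℕ := fun p => (p.1 * p.2 - n0).toNat with hg
  have e1 : ∀ p ∈ G, p.1 * p.2 = ((n0 + g p : ℕ) : ℤ) := fun p hp => by
    have h1 := (abs_le.mp (hG p hp)).1
    have h2 : ((0 : ℤ) : ℝ) ≤ ((p.1 * p.2 : ℤ) : ℝ) := by push_cast; linarith
    obtain ⟨m, hm⟩ := Int.eq_ofNat_of_zero_le (Int.cast_le.mp h2)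
    have h3 : n0 ≤ m := Nat.ceil_le.mpr (by
      have : (p.1 : ℝ) * p.2 = m := by exact_mod_cast hm
      linarith)
    simp only [hg]
    omega
  have e2 : ∀ p ∈ G, (p.1 : ℝ) * p.2 = n0 + g p := fun p hp => by exact_mod_cast e1 p hp
  have τ0 : 0 ≤ τ := (Nat.cast_nonneg _).trans (hτ 0 (by simpa using hφ2.le))
  refine ⟨range (⌊4 * H⌋₊ + 1), fun a => ∑ p ∈ G.filter fun p => g p = a, J p,
    fun a ha => (Nat.le_floor_iff (by positivity)).mp (Nat.lt_succ_iff.mp (mem_range.mp ha)),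
    ?_, fun γ => ?_⟩
  · refine (sum_le_card_nsmul _ _ ((2 * τ * B) ^ 2) fun a _ => ?_).trans ?_
    · refine pow_le_pow_left₀ (norm_nonneg _) ?_ 2
      refine ((norm_sum_le _ _).trans (sum_le_card_nsmul _ _ B fun p _ => hJ p)).trans ?_
      rw [nsmul_eq_mul]
      refine mul_le_mul_of_nonneg_right ?_ hB
      rcases (G.filter fun p => g p = a).eq_empty_or_nonempty with e | ⟨p, hp⟩
      · rw [e, card_empty, Nat.cast_zero]
        positivity
      · obtain ⟨hp', rfl⟩ := mem_filter.mp hp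
        have h1 := lsv_fib (n := n0 + g p) (by omega) (G.filter fun q => g q = g p) fun q hq => by
          rw [e1 q (mem_filter.mp hq).1, (mem_filter.mp hq).2]
        have h2 := hτ (n0 + g p) (by
          push_cast
          linarith [e2 p hp', (abs_le.mp (hG p hp')).2])
        have h3 : ((G.filter fun q => g q = g p).card : ℝ) ≤ 2 * (n0 + g p).divisors.card := by
          exact_mod_cast h1
        linarith
    · rw [card_range, nsmul_eq_mul, Nat.cast_succ]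
      gcongr
      exact Nat.floor_le (by positivity)
  · have : ∑ p ∈ G, ee (-(p.1 * p.2 * γ)) * J p = ee (-(n0 * γ)) * ft (range (⌊4 * H⌋₊ + 1))
        (fun a => ∑ p ∈ G.filter fun p => g p = a, J p) (-γ) := by
      rw [← sum_fiberwise_of_maps_to (g := g) (t := range (⌊4 * H⌋₊ + 1)) fun p hp =>
        mem_range.mpr (Nat.lt_succ_iff.mpr (Nat.le_floor (by
          linarith [e2 p hp, (abs_le.mp (hG p hp)).2]))), ft, mul_sum]
      refine sum_congr rfl fun a _ => ?_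
      rw [sum_mul, mul_sum]
      refine sum_congr rfl fun p hp => ?_
      obtain ⟨hp', rfl⟩ := mem_filter.mp hp
      rw [e2 p hp', show -(((n0 : ℝ) + g p) * γ) = -(n0 * γ) + g p * -γ by ring,
        Pool.Agent.P.MP_e86632_nt.ee_add]
      ring
    rw [this, norm_mul, Pool.Agent.P.MP_e86632_nt.norm_ee, one_mul]

theorem t_LSV (hGI : S_GI) : S_LSV := by
  obtain ⟨C, hC, hL⟩ := lsv_ls
  refine ⟨128 * C + 32, by positivity, fun ρ T τ x y φ E P1 P2 hρ hT hρT hE hF hτ => ?_⟩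
  obtain ⟨-, hI⟩ := hGI ρ hρ
  set w := Real.exp (x + y) with hw
  have w0 : 0 < w := Real.exp_pos _
  have s0 : 0 < T / ρ := by positivity
  have hF' : 16 * (T / ρ) ≤ |φ| * w := by rwa [← mul_div_assoc]
  have φ0 : 0 < |φ| := pos_of_mul_pos_left (a := |φ|) (b := w) (by linarith) w0.le
  have aF : |φ * w| = |φ| * w := by rw [abs_mul, abs_of_pos w0]
  set H := T * |φ| / (ρ * w) with hH
  have H0 : 0 ≤ H := by positivity
  have H1 : H * w ^ 2 = |φ| * w * (T / ρ) := by rw [hH]; field_simp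
  have H2 : 16 * H ≤ φ ^ 2 := by
    refine le_of_mul_le_mul_right ?_ (show 0 < w ^ 2 by positivity)
    rw [mul_assoc, H1, ← sq_abs φ]
    nlinarith [mul_le_mul_of_nonneg_left hF' (mul_pos φ0 w0).le]
  set J : ℤ × ℤ → ℂ := fun p => II ρ (p.1 * Real.exp (2 * x)) (p.2 * Real.exp (2 * y)) (φ * w)
  set A := Icc (-(P1 : ℤ)) P1 ×ˢ Icc (-(P2 : ℤ)) P2 with hA
  set G := A.filter fun p => ρ ^ 2 * gs T < ‖J p‖ with hG
  set R := ((P1 : ℝ) + 1) * (P2 + 1) * gs T with hR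
  have g0 := gs_pos T
  have hG1 : ∀ p ∈ G, |(p.1 : ℝ) * p.2 - φ ^ 2 / 4| ≤ 2 * H := fun p hp => by
    obtain ⟨u, v, h1, -, h2, -, h3, h4⟩ := ((hI _ _ _).2 T (by linarith) hρT).resolve_left
      (mem_filter.mp hp).2.not_ge
    have e : T / (2 * ρ) = T / ρ / 2 := by field_simp
    have h5 := lsv_prod h1 h2 s0.le (aF ▸ hF') (e ▸ h3) (e ▸ h4)
    have e2 : Real.exp (2 * x) * Real.exp (2 * y) = w ^ 2 := by
      rw [hw, ← Real.exp_add, ← Real.exp_nat_mul]; congr 1; push_cast; ring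
    rw [aF, ← H1, show p.1 * Real.exp (2 * x) * (p.2 * Real.exp (2 * y)) - (φ * w) ^ 2 / 4 =
      ((p.1 : ℝ) * p.2 - φ ^ 2 / 4) * w ^ 2 by rw [sub_mul, ← e2, mul_pow, e2]; rw [← e2]; ring,
      abs_mul, abs_of_pos (show 0 < w ^ 2 by positivity), ← mul_assoc] at h5
    exact le_of_mul_le_mul_right h5 (by positivity)
  have sp : ∀ γ : ℝ, ‖DS ρ P1 P2 x y φ γ‖ ^ 2 ≤
      2 * ‖∑ p ∈ G, ee (-(p.1 * p.2 * γ)) * J p‖ ^ 2 + 32 * R ^ 2 := fun γ => by
    have h1 : ‖∑ p ∈ A.filter fun p => ¬ ρ ^ 2 * gs T < ‖J p‖, ee (-(p.1 * p.2 * γ)) * J p‖ ≤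
        4 * R := by
      refine ((norm_sum_le _ _).trans (sum_le_card_nsmul _ _ (gs T) fun p hp => ?_)).trans ?_
      · rw [norm_mul, Pool.Agent.P.MP_e86632_nt.norm_ee, one_mul]
        refine (not_lt.mp (mem_filter.mp hp).2).trans (mul_le_of_le_one_left g0.le ?_)
        nlinarith
      · have h2 : ((A.filter fun p => ¬ ρ ^ 2 * gs T < ‖J p‖).card : ℝ) ≤
            ((4 * ((P1 + 1) * (P2 + 1)) : ℕ) : ℝ) := by
          refine Nat.cast_le.mpr ((card_filter_le _ _).trans ?_)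
          rw [hA, card_product, Int.card_Icc, Int.card_Icc]
          calc _ ≤ 2 * (P1 + 1) * (2 * (P2 + 1)) := Nat.mul_le_mul (by omega) (by omega)
            _ = _ := by ring
        rw [nsmul_eq_mul, hR, ← mul_assoc]
        push_cast at h2
        gcongr
    have h2 : ‖DS ρ P1 P2 x y φ γ‖ ≤ ‖∑ p ∈ G, ee (-(p.1 * p.2 * γ)) * J p‖ + 4 * R := by
      rw [DS, ← sum_product', ← sum_filter_add_sum_filter_not A fun p => ρ ^ 2 * gs T < ‖J p‖]
      exact (norm_add_le _ _).trans (add_le_add le_rfl h1)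
    refine (pow_le_pow_left₀ (norm_nonneg _) h2 2).trans ?_
    nlinarith [sq_nonneg (‖∑ p ∈ G, ee (-(p.1 * p.2 * γ)) * J p‖ - 4 * R)]
  set M := if 1 ≤ |φ| then (H + (E : ℝ) ^ 2) * (H + 1) * τ ^ 2 * ρ ^ 2 / (|φ| * w) else 0 with hM
  have M0 : 0 ≤ M := by
    rw [hM]
    split_ifs
    exacts [by positivity, le_rfl]
  have mn : ∑ e ∈ Icc 1 E, ∑ r ∈ red e,
      ‖∑ p ∈ G, ee (-(p.1 * p.2 * ((r : ℝ) / e))) * J p‖ ^ 2 ≤ 64 * C * M := by
    by_cases h1 : 1 ≤ |φ|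
    · obtain ⟨I, c, h2, h3, h4⟩ := lsv_main G J (abs_pos.mp φ0) H0 H2 hτ
        (show 0 ≤ ρ / √|φ * w| by positivity)
        (fun p => (hI _ _ _).1 (mul_ne_zero (abs_pos.mp φ0) w0.ne')) hG1
      simp only [h4]
      refine (hL E _ I c hE (by positivity) h2).trans ?_
      rw [mul_pow, div_pow, Real.sq_sqrt (abs_nonneg _), aF] at h3
      calc _ ≤ C * (4 * (H + (E : ℝ) ^ 2)) *
            ((4 * (H + 1)) * ((2 * τ) ^ 2 * (ρ ^ 2 / (|φ| * w)))) := by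
            refine mul_le_mul (by gcongr; nlinarith) (h3.trans ?_)
              (sum_nonneg fun _ _ => by positivity) (by positivity)
            gcongr
            linarith
        _ = _ := by rw [hM, if_pos h1]; ring
    · have : G = ∅ := eq_empty_of_forall_notMem fun p hp => by
        have h2 := abs_le.mp (hG1 p hp)
        have h3 : φ ^ 2 < 1 := by rw [← sq_abs]; nlinarith [not_le.mp h1]
        have h4 : 0 < φ ^ 2 := by rw [← sq_abs]; positivity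
        have h5 : ((0 : ℤ) : ℝ) < ((p.1 * p.2 : ℤ) : ℝ) := by push_cast; linarith
        have h6 : ((p.1 * p.2 : ℤ) : ℝ) < ((1 : ℤ) : ℝ) := by push_cast; linarith
        have := Int.cast_lt.mp h5
        have := Int.cast_lt.mp h6
        omega
      simp only [this, sum_empty, norm_zero, ne_eq, OfNat.ofNat_ne_zero, not_false_eq_true,
        zero_pow, sum_const_zero]
      positivity
  have ct : ∑ e ∈ Icc 1 E, ∑ _r ∈ red e, 32 * R ^ 2 ≤ (E : ℝ) ^ 2 * (32 * R ^ 2) := by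
    refine (sum_le_card_nsmul _ _ (E * (32 * R ^ 2)) fun e he => ?_).trans_eq ?_
    · rw [sum_const, nsmul_eq_mul]
      exact mul_le_mul_of_nonneg_right
        (Nat.cast_le.mpr ((card_red_le e).trans (mem_Icc.mp he).2)) (by positivity)
    · rw [Nat.card_Icc, Nat.add_sub_cancel, nsmul_eq_mul]
      ring
  refine (sum_le_sum fun e _ => sum_le_sum fun r _ => sp _).trans ?_
  simp only [sum_add_distrib, ← mul_sum _ _ (2 : ℝ)]
  have : 0 ≤ C * ((E : ℝ) ^ 2 * R ^ 2) := by positivity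
  linarith

end Pool.Agent.P.MP_8be758_nt.Av2
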