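import Pool.Agent.P.MP_8be758_nt.Av2.Basic

/-! The step `S_MD`. -/

namespace Pool.Agent.P.MP_8be758_nt.Av2

open Finset Real Filter Topology
open Pool.Agent.P.MP_e86632_nt (ee ee_add ee_add_int norm_ee)
open Pool.Agent.P.MP_8be758_nt.Avg

theorem md_vr {W : ℕ} (hW : 1 ≤ W) (k m : ℕ) : (vr W k m : ℂ) = ∑ n ∈ range W, ∑ r ∈ range W,
    1 / (W : ℂ) * (ee (-((r : ℝ) / W * (n ^ 2 + n + k : ℕ))) * ee (m * ((r : ℝ) / W))) := by
  have h0 : (W : ℂ) ≠ 0 := Nat.cast_ne_zero.2 (by omega)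
  rw [vr, card_filter, Nat.cast_sum]
  refine sum_congr rfl fun n _ => ?_
  have h := far_two W ((m : ℤ) - (n ^ 2 + n + k : ℕ)) hW
  rw [← mul_sum, sum_congr rfl (g := fun r : ℕ => ee ((r : ℝ) / W *
    (((m : ℤ) - (n ^ 2 + n + k : ℕ) : ℤ) : ℝ))) fun r _ => by
      rw [← ee_add]
      congr 1
      push_cast
      ring, h]
  simp only [Nat.modEq_iff_dvd]
  split_ifs <;> simp [h0]

theorem md_SI {W : ℕ} (hW : 1 ≤ W) (I : Finset ℕ) (α : ℕ → ℝ) (s : ℕ) :
    SI I α ((s : ℝ) / W) 0 = SI I α (((s % W : ℕ) : ℝ) / W) 0 := by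
  have h0 : (W : ℝ) ≠ 0 := Nat.cast_ne_zero.2 (by omega)
  refine sum_congr rfl fun a _ => ?_
  rw [← ee_add_int (a * (((s % W : ℕ) : ℝ) / W) + _) (a * (s / W : ℕ))]
  congr 2
  have : (s : ℝ) = (s % W : ℕ) + W * (s / W : ℕ) := by exact_mod_cast (Nat.mod_add_div s W).symm
  rw [Int.cast_mul, Int.cast_natCast, Int.cast_natCast]
  generalize s % W = u at *
  generalize s / W = v at *
  rw [this]
  field_simp
  ring

theorem t_MD : S_MD := by
  intro W k b I α e hW hb h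
  have e0 : 0 ≤ e := (norm_nonneg _).trans (h 0 hW)
  have w1 : (1 : ℝ) ≤ W := by exact_mod_cast hW
  have b1 : (1 : ℝ) ≤ √(b : ℝ) := Real.one_le_sqrt.2 (by exact_mod_cast hb)
  have key : ((∑ a ∈ I, α a * md W k (a * b) : ℝ) : ℂ) = ∑ n ∈ range W, ∑ r ∈ range W,
      ((1 / (2 * √(b : ℝ) * W) : ℝ) : ℂ) * (ee (-((r : ℝ) / W * (n ^ 2 + n + k : ℕ))) *
        SI I α (((r * b : ℕ) : ℝ) / W) 0) := by
    simp only [SI, mul_sum]
    rw [Complex.ofReal_sum, sum_congr rfl fun n _ => sum_comm, sum_comm]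
    refine sum_congr rfl fun a _ => ?_
    rw [md, Complex.ofReal_mul, Complex.ofReal_div, Complex.ofReal_natCast, md_vr hW, sum_div,
      mul_sum]
    refine sum_congr rfl fun n _ => ?_
    rw [sum_div, mul_sum]
    refine sum_congr rfl fun r _ => ?_
    rw [Nat.cast_mul, Real.sqrt_mul (Nat.cast_nonneg a), show (a : ℝ) * b * ((r : ℝ) / W) =
      a * (((r * b : ℕ) : ℝ) / W) + 0 * √(a : ℝ) by push_cast; ring]
    push_cast
    ring
  rw [← Real.norm_eq_abs, ← Complex.norm_real, key]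
  refine (norm_sum_le_of_le _ fun n _ => norm_sum_le_of_le (n := fun _ => e) _ fun r _ => ?_).trans
    (le_of_eq ?_)
  · rw [norm_mul, norm_mul, norm_ee, one_mul, md_SI hW, Complex.norm_real,
      Real.norm_of_nonneg (by positivity)]
    refine (mul_le_of_le_one_left (norm_nonneg _) ?_).trans (h _ (Nat.mod_lt _ hW))
    rw [div_le_one (by positivity)]
    nlinarith
  · simp only [sum_const, card_range, nsmul_eq_mul]
    ring

end Pool.Agent.P.MP_8be758_nt.Av2
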