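import Pool.Agent.P.MP_8be758_nt.Av2.Basic

/-! The step `S_OM`. -/

namespace Pool.Agent.P.MP_8be758_nt.Av2

open Finset Real Filter Topology
open Pool.Agent.P.MP_e86632_nt (ee)
open Pool.Agent.P.MP_8be758_nt.Avg

theorem om_eq (ρ t : ℝ) {u : ℕ} (hu : 1 ≤ u) :
    om ρ t u = gs ((Real.exp (Real.log u / 2 - t) - 1) / ρ) := by
  have := om_mul ρ t hu 1
  rw [mul_one] at this
  rw [this, om, Nat.cast_one, Real.sqrt_one, one_mul, neg_sub]

theorem om_lip (x y : ℝ) : |gs x - gs y| ≤ 2 * |x - y| := by
  have hd : ∀ x, HasDerivAt gs (gs x * -(π * (2 * x))) x := fun x => by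
    have := (((hasDerivAt_pow 2 x).const_mul π).neg).exp
    simp only [Nat.cast_ofNat, Nat.add_one_sub_one, pow_one] at this
    exact this
  refine Convex.norm_image_sub_le_of_norm_hasDerivWithin_le (s := Set.univ)
    (fun x _ => (hd x).hasDerivWithinAt) (fun x _ => ?_) convex_univ trivial trivial
  have h1 := Real.add_one_le_exp (π * x ^ 2)
  have h2 := mul_nonneg Real.pi_pos.le (sq_nonneg (|x| - 1 / 2))
  rw [Real.norm_eq_abs, abs_mul, abs_neg, abs_mul, abs_mul, abs_of_pos (gs_pos x),
    abs_of_pos Real.pi_pos, abs_two, gs, Real.exp_neg, inv_mul_le_iff₀ (Real.exp_pos _)]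
  nlinarith [Real.pi_le_four, sq_abs x]

theorem om_far {κ w : ℝ} (h0 : 0 ≤ κ) (h1 : κ ≤ 1 / 2) (h : 2 * κ ≤ |w|) :
    κ ≤ |Real.exp w - 1| := by
  rcases le_abs.1 h with h | h
  · exact le_abs.2 (.inl (by linarith [Real.add_one_le_exp w]))
  · refine le_abs.2 (.inr ?_)
    have h2 := Real.add_one_le_exp (-w)
    have h3 : Real.exp w * Real.exp (-w) = 1 := by rw [← Real.exp_add, add_neg_cancel, Real.exp_zero]
    have h4 := Real.exp_pos w
    by_contra h5
    nlinarith [mul_le_mul_of_nonneg_left (show 1 + 2 * κ ≤ Real.exp (-w) by linarith) h4.le]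

theorem t_OM : S_OM := by
  refine ⟨32, by norm_num, fun ρ T u hρ hT hκ hu => ?_⟩
  obtain ⟨l, hl⟩ : ∃ l, l = Real.log u / 2 := ⟨_, rfl⟩
  simp only [om_eq ρ _ hu, ← hl]
  have k0 : 0 < ρ * T := by positivity
  have g0 := gs_pos T
  have far : ∀ x, ρ * T ≤ |x| → gs (x / ρ) ≤ gs T := fun x h => gs_anti (by
    rw [abs_div, abs_of_pos hρ, le_div_iff₀' hρ, abs_of_pos (by linarith)]; exact h)
  have h1 : ∀ t, 2 * (ρ * T) ≤ |l - t| → gs ((Real.exp (l - t) - 1) / ρ) ≤ gs T :=
    fun t h => far _ (om_far k0.le (by linarith) h)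
  have c1 : Continuous fun t => gs ((Real.exp (l - t) - 1) / ρ) := by fun_prop
  refine ⟨h1, fun a b hab => ⟨?_, fun ha hb => ?_⟩⟩
  · have c2 : Continuous fun t => gs ((t - l) / (2 * ρ)) := by fun_prop
    refine (intervalIntegral.integral_mono (g := fun t => gs ((t - l) / (2 * ρ)) + gs T) hab
      (c1.intervalIntegrable _ _) ((c2.add continuous_const).intervalIntegrable _ _)
      fun t => ?_).trans ?_
    · have := gs_pos ((t - l) / (2 * ρ))
      rcases le_total (2 * (ρ * T)) |l - t| with h | h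
      · linarith [h1 t h]
      · refine le_add_of_le_of_nonneg (gs_anti ?_) g0.le
        have h2 := om_far (κ := |l - t| / 2) (w := l - t) (by positivity) (by linarith) (by linarith)
        rw [abs_div, abs_div, abs_sub_comm, abs_mul, abs_two, ← div_div]
        gcongr
    · rw [intervalIntegral.integral_add (c2.intervalIntegrable _ _) intervalIntegrable_const,
        intervalIntegral.integral_const, smul_eq_mul, intervalIntegral.integral_of_le hab,
        add_le_add_iff_right]
      exact (MeasureTheory.setIntegral_le_integral (integrable_gs (by positivity) l)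
        (.of_forall fun x => (gs_pos _).le)).trans_eq (integral_gs (by positivity) l)
  · have c2 : Continuous fun t => gs ((t - l) / ρ) := by fun_prop
    have c3 : Continuous fun t => gs ((Real.exp (l - t) - 1) / ρ) - gs ((t - l) / ρ) := c1.sub c2
    have out : ∀ x y, (∀ t ∈ Set.uIoc x y, 2 * (ρ * T) ≤ |l - t|) →
        |∫ t in x..y, (gs ((Real.exp (l - t) - 1) / ρ) - gs ((t - l) / ρ))| ≤ gs T * |y - x| :=
      fun x y h => intervalIntegral.norm_integral_le_of_norm_le_const
        (f := fun t => gs ((Real.exp (l - t) - 1) / ρ) - gs ((t - l) / ρ)) fun t ht => by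
        have a1 := h1 t (h t ht)
        have a2 := far (t - l) (by rw [abs_sub_comm]; linarith [h t ht])
        have a3 := gs_pos ((Real.exp (l - t) - 1) / ρ)
        have a4 := gs_pos ((t - l) / ρ)
        exact abs_le.2 ⟨by linarith, by linarith⟩
    have o1 := out a (l - 2 * (ρ * T)) fun t ht => by
      rw [Set.uIoc_of_le (by linarith)] at ht
      exact le_abs.2 (.inl (by linarith [ht.2]))
    have o2 := out (l + 2 * (ρ * T)) b fun t ht => by
      rw [Set.uIoc_of_le hb] at ht
      exact le_abs.2 (.inr (by linarith [ht.1]))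
    have o3 : |∫ t in (l - 2 * (ρ * T))..(l + 2 * (ρ * T)),
        (gs ((Real.exp (l - t) - 1) / ρ) - gs ((t - l) / ρ))| ≤
        8 * ρ * T ^ 2 * |l + 2 * (ρ * T) - (l - 2 * (ρ * T))| :=
      intervalIntegral.norm_integral_le_of_norm_le_const
        (f := fun t => gs ((Real.exp (l - t) - 1) / ρ) - gs ((t - l) / ρ)) fun t ht => by
        rw [Set.uIoc_of_le (by linarith)] at ht
        have a1 : |l - t| ≤ 2 * (ρ * T) := abs_le.2 ⟨by linarith [ht.2], by linarith [ht.1]⟩
        have a2 := Real.abs_exp_sub_one_sub_id_le (x := l - t) (by linarith)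
        have a3 : (l - t) ^ 2 ≤ (2 * (ρ * T)) ^ 2 := sq_le_sq' (abs_le.1 a1).1 (abs_le.1 a1).2
        rw [← gs_neg ((t - l) / ρ), ← neg_div, neg_sub]
        refine (om_lip _ _).trans ?_
        rw [← sub_div, abs_div, abs_of_pos hρ, ← mul_div_assoc, div_le_iff₀ hρ]
        nlinarith
    have s1 := intervalIntegral.integral_add_adjacent_intervals (μ := MeasureTheory.volume)
      (c3.intervalIntegrable a (l - 2 * (ρ * T))) (c3.intervalIntegrable _ (l + 2 * (ρ * T)))
    have s2 := intervalIntegral.integral_add_adjacent_intervals (μ := MeasureTheory.volume)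
      (c3.intervalIntegrable a (l + 2 * (ρ * T))) (c3.intervalIntegrable _ b)
    have s3 := intervalIntegral.integral_sub (μ := MeasureTheory.volume)
      (c1.intervalIntegrable a b) (c2.intervalIntegrable a b)
    have s4 := MeasureTheory.integral_add_compl (s := Set.Ioc a b) measurableSet_Ioc
      (integrable_gs hρ l)
    have s5 := integral_gs_tail hρ (by linarith : 0 ≤ T) l (s := (Set.Ioc a b)ᶜ)
      measurableSet_Ioc.compl fun x hx => by
        rcases not_and_or.1 hx with h | h
        · exact le_abs.2 (.inr (by linarith [not_lt.1 h]))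
        · exact le_abs.2 (.inl (by linarith [not_le.1 h]))
    have s6 : 0 ≤ ∫ x in (Set.Ioc a b)ᶜ, gs ((x - l) / ρ) :=
      MeasureTheory.integral_nonneg fun x => (gs_pos _).le
    rw [integral_gs hρ, ← intervalIntegral.integral_of_le hab] at s4
    rw [abs_of_nonneg (a := l - _ - a) (by linarith)] at o1
    rw [abs_of_nonneg (a := b - _) (by linarith)] at o2
    rw [abs_of_nonneg (a := l + _ - _) (by linarith)] at o3
    have s7 : ρ * gs T ≤ gs T := mul_le_of_le_one_left g0.le (by nlinarith)
    have s8 := mul_pos k0 g0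
    have s9 := mul_nonneg (sub_nonneg.2 hab) g0.le
    rw [abs_le] at o1 o2 o3 ⊢
    constructor <;> linarith [o1.1, o1.2, o2.1, o2.2, o3.1, o3.2]

end Pool.Agent.P.MP_8be758_nt.Av2
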