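import Pool.Agent.P.MP_8be758_nt.Av2.Basic

/-! The step `S_OSC3`. -/

namespace Pool.Agent.P.MP_8be758_nt.Av2

open Finset Real Filter Topology
open Pool.Agent.P.MP_e86632_nt (ee)
open Pool.Agent.P.MP_8be758_nt.Avg

theorem osc3_two {s M θ : ℝ} (hs : 0 < s) (hM : 0 ≤ M) (hθ : 0 < |θ|) :
    shp s M (2 * θ) ≤ 2 * shp s M θ := by
  have h1 : min 1 (M / |2 * θ|) ≤ min 1 (M / |θ|) := by
    refine min_le_min le_rfl ?_
    rw [abs_mul, abs_two]
    gcongr
    linarith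
  have h2 : 0 ≤ min 1 (M / |θ|) := le_min zero_le_one (by positivity)
  have h3 : |2 * θ| / s = 2 * (|θ| / s) := by rw [abs_mul, abs_two]; ring
  unfold shp
  rw [h3]
  nlinarith [mul_le_mul_of_nonneg_left h1 hs.le, mul_nonneg hs.le h2]

theorem osc3_s1 {s M θ : ℝ} (hs : 1 ≤ s) (hM : M ≤ s) (hθ : |θ| ≤ s) : shp s M θ ≤ 3 * s := by
  have h1 : |θ| / s ≤ 1 := (div_le_one (by linarith)).2 hθ
  have h2 : s * min 1 (M / |θ|) ≤ s * 1 :=
    mul_le_mul_of_nonneg_left (min_le_left _ _) (by linarith)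
  unfold shp
  linarith

theorem osc3_s2 {s M θ t1 t2 : ℝ} (hs : 0 < s) (hM : 0 ≤ M) (h0 : 0 < t1) (h1 : t1 ≤ |θ|)
    (h2 : |θ| ≤ t2) : shp s M θ ≤ t2 / s + M + s * (M / t1) := by
  unfold shp
  gcongr
  refine (min_le_right _ _).trans ?_
  gcongr

theorem osc3_sqlog {x A : ℝ} (hx : 0 < x) (h : x ≤ A) (hA : 1 ≤ A) :
    √(Real.log x) ≤ 1 + Real.log A := by
  have h1 := Real.log_nonneg hA
  have h2 := Real.log_le_log hx h
  rw [Real.sqrt_le_left (by linarith)]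
  nlinarith

theorem osc3_i {H T J Γ b τ A G : ℝ} (hH : 0 ≤ H) (hT : 1 ≤ T) (hJ : J ≤ 3 * H * T) (hb : 0 < b)
    (hΓ : 0 ≤ Γ) (hG : G ≤ 6 * A * τ) (hG0 : 0 ≤ G) :
    √J * (Γ / b) * G ≤ 12 * (Γ * τ * T * (A * (√H / b))) := by
  have h1 : √J ≤ 2 * T * √H := by
    rw [Real.sqrt_le_left (by positivity), mul_pow, Real.sq_sqrt hH]
    nlinarith [mul_nonneg hH (mul_nonneg (by linarith : (0 : ℝ) ≤ T) (sub_nonneg.2 hT)),
      mul_nonneg hH (sq_nonneg T)]
  calc _ ≤ 2 * T * √H * (Γ / b) * (6 * A * τ) := by gcongr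
    _ = _ := by ring

theorem osc3_iii {b s H K T J Γ M t1 t2 : ℝ} (hb : 1 ≤ b) (hs : 0 < s) (hH : 0 ≤ H) (hT : 1 ≤ T)
    (hJ0 : 0 ≤ J) (hJ : J ≤ 3 * H * T) (hΓ : 0 ≤ Γ) (hM : b * M = s) (ht : t1 ^ 2 = H * s)
    (ht0 : 0 < t1) (hHt : H ≤ t1) (hK : b ^ 2 ≤ K) (hA : K * H = s ^ 2)
    (h2 : t2 = 2 * b * J * T) :
    (t2 + J) * (3 * Γ * (t2 / s + M + s * (M / t1))) ≤ 288 * (Γ * T ^ 4 * (t1 * s)) := by
  have hb0 : 0 < b := by linarith
  have hM0 : 0 ≤ M := by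
    by_contra h
    nlinarith [mul_pos hb0 (neg_pos.2 (not_le.1 h))]
  have a1 : t2 ≤ 6 * b * H * T ^ 2 := by
    rw [h2]
    calc _ ≤ 2 * b * (3 * H * T) * T := by gcongr
      _ = _ := by ring
  have a2 : J ≤ t2 := by
    rw [h2]
    have : 1 ≤ b * T := one_le_mul_of_one_le_of_one_le hb hT
    nlinarith
  have a3 : b ^ 2 * H ^ 2 / s ≤ t1 * s := by
    rw [div_le_iff₀ hs]
    calc _ ≤ K * H ^ 2 := by gcongr
      _ = H * (s * s) := by linear_combination H * hA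
      _ ≤ t1 * (s * s) := by gcongr
      _ = _ := by ring
  have a4 : b * H * M ≤ t1 * s := by
    calc _ = H * s := by linear_combination H * hM
      _ ≤ _ := by gcongr
  have a5 : b * H * (s * (M / t1)) = t1 * s := by
    field_simp
    linear_combination H * hM - ht
  have hT2 : 1 ≤ T ^ 2 := one_le_pow₀ hT
  have hX : 0 ≤ t1 * s := by positivity
  calc _ ≤ (12 * b * H * T ^ 2) * (3 * Γ * (6 * b * H * T ^ 2 / s + M + s * (M / t1))) := by
        have : 0 ≤ t2 := hJ0.trans a2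
        gcongr
        linarith
    _ = 36 * Γ * T ^ 2 * (6 * T ^ 2 * (b ^ 2 * H ^ 2 / s) + b * H * M +
          b * H * (s * (M / t1))) := by ring
    _ ≤ 36 * Γ * T ^ 2 * (6 * T ^ 2 * (t1 * s) + T ^ 2 * (t1 * s) + T ^ 2 * (t1 * s)) := by
        have : t1 * s ≤ T ^ 2 * (t1 * s) := le_mul_of_one_le_left hX hT2
        rw [a5]
        exact mul_le_mul_of_nonneg_left (add_le_add (add_le_add
          (mul_le_mul_of_nonneg_left a3 (by positivity)) (a4.trans this)) this) (by positivity)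
    _ = _ := by ring

/-- the numerical part -/
theorem osc3_num {b s H K A T J Γ τ M G g t1 t2 : ℝ} (hb : 1 ≤ b) (hs : 1 ≤ s) (hH : 1 ≤ H)
    (hT : 1 ≤ T) (hJ1 : 1 ≤ J) (hJ : J ≤ 3 * H * T) (hΓ : 1 ≤ Γ) (hτ : 1 ≤ τ) (hM : b * M = s)
    (ht : t1 ^ 2 = H * s) (ht0 : 1 ≤ t1) (hHt : H ≤ t1) (hts : t1 ≤ s) (hK : b ^ 2 ≤ K)
    (hA : K * H = A) (hsA : s ^ 2 = A) (hbs : b ≤ s) (hJA : J * b ≤ A) (ht2 : t2 ≤ A)
    (h2 : t2 = max t1 (2 * b * J * T)) (hG : G ≤ 6 * A * τ) (hG0 : 0 ≤ G) (hg : gs T ≤ g) :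
    √J * (Γ / b) * G + (1 + Real.log J) * ((t1 + J) * (9 * Γ * s) * √(Real.log (t1 / (Γ / b))) +
      (t2 + J) * (3 * Γ * (t2 / s + M + s * (M / t1))) * √(Real.log (t2 / t1))) +
      J ^ 2 * b * G * gs T ≤
    324 * (Γ * τ * (1 + Real.log A) ^ 2 * T ^ 4 * (A * (√H / b) + t1 * s) + τ * A ^ 3 * g) := by
  have hb0 : 0 < b := by linarith
  have hs0 : 0 < s := by linarith
  have hA1 : 1 ≤ A := by nlinarith
  have hL := Real.log_nonneg hA1
  have hJA' : J ≤ A := by nlinarith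
  have hM0 : 0 ≤ M := by
    by_contra h
    nlinarith [mul_pos hb0 (neg_pos.2 (not_le.1 h))]
  have h12 : t1 ≤ t2 := h2 ▸ le_max_left _ _
  have hX : 0 ≤ t1 * s := by positivity
  have hT4 : T ≤ T ^ 4 := le_self_pow₀ hT (by norm_num)
  have a1 := osc3_i (Γ := Γ) (zero_le_one.trans hH) hT hJ hb0 (zero_le_one.trans hΓ) hG hG0
  have a2 : (t1 + J) * (9 * Γ * s) ≤ 36 * (Γ * T ^ 4 * (t1 * s)) := by
    have : t1 + J ≤ 4 * T ^ 4 * t1 := by nlinarith
    calc _ ≤ 4 * T ^ 4 * t1 * (9 * Γ * s) := by gcongr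
      _ = _ := by ring
  have a3 : √(Real.log (t1 / (Γ / b))) ≤ 1 + Real.log A := by
    refine osc3_sqlog (by positivity) ?_ hA1
    rw [div_div_eq_mul_div, div_le_iff₀ (by positivity)]
    nlinarith [mul_le_mul hts hbs hb0.le hs0.le]
  have a4 : (t2 + J) * (3 * Γ * (t2 / s + M + s * (M / t1))) * √(Real.log (t2 / t1)) ≤
      288 * (Γ * T ^ 4 * (t1 * s)) * (1 + Real.log A) := by
    rcases max_choice t1 (2 * b * J * T) with h | h
    · rw [h2, h, div_self (by linarith), Real.log_one, Real.sqrt_zero, mul_zero]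
      positivity
    · refine mul_le_mul (osc3_iii hb hs0 (by linarith) hT (by linarith) hJ (by linarith) hM ht
        (by linarith) hHt hK (hA.trans hsA.symm) (h2.trans h))
        (osc3_sqlog (div_pos (by linarith) (by linarith)) ?_ hA1) (Real.sqrt_nonneg _)
        (by positivity)
      rw [div_le_iff₀ (by linarith)]
      nlinarith
  have a5 : 1 + Real.log J ≤ 1 + Real.log A := by gcongr
  have a6 : J ^ 2 * b * G * gs T ≤ 6 * (τ * A ^ 3 * g) := by
    have := gs_pos T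
    calc _ = J * (J * b) * G * gs T := by ring
      _ ≤ A * A * (6 * A * τ) * g := by gcongr
      _ = _ := by ring
  have a7 : (t1 + J) * (9 * Γ * s) * √(Real.log (t1 / (Γ / b))) ≤
      36 * (Γ * T ^ 4 * (t1 * s)) * (1 + Real.log A) :=
    mul_le_mul a2 a3 (Real.sqrt_nonneg _) (by positivity)
  have a8 : (1 + Real.log J) * ((t1 + J) * (9 * Γ * s) * √(Real.log (t1 / (Γ / b))) +
      (t2 + J) * (3 * Γ * (t2 / s + M + s * (M / t1))) * √(Real.log (t2 / t1))) ≤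
      (1 + Real.log A) * (36 * (Γ * T ^ 4 * (t1 * s)) * (1 + Real.log A) +
        288 * (Γ * T ^ 4 * (t1 * s)) * (1 + Real.log A)) := by
    have : 0 ≤ t2 := by linarith
    exact mul_le_mul a5 (add_le_add a7 a4) (by positivity) (by positivity)
  have a9 : Γ * T ^ 4 * (t1 * s) * (1 + Real.log A) ^ 2 ≤
      Γ * τ * (1 + Real.log A) ^ 2 * T ^ 4 * (t1 * s) := by
    calc _ = Γ * 1 * (1 + Real.log A) ^ 2 * T ^ 4 * (t1 * s) := by ring
      _ ≤ _ := by gcongr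
  have a10 : Γ * τ * T * (A * (√H / b)) ≤
      Γ * τ * (1 + Real.log A) ^ 2 * T ^ 4 * (A * (√H / b)) := by
    calc _ = Γ * τ * 1 * T * (A * (√H / b)) := by ring
      _ ≤ _ := by
        gcongr
        exact one_le_pow₀ (by linarith)
  have a11 : 0 ≤ Γ * τ * T * (A * (√H / b)) := by positivity
  have a12 : 0 ≤ τ * A ^ 3 * g := by have := (gs_pos T).le.trans hg; positivity
  have a13 : (1 + Real.log A) * (36 * (Γ * T ^ 4 * (t1 * s)) * (1 + Real.log A) +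
        288 * (Γ * T ^ 4 * (t1 * s)) * (1 + Real.log A)) =
      324 * (Γ * T ^ 4 * (t1 * s) * (1 + Real.log A) ^ 2) := by ring
  rw [mul_add (Γ * τ * (1 + Real.log A) ^ 2 * T ^ 4)]
  refine (add_le_add (add_le_add a1 (a8.trans_eq a13)) a6).trans ?_
  linarith only [a9, a10, a11, a12]

theorem osc3_cont (α : ℕ → ℝ) (I : Finset ℕ) (μ0 : ℕ) : Continuous (cG α I μ0) := by
  unfold cG
  fun_prop

theorem t_OSC3 (hPB : S_PB) (hTH : S_TH) (hCG : S_CG) (hCH : S_CH) : S_OSC3 := by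
  obtain ⟨C, hC, hCH⟩ := hCH
  refine ⟨324 * C + 60, by positivity, ?_⟩
  intro A B K T Γ τ μ0 I α hB hBK hKA hAK hT hΓ hΓB hTK hμ hI hα hτ hG
  have hB0 : 0 < B := by linarith
  have hK0 : 0 < K := by linarith
  have hA0 : 0 < A := by linarith
  have hτ1 : 1 ≤ τ := hτ.one_le (by linarith)
  obtain ⟨c1, c2⟩ := hCG α I μ0
  obtain ⟨c2, c3⟩ := c2 A τ (by linarith) hI hα hτ
  have hsA : √A ^ 2 = A := Real.sq_sqrt hA0.le
  have hbB : √B ^ 2 = B := Real.sq_sqrt hB0.le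
  have hb : 1 ≤ √B := Real.one_le_sqrt.2 (by linarith)
  have hbs : √B ≤ √A := Real.sqrt_le_sqrt (by linarith)
  have hΓb : Γ ≤ √B := Real.le_sqrt_of_sq_le hΓB
  have hM : √B * √(A / B) = √A := by
    rw [← Real.sqrt_mul hB0.le]; congr 1; field_simp
  have e1 : √(A / K / B) = √(A / K) / √B := Real.sqrt_div (by positivity) _
  have hM0 := Real.sqrt_nonneg (A / B)
  have hH : K * (A / K) = A := by field_simp
  have hH1 : 1 ≤ A / K := (one_le_div hK0).2 hKA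
  have e2 : A * √(√A / K) = √(A / K * √A) * √A := by
    rw [← Real.sqrt_mul (by positivity), eq_comm, Real.sqrt_eq_iff_mul_self_eq (by positivity)
      (by positivity), mul_mul_mul_comm, Real.mul_self_sqrt (by positivity)]
    ring
  have e3 : ∀ x : ℝ, x * K / (4 * A) = x / (4 * (A / K)) := fun x => by field_simp
  have e4 : 4 * A / K = 4 * (A / K) := by ring
  rw [e1, mul_assoc _ A, mul_add A, e2]
  have ht : √(A / K * √A) ^ 2 = A / K * √A := Real.sq_sqrt (by positivity)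
  have ht0 := Real.sqrt_nonneg (A / K * √A)
  generalize √(A / K * √A) = t1 at *
  have k1 := fun J => hPB α I A B K _ μ0 J hA0 hK0
    (fun a ha => by
      have h1 : (1 : ℝ) ≤ a := by linarith [(hI a ha).1]
      exact_mod_cast h1) fun ξ => c3 B ξ hB0
  simp only [e3, e4] at k1
  have k2 := fun ε => hCH ε B T (2 * μ0 + 4 * A * τ)
  generalize √(A / B) = M at *
  generalize A / K = H at *
  generalize √B = b at *
  generalize √A = s at *
  have hs : 1 ≤ s := hb.trans hbs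
  have hT2 : 1 ≤ T ^ 2 := one_le_pow₀ hT
  have hK30 : 30 ≤ K := by
    have := one_le_mul_of_one_le_of_one_le hT2 hb
    linarith only [this, hTK]
  have hs0 : 0 < s := by linarith
  have hb0 : 0 < b := by linarith
  have hHs : H ≤ s := by
    refine le_of_mul_le_mul_left ?_ hK0
    have h1 : s ≤ K := abs_le_of_sq_le_sq' (hsA.le.trans hAK) hK0.le |>.2
    calc K * H = s * s := by rw [hH, ← hsA, sq]
      _ ≤ _ := by gcongr
  have hHt : H ≤ t1 := (abs_le_of_sq_le_sq' (by rw [ht, sq]; gcongr) ht0).2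
  have hts : t1 ≤ s := (abs_le_of_sq_le_sq' (by rw [ht, sq]; gcongr) hs0.le).2
  have hs2 : 2 ≤ s := (abs_le_of_sq_le_sq' (by linarith) hs0.le).2
  have hHT : 1 ≤ H * T := one_le_mul_of_one_le_of_one_le hH1 hT
  obtain ⟨J, hJ0, hJ⟩ : ∃ J : ℕ, 2 * H * T ≤ J ∧ (J : ℝ) ≤ 3 * H * T :=
    ⟨⌈2 * H * T⌉₊, Nat.le_ceil _, by
      have := Nat.ceil_lt_add_one (show 0 ≤ 2 * H * T by positivity)
      linarith⟩
  have hJ1 : (1 : ℝ) ≤ J := by linarith
  have hu : 2 * b * J * T ≤ A / 5 := by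
    calc _ ≤ 2 * b * (3 * H * T) * T := by gcongr
      _ = 30 * T ^ 2 * b * H / 5 := by ring
      _ ≤ K * H / 5 := by gcongr
      _ = _ := by rw [hH]
  have hJA : J * b ≤ A := by
    have : J * b * 1 ≤ J * b * T := by gcongr
    linarith
  obtain ⟨t2, h2⟩ : ∃ t2, t2 = max t1 (2 * b * J * T) := ⟨_, rfl⟩
  have h12 : t1 ≤ t2 := h2 ▸ le_max_left _ _
  have h2A : 2 * t2 ≤ A := by
    have : 2 * s ≤ s * s := by gcongr
    rw [h2]
    rw [sq] at hsA
    rcases max_choice t1 (2 * b * J * T) with h | h <;> rw [h] <;>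
      linarith only [this, hsA, hts, hu, hA0]
  have hG0 : (0 : ℝ) ≤ 2 * μ0 + 4 * A * τ := by positivity
  have hG6 : 2 * μ0 + 4 * A * τ ≤ 6 * A * τ := by
    have : A * 1 ≤ A * τ := by gcongr
    linarith
  have hg : gs T ≤ gs (T / 2) := gs_mono (by linarith) (by linarith)
  have ht00 : 0 < Γ / b := by positivity
  have h01 : Γ / b ≤ t1 := ((div_le_one hb0).2 hΓb).trans (hH1.trans hHt)
  have hMs : M ≤ s := by
    have : 1 * M ≤ b * M := by gcongr
    linarith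
  have d1 : ∀ θ, Γ / b ≤ |θ| → |θ| ≤ t2 → ‖cG α I μ0 θ‖ ≤ 3 * Γ * shp s M θ := fun θ x1 x2 => by
    have x0 : 0 < |θ| := ht00.trans_le x1
    have x3 : |2 * θ| = 2 * |θ| := by rw [abs_mul, abs_two]
    have x4 := hG (2 * θ) (by linarith) (by linarith)
    have x5 := hG θ x1 (by linarith)
    have x6 : Γ * shp s M (2 * θ) ≤ Γ * (2 * shp s M θ) :=
      mul_le_mul_of_nonneg_left (osc3_two hs0 hM0 x0) (by linarith)
    linarith [c1 θ]
  have d2 : ∀ ε, 1 / B ≤ ε → ε ≤ 1 → _ := fun ε x1 x2 =>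
    (k2 ε (9 * Γ * s) (3 * Γ * (t2 / s + M + s * (M / t1))) (Γ / b) t1 t2 J (cG α I μ0) x1 x2
      hB0 hT (by exact_mod_cast hJ1) ht00 h01 h12 (h2 ▸ le_max_right _ _) (osc3_cont α I μ0) c2
      (fun θ y1 y2 => (d1 θ y1 (y2.trans h12)).trans (by
        have := mul_le_mul_of_nonneg_left (osc3_s1 hs hMs (y2.trans hts))
          (show 0 ≤ 3 * Γ by linarith)
        linarith))
      (fun θ y1 y2 => (d1 θ (h01.trans y1) y2).trans (mul_le_mul_of_nonneg_left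
        (osc3_s2 hs0 hM0 (by linarith) y1 y2) (by linarith)))).trans
      (mul_le_mul_of_nonneg_left (osc3_num hb hs hH1 hT hJ1 hJ hΓ hτ1 hM ht (hH1.trans hHt) hHt
        hts (hbB.le.trans hBK) hH hsA hbs hJA (by linarith) h2 hG6 hG0 hg) hC.le)
  have d3 := d2 (1 / B) le_rfl ((div_le_one hB0).2 (by linarith))
  have d4 := d2 (2 / B) (by gcongr; norm_num) ((div_le_one hB0).2 hB)
  have d5 : ∑ j ∈ (Icc (-(J : ℤ)) J).erase 0, ‖oscF α I B μ0 (j / 2)‖ ≤ _ :=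
    le_trans (sum_le_sum fun j hj => (hTH α I B μ0 j hB0 (ne_of_mem_erase hj)).trans_eq
      (mul_add _ _ _)) (sum_add_distrib.trans_le (add_le_add d3 d4))
  have d6 : (2 * μ0 + 4 * A * τ) * (gs (J / (4 * H)) * (4 * (1 + 4 * H))) ≤
      120 * (τ * A ^ 3 * gs (T / 2)) := by
    have x1 : gs (J / (4 * H)) ≤ gs (T / 2) := by
      refine gs_mono (by linarith) ?_
      rw [le_div_iff₀ (by positivity)]
      linarith
    have x2 : 4 * (1 + 4 * H) ≤ 20 * A ^ 2 := by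
      have y1 : A ≤ A ^ 2 := le_self_pow₀ (by linarith) (by norm_num)
      have y2 : s ≤ s ^ 2 := le_self_pow₀ hs (by norm_num)
      linarith only [y1, y2, hsA, hHs, hH1]
    have x3 := gs_pos (T / 2)
    have x4 := gs_pos (J / (4 * H))
    calc _ ≤ 6 * A * τ * (gs (T / 2) * (20 * A ^ 2)) := by gcongr
      _ = _ := by ring
  refine (k1 J).trans ((mul_le_mul_of_nonneg_left (add_le_add d5 d6) (by positivity)).trans ?_)
  have f1 : 0 ≤ Γ * τ * (1 + Real.log A) ^ 2 * T ^ 4 * (A * (√H / b) + t1 * s) := by positivity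
  generalize Γ * τ * (1 + Real.log A) ^ 2 * T ^ 4 * (A * (√H / b) + t1 * s) = Y at *
  generalize τ * A ^ 3 * gs (T / 2) = Z at *
  have f2 : 0 ≤ K * Y := by positivity
  linarith only [f2]

end Pool.Agent.P.MP_8be758_nt.Av2
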