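import Pool.Agent.P.MP_8be758_nt.Av2.Basic

/-! The step `S_PER2`. -/

namespace Pool.Agent.P.MP_8be758_nt.Av2

open Finset Real Filter Topology
open Pool.Agent.P.MP_e86632_nt (ee)
open Pool.Agent.P.MP_8be758_nt.Avg

theorem t_PER2 : S_PER2 := by
  intro δ e1 eg hδ he1 heg W hW
  obtain ⟨C, hC, hP⟩ := lib_PER0
  obtain ⟨c, hc, hR⟩ := lib_RHO (e1 / 2) (half_pos he1)
  set s := ⌈2 / e1⌉₊ with hs
  set D : ℝ := C * W ^ 2 * (1 + 2 ^ s) with hD
  filter_upwards [ev_K hR (by norm_num : (0 : ℝ) < 4 / 5), eventually_ge_atTop 2,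
    ev_const (W : ℝ) he1, ev_const 2 he1, ev_pow 2 0 (by norm_num : (1 : ℝ) < 4 / 5 + 4 / 5),
    ev_pow (3 * (D * 2)) 3 (by linarith : 1 - eg < 1),
    ev_pow (3 * (D * 4)) 3 (by linarith : 2 - δ - 1 < 1),
    ev_pow (3 * (4 * W ^ 2)) 3 (by linarith : 1 - 4 / 5 * c < 1)]
    with N hK hN hWN h2N hKK v1 v2 v3 K A1 A2 B S f β hlo hhi B1 hb2 hB hf hper hβ
  unfold tb
  have N0 : 0 < N := by linarith
  have N1 : 1 ≤ N := by linarith
  have hlog : 0 < Real.log N := Real.log_pos (by linarith)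
  rw [Real.rpow_one] at v1 v2 v3
  rw [pow_zero, mul_one, Real.rpow_one, Real.rpow_add N0] at hKK
  rcases lt_or_ge A2 A1 with hA | hA
  · rw [Ioc_eq_empty_of_le hA.le]
    simp only [sum_empty, sum_const_zero, abs_zero]
    positivity
  have B0 : 0 < B := by linarith
  have BN : B ≤ N := hb2.trans (by
    simpa using Real.rpow_le_rpow_of_exponent_le N1 (by linarith : 1 - eg ≤ 1))
  have K0 : (0 : ℝ) < K := (Real.rpow_pos_of_pos N0 _).trans_le hlo
  have hA1 : 1 ≤ A1 := by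
    rcases Nat.eq_zero_or_pos A1 with h | h
    · have := hB.a1
      rw [h, Nat.cast_zero, zero_mul] at this
      nlinarith
    · exact h
  have hb1 : ∀ b ∈ S, 1 ≤ b := fun b hb => by
    exact_mod_cast (B1.trans (hB.s b hb).1.le : (1 : ℝ) ≤ b)
  have hrho : ∀ k, 1 ≤ k → ∀ b ∈ S, (rho k b : ℝ) ≤ 2 ^ s := by
    intro k hk b hb
    obtain ⟨-, b2, b3, b4⟩ := hB.s b hb
    have h1 := (lib_ROOT.2.2.2.1 k b hk (b4.odd h2N) b3).2
    have h2 := lib_TAU (N ^ e1) s b (by linarith) b4 (by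
      rw [← Real.rpow_natCast, ← Real.rpow_mul N0.le]
      have h3 : (2 : ℝ) ≤ e1 * s := by
        have := Nat.le_ceil (2 / e1)
        rwa [div_le_iff₀' he1] at this
      have h4 := Real.rpow_le_rpow_of_exponent_le N1 h3
      rw [Real.rpow_two] at h4
      nlinarith)
    exact_mod_cast h1.trans h2
  have hcard : (S.card : ℝ) ≤ 2 * B := by
    have h1 : S ⊆ Icc 1 ⌊2 * B⌋₊ := fun b hb => mem_Icc.2 ⟨hb1 b hb, Nat.le_floor (hB.s b hb).2.1⟩
    have h2 := card_le_card h1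
    rw [Nat.card_Icc, Nat.add_sub_cancel] at h2
    exact le_trans (by exact_mod_cast h2) (Nat.floor_le (by linarith))
  set l : ℝ := √(A2 : ℝ) - √(A1 : ℝ) with hl
  have l0 : 0 ≤ l := sub_nonneg.2 (Real.sqrt_le_sqrt (by exact_mod_cast hA))
  have l1 : l * √(2 * B) ≤ 4 * N := by
    have h1 : l ≤ √(A2 : ℝ) := sub_le_self _ (Real.sqrt_nonneg _)
    refine (mul_le_mul_of_nonneg_right h1 (Real.sqrt_nonneg _)).trans ?_
    rw [← Real.sqrt_mul (Nat.cast_nonneg _), Real.sqrt_le_iff]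
    exact ⟨by linarith, by nlinarith [hB.a3]⟩
  have hmain := per_main (K := K) (T := (K : ℝ) ^ (1 - c)) hW l0
    (fun b hb => ⟨hb1 b hb, (hB.s b hb).2.1⟩) hf hβ B0 fun γ hγ =>
      hK K hlo S γ fun b hb => by
        obtain ⟨-, b2, b3, b4⟩ := hB.s b hb
        refine ⟨b3, b4.mono ?_, ?_, hγ b hb⟩
        · refine (Real.rpow_le_rpow K0.le hhi (by linarith)).trans ?_
          rw [← Real.rpow_mul N0.le]
          exact Real.rpow_le_rpow_of_exponent_le N1 (by nlinarith [mul_pos hδ he1])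
        · have h1 := mul_le_mul hlo hlo (by positivity) K0.le
          have h2 : (b : ℝ) ≤ (K : ℝ) ^ 2 := by nlinarith
          exact_mod_cast h2
  have hKc : (K : ℝ) ^ (1 - c) * N ≤ K * N ^ (1 - 4 / 5 * c) := by
    have h1 : (K : ℝ) ^ (-c) ≤ (N ^ (4 / 5 : ℝ)) ^ (-c) :=
      Real.rpow_le_rpow_of_nonpos (by positivity) hlo (by linarith)
    rw [← Real.rpow_mul N0.le] at h1
    rw [sub_eq_add_neg, sub_eq_add_neg, Real.rpow_add K0, Real.rpow_add N0, Real.rpow_one,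
      Real.rpow_one, ← mul_neg, mul_assoc, mul_comm N]
    gcongr
  have herr : ∀ k ∈ Icc 1 K, |∑ b ∈ S, ∑ a ∈ Ioc A1 A2, β b * f a * dd W k (a * b)| ≤
      |∑ b ∈ S, β b * (l / (W * √(b : ℝ)) *
        (∑ s ∈ range W, f s * vr W k (s * b)) * ((rho k b : ℝ) - 1))| +
        (D * 2 * N ^ (1 - eg) + D * 4 * N ^ (2 - δ - 1)) := by
    intro k hk
    obtain ⟨k1, k2⟩ := mem_Icc.1 hk
    have k3 : (k : ℝ) ≤ N ^ (2 - δ) := le_trans (by exact_mod_cast k2) hhi
    rw [← sub_le_iff_le_add']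
    refine (abs_sub_abs_le_abs_sub _ _).trans ?_
    rw [← sum_sub_distrib]
    refine (abs_sum_le_sum_abs _ _).trans ?_
    refine (sum_le_card_nsmul _ _ (D * (1 + 2 * N ^ (2 - δ - 1) / B)) fun b hb => ?_).trans ?_
    · obtain ⟨b1, -, -, b4⟩ := hB.s b hb
      have h1 := hP W k b A1 A2 f hW k1 (hb1 b hb) (b4.coprime_of_le hW hWN) hA1 hA hf hper
      simp only [mul_assoc (β b)]
      rw [← mul_sum, ← mul_sub, abs_mul]
      refine (mul_le_mul (hβ b) h1 (abs_nonneg _) zero_le_one).trans ?_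
      have h2 : N / 2 ≤ √((A1 : ℝ) * b) := Real.le_sqrt_of_sq_le (by
        have := mul_le_mul_of_nonneg_left b1.le (Nat.cast_nonneg (α := ℝ) A1)
        nlinarith [hB.a1])
      have h3 : (k : ℝ) / (b * √((A1 : ℝ) * b)) ≤ 2 * N ^ (2 - δ - 1) / B := by
        calc _ ≤ N ^ (2 - δ) / (B * (N / 2)) := by gcongr
          _ = _ := by rw [Real.rpow_sub N0 _ 1, Real.rpow_one]; field_simp
      have h4 := hrho k k1 b hb
      rw [one_mul, hD]
      gcongr
    · rw [nsmul_eq_mul]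
      have D0 : 0 ≤ D := by positivity
      calc _ ≤ 2 * B * (D * (1 + 2 * N ^ (2 - δ - 1) / B)) := by gcongr
        _ = D * 2 * B + D * 4 * N ^ (2 - δ - 1) := by field_simp; ring
        _ ≤ _ := by gcongr
  refine (sum_le_sum herr).trans ?_
  rw [sum_add_distrib, sum_const, Nat.card_Icc, Nat.add_sub_cancel, nsmul_eq_mul]
  have h5 : l * √(2 * B) * W ^ 2 * (K : ℝ) ^ (1 - c) ≤ K * (4 * W ^ 2 * N ^ (1 - 4 / 5 * c)) := by
    calc _ ≤ 4 * N * W ^ 2 * (K : ℝ) ^ (1 - c) := by gcongr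
      _ = 4 * W ^ 2 * ((K : ℝ) ^ (1 - c) * N) := by ring
      _ ≤ 4 * W ^ 2 * (K * N ^ (1 - 4 / 5 * c)) := by gcongr
      _ = _ := by ring
  refine (add_le_add (hmain.trans h5) le_rfl).trans ?_
  rw [← mul_add, mul_div_assoc]
  refine mul_le_mul_of_nonneg_left ?_ K0.le
  rw [le_div_iff₀ (by positivity)]
  linarith

end Pool.Agent.P.MP_8be758_nt.Av2
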