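import Pool.Agent.P.MP_8be758_nt.Av2.Basic

/-! The step `S_PIECES2`. -/

namespace Pool.Agent.P.MP_8be758_nt.Av2

open Finset Real Filter Topology
open Pool.Agent.P.MP_e86632_nt (ee)
open Pool.Agent.P.MP_8be758_nt.Avg

theorem pieces2_setup (θ δ : ℝ) (hθ : 0 ≤ θ) (hδ : 0 < δ) (j : ℕ) : ∀ᶠ n : ℕ in atTop, ∀ K : ℕ,
    (n : ℝ) ^ θ ≤ K → (K : ℝ) ≤ (n : ℝ) ^ (2 - δ) →
    Setup2 θ (δ / 2) (n * (19 / 20) ^ (j + 1)) K (pieces_X n (j + 1)) (pieces_X n j) := by
  obtain ⟨a, ha⟩ : ∃ a : ℝ, a = (19 / 20) ^ (j + 1) := ⟨_, rfl⟩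
  have ha0 : 0 < a := by rw [ha]; positivity
  have ha1 : a ≤ 1 := by rw [ha]; exact pow_le_one₀ (by norm_num) (by norm_num)
  have h1 := tendsto_natCast_atTop_atTop.eventually
    (ev_pow (1 / a ^ (2 - δ / 2)) 0 (show 2 - δ < 2 - δ / 2 by linarith))
  have h2 := (tendsto_natCast_atTop_atTop (R := ℝ)).eventually_ge_atTop (4 / a)
  filter_upwards [h1, h2] with n h3 h4 K h5 h6
  have hn : (0 : ℝ) ≤ n := Nat.cast_nonneg n
  have h7 : 4 ≤ n * a := by rwa [div_le_iff₀ ha0] at h4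
  refine ⟨?_, ?_, Nat.le_ceil _, pieces_X_anti n j, ?_⟩
  · rw [← ha]
    exact (Real.rpow_le_rpow (by positivity) (mul_le_of_le_one_right hn ha1) hθ).trans h5
  · rw [← ha, Real.mul_rpow hn ha0.le]
    have h8 : 0 < a ^ (2 - δ / 2) := by positivity
    rw [pow_zero, mul_one, one_div_mul_eq_div, div_le_iff₀ h8] at h3
    exact h6.trans h3
  · have h8 := (Nat.ceil_lt_add_one (show 0 ≤ ((n : ℝ) * (19 / 20) ^ j) ^ 2 by positivity)).le
    have h9 : (n : ℝ) * (19 / 20) ^ j = 20 / 19 * (n * a) := by rw [ha]; ring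
    rw [← ha]
    refine h8.trans ?_
    rw [h9]
    nlinarith

theorem pieces2_ev (e δ : ℝ) (he : 0 < e) (hδ : 0 < δ) : ∀ᶠ n : ℕ in atTop,
    2 + (n : ℝ) ^ (2 - δ) / n ≤ e / 4 * (n / Real.log n) := by
  have h0 := tendsto_natCast_atTop_atTop (R := ℝ)
  filter_upwards [eventually_ge_atTop 2,
    h0.eventually (bx_ev3 (16 / e) 1 (show (0 : ℝ) < 1 by norm_num)),
    h0.eventually (ev_pow (8 / e) 1 (show 2 - δ - 1 < 1 by linarith))] with n h1 h4 h5
  have hn1 : (1 : ℝ) < n := by exact_mod_cast h1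
  have hn0 : (0 : ℝ) < n := by linarith
  have hL := Real.log_pos hn1
  rw [Real.rpow_one, pow_one] at h4 h5
  rw [← Real.rpow_sub_one hn0.ne', ← mul_div_assoc, le_div_iff₀ hL]
  have h8 := mul_le_mul_of_nonneg_left h4 (show 0 ≤ e / 8 by positivity)
  have h9 := mul_le_mul_of_nonneg_left h5 (show 0 ≤ e / 8 by positivity)
  have e1 : e / 8 * (16 / e * Real.log n) = 2 * Real.log n := by field_simp; ring
  have e2 : e / 8 * (8 / e * (n : ℝ) ^ (2 - δ - 1) * Real.log n) =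
      (n : ℝ) ^ (2 - δ - 1) * Real.log n := by field_simp
  rw [e1] at h8
  rw [e2] at h9
  linarith

theorem t_PIECES2 (θ δ : ℝ) (hθ : 4 / 5 ≤ θ) (hδ : 0 < δ) (hC : S_CORE2 θ (δ / 2)) :
    S_PIECES2 θ δ := by
  classical
  intro ε hε
  obtain ⟨C, hC0, -, -, hC3⟩ := lib_CNT
  obtain ⟨e, he, he1, he2⟩ : ∃ e : ℝ, 0 < e ∧ e ≤ 1 ∧ e ≤ ε :=
    ⟨min 1 ε, lt_min one_pos hε, min_le_left _ _, min_le_right _ _⟩
  obtain ⟨j0, hj0⟩ := exists_pow_lt_of_lt_one
    (show 0 < min (e / 8) (e ^ 2 / (20 * C)) by positivity) (show (19 / 20 : ℝ) < 1 by norm_num)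
  have hj1 := (hj0.trans_le (min_le_left _ _)).le
  have hj2 := (hj0.trans_le (min_le_right _ _)).le
  obtain ⟨R1, hR1⟩ := hC (e / (4 * (j0 + 1))) (by positivity)
  refine ⟨R1, fun R hR => ?_⟩
  have hA := (eventually_all_finset (range j0)).2 fun j _ =>
    ((tendsto_natCast_atTop_atTop (R := ℝ)).atTop_mul_const
      (show (0 : ℝ) < (19 / 20) ^ (j + 1) by positivity)).eventually (hR1 R hR)
  have hB := (eventually_all_finset (range j0)).2 fun j _ =>
    pieces2_setup θ δ (by linarith) hδ j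
  filter_upwards [hA, hB, pieces_ev e ((19 / 20) ^ j0) he (by positivity), pieces2_ev e δ he hδ]
    with n h1 h2 ⟨hn, h3, h4, h5, _⟩ h6 K hK1 hK2
  have hn1 : (1 : ℝ) < n := by exact_mod_cast hn
  have hn0 : (0 : ℝ) < n := by linarith
  have hL := Real.log_pos hn1
  have hu : 0 < (n : ℝ) / Real.log n := div_pos hn0 hL
  have hK3 : (n : ℝ) ^ (4 / 5 : ℝ) ≤ K := (Real.rpow_le_rpow_of_exponent_le hn1.le hθ).trans hK1
  have hK4 : 32 ≤ K := by exact_mod_cast h5.trans hK3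
  have hK0 : (0 : ℝ) ≤ K := Nat.cast_nonneg K
  have hK5 : 4 / 5 * Real.log n ≤ Real.log K := by
    rw [← Real.log_rpow hn0]
    exact Real.log_le_log (by positivity) hK3
  obtain ⟨B, hBd⟩ : ∃ B : ℕ → Finset ℕ, ∀ j, B j = (Icc 1 K).filter fun k =>
      e / (4 * (j0 + 1)) * (n * (19 / 20) ^ (j + 1)) * (1 + sing R k) <
        |Th k (pieces_X n (j + 1)) (pieces_X n j) -
          (√(pieces_X n j : ℝ) - √(pieces_X n (j + 1) : ℝ)) * sing R k| := ⟨_, fun _ => rfl⟩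
  obtain ⟨S, hSd⟩ : ∃ S : Finset ℕ, S = (Icc 1 K).filter fun k : ℕ => e / 4 * (n / Real.log n) <
      (((range ⌈(n : ℝ) * (19 / 20) ^ j0⌉₊).filter
        fun x : ℕ => Nat.Prime (x ^ 2 + x + k)).card : ℝ) :=
    ⟨_, rfl⟩
  have h7 : ∀ j ∈ range j0, ((B j).card : ℝ) ≤ e / (4 * (j0 + 1)) * K := fun j hj => by
    rw [hBd]
    exact h1 j hj K _ _ (h2 j hj K hK1 hK2)
  have h8 : (((range j0).biUnion B).card : ℝ) ≤ e / 4 * K := by
    have h9 : (((range j0).biUnion B).card : ℝ) ≤ ∑ j ∈ range j0, ((B j).card : ℝ) := by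
      exact_mod_cast card_biUnion_le
    have h10 := sum_le_sum h7
    rw [sum_const, card_range, nsmul_eq_mul] at h10
    have h11 : (j0 : ℝ) * (e / (4 * (j0 + 1))) ≤ e / 4 := by
      rw [← mul_div_assoc, div_le_div_iff₀ (by positivity) (by norm_num)]
      nlinarith
    nlinarith
  have h9 : (S.card : ℝ) ≤ e / 2 * K := by
    have h10 : e / 4 * (n / Real.log n) * (S.card : ℝ) ≤ ∑ k ∈ Icc 1 K,
        (((range ⌈(n : ℝ) * (19 / 20) ^ j0⌉₊).filter
          fun x : ℕ => Nat.Prime (x ^ 2 + x + k)).card : ℝ) := by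
      rw [hSd]
      exact markov _ _ (fun _ _ => Nat.cast_nonneg _) _ _ fun _ _ h => h.le
    have h11 := h10.trans (hC3 K _ hK4)
    have h12 : (⌈(n : ℝ) * (19 / 20) ^ j0⌉₊ : ℝ) ≤ 2 * (n * (e ^ 2 / (20 * C))) := by
      have h13 := (Nat.ceil_lt_add_one (show 0 ≤ (n : ℝ) * (19 / 20) ^ j0 by positivity)).le
      have h14 := mul_le_mul_of_nonneg_left hj2 hn0.le
      linarith
    have h13 : C * (⌈(n : ℝ) * (19 / 20) ^ j0⌉₊ : ℝ) * K / Real.log K ≤
        C * (2 * (n * (e ^ 2 / (20 * C)))) * K / (4 / 5 * Real.log n) := by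
      gcongr
    have h14 : C * (2 * (n * (e ^ 2 / (20 * C)))) * K / (4 / 5 * Real.log n) =
        e / 4 * (n / Real.log n) * (e / 2 * K) := by
      field_simp
      ring
    exact le_of_mul_le_mul_left (h11.trans (h13.trans h14.le)) (by positivity)
  have h10 : ((Icc 1 K).filter fun k => ε * (1 + sing R k) * (n / Real.log n) <
      |(PC k n : ℝ) - sing R k / 2 * (n / Real.log n)|) ⊆ (range j0).biUnion B ∪ S := by
    intro k hk
    obtain ⟨hk1, hk2⟩ := mem_filter.1 hk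
    by_contra hk3
    rw [mem_union, not_or, mem_biUnion, hSd, mem_filter] at hk3
    have hs := lib_SGW.2.1 k R
    have hk4 : (k : ℝ) ≤ K := by exact_mod_cast (mem_Icc.1 hk1).2
    have h11 := pieces_good lib_PS he he1 hs (mem_Icc.1 hk1).1 hn h3 hj1 h4
      (le_trans (by gcongr; exact hk4.trans hK2) h6)
      (fun j hj => not_lt.1 fun h => hk3.1 ⟨j, mem_range.2 hj, by
        rw [hBd]; exact mem_filter.2 ⟨hk1, h⟩⟩)
      (not_lt.1 fun h => hk3.2 ⟨hk1, h⟩)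
    have h12 : e * (1 + sing R k) * (n / Real.log n) ≤ ε * (1 + sing R k) * (n / Real.log n) := by
      gcongr
    linarith
  have h11 : ((((Icc 1 K).filter fun k => ε * (1 + sing R k) * (n / Real.log n) <
      |(PC k n : ℝ) - sing R k / 2 * (n / Real.log n)|).card : ℕ) : ℝ) ≤
      (((range j0).biUnion B).card : ℝ) + S.card := by
    exact_mod_cast (card_le_card h10).trans (card_union_le _ _)
  have h12 : e * K ≤ ε * K := mul_le_mul_of_nonneg_right he2 hK0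
  have h13 : 0 ≤ e * K := by positivity
  refine le_trans ?_ (show (((range j0).biUnion B).card : ℝ) + S.card ≤ ε * K by linarith)
  exact h11

end Pool.Agent.P.MP_8be758_nt.Av2
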