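import Pool.Agent.P.MP_8be758_nt.Av2.Basic

/-! The step `S_PR2`. -/

namespace Pool.Agent.P.MP_8be758_nt.Av2

open Finset Real Filter Topology
open Pool.Agent.P.MP_e86632_nt (ee)
open Pool.Agent.P.MP_8be758_nt.Avg

theorem pr2_split {a : ℕ → ℕ} (ha : Monotone a) (a0 : a 0 = 0) (b : ℕ) (f : ArithmeticFunction ℝ)
    (H : ℕ) : rs 0 (min (a H) b) f = ∑ w ∈ range H, rs (a w) (min (a (w + 1)) b) f := by
  induction H with
  | zero =>
    ext n
    rw [rs_apply, if_neg (by omega)]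
    simp
  | succ H ih =>
    rw [sum_range_succ, ← ih]
    ext n
    have := ha H.le_succ
    rw [ArithmeticFunction.add_apply, rs_apply, rs_apply, rs_apply]
    simp only [Nat.succ_eq_add_one] at this
    split_ifs <;> first | omega | simp

theorem pr2_apply {ι : Type*} (s : Finset ι) (g : ι → ArithmeticFunction ℝ) (m : ℕ) :
    (∑ i ∈ s, g i) m = ∑ i ∈ s, g i m := by
  classical
  induction s using Finset.induction_on with
  | empty => simp
  | insert i s hi ih => rw [sum_insert hi, sum_insert hi, ArithmeticFunction.add_apply, ih]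

theorem t_PR2 (θ δ β h : ℝ) (h0 : 0 < h) (hβ : β ≤ 1) (hPR3 : S_PR3 θ δ β h) : S_PR2 θ δ β := by
  intro ε hε
  obtain ⟨H, hH⟩ := exists_nat_gt (1 / h)
  have H0 : (0 : ℝ) < H := lt_trans (by positivity) hH
  have H1 : 1 ≤ H := by exact_mod_cast H0
  obtain ⟨e0, he0, h1⟩ := hPR3 (ε / H ^ 10) (by positivity)
  refine ⟨e0, he0, fun e1 h2 h3 => ?_⟩
  obtain ⟨R1, h4⟩ := h1 e1 h2 h3
  refine ⟨R1, fun R hR => ?_⟩
  filter_upwards [h4 R hR, eventually_gt_atTop 1] with N h5 hN K X1 X2 n f hS hn hf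
  set a : ℕ → ℕ := fun w => ⌈N ^ (w * h)⌉₊ - 1 with ha
  have m : Monotone a := fun v w e => Nat.sub_le_sub_right (Nat.ceil_mono
    (Real.rpow_le_rpow_of_exponent_le hN.le (by gcongr))) 1
  have b1 : ⌊N ^ β⌋₊ ≤ a H := by
    refine Nat.le_sub_one_of_lt (Nat.lt_ceil.2 ((Nat.floor_le (by positivity)).trans_lt
      (Real.rpow_lt_rpow_of_exponent_lt hN ?_)))
    rw [div_lt_iff₀ h0] at hH
    linarith
  have e : ∀ i, rs 0 ⌊N ^ β⌋₊ (f i) =
      ∑ w ∈ range H, rs (a w) (min (a (w + 1)) ⌊N ^ β⌋₊) (f i) := fun i => by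
    rw [← pr2_split m (by simp [ha]), min_eq_right b1]
  have k := good_sum (Fintype.piFinset fun _ : Fin n => range H)
    fun w _ => h5 K X1 X2 n f w hS hn hf
  refine (k.congr fun x _ _ _ => ?_).mono hN.le (by simp) ?_
  · simp only [Finset.prod_apply, e, prod_univ_sum, pr2_apply, ha, Nat.cast_add, Nat.cast_one]
  · rw [sum_const, Fintype.card_piFinset, prod_const, card_range, card_univ, Fintype.card_fin,
      nsmul_eq_mul, mul_div_assoc', div_le_iff₀ (by positivity), mul_comm, Nat.cast_pow]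
    gcongr
    exact_mod_cast H1

end Pool.Agent.P.MP_8be758_nt.Av2
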