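import Pool.Agent.P.MP_8be758_nt.Av2.Basic

/-! The step `S_PR3`. -/

namespace Pool.Agent.P.MP_8be758_nt.Av2

open Finset Real Filter Topology
open Pool.Agent.P.MP_e86632_nt (ee)
open Pool.Agent.P.MP_8be758_nt.Avg

theorem pr3_supp {x y t : ℝ} (hy : 0 < y) (ht : 0 ≤ t) {f : ArithmeticFunction ℝ} {n : ℕ}
    (h : rs (⌈x⌉₊ - 1) (min (⌈y⌉₊ - 1) ⌊t⌋₊) f n ≠ 0) :
    x ≤ n ∧ (n : ℝ) ≤ y ∧ (n : ℝ) ≤ t ∧ f n ≠ 0 := by
  rw [rs_apply] at h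
  split_ifs at h with c
  · have h1 : 0 < ⌈y⌉₊ := Nat.ceil_pos.2 hy
    obtain ⟨c1, c2⟩ := c
    rw [le_min_iff] at c2
    exact ⟨Nat.ceil_le.1 (by omega), (Nat.lt_ceil.1 (by omega)).le, (Nat.le_floor_iff ht).1 c2.2, h⟩
  · exact absurd rfl h

theorem pr3_bd {N : ℝ} (hN : 1 < N) {f : ArithmeticFunction ℝ} (hf : Sml N f ∨ Smo N f) (a b : ℕ)
    (n : ℕ) (hn : (n : ℝ) ≤ N ^ 3) : |rs a b f n| ≤ 1 := by
  rw [rs_apply]
  split_ifs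
  · rcases hf with hf | hf
    · exact hf.1 n
    · have := hf.bd hN hn
      exact abs_le.2 ⟨by linarith [this.1], this.2⟩
  · simp

theorem pr3_bdd (hPRB : S_PRB) {N e1 : ℝ} (hN : 1 < N) (he : 0 < e1) {n : ℕ} (hn : n ≤ 10)
    (g : Fin n → ArithmeticFunction ℝ) (hg : ∀ i, ∀ m : ℕ, (m : ℝ) ≤ N ^ 3 → |g i m| ≤ 1)
    (s : Finset (Fin n)) : Bdd N (N ^ e1) ((2 ^ ⌈3 / e1⌉₊) ^ 10) (∏ i ∈ s, g i :) := by
  intro m hm h3
  refine (((hPRB _ s g).1 (N ^ 3) fun i _ => hg i).1 m h3).trans ?_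
  have h1 : (m : ℝ) ≤ (N ^ e1) ^ ⌈3 / e1⌉₊ := by
    rw [bx_pw (by linarith)]
    refine h3.trans ?_
    rw [← Real.rpow_natCast]
    refine Real.rpow_le_rpow_of_exponent_le hN.le ?_
    have := Nat.le_ceil (3 / e1)
    rw [div_le_iff₀ he] at this
    push_cast
    linarith
  have h2 := lib_TAU _ _ m (Real.one_lt_rpow hN he) hm h1
  have h4 : (m.divisors.card : ℝ) ≤ 2 ^ ⌈3 / e1⌉₊ := by exact_mod_cast h2
  have h5 : s.card ≤ 10 := (card_le_univ s).trans (by simpa using hn)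
  exact (pow_le_pow_left₀ (by positivity) h4 _).trans
    (pow_le_pow_right₀ (one_le_pow₀ (by norm_num)) h5)

theorem pr3_rng (hPRB : S_PRB) {N h : ℝ} (hN : 1 < N) (h0 : 0 < h) {n : ℕ} (hn : n ≤ 10)
    (g : Fin n → ArithmeticFunction ℝ) (l : Fin n → ℝ)
    (hg : ∀ i, ∀ m : ℕ, g i m ≠ 0 → N ^ l i ≤ m ∧ (m : ℝ) ≤ N ^ (l i + h))
    (s : Finset (Fin n)) (m : ℕ) (hm : (∏ i ∈ s, g i) m ≠ 0) :
    N ^ (∑ i ∈ s, l i) ≤ m ∧ (m : ℝ) ≤ N ^ (∑ i ∈ s, l i + 10 * h) := by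
  have hN0 : 0 < N := by linarith
  have h1 := (hPRB _ s g).2 (fun i => N ^ l i) (fun i => N ^ (l i + h))
    (fun i _ => ⟨by positivity, hg i⟩) m hm
  rw [← Real.rpow_sum_of_pos hN0, ← Real.rpow_sum_of_pos hN0] at h1
  refine ⟨h1.1, h1.2.trans (Real.rpow_le_rpow_of_exponent_le hN.le ?_)⟩
  have h5 : (s.card : ℝ) ≤ 10 := by
    exact_mod_cast (card_le_univ s).trans (by simpa using hn)
  rw [sum_add_distrib, sum_const, nsmul_eq_mul]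
  nlinarith

theorem pr3_ms (hPRB : S_PRB) : ∃ C : ℝ, 0 < C ∧ ∀ (N e1 : ℝ), 1 < N → 0 < e1 → e1 ≤ 1 / 10 →
    2 ≤ N ^ e1 → ∀ (n : ℕ), n ≤ 10 → ∀ (g : Fin n → ArithmeticFunction ℝ),
      (∀ i, ∀ m : ℕ, (m : ℝ) ≤ N ^ 3 → |g i m| ≤ 1) → ∀ s : Finset (Fin n),
        e1 ^ 10 * ms (N ^ (4 / 5 : ℝ)) (N ^ e1) (∏ i ∈ s, g i :) ≤ C := by
  obtain ⟨C, hC, H⟩ := lib_HR
  refine ⟨(max C 1) ^ 10, by positivity, fun N e1 hN he he' hz n hn g hg s => ?_⟩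
  have hN0 : 0 < N := by linarith
  have hL := Real.log_pos hN
  have h1 := ((hPRB _ s g).1 (N ^ 3) fun i _ => hg i).2 (N ^ (4 / 5 : ℝ)) (N ^ e1)
    (Real.one_le_rpow hN.le (by norm_num)) (by
      rw [← Real.rpow_natCast]
      exact Real.rpow_le_rpow_of_exponent_le hN.le (by norm_num))
  have h2 := (H (N ^ e1) (N ^ (4 / 5 : ℝ)) hz
    (Real.rpow_le_rpow_of_exponent_le hN.le (by linarith))).2.2
  rw [Real.log_rpow hN0, Real.log_rpow hN0] at h2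
  have h3 : ∑ d ∈ Ry (N ^ (4 / 5 : ℝ)) (N ^ e1), 1 / (d : ℝ) ≤ max C 1 / e1 := by
    refine h2.trans ?_
    rw [div_le_div_iff₀ (by positivity) he]
    have := le_max_left C 1
    have h4 : 0 < e1 * Real.log N := by positivity
    nlinarith
  have h4 : 1 ≤ max C 1 / e1 := by
    rw [le_div_iff₀ he]
    linarith [le_max_right C 1]
  have h5 : s.card ≤ 10 := (card_le_univ s).trans (by simpa using hn)
  have h6 := h1.trans ((pow_le_pow_left₀ (sum_nonneg fun _ _ => by positivity) h3 _).trans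
    (pow_le_pow_right₀ h4 h5))
  rw [div_pow, le_div_iff₀ (by positivity)] at h6
  linarith

theorem pr3_U {N a h t : ℝ} (hN : 1 < N) (ha : 2 / 5 < a) (h1 : h < 1 / 200) (ht : t ≤ 4 / 5)
    (e1 : 2 * N ^ (1 / 5 : ℝ) ≤ N ^ (2 / 5 : ℝ)) (e2 : 2 * N ^ (1 / 200 : ℝ) ≤ N ^ (1 / 20 : ℝ)) :
    N ^ (1 / 5 : ℝ) ≤ (⌈N ^ a⌉₊ - 1 : ℕ) ∧
    ((min (⌈N ^ (a + h)⌉₊ - 1) ⌊N ^ t⌋₊ : ℕ) : ℝ) ≤ (⌈N ^ a⌉₊ - 1 : ℕ) * N ^ (1 / 20 : ℝ) ∧
    ((min (⌈N ^ (a + h)⌉₊ - 1) ⌊N ^ t⌋₊ : ℕ) : ℝ) ≤ N ^ 3 := by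
  have hN0 : 0 < N := by linarith
  have p1 : 0 < ⌈N ^ a⌉₊ := Nat.ceil_pos.2 (by positivity)
  have p2 : 0 < ⌈N ^ (a + h)⌉₊ := Nat.ceil_pos.2 (by positivity)
  have q1 : 1 ≤ N ^ (1 / 5 : ℝ) := Real.one_le_rpow hN.le (by norm_num)
  have q2 : N ^ (2 / 5 : ℝ) ≤ N ^ a := Real.rpow_le_rpow_of_exponent_le hN.le ha.le
  have q3 : N ^ a - 1 ≤ (⌈N ^ a⌉₊ - 1 : ℕ) := by
    rw [Nat.cast_pred p1]
    linarith [Nat.le_ceil (N ^ a)]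
  refine ⟨by linarith, ?_, ?_⟩
  · have r1 : ((min (⌈N ^ (a + h)⌉₊ - 1) ⌊N ^ t⌋₊ : ℕ) : ℝ) ≤ N ^ (a + h) :=
      (Nat.lt_ceil.1 (lt_of_le_of_lt (min_le_left _ _) (by omega))).le
    have r2 : N ^ h ≤ N ^ (1 / 200 : ℝ) := Real.rpow_le_rpow_of_exponent_le hN.le h1.le
    have r3 : 0 < N ^ h := by positivity
    rw [Real.rpow_add hN0] at r1
    have r4 : N ^ a ≤ 2 * (⌈N ^ a⌉₊ - 1 : ℕ) := by linarith
    have r5 : (0 : ℝ) ≤ (⌈N ^ a⌉₊ - 1 : ℕ) := by positivity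
    calc _ ≤ N ^ a * N ^ h := by rw [← Real.rpow_add hN0] at r1 ⊢; exact r1
      _ ≤ 2 * (⌈N ^ a⌉₊ - 1 : ℕ) * N ^ h := by gcongr
      _ = (⌈N ^ a⌉₊ - 1 : ℕ) * (2 * N ^ h) := by ring
      _ ≤ _ := by gcongr; linarith
  · refine le_trans (by exact_mod_cast min_le_right _ _) ((Nat.floor_le (by positivity)).trans ?_)
    rw [← Real.rpow_natCast]
    exact Real.rpow_le_rpow_of_exponent_le hN.le (by push_cast; linarith)

theorem t_PR3 (hEXP : S_EXP) (hPRB : S_PRB) (θ δ β h : ℝ) (h0 : 0 < h) (h1 : h < 1 / 200) (hβ : 0 ≤ β)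
    (h2 : β + 10 * h ≤ 4 / 5) (h3 : 5 * β < 2 * (2 - 10 * h)) (h4 : 2 / 5 < 2 - 10 * h - 2 * β)
    (hG2 : S_G2 θ δ β) (hG3 : S_G3 θ δ) : S_PR3 θ δ β h := by
  intro ε hε
  obtain ⟨C, hC, hms⟩ := pr3_ms hPRB
  obtain ⟨e0, he0, H3⟩ := hG3 10 (ε / (2 * C)) (by positivity)
  refine ⟨min e0 (1 / 10), by positivity, fun e1 he he' => ?_⟩
  rw [le_min_iff] at he'
  obtain ⟨R2, H2⟩ := hG2 e1 he he'.2 ((2 ^ ⌈3 / e1⌉₊) ^ 10) ε (by positivity) hε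
  obtain ⟨R3, H3⟩ := H3 e1 he he'.1 ((2 ^ ⌈3 / e1⌉₊) ^ 10) (ε / 2) (by positivity) (by positivity)
  refine ⟨max R2 R3, fun R hR => ?_⟩
  rw [max_le_iff] at hR
  filter_upwards [H2 R hR.1, H3 R hR.2, eventually_gt_atTop 1, ev_const 2 he,
    bx_ev2 2 (show (1 / 5 : ℝ) < 2 / 5 by norm_num),
    bx_ev2 2 (show (1 / 200 : ℝ) < 1 / 20 by norm_num), bx_ev2 3 h4] with N G2 G3 hN hz v1 v2 v3
  intro K X1 X2 n f w hS hn hf
  have hN0 : 0 < N := by linarith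
  obtain ⟨l, hl⟩ : ∃ l : Fin n → ℝ, ∀ i, l i = w i * h := ⟨_, fun _ => rfl⟩
  have el : ∀ i, ((w i : ℝ) + 1) * h = l i + h := fun i => by rw [hl]; ring
  simp only [el, ← hl]
  obtain ⟨g, hg⟩ : ∃ g : Fin n → ArithmeticFunction ℝ, ∀ i,
    g i = rs (⌈N ^ l i⌉₊ - 1) (min (⌈N ^ (l i + h)⌉₊ - 1) ⌊N ^ β⌋₊) (f i) := ⟨_, fun _ => rfl⟩
  simp only [← hg]
  have sp : ∀ i (m : ℕ), g i m ≠ 0 →
      N ^ l i ≤ m ∧ (m : ℝ) ≤ N ^ (l i + h) ∧ (m : ℝ) ≤ N ^ β ∧ f i m ≠ 0 := fun i m hm =>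
    pr3_supp (by positivity) (by positivity) (hg i ▸ hm)
  have bd : ∀ i, ∀ m : ℕ, (m : ℝ) ≤ N ^ 3 → |g i m| ≤ 1 := fun i m hm =>
    hg i ▸ pr3_bd hN (hf i) _ _ m hm
  have bdd := pr3_bdd hPRB hN he hn g bd
  have rng := pr3_rng hPRB hN h0 hn g l fun i m hm => ⟨(sp i m hm).1, (sp i m hm).2.1⟩
  have zero : (∀ m, X1 < m → (∏ i, g i) m = 0) → Good N (N ^ e1) R K X1 X2 (∏ i, g i :) 0 ε :=
    fun hz => ((good_zero N _ R K X1 X2).mono hN.le le_rfl hε.le).congr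
      fun m hm _ _ => (hz m hm).symm
  have zero' : ∀ i, (∀ m, g i m = 0) → Good N (N ^ e1) R K X1 X2 (∏ i, g i :) 0 ε :=
    fun i hi => zero fun m _ => by
      rw [prod_eq_zero (mem_univ i) (ArithmeticFunction.ext hi)]; rfl
  by_cases c1 : ∃ i, β < l i
  · obtain ⟨i, hi⟩ := c1
    refine zero' i fun m => by_contra fun hm => ?_
    have := Real.rpow_lt_rpow_of_exponent_lt hN hi
    linarith [(sp i m hm).1, (sp i m hm).2.2.1]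
  push Not at c1
  by_cases c2 : ∑ i, l i < 2 - 10 * h
  · refine zero fun m hm => by_contra fun hc => ?_
    have a1 := (rng univ m hc).2.trans
      (Real.rpow_le_rpow_of_exponent_le hN.le (show _ ≤ (2 : ℝ) by linarith))
    rw [Real.rpow_two] at a1
    have a2 : (X1 : ℝ) < m := by exact_mod_cast hm
    linarith [hS.x1]
  push Not at c2
  rcases hEXP n l β (2 - 10 * h) (fun i => ⟨by rw [hl]; positivity, c1 i⟩) c2 h3 hβ with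
    ⟨S, s1, s2⟩ | ⟨i2, i3, hne, b2, b3, b4, b5⟩
  · rw [← prod_mul_prod_compl S]
    exact G2 K X1 X2 _ _ hS (bdd S) (bdd Sᶜ)
      (fun u hu => (Real.rpow_lt_rpow_of_exponent_lt hN s1).trans_le (rng S u hu).1)
      (fun u hu => (Real.rpow_lt_rpow_of_exponent_lt hN s2).trans_le (rng Sᶜ u hu).1)
  have sml : ∀ i, 2 - 10 * h - 2 * β ≤ l i → Sml N (f i) → ∀ m, g i m = 0 := fun i hi hs m =>
    by_contra fun hm => by
      have a1 := hs.2 m (sp i m hm).2.2.2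
      have a2 := Real.rpow_le_rpow_of_exponent_le hN.le hi
      have a3 : 0 < N ^ (2 / 5 : ℝ) := by positivity
      linarith [(sp i m hm).1]
  rcases hf i2 with f2 | f2
  · exact zero' i2 (sml i2 b2 f2)
  rcases hf i3 with f3 | f3
  · exact zero' i3 (sml i3 b3 f3)
  have e : ∏ i, g i = (∏ i ∈ (univ.erase i2).erase i3, g i) * (g i2 * g i3) := by
    rw [← mul_prod_erase univ g (mem_univ i2),
      ← mul_prod_erase (univ.erase i2) g (mem_erase.2 ⟨hne.symm, mem_univ i3⟩)]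
    ring
  obtain ⟨u1, u2, u3⟩ := pr3_U (t := β) hN (h4.trans_le b2) h1 (by linarith) v1 v2
  obtain ⟨w1, -, w3⟩ := pr3_U (t := β) hN (h4.trans_le b3) h1 (by linarith) v1 v2
  have G := G3 K X1 X2 _ _ _ _ _ _ _ hS (bdd ((univ.erase i2).erase i3)) (fun d hd =>
    ⟨(Real.rpow_lt_rpow_of_exponent_lt hN (by linarith)).trans_le (rng _ d hd).1,
      (rng _ d hd).2.trans (Real.rpow_le_rpow_of_exponent_le hN.le (by linarith))⟩)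
    f2 f3 u1 w1 u2 u3 w3
  rw [← hg, ← hg, ← e] at G
  refine G.mono hN.le le_rfl ?_
  have a1 := hms N e1 hN he he'.2 hz n hn g bd ((univ.erase i2).erase i3)
  have a2 : ε / (2 * C) * C = ε / 2 := by field_simp
  have a3 : 0 < ε / (2 * C) := by positivity
  rw [mul_assoc]
  nlinarith

end Pool.Agent.P.MP_8be758_nt.Av2
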