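import Pool.Agent.P.MP_8be758_nt.Av2.PRBa

/-! The step `S_PRB`. -/

namespace Pool.Agent.P.MP_8be758_nt.Av2

theorem t_PRB : S_PRB := prb_main

end Pool.Agent.P.MP_8be758_nt.Av2
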