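import Pool.Agent.P.MP_8be758_nt.Av2.Basic

/-! The step `S_PRIM`. -/

namespace Pool.Agent.P.MP_8be758_nt.Av2

open Finset Real Filter Topology
open Pool.Agent.P.MP_e86632_nt (ee)
open Pool.Agent.P.MP_8be758_nt.Avg

/-- integers in an interval of length `w` -/
theorem prim_int (s : Finset ℕ) (u : ℝ) {w : ℝ} (hw : 0 ≤ w)
    (h : ∀ q ∈ s, u ≤ q ∧ (q : ℝ) ≤ u + w) : (s.card : ℝ) ≤ w + 1 := by
  have h1 : s.card ≤ (Icc ⌈u⌉ ⌊u + w⌋).card :=
    card_le_card_of_injOn (fun q : ℕ => (q : ℤ)) (fun q hq => by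
      have := h q hq
      exact mem_coe.2 (mem_Icc.2 ⟨Int.ceil_le.2 (by simpa using this.1),
        Int.le_floor.2 (by simpa using this.2)⟩)) fun a _ b _ e => Nat.cast_injective (R := ℤ) e
  rw [Int.card_Icc] at h1
  have h2 := Int.le_ceil u
  have h3 := Int.floor_le (u + w)
  rcases le_total (⌊u + w⌋ + 1 - ⌈u⌉) 0 with h4 | h4
  · rw [Int.toNat_eq_zero.2 h4] at h1
    have : (s.card : ℝ) ≤ 0 := by exact_mod_cast h1
    linarith
  · have h5 : (s.card : ℤ) ≤ ⌊u + w⌋ + 1 - ⌈u⌉ := by omega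
    have h6 : (s.card : ℝ) ≤ (⌊u + w⌋ : ℝ) + 1 - ⌈u⌉ := by exact_mod_cast h5
    linarith

/-- members of a residue class in an interval of length `l` -/
theorem prim_cnt (n0 r : ℕ) {b : ℕ} (hb : 1 ≤ b) (x : ℝ) {l : ℝ} (hl : 0 ≤ l) :
    ∑ n ∈ range n0, (if (x ≤ n ∧ (n : ℝ) ≤ x + l) ∧ r ≡ n [MOD b] then (1 : ℝ) else 0) ≤
      l / b + 1 := by
  have hb0 : (0 : ℝ) < b := by exact_mod_cast hb
  rw [sum_boole]
  set s := (range n0).filter fun n : ℕ => (x ≤ n ∧ (n : ℝ) ≤ x + l) ∧ r ≡ n [MOD b] with hs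
  have hi : Set.InjOn (fun n : ℕ => n / b) s := fun m hm n hn e => by
    have h1 := (mem_filter.1 (mem_coe.1 hm)).2.2
    have h2 := (mem_filter.1 (mem_coe.1 hn)).2.2
    have h3 : m % b = n % b := h1.symm.trans h2
    have h4 : m / b = n / b := e
    rw [← Nat.div_add_mod m b, ← Nat.div_add_mod n b, h3, h4]
  rw [← card_image_of_injOn hi]
  refine prim_int _ ((x - (r % b : ℕ)) / b) (by positivity) fun q hq => ?_
  obtain ⟨n, hn, rfl⟩ := mem_image.1 hq
  obtain ⟨⟨h1, h2⟩, h3⟩ := (mem_filter.1 hn).2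
  have h4 : (n : ℝ) = b * (n / b : ℕ) + (r % b : ℕ) := by
    have h5 : r % b = n % b := h3
    rw [h5]; exact_mod_cast (Nat.div_add_mod n b).symm
  rw [← add_div, div_le_iff₀ hb0, le_div_iff₀ hb0]
  constructor <;> linarith

/-- the Gaussian weight over a residue class -/
theorem prim_k (s : Finset ℤ) (c : ℤ) {b : ℕ} (hb : 1 ≤ b) {K : ℝ} (hK : 0 < K) :
    ∑ k ∈ s, (if (b : ℤ) ∣ c + k then gs ((4 * k - 1) / (4 * K)) else 0) ≤ 4 * (1 + K / b) := by
  have hb0 : (0 : ℝ) < b := by exact_mod_cast hb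
  rw [← sum_filter]
  set t := s.filter fun k => (b : ℤ) ∣ c + k with ht
  have hi : Set.InjOn (fun k : ℤ => (c + k) / b) t := fun m hm n hn e => by
    have h1 := Int.mul_ediv_cancel' (mem_filter.1 (mem_coe.1 hm)).2
    have h2 := Int.mul_ediv_cancel' (mem_filter.1 (mem_coe.1 hn)).2
    have h4 : (c + m) / b = (c + n) / b := e
    rw [h4] at h1
    omega
  have h := d13_fin lib_GS1 lib_GS2 (r := b / K) (by positivity) ((c + 1 / 4) / b)
    (t.image fun k : ℤ => (c + k) / b)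
  rw [sum_image hi, one_div_div] at h
  refine le_trans (le_of_eq (sum_congr rfl fun k hk => ?_)) h
  have h1 : (b : ℝ) * (((c + k) / b : ℤ) : ℝ) = c + k := by
    exact_mod_cast Int.mul_ediv_cancel' (mem_filter.1 hk).2
  congr 1
  have h2 : (((c + k) / b : ℤ) : ℝ) = (c + k) / b := by rw [eq_div_iff hb0.ne']; linarith
  rw [h2]
  field_simp
  ring

/-- at most one pair of cofactors -/
theorem prim_pt (I : Finset ℕ) {b : ℕ} (hb : 1 ≤ b) (p : Prop) [Decidable p] (F1 F2 : ℤ) {g W : ℝ}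
    (hW : 0 ≤ W) (h : ∀ a1 ∈ I, ∀ a2 ∈ I, p → F1 = a1 * b → F2 = a2 * b → g ≤ W) :
    g * ∑ a1 ∈ I, ∑ a2 ∈ I, (if p ∧ F1 = a1 * b ∧ F2 = a2 * b then (1 : ℝ) * 1 else 0) ≤ W := by
  have hb0 : (b : ℤ) ≠ 0 := by omega
  by_cases h1 : ∃ a1 ∈ I, ∃ a2 ∈ I, p ∧ F1 = a1 * b ∧ F2 = a2 * b
  · obtain ⟨a1, i1, a2, i2, hp, e1, e2⟩ := h1
    rw [sum_eq_single a1, sum_eq_single a2, if_pos ⟨hp, e1, e2⟩, mul_one, mul_one]
    · exact h a1 i1 a2 i2 hp e1 e2
    · refine fun a _ ha => if_neg fun c => ha ?_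
      exact_mod_cast mul_right_cancel₀ hb0 (c.2.2.symm.trans e2)
    · exact fun c => absurd i2 c
    · refine fun a _ ha => sum_eq_zero fun a' _ => if_neg fun c => ha ?_
      exact_mod_cast mul_right_cancel₀ hb0 (c.2.1.symm.trans e1)
    · exact fun c => absurd i1 c
  · rw [sum_eq_zero fun a1 i1 => sum_eq_zero fun a2 i2 => if_neg fun c => h1 ⟨a1, i1, a2, i2, c⟩,
      mul_zero]
    exact hW

/-- location of `n` for a small shift -/
theorem prim_near {A K η T : ℝ} (hA : 0 < A) (hK : 0 < K) (hη : 0 < η) (hη1 : η ≤ 1 / 4)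
    (hKT : 4 * K * T ≤ η * A) {b a n : ℕ} {k : ℤ} (hb : 1 ≤ b) (a1 : A < a)
    (a2 : (a : ℝ) ≤ (1 + η) * A) (e : FF k n = a * b) (hk : |(4 * (k : ℝ) - 1) / (4 * K)| ≤ T) :
    (1 - η / 4) * √(A * b) - 1 / 2 ≤ n ∧
      (n : ℝ) ≤ (1 - η / 4) * √(A * b) - 1 / 2 + η * √(A * b) := by
  have hb1 : (1 : ℝ) ≤ b := by exact_mod_cast hb
  have e1 : (n : ℝ) ^ 2 + n + k = a * b := by unfold FF at e; exact_mod_cast e
  have hs := Real.sq_sqrt (show 0 ≤ A * b by positivity)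
  have hs0 := Real.sqrt_nonneg (A * b)
  set s := √(A * b)
  rw [abs_div, abs_of_pos (show 0 < 4 * K by positivity), div_le_iff₀ (by positivity)] at hk
  have h1 : η * A ≤ η * s ^ 2 := by rw [hs]; gcongr; nlinarith
  obtain ⟨k1, k2⟩ := abs_le.1 (hk.trans (show T * (4 * K) ≤ η * s ^ 2 by linarith))
  have h2 : s ^ 2 ≤ a * b := by rw [hs]; gcongr
  have h3 : (a : ℝ) * b ≤ (1 + η) * s ^ 2 := by rw [hs, ← mul_assoc]; gcongr
  have hn : (0 : ℝ) ≤ n := Nat.cast_nonneg n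
  have h4 : 0 ≤ η * s ^ 2 := by positivity
  have h5 : 0 ≤ η * (η * s ^ 2) := by positivity
  have h6 : η * (η * s ^ 2) ≤ η * s ^ 2 := by nlinarith
  constructor
  · have : (1 - η / 4) * s ≤ n + 1 / 2 :=
      (pow_le_pow_iff_left₀ (by nlinarith) (by positivity) two_ne_zero).1 (by nlinarith)
    linarith
  · have : n + 1 / 2 ≤ (1 + 3 * η / 4) * s :=
      (pow_le_pow_iff_left₀ (by positivity) (by positivity) two_ne_zero).1 (by nlinarith)
    linarith

/-- the bound for one modulus -/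
theorem prim_b {A K η T : ℝ} (hA : 0 < A) (hK : 0 < K) (hη : 0 < η) (hη1 : η ≤ 1 / 4) (hT : 0 ≤ T)
    (hKT : 4 * K * T ≤ η * A) (n0 : ℕ) {I : Finset ℕ} (hI : Nar A η I) {b : ℕ} (hb : 1 ≤ b) :
    ∑ k ∈ KR n0, gs ((4 * k - 1) / (4 * K)) * Qf (fun _ => 1) I n0 b k ≤
      (η * √(A * b) + 1) * ((η * √(A * b) / b + 1) * (4 * (1 + K / b))) +
        n0 * (n0 * (gs (T / 2) * (4 * (1 + 2 * K)))) := by
  have hb0 : (0 : ℝ) < b := by exact_mod_cast hb
  set l := η * √(A * b) with hl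
  set x := (1 - η / 4) * √(A * b) - 1 / 2 with hx
  have hl0 : 0 ≤ l := by positivity
  have hg := gs_pos (T / 2)
  have key : ∀ (k : ℤ) (n1 n2 : ℕ), gs ((4 * k - 1) / (4 * K)) * ∑ a1 ∈ I, ∑ a2 ∈ I,
      (if n1 ≡ n2 [MOD b] ∧ FF k n1 = a1 * b ∧ FF k n2 = a2 * b then (1 : ℝ) * 1 else 0) ≤
      (if (x ≤ n1 ∧ (n1 : ℝ) ≤ x + l) ∧ 0 ≡ n1 [MOD 1] then (1 : ℝ) else 0) *
        ((if (x ≤ n2 ∧ (n2 : ℝ) ≤ x + l) ∧ n1 ≡ n2 [MOD b] then (1 : ℝ) else 0) *
          (if (b : ℤ) ∣ (n1 : ℤ) ^ 2 + n1 + k then gs ((4 * k - 1) / (4 * K)) else 0)) +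
        gs (T / 2) * gs (1 / (2 * K) * (k - 1 / 4)) := by
    intro k n1 n2
    have g1 := gs_pos ((4 * (k : ℝ) - 1) / (4 * K))
    have g2 := mul_pos hg (gs_pos (1 / (2 * K) * (k - 1 / 4)))
    have g3 : 0 ≤ (if (x ≤ n1 ∧ (n1 : ℝ) ≤ x + l) ∧ 0 ≡ n1 [MOD 1] then (1 : ℝ) else 0) *
        ((if (x ≤ n2 ∧ (n2 : ℝ) ≤ x + l) ∧ n1 ≡ n2 [MOD b] then (1 : ℝ) else 0) *
          (if (b : ℤ) ∣ (n1 : ℤ) ^ 2 + n1 + k then gs ((4 * k - 1) / (4 * K)) else 0)) := by
      positivity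
    refine prim_pt I hb _ _ _ (by linarith) fun a1 i1 a2 i2 hp e1 e2 => ?_
    rcases le_total T |(4 * (k : ℝ) - 1) / (4 * K)| with h | h
    · have h1 := gs_split hT h
      rw [show (4 * (k : ℝ) - 1) / (4 * K) / 2 = 1 / (2 * K) * (k - 1 / 4) by field_simp] at h1
      linarith
    · rw [if_pos ⟨prim_near hA hK hη hη1 hKT hb (hI a1 i1).1 (hI a1 i1).2 e1 h, Nat.modEq_one⟩,
        if_pos ⟨prim_near hA hK hη hη1 hKT hb (hI a2 i2).1 (hI a2 i2).2 e2 h, hp⟩,
        if_pos ⟨a1, by rw [mul_comm]; exact e1⟩]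
      linarith
  have hf := d13_fin lib_GS1 lib_GS2 (r := 1 / (2 * K)) (by positivity) (1 / 4) (KR n0)
  rw [one_div_one_div] at hf
  have hc : 0 ≤ 4 * (1 + K / b) := by positivity
  simp only [Qf, mul_sum (range n0)]
  rw [sum_comm]
  refine le_trans (sum_le_sum fun n1 _ => ?_ :
    _ ≤ ∑ n1 ∈ range n0, ((if (x ≤ n1 ∧ (n1 : ℝ) ≤ x + l) ∧ 0 ≡ n1 [MOD 1] then (1 : ℝ) else 0) *
      ((l / b + 1) * (4 * (1 + K / b))) + n0 * (gs (T / 2) * (4 * (1 + 2 * K))))) ?_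
  · rw [sum_comm]
    refine le_trans (sum_le_sum fun n2 _ => ?_ : _ ≤ ∑ n2 ∈ range n0,
      ((if (x ≤ n1 ∧ (n1 : ℝ) ≤ x + l) ∧ 0 ≡ n1 [MOD 1] then (1 : ℝ) else 0) *
        ((if (x ≤ n2 ∧ (n2 : ℝ) ≤ x + l) ∧ n1 ≡ n2 [MOD b] then (1 : ℝ) else 0) *
          (4 * (1 + K / b))) + gs (T / 2) * (4 * (1 + 2 * K)))) ?_
    · refine (sum_le_sum fun k _ => key k n1 n2).trans ?_
      rw [sum_add_distrib, ← mul_sum, ← mul_sum, ← mul_sum]
      have h1 := prim_k (KR n0) ((n1 : ℤ) ^ 2 + n1) hb hK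
      gcongr
    · rw [sum_add_distrib, ← mul_sum, ← sum_mul, sum_const, card_range, nsmul_eq_mul]
      have h1 := prim_cnt n0 n1 hb x hl0
      gcongr
  · rw [sum_add_distrib, ← sum_mul, sum_const, card_range, nsmul_eq_mul]
    have h1 := prim_cnt n0 0 le_rfl x hl0
    rw [Nat.cast_one, div_one] at h1
    gcongr

theorem prim_num {A B K η b : ℝ} (hB : 1 ≤ B) (hBK : B ≤ K) (hBA : B ≤ A) (hη : 0 < η)
    (hη1 : η ≤ 1 / 4) (hb : 1 ≤ b) :
    psi B b * ((η * √(A * b) + 1) * ((η * √(A * b) / b + 1) * (4 * (1 + K / b)))) ≤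
      256 * (K * (η ^ 2 * A + √(A * B))) * (π / (2 * B) * Real.exp (-(π / (2 * B) * b))) := by
  have hπ := Real.pi_gt_three
  have hB0 : 0 < B := by linarith
  have hb0 : 0 < b := by linarith
  have hA0 : 0 < A := by linarith
  have hK0 : 0 < K := by linarith
  set y := π * b / B with hy
  have hy0 : 0 ≤ y := by positivity
  have hyB : y * B = π * b := by rw [hy]; field_simp
  have hE := Real.exp_pos (-(y / 2))
  have h1 : psi B b ≤ Real.exp (-y) * y := by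
    rw [psi_eq]
    have := Real.add_one_le_exp (-y)
    exact mul_le_mul_of_nonneg_left (by linarith) (Real.exp_pos _).le
  have h2 : y * (1 + K / b) ≤ π / B * (K * (1 + y)) := by
    have e : y * (1 + K / b) = π / B * (b + K) := by rw [hy]; field_simp
    have : y * B ≤ y * K := by gcongr
    rw [e]; gcongr; nlinarith
  have hs := Real.sq_sqrt (show 0 ≤ A * b by positivity)
  have hs0 := Real.sqrt_nonneg (A * b)
  have hS : 1 ≤ √(A * B) := Real.one_le_sqrt.2 (by nlinarith)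
  have h3 : √(A * b) ≤ √(A * B) * (1 + y) := by
    refine Real.sqrt_le_iff.2 ⟨by positivity, ?_⟩
    rw [mul_pow, Real.sq_sqrt (by positivity), mul_assoc]
    gcongr
    nlinarith [mul_nonneg hB0.le (sq_nonneg y)]
  have h4 : (η * √(A * b) + 1) * (η * √(A * b) / b + 1) ≤
      2 * (η ^ 2 * A + √(A * B)) * (1 + y) := by
    have e : (η * √(A * b) + 1) * (η * √(A * b) / b + 1) =
        η ^ 2 * A + η * √(A * b) + η * √(A * b) / b + 1 := by
      have : η * √(A * b) * (η * √(A * b) / b) = η ^ 2 * A := by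
        rw [mul_div_assoc', div_eq_iff hb0.ne']
        linear_combination η ^ 2 * hs
      linear_combination this
    have h5 : η * √(A * b) / b ≤ η * √(A * b) := div_le_self (by positivity) hb
    have h6 : η * √(A * b) ≤ 1 / 4 * √(A * b) := by gcongr
    have h7 : 0 ≤ η ^ 2 * A := by positivity
    have h8 := mul_nonneg h7 hy0
    have h9 := mul_nonneg (zero_le_one.trans hS) hy0
    rw [e]; nlinarith
  have h5 : (1 + y) ^ 2 * Real.exp (-y) ≤ 16 * Real.exp (-(y / 2)) := by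
    have h6 := Real.add_one_le_exp (y / 4)
    have h7 : (1 + y) ^ 2 ≤ (4 * Real.exp (y / 4)) ^ 2 := by gcongr; linarith
    have e : Real.exp (y / 4) ^ 2 * Real.exp (-y) = Real.exp (-(y / 2)) := by
      rw [← Real.exp_nat_mul, ← Real.exp_add]; congr 1; push_cast; ring
    calc _ ≤ (4 * Real.exp (y / 4)) ^ 2 * Real.exp (-y) := by gcongr
      _ = _ := by rw [← e]; ring
  rw [show π / (2 * B) * b = y / 2 by rw [hy]; field_simp]
  calc _ ≤ Real.exp (-y) * y * ((η * √(A * b) + 1) * ((η * √(A * b) / b + 1) *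
        (4 * (1 + K / b)))) := by gcongr
    _ = 4 * Real.exp (-y) * ((η * √(A * b) + 1) * (η * √(A * b) / b + 1)) * (y * (1 + K / b)) := by
        ring
    _ ≤ 4 * Real.exp (-y) * (2 * (η ^ 2 * A + √(A * B)) * (1 + y)) * (π / B * (K * (1 + y))) := by
        gcongr
    _ = 8 * (K * (η ^ 2 * A + √(A * B))) * (π / B) * ((1 + y) ^ 2 * Real.exp (-y)) := by ring
    _ ≤ 8 * (K * (η ^ 2 * A + √(A * B))) * (π / B) * (16 * Real.exp (-(y / 2))) := by gcongr
    _ = _ := by field_simp; ring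

theorem prim_geo (c : ℝ) (n : ℕ) :
    ∑ b ∈ Icc 1 n, c * Real.exp (-(c * b)) ≤ 1 - Real.exp (-(c * n)) := by
  induction n with
  | zero => simp
  | succ n ih =>
    rw [sum_Icc_succ_top (by omega)]
    have e : Real.exp (-(c * n)) = Real.exp c * Real.exp (-(c * (n + 1 : ℕ))) := by
      rw [← Real.exp_add]; congr 1; push_cast; ring
    have h1 := mul_le_mul_of_nonneg_right (Real.add_one_le_exp c)
      (Real.exp_pos (-(c * (n + 1 : ℕ)))).le
    linarith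

theorem t_PRIM : S_PRIM := by
  refine ⟨324, by norm_num, fun A B K η T n0 I hB hBK hBA hη hη1 hT hKT hn hI => ?_⟩
  have hA : 1 ≤ A := hB.trans hBA
  have hK : 1 ≤ K := hB.trans hBK
  have hA0 : 0 < A := by linarith
  have hK0 : 0 < K := by linarith
  have hB0 : 0 < B := by linarith
  have hg := gs_pos (T / 2)
  have hKA : K ≤ A := by nlinarith
  have hM : 0 ≤ K * (η ^ 2 * A + √(A * B)) := by positivity
  have hQ : ∀ b k, 0 ≤ Qf (fun _ => 1) I n0 b k := fun b k => by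
    unfold Qf; positivity
  calc _ ≤ ∑ b ∈ Icc 1 n0, (256 * (K * (η ^ 2 * A + √(A * B))) *
        (π / (2 * B) * Real.exp (-(π / (2 * B) * b))) +
          n0 * (n0 * (gs (T / 2) * (4 * (1 + 2 * K))))) := by
        refine sum_le_sum fun b hb => ?_
        have hb1 := (mem_Icc.1 hb).1
        have p0 := psi_nonneg hB0 (Nat.cast_nonneg b)
        have p1 := psi_le_one hB0 (Nat.cast_nonneg b)
        calc _ ≤ psi B b * ∑ k ∈ KR n0, gs ((4 * k - 1) / (4 * K)) * Qf (fun _ => 1) I n0 b k := by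
              rw [mul_sum]
              refine sum_le_sum fun k _ => ?_
              rw [wt, mul_assoc, mul_assoc]
              exact mul_le_of_le_one_left (mul_nonneg p0 (mul_nonneg (gs_pos _).le (hQ b k)))
                (nuo_bd b).2
          _ ≤ _ := by
              refine (mul_le_mul_of_nonneg_left
                (prim_b hA0 hK0 hη hη1 (by linarith) hKT n0 hI hb1) p0).trans ?_
              rw [mul_add]
              exact add_le_add (prim_num hB hBK hBA hη hη1 (by exact_mod_cast hb1))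
                (mul_le_of_le_one_left (by positivity) p1)
    _ ≤ 256 * (K * (η ^ 2 * A + √(A * B))) * 1 +
          3 * A * (3 * A * (3 * A * (gs (T / 2) * (4 * (3 * (A * A)))))) := by
        rw [sum_add_distrib, ← mul_sum, sum_const, Nat.card_Icc, Nat.add_sub_cancel, nsmul_eq_mul]
        have h1 := (prim_geo (π / (2 * B)) n0).trans (sub_le_self _ (Real.exp_pos _).le)
        have h2 : 1 + 2 * K ≤ 3 * (A * A) := by nlinarith
        gcongr
    _ ≤ _ := by nlinarith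

end Pool.Agent.P.MP_8be758_nt.Av2
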