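import Pool.Agent.P.MP_8be758_nt.Av2.Basic

/-! The step `S_QF`. -/

namespace Pool.Agent.P.MP_8be758_nt.Av2

open Finset Real Filter Topology
open Pool.Agent.P.MP_e86632_nt (ee)
open Pool.Agent.P.MP_8be758_nt.Avg

theorem qf_div {A Z : ℝ} (hA : 0 ≤ A) (hZ : 1 ≤ Z) {m : ℕ} (hm : 56 ≤ m) :
    A / Z ^ m ≤ A / Z ^ 56 :=
  div_le_div_of_nonneg_left hA (by positivity) (pow_le_pow_right₀ hZ hm)

theorem qf_sqrt {x Z : ℝ} (hZ : 0 < Z) (m : ℕ) (h : x * Z ^ (m * 2) ≤ 1) : √x ≤ 1 / Z ^ m := by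
  refine Real.sqrt_le_iff.2 ⟨by positivity, ?_⟩
  rwa [div_pow, one_pow, ← pow_mul, le_div_iff₀ (by positivity)]

theorem qf_main {A J Z L Q v : ℝ} (hZ : 1 ≤ Z) (hJ : Z ^ 300 ≤ J) (hA : J ^ 2 ≤ A) (hL : L ≤ Z)
    (q1 : Z ^ 60 / 2 ≤ Q) (q2 : Q ≤ Z ^ 60) (v1 : J * Z ^ 60 / 2 ≤ v) (v2 : v ≤ J * Z ^ 60) :
    Q * A * J ^ 2 / v ^ 2 + L * (A / Q + v) + A * Q * √(Q / J) ≤ 8 * (A / Z ^ 56) := by
  have hz : 0 < Z := by linarith
  have hJ0 : 0 < J := lt_of_lt_of_le (by positivity) hJ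
  have ha : 0 < A := lt_of_lt_of_le (by positivity) hA
  have hQ : 0 < Q := lt_of_lt_of_le (by positivity) q1
  have hv : 0 < v := lt_of_lt_of_le (by positivity) v1
  have d1 := qf_div ha.le hZ (m := 60) (by norm_num)
  have d2 := qf_div ha.le hZ (m := 59) (by norm_num)
  have m1 : Q * A * J ^ 2 / v ^ 2 ≤ 4 * (A / Z ^ 60) :=
    calc Q * A * J ^ 2 / v ^ 2 ≤ Z ^ 60 * A * J ^ 2 / (J * Z ^ 60 / 2) ^ 2 := by gcongr
      _ = _ := by field_simp; norm_num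
  have m2 : L * (A / Q + v) ≤ 3 * (A / Z ^ 59) := by
    have h1 : J * Z ^ 60 ≤ A / Z ^ 60 := by
      rw [le_div_iff₀ (by positivity), mul_assoc, ← pow_add]
      refine le_trans ?_ hA
      rw [sq]
      exact mul_le_mul_of_nonneg_left ((pow_le_pow_right₀ hZ (by norm_num)).trans hJ) hJ0.le
    calc L * (A / Q + v) ≤ Z * (A / (Z ^ 60 / 2) + A / Z ^ 60) := by
          gcongr
          exact v2.trans h1
      _ = _ := by field_simp; norm_num
  have m3 : A * Q * √(Q / J) ≤ A / Z ^ 60 := by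
    have h1 : √(Q / J) ≤ 1 / Z ^ 120 := qf_sqrt hz 120 <|
      calc Q / J * Z ^ (120 * 2) ≤ Z ^ 60 / Z ^ 300 * Z ^ (120 * 2) := by gcongr
        _ = 1 := by field_simp
    calc A * Q * √(Q / J) ≤ A * Z ^ 60 * (1 / Z ^ 120) := by gcongr
      _ = _ := by field_simp
  linarith

theorem t_QF (hQF0 : S_QF0) (hOSC3 : S_OSC3) : S_QF := by
  obtain ⟨C0, c0, h0⟩ := hQF0
  obtain ⟨C1, c1, h1⟩ := hOSC3
  obtain ⟨C6, c6, h6⟩ := lib_MAIN
  refine ⟨C0 * (8 * C6 + 3 * C1 + 67), by positivity, ?_⟩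
  intro A B Z K I S α hz hab hb hbk hka hak habk hL hg hτ hI hα hS hG
  have z0 : 0 < Z := by linarith
  have z1 : 1 ≤ Z := by linarith
  have pw : ∀ {m n : ℕ}, m ≤ n → Z ^ m ≤ Z ^ n := fun h => pow_le_pow_right₀ z1 h
  have one : ∀ n : ℕ, 1 ≤ Z ^ n := fun n => one_le_pow₀ z1
  have z5 : 32 ≤ Z ^ 5 := le_trans (by norm_num) (pow_le_pow_left₀ zero_le_two hz 5)
  have b1 : 32 ≤ B := z5.trans ((pw (by norm_num)).trans hb)
  have b0 : 0 < B := by linarith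
  have k0 : (0 : ℝ) < K := by linarith
  have ka : (K : ℝ) ≤ A := (le_mul_of_one_le_left k0.le (one 30)).trans hka
  have ba : B ≤ A := hbk.trans ka
  have a0 : 0 < A := by linarith
  have hη : 4 / Z ^ 20 ≤ 1 / 4 := by
    rw [div_le_iff₀ (by positivity)]
    linarith [pw (show 5 ≤ 20 by norm_num)]
  have hR : Rng A I := fun a ha => ⟨(hI a ha).1, (hI a ha).2.trans (by gcongr; linarith)⟩
  have hsq : √(A / B) ^ 2 = A / B := Real.sq_sqrt (by positivity)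
  have j1 : Z ^ 300 ≤ √(A / B) := by
    apply Real.le_sqrt_of_sq_le
    rw [le_div_iff₀ b0]
    exact (le_of_eq (by ring)).trans hab
  have j2 : A / B ≤ A / 32 := by gcongr
  have j3 : 32 ≤ √(A / B) := z5.trans ((pw (by norm_num)).trans j1)
  have μ1 : (⌈√(A / B)⌉₊ : ℝ) ≤ A := by
    have := Nat.ceil_lt_add_one (Real.sqrt_nonneg (A / B))
    nlinarith
  have u1 : 1 ≤ A / Z ^ 56 := by
    rw [one_le_div (by positivity)]
    exact ((pw (by norm_num)).trans hb).trans ba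
  have s1 := h1 A B K Z (Z ^ 120) Z _ I α (by linarith) hbk ka
    ((le_mul_of_one_le_left a0.le (one 800)).trans hak) z1 (one 120)
    (by rw [← pow_mul]; exact (pw (by norm_num)).trans hb) ?_ μ1 hR hα
    (hτ.mono (by nlinarith) le_rfl) hG
  swap
  · have e1 : Z ^ 150 ≤ √B := by
      apply Real.le_sqrt_of_sq_le
      exact (le_of_eq (by ring)).trans hb
    have e2 : 30 * Z ^ 2 ≤ Z ^ 150 :=
      calc 30 * Z ^ 2 ≤ Z ^ 5 * Z ^ 2 := by gcongr; linarith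
        _ ≤ _ := by rw [← pow_add]; exact pw (by norm_num)
    calc _ ≤ √B * √B := by gcongr; exact e2.trans e1
      _ ≤ _ := by rwa [Real.mul_self_sqrt b0.le]
  have l0 : 0 ≤ 1 + Real.log A := by linarith [Real.log_nonneg (show 1 ≤ A by linarith)]
  have s2 : Z ^ 120 * Z * (1 + Real.log A) ^ 2 * Z ^ 4 * A * (√(A / K / B) + √(√A / K)) +
      Z * A ^ 3 * gs (Z / 2) ≤ 3 * (A / Z ^ 56) := by
    have e1 : √(A / K / B) ≤ 1 / Z ^ 200 := qf_sqrt z0 200 (by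
      rw [div_div, div_mul_eq_mul_div, div_le_one (by positivity), mul_comm]
      exact habk)
    have e2 : √(√A / K) ≤ 1 / Z ^ 200 := qf_sqrt z0 200 (by
      rw [div_mul_eq_mul_div, div_le_one k0, ← le_div_iff₀ (by positivity)]
      refine Real.sqrt_le_iff.2 ⟨by positivity, ?_⟩
      rw [div_pow, ← pow_mul, le_div_iff₀ (by positivity), mul_comm]
      exact hak)
    have e3 : Z * A ^ 3 * gs (Z / 2) ≤ A ^ 5 * gs (Z / 2) := by
      have := gs_pos (Z / 2)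
      have e4 : Z ≤ A ^ 2 := by
        have := (pw (show 1 ≤ 300 by norm_num)).trans hb
        nlinarith
      calc _ ≤ A ^ 2 * A ^ 3 * gs (Z / 2) := by gcongr
        _ = _ := by ring
    have e5 : Z ^ 120 * Z * (1 + Real.log A) ^ 2 * Z ^ 4 * A * (√(A / K / B) + √(√A / K)) ≤
        2 * (A / Z ^ 73) :=
      calc _ ≤ Z ^ 120 * Z * Z ^ 2 * Z ^ 4 * A * (1 / Z ^ 200 + 1 / Z ^ 200) := by gcongr
        _ = _ := by field_simp; norm_num
    linarith [qf_div a0.le z1 (m := 73) (by norm_num)]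
  have s3 := h0 A B (4 / Z ^ 20) Z Z (C1 * (3 * (A / Z ^ 56))) K _ I S α hbk ba (by positivity) hη
    ?_ z1 ?_ (Nat.le_ceil _) μ1 hI hα hτ hS (s1.trans (by
      rw [mul_comm C1, mul_assoc]
      gcongr))
  rotate_left
  · rw [div_pow, ← pow_mul, div_mul_eq_mul_div, one_le_div (by positivity)]
    linarith [(pw (show 20 * 2 ≤ 300 by norm_num)).trans hb]
  · rw [div_mul_eq_mul_div, le_div_iff₀ (by positivity)]
    calc _ = 4 * (2 * Z ^ 21 * K) := by ring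
      _ ≤ 4 * (Z ^ 5 * Z ^ 21 * K) := by gcongr; linarith
      _ ≤ 4 * (Z ^ 30 * K) := by rw [← pow_add]; gcongr; norm_num
      _ ≤ _ := by gcongr
  have n1 : 2 * A ≤ (⌈2 * A⌉₊ : ℝ) := Nat.le_ceil _
  have n2 : (⌈2 * A⌉₊ : ℝ) ≤ 3 * A := by
    have := Nat.ceil_lt_add_one (a := 2 * A) (by positivity)
    linarith
  obtain ⟨q1, q2⟩ := disp_floor (one 60)
  obtain ⟨v1, v2⟩ := disp_floor (x := √(A / B) * Z ^ 60)
    (one_le_mul_of_one_le_of_one_le (by linarith) (one 60))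
  have q4 : 4 * ⌊Z ^ 60⌋₊ ≤ ⌊√(A / B) * Z ^ 60⌋₊ := by
    apply Nat.le_floor
    push_cast
    gcongr
    linarith
  have q5 : ⌊√(A / B) * Z ^ 60⌋₊ ≤ ⌈2 * A⌉₊ := by
    have e1 : √(A / B) * Z ^ 60 ≤ √(A / B) * √(A / B) := by
      gcongr
      exact (pw (by norm_num)).trans j1
    have e2 : (⌊√(A / B) * Z ^ 60⌋₊ : ℝ) ≤ ⌈2 * A⌉₊ := by linarith
    exact_mod_cast e2
  have s4 := h6 A B _ _ _ I α (by linarith) ba n1 n2 (Nat.le_floor (by simpa using one 60)) q4 q5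
    hR hα
  have s5 := qf_main z1 j1 (by linarith : _ ≤ A) hL q1 q2 v1 v2
  rw [hsq] at s5
  have hE := enS_nonneg I (gam α) ⌊Z ^ 60⌋₊
  have r1 : Z * (4 / Z ^ 20) ^ 3 * A = 64 * (A / Z ^ 59) := by field_simp; norm_num
  have r2 : Z * √(A * B) ≤ A / Z ^ 299 := by
    have e1 : √(A * B) ≤ A / Z ^ 300 := by
      refine Real.sqrt_le_iff.2 ⟨by positivity, ?_⟩
      rw [div_pow, ← pow_mul, le_div_iff₀ (by positivity), sq, mul_assoc, mul_comm B]
      gcongr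
    calc _ ≤ Z * (A / Z ^ 300) := by gcongr
      _ = _ := by field_simp
  have r3 : (1 + Real.log A) * A / B ≤ A / Z ^ 299 :=
    calc _ ≤ Z * A / Z ^ 300 := by gcongr
      _ = _ := by field_simp
  have d1 := qf_div a0.le z1 (m := 59) (by norm_num)
  have d2 := qf_div a0.le z1 (m := 299) (by norm_num)
  have r4 := s4.trans (mul_le_mul_of_nonneg_left
    (show _ ≤ enS I (gam α) ⌊Z ^ 60⌋₊ + 8 * (A / Z ^ 56) by linarith) c6.le)
  refine s3.trans ?_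
  rw [mul_right_comm C0 _ (K : ℝ), mul_assoc (C0 * K)]
  refine mul_le_mul_of_nonneg_left ?_ (by positivity)
  have := mul_nonneg (by positivity : 0 ≤ 7 * C6 + 3 * C1 + 67) hE
  linarith

end Pool.Agent.P.MP_8be758_nt.Av2
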