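import Pool.Agent.P.MP_8be758_nt.Av2.Basic

/-! The step `S_QF0`. -/

namespace Pool.Agent.P.MP_8be758_nt.Av2

open Finset Real Filter Topology
open Pool.Agent.P.MP_e86632_nt (ee)
open Pool.Agent.P.MP_8be758_nt.Avg

theorem qf0_wt (B K : ℝ) (b : ℕ) (κ : ℝ) (hb : Even b) : wt nuo B K b κ = 0 := by
  rw [wt, nuo_even ((Int.even_coe_nat b).2 hb), zero_mul, zero_mul]

theorem qf0_U (hPRIM : S_PRIM) : ∃ C : ℝ, 0 < C ∧ ∀ (A B K η T : ℝ) (n0 : ℕ) (I : Finset ℕ),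
    1 ≤ B → B ≤ K → K ≤ A → 0 < η → η ≤ 1 / 4 → 1 ≤ T → 8 * K * T ≤ η * A → 2 * A ≤ n0 →
    (n0 : ℝ) ≤ 3 * A → Nar A η I → offS (fun _ => 1) I n0 (modT nuo B (2 * K)) ≤
      C * K * (η ^ 2 * A + √(A * B) + A ^ 5 * gs (T / 2) + (1 + Real.log A) * A / B) := by
  obtain ⟨Cp, cp, hP⟩ := hPRIM
  obtain ⟨C4, c4, h4⟩ := lib_D4
  refine ⟨2 * Cp + 6 * C4, by positivity, fun A B K η T n0 I b1 bk ka e0 e1 t1 kt n1 n2 hI => ?_⟩
  have a1 : 1 ≤ A := by linarith
  have hR : Rng A I := fun a ha => ⟨(hI a ha).1, (hI a ha).2.trans (by nlinarith)⟩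
  have s1 := hP A B (2 * K) η T n0 I b1 (by linarith) (by linarith) e0 e1 t1 (by linarith) n2 hI
  rw [lib_D2 A n0 I _ _ a1 n1 hR (qf0_wt B _)] at s1
  have s2 : 0 ≤ dg (wt nuo B (2 * K)) (fun _ => 1) I n0 :=
    sum_nonneg fun b _ => sum_nonneg fun k _ => mul_nonneg
      (disp_wt_nonneg (fun b => (nuo_bd b).1) (by linarith) _ _ _)
      (sum_nonneg fun n _ => sum_nonneg fun a _ => by split_ifs <;> norm_num)
  have s3 := (abs_le.1 (h4 A B (2 * K) 1 n0 I (fun _ => 1) nuo a1 (by linarith) (by linarith) n1 hR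
    (fun _ => by simp) nuo_bd)).1
  have l0 : 0 ≤ 1 + Real.log A := by linarith [Real.log_nonneg a1]
  have k0 : 0 ≤ K := by linarith
  have b0 : 0 < B := by linarith
  have s4 : C4 * 1 * (1 + Real.log A) * (2 * K) * (A + 2 * K) / B ≤
      6 * C4 * K * ((1 + Real.log A) * A / B) := by
    calc _ ≤ C4 * 1 * (1 + Real.log A) * (2 * K) * (3 * A) / B := by gcongr; linarith
      _ = _ := by ring
  have g0 : 0 ≤ A ^ 5 * gs (T / 2) := mul_nonneg (by positivity) (gs_pos _).le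
  have w0 : 0 ≤ (1 + Real.log A) * A / B := by positivity
  have x0 : 0 ≤ η ^ 2 * A + √(A * B) := by positivity
  generalize A ^ 5 * gs (T / 2) = g at *
  generalize (1 + Real.log A) * A / B = w at *
  generalize η ^ 2 * A + √(A * B) = x at *
  have s5 : g ≤ 2 * K * g := le_mul_of_one_le_left g0 (by linarith)
  have s6 := mul_le_mul_of_nonneg_left s5 cp.le
  have s7 : 0 ≤ Cp * (K * w) := by positivity
  have s8 : 0 ≤ C4 * (K * (x + g)) := by positivity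
  linarith

theorem t_QF0 (hPRIM : S_PRIM) (hFRZ : S_FRZ) : S_QF0 := by
  obtain ⟨Cu, cu, hU⟩ := qf0_U hPRIM
  obtain ⟨Cf, cf, hF⟩ := hFRZ
  obtain ⟨C3, c3, h3⟩ := lib_D3
  obtain ⟨C4, c4, h4⟩ := lib_D4
  have hc0 := disp_c0_pos
  refine ⟨(C3 + 2 * C4 + 2 * Cf * Cu + 1 + Cf) / disp_c0, by positivity, ?_⟩
  intro A B η T τ O K μ0 I S α bk ba e0 e1 eb t1 kt m1 m2 hI hα hτ hS hO
  have e2 : η ^ 2 ≤ 1 := by nlinarith
  have b0 : 0 < B := by
    by_contra h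
    nlinarith [mul_nonneg (sq_nonneg η) (neg_nonneg.2 (not_lt.1 h))]
  have b2 : η ^ 2 * B ≤ B := mul_le_of_le_one_left b0.le e2
  have b1 : 1 ≤ B := eb.trans b2
  have a1 : 1 ≤ A := b1.trans ba
  have k1 : (1 : ℝ) ≤ K := b1.trans bk
  have k2 : 8 * K ≤ η * A := le_trans (le_mul_of_one_le_right (by positivity) t1) kt
  have ka : K ≤ A := by nlinarith
  have τ1 : 1 ≤ τ := hτ.one_le (by nlinarith)
  have o0 : 0 ≤ O := nonneg_of_mul_nonneg_right ((abs_nonneg _).trans hO) (by linarith)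
  have n1 : 2 * A ≤ (⌈2 * A⌉₊ : ℝ) := Nat.le_ceil _
  have n2 : (⌈2 * A⌉₊ : ℝ) ≤ 3 * A := by
    have := Nat.ceil_lt_add_one (a := 2 * A) (by positivity)
    linarith
  generalize ⌈2 * A⌉₊ = n0 at *
  have hR : Rng A I := fun a ha => ⟨(hI a ha).1, (hI a ha).2.trans (by nlinarith)⟩
  have hKn : K ≤ n0 ^ 2 := by
    have h1 : (K : ℝ) ≤ (n0 : ℝ) ^ 2 := by nlinarith
    exact_mod_cast h1
  have s0 := disp_cmp lib_D1 (fun b => (nuo_bd b).1) b1 hKn (by linarith) α I (S := S)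
    fun b hb => ⟨(hS b hb).1, (hS b hb).2.1, (nuo_odd ((Int.odd_coe_nat b).2 (hS b hb).2.2)).ge⟩
  rw [lib_D2 A n0 I α _ a1 n1 hR (qf0_wt B _)] at s0
  have s1 := h3 A B K 1 τ n0 I α nuo b1 ba k1 (by nlinarith) n2 hR hα nuo_bd hτ
  have s2 := (abs_le.1 (h4 A B K 1 n0 I α nuo a1 b0 (by linarith) n1 hR hα nuo_bd)).2
  obtain ⟨s3, s4⟩ := hF A B K η n0 μ0 I α (by linarith) b0 (by linarith) e0 e1 m1
    (by exact_mod_cast (by linarith : (μ0 : ℝ) ≤ n0)) hI hα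
  replace s3 := (abs_le.1 s3).2
  replace s4 := (abs_le.1 (s4 τ (by linarith) (hτ.mono (by nlinarith) le_rfl))).1
  have u1 := hU A B K η T n0 I b1 bk ka e0 e1 t1 kt n1 n2 hI
  have u2 := hU A (η ^ 2 * B) K η T n0 I eb (b2.trans bk) ka e0 e1 t1 kt n1 n2 hI
  replace hO := (abs_le.1 hO).2
  have l0 : 0 ≤ 1 + Real.log A := by linarith [Real.log_nonneg a1]
  have s5 : C4 * 1 * (1 + Real.log A) * K * (A + K) / B ≤
      2 * C4 * K * ((1 + Real.log A) * A / B) := by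
    calc _ ≤ C4 * 1 * (1 + Real.log A) * K * (2 * A) / B := by gcongr; linarith
      _ = _ := by ring
  have g0 : 0 ≤ A ^ 5 * gs (T / 2) := mul_nonneg (by positivity) (gs_pos _).le
  have w0 : 0 ≤ (1 + Real.log A) * A / B := by positivity
  have w1 : η ^ 2 * ((1 + Real.log A) * A / (η ^ 2 * B)) = (1 + Real.log A) * A / B := by
    field_simp
  have r1 : √(A * (η ^ 2 * B)) ≤ √(A * B) := by gcongr
  have r0 := Real.sqrt_nonneg (A * B)
  have x1 : η ^ 3 * A ≤ τ * η ^ 3 * A := by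
    rw [mul_assoc]
    exact le_mul_of_one_le_left (by positivity) τ1
  have x2 : η ^ 4 * A ≤ η ^ 3 * A := by
    rw [pow_succ, mul_right_comm]
    exact mul_le_of_le_one_right (by positivity) (by linarith)
  have x3 : τ * η ^ 4 * A ≤ τ * η ^ 3 * A := by
    rw [mul_assoc, mul_assoc]
    gcongr
  have x0 : 0 ≤ η ^ 3 * A := by positivity
  have y1 : √(A * B) ≤ τ * √(A * B) := le_mul_of_one_le_left r0 τ1
  have M0 := abs_nonneg (mainS α I B n0)
  have M1 := le_abs_self (mainS α I B n0)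
  obtain ⟨E, hE⟩ : ∃ E, E = |mainS α I B n0| + O + τ * η ^ 3 * A + τ * √(A * B) +
    (1 + Real.log A) * A / B + A ^ 5 * gs (T / 2) := ⟨_, rfl⟩
  rw [← hE, div_mul_eq_mul_div, div_mul_eq_mul_div, le_div_iff₀ hc0, mul_comm]
  generalize A ^ 5 * gs (T / 2) = g at *
  generalize (1 + Real.log A) * A / B = w at *
  generalize (1 + Real.log A) * A / (η ^ 2 * B) = w' at *
  generalize √(A * (η ^ 2 * B)) = r' at *
  generalize √(A * B) = r at *
  have v1 : η * (η ^ 2 * A + r + g + w) ≤ E := by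
    have := mul_le_of_le_one_left (by linarith : 0 ≤ r + g + w) (by linarith : η ≤ 1)
    linarith
  have v2 : η ^ 2 * (η ^ 2 * A + r' + g + w') ≤ E := by
    have := mul_le_of_le_one_left (by linarith : 0 ≤ r + g) e2
    have := mul_le_mul_of_nonneg_left r1 (sq_nonneg η)
    linarith
  have k0 : (0 : ℝ) ≤ K := by linarith
  have z1 := (mul_le_mul_of_nonneg_left u1 e0.le).trans
    ((mul_left_comm _ _ _).trans_le (mul_le_mul_of_nonneg_left v1 (by positivity)))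
  have z2 := (mul_le_mul_of_nonneg_left u2 (sq_nonneg η)).trans
    ((mul_left_comm _ _ _).trans_le (mul_le_mul_of_nonneg_left v2 (by positivity)))
  have z3 := mul_le_mul_of_nonneg_left (add_le_add z1 z2) cf.le
  have z4 : C3 * K * (τ * r) ≤ C3 * K * E := by gcongr; linarith
  have z5 : 2 * C4 * K * w ≤ 2 * C4 * K * E := by gcongr; linarith
  have z6 : mainS α I B μ0 / 2 + O ≤ (1 + Cf) * E := by
    have h1 : Cf * (τ * η ^ 4 * A) ≤ Cf * E := by gcongr; linarith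
    have h2 : 0 ≤ Cf * E := mul_nonneg cf.le (by linarith)
    linarith
  have z7 := mul_le_mul_of_nonneg_left z6 k0
  linarith

end Pool.Agent.P.MP_8be758_nt.Av2
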