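import Pool.Agent.P.MP_8be758_nt.Av2.Basic

/-! The step `S_REP`. -/

namespace Pool.Agent.P.MP_8be758_nt.Av2

open Finset Real Filter Topology
open Pool.Agent.P.MP_e86632_nt (ee)
open Pool.Agent.P.MP_8be758_nt.Avg

theorem rep_als (ρ z j1 j2 τ1 τ2 : ℝ) (lam : Finset ℕ → ℝ) (Λ : ℕ → ℝ)
    (h : ∀ u, Λ u = ∑ E ∈ (PL z).powerset, if (∏ p ∈ E, p) ∣ u then lam E else 0) (a : ℕ) :
    als ρ z j1 j2 τ1 τ2 lam a = ∑ p ∈ a.divisorsAntidiagonal,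
      Λ p.1 * Λ p.2 * (WW ρ j1 j2 τ1 τ2 p.1 p.2 / ρ ^ 2) := by
  simp only [h, sum_mul_sum]
  simp only [als, al, sum_filter, sum_mul, mul_sum]
  symm
  rw [sum_comm]
  refine sum_congr rfl fun E1 _ => ?_
  rw [sum_comm]
  refine sum_congr rfl fun E2 _ => sum_congr rfl fun p _ => ?_
  by_cases h1 : (∏ p ∈ E1, p) ∣ p.1 <;> by_cases h2 : (∏ p ∈ E2, p) ∣ p.2 <;> simp [h1, h2]
  ring

open Classical in
theorem rep_tau (z x y : ℝ) (A1 A2 a : ℕ) :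
    (if a ∈ Ioc A1 A2 then tauJ z x y a else 0) = ∑ p ∈ a.divisorsAntidiagonal,
      (if Rough z p.1 then 1 else 0) * (if Rough z p.2 then 1 else 0) *
        (if (x < p.1 ∧ (p.1 : ℝ) ≤ y) ∧ A1 < a ∧ a ≤ A2 then (1 : ℝ) else 0) := by
  have e : ∀ p ∈ a.divisorsAntidiagonal,
      (if Rough z p.1 then 1 else 0) * (if Rough z p.2 then 1 else 0) *
        (if (x < p.1 ∧ (p.1 : ℝ) ≤ y) ∧ A1 < a ∧ a ≤ A2 then (1 : ℝ) else 0) =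
      if Rough z a ∧ A1 < a ∧ a ≤ A2 then (if x < p.1 ∧ (p.1 : ℝ) ≤ y then 1 else 0) else 0 := by
    intro p hp
    have : Rough z a ↔ Rough z p.1 ∧ Rough z p.2 := by
      rw [← (Nat.mem_divisorsAntidiagonal.1 hp).1, rough_mul]
    by_cases h1 : Rough z p.1 <;> by_cases h2 : Rough z p.2 <;> by_cases h3 : A1 < a ∧ a ≤ A2 <;>
      simp [this, h1, h2, h3]
  rw [sum_congr rfl e, Nat.sum_divisorsAntidiagonal
    (fun u _ => if Rough z a ∧ A1 < a ∧ a ≤ A2 then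
      (if x < u ∧ (u : ℝ) ≤ y then (1 : ℝ) else 0) else 0)]
  by_cases h1 : Rough z a <;> by_cases h3 : A1 < a ∧ a ≤ A2 <;> simp [h1, h3, tauJ]

theorem rep_pt {l1 l2 r1 r2 d1 d2 w c : ℝ} (h1 : 0 ≤ r1) (h1' : r1 ≤ 1) (h2 : 0 ≤ r2)
    (h2' : r2 ≤ 1) (a1 : r1 ≤ l1) (b1 : l1 ≤ r1 + d1) (a2 : r2 ≤ l2) (b2 : l2 ≤ r2 + d2)
    (hw : 0 ≤ w) : |l1 * l2 * w - r1 * r2 * c| ≤ (d1 * l2 + l1 * d2) * w + |w - c| := by
  have e : l1 * l2 * w - r1 * r2 * c = (l1 * l2 - r1 * r2) * w + r1 * r2 * (w - c) := by ring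
  have p0 : 0 ≤ l1 * l2 - r1 * r2 := sub_nonneg.2 (mul_le_mul a1 a2 h2 (h1.trans a1))
  have p1 : l1 * l2 - r1 * r2 ≤ d1 * l2 + l1 * d2 := by
    have q1 : (l1 - r1) * l2 ≤ d1 * l2 := mul_le_mul_of_nonneg_right (by linarith) (h2.trans a2)
    have q2 : r1 * (l2 - r2) ≤ l1 * d2 :=
      mul_le_mul a1 (by linarith) (by linarith) (h1.trans a1)
    linarith
  rw [e]
  refine (abs_add_le _ _).trans (add_le_add ?_ ?_)
  · rw [abs_of_nonneg (mul_nonneg p0 hw)]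
    exact mul_le_mul_of_nonneg_right p1 hw
  · rw [abs_mul, abs_of_nonneg (mul_nonneg h1 h2)]
    exact mul_le_of_le_one_left (abs_nonneg _) (mul_le_one₀ h1' h2 h2')

open Classical in
theorem rep_hyp (I : Finset ℕ) {X : ℝ} (x y : ℝ) (hI : ∀ a ∈ I, (a : ℝ) ≤ X)
    (f : ℕ → ℕ → ℝ) (hf : ∀ u v, 0 ≤ f u v) :
    ∑ a ∈ I, ∑ p ∈ a.divisorsAntidiagonal, (if x ≤ p.1 ∧ (p.1 : ℝ) ≤ y then f p.1 p.2 else 0) ≤
      ∑ u ∈ Icc ⌈x⌉₊ ⌊y⌋₊, ∑ v ∈ Icc 1 ⌊X / u⌋₊, f u v := by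
  rw [← sum_finset_product' ((Icc ⌈x⌉₊ ⌊y⌋₊).biUnion fun u =>
    (Icc 1 ⌊X / u⌋₊).image fun v => (u, v)) _ _ (by
      rintro ⟨u, v⟩
      simp only [mem_biUnion, mem_image, Prod.mk.injEq]
      exact ⟨fun ⟨_, h1, _, h2, h3, h4⟩ => h3 ▸ h4 ▸ ⟨h1, h2⟩,
        fun h => ⟨u, h.1, v, h.2, rfl, rfl⟩⟩)]
  refine le_trans (sum_le_sum fun a ha => ?_) (sum_fiberwise_le_sum_of_sum_fiber_nonneg
    (g := fun p : ℕ × ℕ => p.1 * p.2) (t := I) fun _ _ => sum_nonneg fun _ _ => hf _ _)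
  rw [← sum_filter]
  refine sum_le_sum_of_subset_of_nonneg (fun p hp => ?_) fun _ _ _ => hf _ _
  obtain ⟨hp, h1, h2⟩ := mem_filter.1 hp
  obtain ⟨e, h0⟩ := Nat.mem_divisorsAntidiagonal.1 hp
  have hu : p.1 ≠ 0 := fun h => h0 (by rw [← e, h, zero_mul])
  have hv : p.2 ≠ 0 := fun h => h0 (by rw [← e, h, mul_zero])
  have hu' : (0 : ℝ) < p.1 := by positivity
  refine mem_filter.2 ⟨mem_biUnion.2 ⟨p.1, mem_Icc.2 ⟨Nat.ceil_le.2 h1, Nat.le_floor h2⟩,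
    mem_image.2 ⟨p.2, mem_Icc.2 ⟨Nat.pos_of_ne_zero hv, Nat.le_floor ?_⟩, rfl⟩⟩, e⟩
  rw [le_div_iff₀ hu']
  have := hI a ha
  rw [← e] at this
  push_cast at this
  linarith

theorem rep_vz (z : ℝ) : 0 ≤ Vz z ∧ Vz z ≤ 1 := by
  have h : ∀ p : ℕ, 0 ≤ 1 - 1 / (p : ℝ) ∧ 1 - 1 / (p : ℝ) ≤ 1 := fun p =>
    ⟨by rw [one_div]; linarith [Nat.cast_inv_le_one (α := ℝ) p], by simp⟩
  exact ⟨prod_nonneg fun p _ => (h p).1, prod_le_one (fun p _ => (h p).1) fun p _ => (h p).2⟩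

theorem rep_main {Λ Δ : ℕ → ℝ} {V δ L X x y g : ℝ} (hX : 0 ≤ X) (hx : 1 ≤ x) (hxy : x ≤ y)
    (hV : 0 ≤ V) (hδ : 0 ≤ δ) (hg : Real.log (y / x) ≤ g)
    (h2 : ∀ u, 0 ≤ Λ u ∧ 0 ≤ Δ u ∧ Λ u ≤ L ∧ Δ u ≤ L)
    (h3 : ∀ x : ℝ, 0 ≤ x → ∑ v ∈ Icc 1 ⌊x⌋₊, Λ v ≤ x * (V + δ) + L ∧
      ∑ v ∈ Icc 1 ⌊x⌋₊, Δ v ≤ x * δ + L)
    (h4 : ∑ u ∈ Icc ⌈x⌉₊ ⌊y⌋₊, Λ u / u ≤ (V + δ) * Real.log (y / x) + L / x)
    (h5 : ∑ u ∈ Icc ⌈x⌉₊ ⌊y⌋₊, Δ u / u ≤ δ * Real.log (y / x) + L / x) :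
    ∑ u ∈ Icc ⌈x⌉₊ ⌊y⌋₊, ∑ v ∈ Icc 1 ⌊X / u⌋₊, (Δ u * Λ v + Λ u * Δ v) ≤
      2 * X * (δ * (V + δ) * g) + X * (V + 2 * δ) * (L / x) + 2 * L ^ 2 * y := by
  have hL : 0 ≤ L := (h2 0).1.trans (h2 0).2.2.1
  have hc : ((Icc ⌈x⌉₊ ⌊y⌋₊).card : ℝ) ≤ y := by
    have : 1 ≤ ⌈x⌉₊ := Nat.one_le_ceil_iff.2 (by linarith)
    refine le_trans ?_ (Nat.floor_le (by linarith : 0 ≤ y))
    rw [Nat.card_Icc]
    exact_mod_cast (by omega : ⌊y⌋₊ + 1 - ⌈x⌉₊ ≤ ⌊y⌋₊)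
  calc _ ≤ ∑ u ∈ Icc ⌈x⌉₊ ⌊y⌋₊, (X * (V + δ) * (Δ u / u) + X * δ * (Λ u / u) + 2 * L ^ 2) := by
        refine sum_le_sum fun u _ => ?_
        obtain ⟨p1, p2⟩ := h3 (X / u) (by positivity)
        obtain ⟨q1, q2, q3, q4⟩ := h2 u
        rw [sum_add_distrib, ← mul_sum, ← mul_sum]
        have r1 := mul_le_mul_of_nonneg_left p1 q2
        have r2 := mul_le_mul_of_nonneg_left p2 q1
        have r3 := mul_le_mul_of_nonneg_right q3 hL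
        have r4 := mul_le_mul_of_nonneg_right q4 hL
        have e1 : Δ u * (X / u * (V + δ) + L) = X * (V + δ) * (Δ u / u) + Δ u * L := by ring
        have e2 : Λ u * (X / u * δ + L) = X * δ * (Λ u / u) + Λ u * L := by ring
        nlinarith
    _ ≤ X * (V + δ) * (δ * g + L / x) + X * δ * ((V + δ) * g + L / x) + y * (2 * L ^ 2) := by
        rw [sum_add_distrib, sum_add_distrib, ← mul_sum, ← mul_sum, sum_const, nsmul_eq_mul]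
        gcongr
        · exact h5.trans (by gcongr)
        · exact h4.trans (by gcongr)
    _ = _ := by ring

theorem rep_num {N B A1 A2 x y q : ℝ} (hN : 1 ≤ N) (h5 : 5 ≤ q) (hB : q ≤ B)
    (h1 : 24 / 25 * N ^ 2 ≤ A1 * B) (h12 : A1 ≤ A2) (h2 : A2 * B ≤ 6 / 5 * N ^ 2) (hx : q ≤ x)
    (hxy : x ≤ y) (hy : y * q ≤ A1) : 0 < A1 ∧ 5 * (N ^ 2 / B) ≤ N ^ 2 ∧
      y * q ≤ 6 / 5 * (N ^ 2 / B) ∧ Real.log (2 * y / (x / 2)) ≤ 2 * Real.log N := by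
  have hB : 0 < B := by linarith
  have hN2 : 0 < N ^ 2 := by positivity
  have a : 5 * (N ^ 2 / B) ≤ N ^ 2 := by
    rw [← mul_div_assoc, div_le_iff₀ hB]; nlinarith
  have b : y * q ≤ 6 / 5 * (N ^ 2 / B) := by
    rw [← mul_div_assoc, le_div_iff₀ hB]; nlinarith
  refine ⟨by nlinarith, a, b, ?_⟩
  rw [show 2 * Real.log N = Real.log (N ^ 2) by simp]
  refine Real.log_le_log (by apply div_pos <;> linarith) ?_
  rw [div_le_iff₀ (by linarith)]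
  nlinarith

theorem rep_abs {t Z r1 r2 c : ℝ} (h0 : 0 ≤ t) (h1 : t ≤ Z * Z * 9) (hZ : 1 ≤ Z) (a1 : 0 ≤ r1)
    (b1 : r1 ≤ 1) (a2 : 0 ≤ r2) (b2 : r2 ≤ 1) (a3 : 0 ≤ c) (b3 : c ≤ 1) :
    |t - r1 * r2 * c| ≤ 10 * Z ^ 2 := by
  have t3 : 1 ≤ Z ^ 2 := one_le_pow₀ hZ
  have p0 : 0 ≤ r1 * r2 * c := by positivity
  have p1 : r1 * r2 * c ≤ 1 := mul_le_one₀ (mul_le_one₀ b1 a2 b2) a3 b3
  rw [abs_le]
  constructor <;> nlinarith

theorem t_REP (hSMO : S_SMO) (hSVS : S_SVS) : S_REP := by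
  classical
  refine ⟨160, by norm_num, ?_⟩
  filter_upwards [hSMO, ev_zs_tau 2, ev_zs0 1, ev_zs_pow 1 13 (a := 0) (b := 1 / 10) (by norm_num),
    ev_const 5 (b := 1 / 10) (by norm_num), eventually_ge_atTop 1] with N hS hT hZ hq hq5 hN
  intro z L δ B x y A1 A2 lam Del hF hL hδ hδ1 hB1 hB2 hA1 hA12 hA2 hx hxy hy
  obtain ⟨Λ, Δ, h1, h2, h3, h4⟩ := hSVS z L δ lam Del hF hδ
  obtain ⟨s1, s2⟩ := hS B x y A1 A2 hB1 hB2 hA1 hA12 hA2 hx hxy hy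
  rw [Real.rpow_zero, one_mul, mul_one] at hq
  have hqB : N ^ (1 / 10 : ℝ) ≤ B :=
    (Real.rpow_le_rpow_of_exponent_le hN (by norm_num)).trans hB1
  have hqN : N ^ (1 / 10 : ℝ) ≤ N ^ 3 := by
    rw [← Real.rpow_natCast]; exact Real.rpow_le_rpow_of_exponent_le hN (by norm_num)
  generalize N ^ (1 / 10 : ℝ) = q at *
  have hB : 0 < B := by linarith
  have hA : (A1 : ℝ) ≤ A2 := by exact_mod_cast hA12
  obtain ⟨hA0, hHN, hyH, hlg⟩ := rep_num hN hq5 hqB hA1 hA hA2 hx hxy hy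
  obtain ⟨H, hH⟩ : ∃ H, H = N ^ 2 / B := ⟨_, rfl⟩
  rw [← hH] at hHN hyH s2 ⊢
  have hH0 : 0 < H := by rw [hH]; positivity
  have hX : 2 * N ^ 2 / B = 2 * H := by rw [hH]; ring
  set w : ℕ → ℕ → ℝ := fun u v => WW (rh N) (Real.log x / 2) (Real.log y / 2) (Real.log A1 / 2)
    (Real.log A2 / 2) u v / rh N ^ 2 with hw
  have w0 : ∀ u v, 0 ≤ w u v := fun u v => div_nonneg (WW_nonneg _
    (by gcongr; linarith) (by gcongr) _ _) (sq_nonneg _)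
  have hR : ∀ u, (0 : ℝ) ≤ (if Rough z u then 1 else 0) ∧
      (if Rough z u then 1 else 0) ≤ (1 : ℝ) := fun u => by split_ifs <;> norm_num
  have hΛ : ∀ u, 0 ≤ Λ u ∧ 0 ≤ Δ u ∧ Λ u ≤ L ∧ Δ u ≤ L := fun u =>
    ⟨(hR u).1.trans (h2 u).1, (h2 u).2.2⟩
  have hL0 : 0 ≤ L := (hΛ 0).1.trans (hΛ 0).2.2.1
  have hN3 : 1 / N ^ 3 ≤ 1 / Zs N ^ 13 := one_div_le_one_div_of_le (by positivity) (by linarith)
  have hpos : ∀ {a : ℕ} {p : ℕ × ℕ}, p ∈ a.divisorsAntidiagonal → 1 ≤ p.1 ∧ 1 ≤ p.2 := by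
    intro a p hp
    obtain ⟨e, h0⟩ := Nat.mem_divisorsAntidiagonal.1 hp
    exact ⟨Nat.pos_of_ne_zero fun h => h0 (by rw [← e, h, zero_mul]),
      Nat.pos_of_ne_zero fun h => h0 (by rw [← e, h, mul_zero])⟩
  have hle : ∀ a ∈ AR N B, (a : ℝ) ≤ 2 * H := fun a ha =>
    hX ▸ ((mem_AR (by positivity)).1 ha).2.2
  have hc : ∀ a ∈ AR N B, ∀ c : ℝ, 0 ≤ c → ∑ _p ∈ a.divisorsAntidiagonal, c ≤ Zs N * c := by
    intro a ha c hc
    rw [Nat.sum_divisorsAntidiagonal (fun _ _ => c), sum_const, nsmul_eq_mul]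
    exact mul_le_mul_of_nonneg_right (hT a (by linarith [hle a ha])) hc
  simp only [rep_als _ _ _ _ _ _ _ Λ h1, rep_tau, ← sum_sub_distrib]
  refine ⟨fun a ha => ?_, ?_⟩
  · refine (abs_sum_le_sum_abs _ _).trans ((sum_le_sum (g := fun _ => 10 * Zs N ^ 2)
      fun p hp => ?_).trans ((hc a ha _ (by positivity)).trans_eq (by ring)))
    have w9 : w p.1 p.2 ≤ 9 := (s1 _ _ (hpos hp).1 (hpos hp).2).trans (by
      split_ifs
      · exact le_rfl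
      · rw [div_le_iff₀ (by positivity)]; linarith)
    have t1 : Λ p.1 * Λ p.2 * w p.1 p.2 ≤ Zs N * Zs N * 9 := by
      have := (hΛ p.1).2.2.1.trans hL
      have := (hΛ p.2).2.2.1.trans hL
      have := (hΛ p.2).1
      have := w0 p.1 p.2
      gcongr
    have t2 : 0 ≤ Λ p.1 * Λ p.2 * w p.1 p.2 := mul_nonneg (mul_nonneg (hΛ _).1 (hΛ _).1) (w0 _ _)
    exact rep_abs t2 t1 hZ (hR _).1 (hR _).2 (hR _).1 (hR _).2 (by positivity)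
      (by split_ifs <;> norm_num)
  · have key : ∀ a ∈ AR N B, |∑ p ∈ a.divisorsAntidiagonal, (Λ p.1 * Λ p.2 * w p.1 p.2 -
        (if Rough z p.1 then 1 else 0) * (if Rough z p.2 then 1 else 0) *
        (if (x < p.1 ∧ (p.1 : ℝ) ≤ y) ∧ A1 < a ∧ a ≤ A2 then (1 : ℝ) else 0))| ≤
        9 * ∑ p ∈ a.divisorsAntidiagonal, (if x / 2 ≤ p.1 ∧ (p.1 : ℝ) ≤ 2 * y then
          Δ p.1 * Λ p.2 + Λ p.1 * Δ p.2 else 0) + 2 / Zs N ^ 10 +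
        ∑ p ∈ a.divisorsAntidiagonal, |w p.1 p.2 -
          if (x < p.1 ∧ (p.1 : ℝ) ≤ y) ∧ A1 < a ∧ a ≤ A2 then (1 : ℝ) else 0| := by
      intro a ha
      have e : 2 / Zs N ^ 10 = Zs N * (2 * Zs N ^ 2 * (1 / Zs N ^ 13)) := by field_simp
      rw [e]
      refine (abs_sum_le_sum_abs _ _).trans (le_trans ?_ (add_le_add_left
        (add_le_add_right (hc a ha _ (by positivity)) _) _))
      rw [mul_sum, ← sum_add_distrib, ← sum_add_distrib]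
      refine sum_le_sum fun p hp => (rep_pt (hR _).1 (hR _).2 (hR _).1 (hR _).2 (h2 _).1
        (h2 _).2.1 (h2 _).1 (h2 _).2.1 (w0 _ _)).trans (add_le_add_left ?_ _)
      have t := s1 _ _ (hpos hp).1 (hpos hp).2
      obtain ⟨a1, a2, a3, a4⟩ := hΛ p.1
      obtain ⟨b1, b2, b3, b4⟩ := hΛ p.2
      have t0 : 0 ≤ Δ p.1 * Λ p.2 + Λ p.1 * Δ p.2 := by positivity
      have t1 : 0 ≤ 2 * Zs N ^ 2 * (1 / Zs N ^ 13) := by positivity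
      split_ifs at t ⊢
      · have := mul_le_mul_of_nonneg_left t t0
        linarith
      · have t2 : Δ p.1 * Λ p.2 + Λ p.1 * Δ p.2 ≤ 2 * Zs N ^ 2 := by
          have := mul_le_mul (a4.trans hL) (b3.trans hL) b1 (by linarith)
          have := mul_le_mul (a3.trans hL) (b4.trans hL) b2 (by linarith)
          linarith
        have := mul_le_mul t2 (t.trans hN3) (w0 _ _) (by positivity)
        linarith
    refine (sum_le_sum key).trans ?_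
    rw [sum_add_distrib, sum_add_distrib, ← mul_sum, sum_const, nsmul_eq_mul]
    have m1 := rep_hyp (AR N B) (x / 2) (2 * y) hle
      (fun u v => Δ u * Λ v + Λ u * Δ v) fun u v =>
      add_nonneg (mul_nonneg (hΛ _).2.1 (hΛ _).1) (mul_nonneg (hΛ _).1 (hΛ _).2.1)
    obtain ⟨v0, v1⟩ := rep_vz z
    have m2 := rep_main (X := 2 * H) (by positivity) (by linarith : 1 ≤ x / 2)
      (by linarith : x / 2 ≤ 2 * y) v0 hδ hlg hΛ h3 (h4 _ _ (by linarith) (by linarith)).1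
      (h4 _ _ (by linarith) (by linarith)).2
    have m3 : ((AR N B).card : ℝ) ≤ 2 * H := hX ▸ card_AR (by positivity)
    have hD : 0 ≤ δ * (Vz z + δ) * Real.log N := by
      have := Real.log_nonneg hN
      positivity
    have hZ0 : 0 < Zs N := by linarith
    have z1 : Zs N ^ 12 ≤ q := (pow_le_pow_right₀ hZ (by norm_num)).trans hq
    have z2 : L / (x / 2) ≤ 2 * (1 / Zs N ^ 10) := by
      rw [div_le_iff₀ (by linarith)]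
      have : Zs N ^ 11 ≤ x := (pow_le_pow_right₀ hZ (by norm_num)).trans (hq.trans hx)
      calc L ≤ Zs N := hL
        _ = 2 * (1 / Zs N ^ 10) * (Zs N ^ 11 / 2) := by field_simp
        _ ≤ _ := by gcongr
    have z3 : L ^ 2 * y ≤ 6 / 5 * H * (1 / Zs N ^ 10) := by
      rw [mul_one_div, le_div_iff₀ (by positivity)]
      calc L ^ 2 * y * Zs N ^ 10 ≤ Zs N ^ 2 * y * Zs N ^ 10 := by gcongr; linarith
        _ = y * Zs N ^ 12 := by ring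
        _ ≤ y * q := by gcongr; linarith
        _ ≤ _ := hyH
    have z4 : 2 * H * (Vz z + 2 * δ) * (L / (x / 2)) ≤ 2 * H * 3 * (2 * (1 / Zs N ^ 10)) := by
      have : 0 ≤ L / (x / 2) := div_nonneg hL0 (by linarith)
      gcongr
      linarith
    have z5 : ((AR N B).card : ℝ) * (2 / Zs N ^ 10) ≤ 2 * H * (2 / Zs N ^ 10) := by gcongr
    have z6 : 0 ≤ H * (1 / Zs N ^ 10) := by positivity
    have z7 := mul_nonneg hH0.le hD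
    have e1 : 2 * H * (2 / Zs N ^ 10) = 4 * (H * (1 / Zs N ^ 10)) := by ring
    have e2 : H / Zs N ^ 10 = H * (1 / Zs N ^ 10) := by ring
    rw [e1] at z5
    rw [e2] at s2
    linarith

end Pool.Agent.P.MP_8be758_nt.Av2
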