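import Pool.Agent.P.MP_8be758_nt.Av2.Basic

/-! The step `S_RG`. -/

namespace Pool.Agent.P.MP_8be758_nt.Av2

open Finset Real Filter Topology
open Pool.Agent.P.MP_e86632_nt (ee)
open Pool.Agent.P.MP_8be758_nt.Avg

theorem rg_regroup (X : ℕ) (F : ℕ → ℕ → ℝ) (hF : ∀ u v, X < u * v → F u v = 0) :
    ∑ n ∈ Icc 1 X, ∑ p ∈ n.divisorsAntidiagonal, F p.1 p.2 =
      ∑ u ∈ Icc 1 X, ∑ v ∈ Icc 1 X, F u v := by
  have e : Icc 1 X = Ioc 0 X := rfl
  rw [e, ← sum_product', sum_congr rfl fun n hn => by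
    rw [Nat.divisorsAntidiagonal_eq_prod_filter_of_le (mem_Ioc.1 hn).1.ne' (mem_Ioc.1 hn).2],
    sum_fiberwise_eq_sum_filter]
  refine sum_filter_of_ne fun p hp h => ?_
  simp only [mem_product, mem_Ioc] at hp ⊢
  exact ⟨Nat.mul_pos hp.1.1 hp.2.1, not_lt.1 fun c => h (hF _ _ c)⟩

theorem rg_id (X1 X2 : ℕ) (G : ℕ → ℕ → ℝ) (ρ ψ f : ℕ → ℝ)
    (h : ∀ b u v, G b u ≠ 0 → X1 < b * u * v → ψ v = ρ v) :
    ∑ b ∈ Icc 1 X2, ∑ a ∈ half_P X1 X2 b,
      (∑ p ∈ a.divisorsAntidiagonal, G b p.1 * ρ p.2) * f (a * b) =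
      bil X1 X2 (fun w => ∑ p ∈ w.divisorsAntidiagonal, G p.1 p.2) ψ f := by
  obtain ⟨c, hc⟩ : ∃ c : ℕ → ℝ, ∀ n, c n = if X1 < n ∧ n ≤ X2 then f n else 0 := ⟨_, fun _ => rfl⟩
  have h0 : ∀ m v, v ∈ Icc 1 X2 → X2 < m → c (m * v) = 0 := fun m v hv hm => by
    rw [hc, if_neg fun e => absurd e.2 (not_le.2 (hm.trans_le
      (Nat.le_mul_of_pos_right _ (mem_Icc.1 hv).1)))]
  have key : ∀ (F : ℕ → ℕ → ℕ → ℝ) (v : ℕ), v ∈ Icc 1 X2 →
      ∑ a ∈ half_P X1 X2 v, (∑ p ∈ a.divisorsAntidiagonal, F v p.1 p.2) * f (a * v) =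
        ∑ b ∈ Icc 1 X2, ∑ u ∈ Icc 1 X2, F v b u * c (b * u * v) := fun F v hv => by
    rw [← rg_regroup X2 _ fun b u e => by rw [h0 _ _ hv e, mul_zero], half_P, sum_filter]
    refine sum_congr rfl fun a _ => ?_
    rw [← mul_ite_zero, ← hc, sum_mul]
    exact sum_congr rfl fun p hp => by rw [(Nat.mem_divisorsAntidiagonal.1 hp).1]
  rw [bil_comm, half_bil, sum_congr rfl (key fun b u v => G b u * ρ v)]
  simp only [mul_sum]
  rw [sum_congr rfl (key fun v b u => ψ v * G b u)]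
  refine Eq.symm (sum_comm.trans (sum_congr rfl fun b _ => sum_comm.trans
    (sum_congr rfl fun u _ => sum_congr rfl fun v _ => ?_)))
  rw [show u * v * b = b * u * v by ring, mul_comm (ψ v), hc]
  by_cases e : G b u = 0
  · simp only [e, zero_mul]
  · split_ifs with e'
    · rw [h b u v e e'.1]
    · simp only [mul_zero]

theorem rg_tau (z x y c : ℝ) (a : ℕ) : c * tauJ z x y a = ∑ p ∈ a.divisorsAntidiagonal,
    (c * if Rough z p.1 ∧ x < p.1 ∧ (p.1 : ℝ) ≤ y then 1 else 0) * if Rough z p.2 then 1 else 0 := by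
  unfold tauJ
  split_ifs with h
  · rw [card_filter, Nat.cast_sum, mul_sum, ← Nat.sum_divisorsAntidiagonal
      fun u _ => c * ((if x < u ∧ (u : ℝ) ≤ y then 1 else 0 : ℕ) : ℝ)]
    refine sum_congr rfl fun p hp => ?_
    rw [← (Nat.mem_divisorsAntidiagonal.1 hp).1, rough_mul] at h
    simp [h.1, h.2]
  · rw [mul_zero]
    refine (sum_eq_zero fun p hp => ?_).symm
    rw [← (Nat.mem_divisorsAntidiagonal.1 hp).1, rough_mul, not_and_or] at h
    rcases h with h | h <;> simp [h]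

theorem t_RG (θ δ : ℝ) (hII2 : S_II2 θ δ (4 / 5)) : S_RG θ δ := by
  intro e1 h0 h1 ε hε
  obtain ⟨t, ht⟩ : ∃ t : ℝ, t = 2 ^ ⌈1 / e1⌉₊ := ⟨_, rfl⟩
  have t0 : 0 < t := by rw [ht]; positivity
  obtain ⟨R1, hR⟩ := hII2 e1 h0 h1 (ε / t) (by positivity)
  refine ⟨R1, fun R hR1 => ?_⟩
  filter_upwards [hR R hR1, eventually_gt_atTop 1] with N H hN K X1 X2 β r hS hβ hb hr
  have N0 : 0 < N := by linarith
  obtain ⟨G, hG⟩ : ∃ G : ℕ → ℕ → ℝ, ∀ b u, G b u = β b * if Rough (N ^ e1) u ∧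
    N ^ (3 / 20 : ℝ) < u ∧ (u : ℝ) ≤ N ^ (3 / 20 : ℝ) * r b then 1 else 0 := ⟨_, fun _ _ => rfl⟩
  have g1 : ∀ b u, |G b u| ≤ 1 := fun b u => by
    rw [hG]
    split_ifs
    · simpa using hβ.1 b
    · simp
  have g2 : ∀ b u, G b u ≠ 0 → Rough (N ^ e1) (b * u) ∧ N ^ (4 / 5 : ℝ) < (b * u : ℕ) ∧
      ((b * u : ℕ) : ℝ) ≤ N := fun b u h => by
    rw [hG] at h
    have a1 := left_ne_zero_of_mul h
    obtain ⟨a2, a3, a4⟩ := (ite_ne_right_iff.1 (right_ne_zero_of_mul h)).1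
    obtain ⟨a5, a6⟩ := hβ.2 b a1
    refine ⟨rough_mul.2 ⟨a5, a2⟩, ?_, ?_⟩
    · rw [Nat.cast_mul, show (4 / 5 : ℝ) = 13 / 20 + 3 / 20 by norm_num, Real.rpow_add N0]
      exact mul_lt_mul'' a6 a3 (by positivity) (by positivity)
    · calc ((b * u : ℕ) : ℝ) ≤ N ^ (4 / 5 : ℝ) * (N ^ (3 / 20 : ℝ) * N ^ (1 / 20 : ℝ)) := by
            rw [Nat.cast_mul]
            exact mul_le_mul (hb b a1) (a4.trans (mul_le_mul_of_nonneg_left (hr b) (by positivity)))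
              (by positivity) (by positivity)
        _ = N := by rw [← Real.rpow_add N0, ← Real.rpow_add N0]; norm_num
  have g3 : ∀ w : ℕ, (∑ p ∈ w.divisorsAntidiagonal, G p.1 p.2) / t ≠ 0 →
      Rough (N ^ e1) w ∧ N ^ (4 / 5 : ℝ) < w ∧ (w : ℝ) ≤ N := fun w h => by
    obtain ⟨p, hp, h⟩ := exists_ne_zero_of_sum_ne_zero (div_ne_zero_iff.1 h).1
    exact (Nat.mem_divisorsAntidiagonal.1 hp).1 ▸ g2 _ _ h
  have h2 := H K X1 X2 (fun w => (∑ p ∈ w.divisorsAntidiagonal, G p.1 p.2) / t)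
    (fun v => if Rough (N ^ e1) v ∧ N ^ (4 / 5 : ℝ) < v then 1 else 0) hS
    ⟨fun w => ?_, fun w h => ⟨(g3 w h).1, (g3 w h).2.1⟩⟩
    ⟨fun v => by dsimp only; split_ifs <;> simp, fun v h => (ite_ne_right_iff.1 h).1⟩
  · have e : ∀ k, ∑ b ∈ Icc 1 X2, ∑ a ∈ half_P X1 X2 b, β b * tauJ (N ^ e1) (N ^ (3 / 20 : ℝ))
        (N ^ (3 / 20 : ℝ) * r b) a * dd R.factorial k (a * b) = t * bil X1 X2
        (fun w => (∑ p ∈ w.divisorsAntidiagonal, G p.1 p.2) / t)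
        (fun v => if Rough (N ^ e1) v ∧ N ^ (4 / 5 : ℝ) < v then 1 else 0) (dd R.factorial k) := by
      intro k
      simp only [rg_tau, ← hG]
      rw [rg_id X1 X2 G (fun v => if Rough (N ^ e1) v then 1 else 0)
        (fun v => if Rough (N ^ e1) v ∧ N ^ (4 / 5 : ℝ) < v then 1 else 0) _ fun b u v h h' => ?_,
        bil, bil, mul_sum]
      · exact sum_congr rfl fun p _ => by field_simp
      · have a1 := (g2 b u h).2.2
        have a2 : N ^ 2 < (b * u : ℕ) * v := hS.x1.trans_lt (by exact_mod_cast h')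
        have a3 : N ^ (4 / 5 : ℝ) ≤ N := by
          simpa using Real.rpow_le_rpow_of_exponent_le hN.le (show (4 / 5 : ℝ) ≤ 1 by norm_num)
        have a4 : N < v := by
          by_contra c
          nlinarith [mul_le_mul a1 (not_lt.1 c) (Nat.cast_nonneg v) N0.le]
        simp only [a3.trans_lt a4, and_true]
    simp only [e, abs_mul, abs_of_pos t0, ← mul_sum]
    refine (mul_le_mul_of_nonneg_left h2 t0.le).trans (le_of_eq ?_)
    field_simp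
  · by_cases h : (∑ p ∈ w.divisorsAntidiagonal, G p.1 p.2) / t = 0
    · simp [h]
    obtain ⟨a1, -, a2⟩ := g3 w h
    have a3 := lib_TAU (N ^ e1) ⌈1 / e1⌉₊ w (Real.one_lt_rpow hN h0) a1 (a2.trans (by
      rw [← Real.rpow_natCast, ← Real.rpow_mul N0.le]
      simpa using Real.rpow_le_rpow_of_exponent_le hN.le
        ((div_le_iff₀' h0).1 (Nat.le_ceil (1 / e1)))))
    rw [abs_div, abs_of_pos t0, div_le_one t0, Nat.sum_divisorsAntidiagonal, ht]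
    refine (abs_sum_le_sum_abs _ _).trans ((sum_le_card_nsmul _ _ 1 fun d _ => g1 _ _).trans ?_)
    rw [nsmul_one]
    exact_mod_cast a3

end Pool.Agent.P.MP_8be758_nt.Av2
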