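import Pool.Agent.P.MP_8be758_nt.Av2.Basic

/-! The step `S_SMO`. -/

namespace Pool.Agent.P.MP_8be758_nt.Av2

open Finset Real Filter Topology
open Pool.Agent.P.MP_e86632_nt (ee)
open Pool.Agent.P.MP_8be758_nt.Avg

theorem smo_near {x t : ℝ} {n : ℕ} (hx : 0 < x) (ht : t ≤ 1 / 2) (hn : 1 ≤ n)
    (h : |Real.log n - Real.log x| < t) : x * (1 - t) ≤ n ∧ (n : ℝ) ≤ x * (1 + 2 * t) := by
  have h0 : (0 : ℝ) < n := by exact_mod_cast hn
  have h1 := (abs_nonneg _).trans_lt h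
  obtain ⟨h2, h3⟩ := abs_lt.1 h
  have h4 : x * Real.exp (-t) ≤ n := by
    rw [← Real.exp_log hx, ← Real.exp_add, ← Real.exp_log h0, Real.exp_le_exp]
    linarith
  have h5 : (n : ℝ) ≤ x * Real.exp t := by
    rw [← Real.exp_log hx, ← Real.exp_add, ← Real.exp_log h0, Real.exp_le_exp]
    linarith
  have h6 := Real.add_one_le_exp (-t)
  have h7 := (abs_le.1 (Real.abs_exp_sub_one_le (x := t) (by rw [abs_of_pos h1]; linarith))).2
  rw [abs_of_pos h1] at h7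
  exact ⟨le_trans (mul_le_mul_of_nonneg_left (by linarith) hx.le) h4,
    h5.trans (mul_le_mul_of_nonneg_left (by linarith) hx.le)⟩

theorem smo_edge {x t : ℝ} (hx : 0 < x) (h0 : 0 < t) (ht : t ≤ 1 / 2) {s : Finset ℕ}
    (hs : ∀ n ∈ s, 1 ≤ n ∧ |Real.log n - Real.log x| < t) : (s.card : ℝ) ≤ 3 * t * x + 1 := by
  have h1 : s ⊆ Icc ⌈x * (1 - t)⌉₊ ⌊x * (1 + 2 * t)⌋₊ := fun n hn => by
    have := smo_near hx ht (hs n hn).1 (hs n hn).2
    exact mem_Icc.2 ⟨Nat.ceil_le.2 this.1, Nat.le_floor this.2⟩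
  have h2 := card_le_card h1
  rw [Nat.card_Icc] at h2
  have h3 := Nat.le_ceil (x * (1 - t))
  have h4 := Nat.floor_le (show 0 ≤ x * (1 + 2 * t) by positivity)
  rcases Nat.eq_zero_or_pos s.card with h | h
  · rw [h, Nat.cast_zero]
    positivity
  · have h5 : s.card + ⌈x * (1 - t)⌉₊ ≤ ⌊x * (1 + 2 * t)⌋₊ + 1 := by omega
    have h6 : (s.card : ℝ) + ⌈x * (1 - t)⌉₊ ≤ ⌊x * (1 + 2 * t)⌋₊ + 1 := by exact_mod_cast h5
    linarith

theorem smo_all {S : Finset ℕ} {τ : ℝ} (hτ : ∀ a ∈ S, (a.divisors.card : ℝ) ≤ τ) {f : ℕ → ℝ}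
    (hf : ∀ a, 0 ≤ f a) : ∑ a ∈ S, ∑ _p ∈ a.divisorsAntidiagonal, f a ≤ (∑ a ∈ S, f a) * τ := by
  rw [sum_mul]
  refine sum_le_sum fun a ha => ?_
  rw [sum_const, nsmul_eq_mul, mul_comm, ← Nat.map_div_right_divisors, card_map]
  exact mul_le_mul_of_nonneg_left (hτ a ha) (hf a)

theorem smo_a {S : Finset ℕ} {τ x t : ℝ} (hτ : ∀ a ∈ S, (a.divisors.card : ℝ) ≤ τ) (h1 : 0 ≤ τ)
    (hS : ∀ a ∈ S, 1 ≤ a) (hx : 0 < x) (h0 : 0 < t) (ht : t ≤ 1 / 2) :
    ∑ a ∈ S, ∑ _p ∈ a.divisorsAntidiagonal,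
      (if |Real.log a - Real.log x| < t then 1 else 0 : ℝ) ≤ (3 * t * x + 1) * τ := by
  refine (smo_all hτ fun a => by positivity).trans (mul_le_mul_of_nonneg_right ?_ h1)
  rw [sum_boole]
  exact smo_edge hx h0 ht fun n hn => ⟨hS n (mem_filter.1 hn).1, (mem_filter.1 hn).2⟩

theorem smo_u {S : Finset ℕ} {Y x t : ℝ} (hY : 0 ≤ Y) (hS : ∀ a ∈ S, (a : ℝ) ≤ Y) (hx : 0 < x)
    (h0 : 0 < t) (ht : t ≤ 1 / 2) : ∑ a ∈ S, ∑ p ∈ a.divisorsAntidiagonal,
      (if |Real.log p.1 - Real.log x| < t then 1 else 0 : ℝ) ≤ (3 * t * x + 1) * (2 * Y / x) := by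
  rw [sum_sigma', sum_boole]
  have h1 := card_le_card_of_injOn (s := (S.sigma Nat.divisorsAntidiagonal).filter
    fun q => |Real.log q.2.1 - Real.log x| < t)
    (t := ((Icc 1 ⌊Y⌋₊).filter fun n : ℕ => |Real.log n - Real.log x| < t) ×ˢ Icc 1 ⌊2 * Y / x⌋₊)
    (fun q => q.2) (fun q hq => by
      obtain ⟨h2, h3⟩ := mem_filter.1 hq
      obtain ⟨h4, h5⟩ := mem_sigma.1 h2
      obtain ⟨h6, h7⟩ := Nat.mem_divisorsAntidiagonal.1 h5
      have a1 : 1 ≤ q.2.1 := Nat.pos_of_ne_zero fun c => h7 (by rw [← h6, c, zero_mul])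
      have a2 : 1 ≤ q.2.2 := Nat.pos_of_ne_zero fun c => h7 (by rw [← h6, c, mul_zero])
      have a3 : (q.2.1 : ℝ) * q.2.2 ≤ Y := by exact_mod_cast h6 ▸ hS _ h4
      have a4 : (1 : ℝ) ≤ q.2.2 := by exact_mod_cast a2
      have a5 := (smo_near hx ht a1 h3).1
      have a6 : (0 : ℝ) ≤ q.2.1 := Nat.cast_nonneg _
      refine mem_coe.2 (mem_product.2 ⟨mem_filter.2 ⟨mem_Icc.2 ⟨a1, Nat.le_floor ?_⟩, h3⟩,
        mem_Icc.2 ⟨a2, Nat.le_floor ?_⟩⟩)
      · nlinarith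
      · rw [le_div_iff₀ hx]
        have a7 : x ≤ 2 * q.2.1 := by nlinarith
        nlinarith)
    (fun q hq q' hq' e => by
      have h2 := (Nat.mem_divisorsAntidiagonal.1 (mem_sigma.1 (mem_filter.1 hq).1).2).1
      have h3 := (Nat.mem_divisorsAntidiagonal.1 (mem_sigma.1 (mem_filter.1 hq').1).2).1
      have e' : q.2 = q'.2 := e
      exact Sigma.ext (by rw [← h2, ← h3, e']) (heq_of_eq e'))
  rw [card_product, Nat.card_Icc, Nat.add_sub_cancel] at h1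
  refine (Nat.cast_le.2 h1).trans ?_
  rw [Nat.cast_mul]
  exact mul_le_mul (smo_edge hx h0 ht fun n hn =>
    ⟨(mem_Icc.1 (mem_filter.1 hn).1).1, (mem_filter.1 hn).2⟩) (Nat.floor_le (by positivity))
    (Nat.cast_nonneg _) (by positivity)

theorem smo_pt {u a x y c d κ w ε η : ℝ} {P : Prop} [Decidable P] (hκ : 0 < κ) (hε : 0 ≤ ε)
    (hη : 0 ≤ η) (w0 : 0 ≤ w) (w9 : w ≤ 9) (hP : P ↔ (x < u ∧ u ≤ y) ∧ c < a ∧ a ≤ d)
    (ho : u / 2 ≤ x / 2 - 2 * κ ∨ y / 2 + 2 * κ ≤ u / 2 ∨ a / 2 ≤ c / 2 - 4 * κ ∨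
      d / 2 + 4 * κ ≤ a / 2 → w ≤ η)
    (hi : x / 2 + 2 * κ ≤ u / 2 → u / 2 ≤ y / 2 - 2 * κ → c / 2 + 4 * κ ≤ a / 2 →
      a / 2 ≤ d / 2 - 4 * κ → |w - 1| ≤ ε) :
    |w - if P then 1 else 0| ≤ (ε + η) + 9 * ((if |u - x| < 8 * κ then 1 else 0) +
      (if |u - y| < 8 * κ then 1 else 0) + (if |a - c| < 8 * κ then 1 else 0) +
      if |a - d| < 8 * κ then 1 else 0) := by
  have h9 : |w - if P then 1 else 0| ≤ 9 := by
    split_ifs <;> exact abs_le.2 ⟨by linarith, by linarith⟩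
  by_cases h : |u - x| < 8 * κ ∨ |u - y| < 8 * κ ∨ |a - c| < 8 * κ ∨ |a - d| < 8 * κ
  · refine h9.trans ?_
    split_ifs <;> first | linarith | tauto
  push Not at h
  obtain ⟨h1, h2, h3, h4⟩ := h
  rw [if_neg h1.not_gt, if_neg h2.not_gt, if_neg h3.not_gt, if_neg h4.not_gt]
  by_cases hp : P
  · obtain ⟨⟨a1, a2⟩, a3, a4⟩ := hP.1 hp
    rw [abs_of_pos (by linarith)] at h1 h3
    rw [abs_of_nonpos (by linarith)] at h2 h4
    have := hi (by linarith) (by linarith) (by linarith) (by linarith)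
    rw [if_pos hp]
    linarith
  · rw [if_neg hp, sub_zero, abs_of_nonneg w0]
    have : w ≤ η := ho (by
      by_contra hc
      push Not at hc
      obtain ⟨b1, b2, b3, b4⟩ := hc
      refine hp (hP.2 ⟨⟨?_, ?_⟩, ?_, ?_⟩)
      · rcases le_abs.1 h1 with e | e <;> linarith
      · rcases le_abs.1 h2 with e | e <;> linarith
      · rcases le_abs.1 h3 with e | e <;> linarith
      · rcases le_abs.1 h4 with e | e <;> linarith)
    linarith

theorem smo_num {Q Z κ C η x y A1 A2 : ℝ} (hQ : 0 < Q) (hZ : 1 ≤ Z) (hκ : 0 < κ)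
    (hη : η ≤ κ) (hx0 : 0 < x) (hx : 1 ≤ κ * x) (hxy : x ≤ y) (h1 : 1 ≤ κ * Q) (hA : A1 ≤ A2)
    (hA2 : A2 ≤ 2 * Q) :
    2 * Q * (C * κ * Z ^ 2 + η) * Z + 9 * ((3 * (8 * κ) * x + 1) * (2 * (2 * Q) / x) +
      (3 * (8 * κ) * y + 1) * (2 * (2 * Q) / y) + (3 * (8 * κ) * A1 + 1) * Z +
      (3 * (8 * κ) * A2 + 1) * Z) ≤ Q * κ * Z ^ 3 * (2 * C + 2684) := by
  have k1 : ∀ s, x ≤ s → (3 * (8 * κ) * s + 1) * (2 * (2 * Q) / s) ≤ 100 * (Q * κ) := fun s hs => by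
    have h0 := hx0.trans_le hs
    rw [← mul_div_assoc, div_le_iff₀ h0]
    have : 1 ≤ κ * s := hx.trans (mul_le_mul_of_nonneg_left hs hκ.le)
    nlinarith
  have k2 : ∀ s, s ≤ 2 * Q → (3 * (8 * κ) * s + 1) * Z ≤ 49 * (Q * κ) * Z := fun s hs =>
    mul_le_mul_of_nonneg_right (by nlinarith) (by linarith)
  have k3 := k1 x le_rfl
  have k4 := k1 y hxy
  have k5 := k2 A1 (hA.trans hA2)
  have k6 := k2 A2 hA2
  have k7 : 0 < Q * κ := mul_pos hQ hκ
  have k8 : Q * κ * Z ≤ Q * κ * Z ^ 3 :=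
    mul_le_mul_of_nonneg_left (le_self_pow₀ hZ (by norm_num)) k7.le
  have k9 : Q * κ ≤ Q * κ * Z := le_mul_of_one_le_right k7.le hZ
  have k0 : Q * Z * η ≤ Q * Z * κ := mul_le_mul_of_nonneg_left hη (by positivity)
  nlinarith

theorem t_SMO (hWW : S_WW) : S_SMO := by
  obtain ⟨C, hC, hW⟩ := hWW
  filter_upwards [ev_zs0 (2 * C + 2684), ev_log 1, ev_zs_gs 5 one_pos, ev_zs_tau 2,
    ev_const 2 (show (0 : ℝ) < 13 / 20 by norm_num), eventually_ge_atTop 1]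
    with N e1 e2 e3 e4 e5 hN B x y A1 A2 b1 b2 a1 a2 a3 x1 x2 x3
  have N0 : 0 < N := by linarith
  have hρ := rh_pos N0
  have pw : ∀ (j : ℕ) (r : ℝ), (j : ℝ) / 10000 ≤ r → Zs N ^ j ≤ N ^ r := fun j r h => by
    rw [zs_pow N0]
    exact Real.rpow_le_rpow_of_exponent_le hN h
  have z66 : Zs N ^ 66 ≤ N := by simpa using pw 66 1 (by norm_num)
  have z21 := (pw 21 (1 / 10) (by norm_num)).trans x1
  have bN : B ≤ N := b2.trans (by
    simpa using Real.rpow_le_rpow_of_exponent_le hN (show (4 / 5 : ℝ) ≤ 1 by norm_num))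
  have t1 : 1 ≤ N ^ (1 / 10 : ℝ) := Real.one_le_rpow hN (by norm_num)
  set Z := Zs N with hZ
  set ρ := rh N
  have hr : ρ = 1 / Z ^ 22 := rfl
  have Z1 : 1 ≤ Z := by linarith
  have B2 : 2 ≤ B := e5.trans b1
  have B0 : 0 < B := by linarith
  have hk : ρ * Z * Z ^ 21 = 1 := by rw [hr]; field_simp
  have k0 : 0 < ρ * Z := by positivity
  have k1 : ρ * Z ≤ 1 / 24 := by
    have := mul_le_mul_of_nonneg_left ((show 24 ≤ Z by linarith).trans
      (le_self_pow₀ Z1 (show 21 ≠ 0 by norm_num))) k0.le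
    linarith
  have r1 : 1 ≤ ρ ^ 3 * N := by
    rw [hr, one_div, inv_pow, ← pow_mul, inv_mul_eq_div, le_div_iff₀ (by positivity), one_mul]
    exact z66
  have r2 : ρ ^ 3 ≤ ρ ^ 2 := pow_le_pow_of_le_one hρ.le
    ((le_mul_of_one_le_right hρ.le Z1).trans (by linarith)) (by norm_num)
  have g1 : Real.log N * gs Z * N ^ 3 ≤ ρ ^ 3 := by
    have h1 : Real.log N ≤ N := (Real.log_le_sub_one_of_pos N0).trans (by linarith)
    have h2 := gs_pos Z
    rw [one_mul] at e3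
    refine le_of_mul_le_mul_right (le_trans ?_ (e3.trans r1)) N0
    calc _ ≤ N * gs Z * N ^ 3 * N := by gcongr
      _ = _ := by ring
  have g2 : Real.log N * gs Z ≤ ρ ^ 3 := le_trans (le_mul_of_one_le_right
    (mul_nonneg (by linarith) (gs_pos Z).le) (one_le_pow₀ hN)) g1
  have x0 : 1 ≤ x := t1.trans x1
  have A12 : (A1 : ℝ) ≤ A2 := by exact_mod_cast a2
  have A0 : (0 : ℝ) < A1 := (mul_pos_iff_of_pos_right B0).1 (lt_of_lt_of_le (by positivity) a1)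
  have A54 : (A2 : ℝ) ≤ 5 / 4 * A1 := le_of_mul_le_mul_right (by rw [mul_assoc]; linarith) B0
  have AQ : (A2 : ℝ) ≤ 2 * (N ^ 2 / B) := by
    rw [← mul_div_assoc, le_div_iff₀ B0]
    linarith [sq_nonneg N]
  have QN : 2 * (N ^ 2 / B) ≤ N ^ 2 := by
    rw [← mul_div_assoc, div_le_iff₀ B0, mul_comm]
    exact mul_le_mul_of_nonneg_left B2 (sq_nonneg N)
  have NQ : N ≤ N ^ 2 / B := by
    rw [le_div_iff₀ B0, sq]
    exact mul_le_mul_of_nonneg_left bN N0.le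
  have j12 : Real.log x / 2 ≤ Real.log y / 2 := by gcongr
  have s12 : Real.log A1 / 2 ≤ Real.log A2 / 2 := by gcongr
  have H := fun (u v : ℕ) hu hv => hW ρ Z (Real.log N) _ _ _ _ u v hρ Z1 (by linarith) hu hv j12 s12
    e2 (by
      have h1 : y ≤ N ^ 2 := (le_mul_of_one_le_right (by linarith) t1).trans (by linarith)
      have h2 := Real.log_le_log (by linarith) h1
      have h3 := Real.log_nonneg x0
      rw [Real.log_pow] at h2
      push_cast at h2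
      linarith) (by
      have h1 := Real.log_le_log (by linarith) A54
      have h2 := Real.log_le_sub_one_of_pos (show (0 : ℝ) < 5 / 4 by norm_num)
      rw [Real.log_mul (by norm_num) A0.ne'] at h1
      linarith)
  have ρ2 : 0 < ρ ^ 2 := by positivity
  have o1 : ∀ w, w ≤ Real.log N * gs Z → w / ρ ^ 2 ≤ 1 / N ^ 3 := fun w h => by
    rw [div_le_div_iff₀ ρ2 (by positivity), one_mul]
    exact le_trans (by gcongr) (g1.trans r2)
  refine ⟨fun u v hu hv => ?_, ?_⟩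
  · split_ifs with h
    · exact (div_le_iff₀ ρ2).2 ((H u v hu hv).2 g2).1
    · have u0 : (0 : ℝ) < u := by exact_mod_cast hu
      have l2 := Real.log_two_gt_d9
      refine o1 _ ((H u v hu hv).1 ?_)
      rcases not_and_or.1 h with h | h
      · have h1 := Real.log_le_log u0 (not_le.1 h).le
        rw [Real.log_div (by linarith) two_ne_zero] at h1
        exact .inl (by linarith)
      · have h1 := Real.log_le_log (by linarith) (not_le.1 h).le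
        rw [Real.log_mul two_ne_zero (by linarith)] at h1
        exact .inr (.inl (by linarith))
  have hQ : 0 ≤ 2 * N ^ 2 / B := by positivity
  have m1 : ∀ a ∈ AR N B, 1 ≤ a := fun a ha => ((mem_AR hQ).1 ha).1
  have m2 : ∀ a ∈ AR N B, (a : ℝ) ≤ 2 * (N ^ 2 / B) := fun a ha =>
    ((mem_AR hQ).1 ha).2.2.trans_eq (mul_div_assoc _ _ _)
  have m3 : ∀ a ∈ AR N B, (a.divisors.card : ℝ) ≤ Z := fun a ha => e4 a ((m2 a ha).trans QN)
  have t0 : 0 < 8 * (ρ * Z) := by positivity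
  have t2 : 8 * (ρ * Z) ≤ 1 / 2 := by linarith
  refine le_trans (sum_le_sum fun a ha => sum_le_sum fun (p : ℕ × ℕ) hp => smo_pt (u := Real.log p.1)
    (P := (x < p.1 ∧ (p.1 : ℝ) ≤ y) ∧ A1 < a ∧ a ≤ A2)
    (a := Real.log a) (x := Real.log x) (y := Real.log y) (c := Real.log A1) (d := Real.log A2)
    (ε := C * (ρ * Z) * Z ^ 2) (η := 1 / N ^ 3) k0 (by positivity) (by positivity)
    (div_nonneg (WW_nonneg ρ j12 s12 _ _) ρ2.le) ?_ ?_ ?_ ?_) ?_
  rotate_right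
  · have k2 : ∀ s, Z ^ 21 ≤ s → 1 ≤ ρ * Z * s := fun s hs =>
      hk.symm.trans_le (mul_le_mul_of_nonneg_left hs k0.le)
    have z2 : Z ^ 21 ≤ N := (pow_le_pow_right₀ Z1 (by norm_num)).trans z66
    have Q0 : 0 < N ^ 2 / B := by positivity
    have f0 := smo_all m3 (f := fun _ => C * (ρ * Z) * Z ^ 2 + 1 / N ^ 3) fun _ => by positivity
    have f1 := smo_u (by positivity) m2 (x := x) (by linarith) t0 t2
    have f2 := smo_u (by positivity) m2 (x := y) (by linarith) t0 t2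
    have f3 := smo_a m3 (by linarith) m1 A0 t0 t2
    have f4 := smo_a m3 (by linarith) m1 (A0.trans_le A12) t0 t2
    have f5 := smo_num (C := C) (η := 1 / N ^ 3) Q0 Z1 k0 (by
      rw [div_le_iff₀ (by positivity)]
      exact k2 _ (z2.trans (le_self_pow₀ hN (by norm_num)))) (by linarith) (k2 x z21) x2
      (k2 _ (z2.trans NQ)) A12 AQ
    have f6 : (∑ _a ∈ AR N B, (C * (ρ * Z) * Z ^ 2 + 1 / N ^ 3)) * Z ≤
        2 * (N ^ 2 / B) * (C * (ρ * Z) * Z ^ 2 + 1 / N ^ 3) * Z := by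
      have := (card_AR hQ).trans_eq (mul_div_assoc _ _ _)
      rw [sum_const, nsmul_eq_mul]
      gcongr
    have f7 : N ^ 2 / B * (ρ * Z) * Z ^ 3 * (2 * C + 2684) ≤ N ^ 2 / B / Z ^ 10 := by
      rw [le_div_iff₀ (by positivity)]
      calc _ ≤ N ^ 2 / B * (ρ * Z) * Z ^ 3 * Z ^ 8 * Z ^ 10 := by
            have := e1.trans (le_self_pow₀ Z1 (show 8 ≠ 0 by norm_num))
            gcongr
        _ = N ^ 2 / B * (ρ * Z * Z ^ 21) := by ring
        _ = _ := by rw [hk, mul_one]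
    generalize C * (ρ * Z) * Z ^ 2 + 1 / N ^ 3 = c at *
    simp only [sum_add_distrib, ← mul_sum]
    linarith
  all_goals
    obtain ⟨h6, h7⟩ := Nat.mem_divisorsAntidiagonal.1 hp
    have c1 : 1 ≤ p.1 := Nat.pos_of_ne_zero fun c => h7 (by rw [← h6, c, zero_mul])
    have c2 : 1 ≤ p.2 := Nat.pos_of_ne_zero fun c => h7 (by rw [← h6, c, mul_zero])
    have c3 : (p.1 : ℝ) * p.2 = a := by exact_mod_cast h6
    have c4 := H p.1 p.2 c1 c2
    rw [c3] at c4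
  · exact (div_le_iff₀ ρ2).2 (c4.2 g2).1
  · have u0 : (0 : ℝ) < p.1 := by exact_mod_cast c1
    have a0 : (0 : ℝ) < a := by exact_mod_cast m1 a ha
    rw [Real.log_lt_log_iff (by linarith) u0, Real.log_le_log_iff u0 (by linarith),
      Real.log_lt_log_iff A0 a0, Real.log_le_log_iff a0 (by linarith), Nat.cast_lt, Nat.cast_le]
  · exact fun h => o1 _ (c4.1 h)
  · intro d1 d2 d3 d4
    rw [div_sub_one ρ2.ne', abs_div, abs_of_pos ρ2, div_le_iff₀ ρ2]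
    exact ((c4.2 g2).2 d1 d2 d3 d4).trans_eq (by ring)

end Pool.Agent.P.MP_8be758_nt.Av2
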