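import Pool.Agent.P.MP_8be758_nt.Av2.Basic

/-! The step `S_SUP`. -/

namespace Pool.Agent.P.MP_8be758_nt.Av2

open Finset Real Filter Topology
open Pool.Agent.P.MP_e86632_nt (ee)
open Pool.Agent.P.MP_8be758_nt.Avg

theorem sup_cs {g : ℝ → ℝ} (hg : Continuous g) {a b : ℝ} (h : a ≤ b) :
    (∫ x in a..b, g x) ^ 2 ≤ (b - a) * ∫ x in a..b, g x ^ 2 := by
  rcases h.eq_or_lt with rfl | h'
  · simp
  set m := ∫ x in a..b, g x with hm
  have h0 : 0 ≤ ∫ x in a..b, ((b - a) * g x - m) ^ 2 :=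
    intervalIntegral.integral_nonneg h fun _ _ => sq_nonneg _
  have e : ∀ x, ((b - a) * g x - m) ^ 2 = (b - a) ^ 2 * g x ^ 2 - 2 * (b - a) * m * g x + m ^ 2 :=
    fun x => by ring
  simp only [e] at h0
  rw [intervalIntegral.integral_add (Continuous.intervalIntegrable (by fun_prop) _ _) (by simp),
    intervalIntegral.integral_sub (Continuous.intervalIntegrable (by fun_prop) _ _)
      (Continuous.intervalIntegrable (by fun_prop) _ _), intervalIntegral.integral_const_mul,
    intervalIntegral.integral_const_mul, intervalIntegral.integral_const, smul_eq_mul, ← hm] at h0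
  refine le_of_mul_le_mul_left ?_ (sub_pos.2 h')
  linarith

theorem sup_one {ι : Type} (R : Finset ι) (w a b : ι → ℝ) (g : ι → ℝ → ℂ) (a0 b0 D : ℝ)
    (hw : ∀ i, 0 ≤ w i) (hg : ∀ i, Continuous (g i))
    (hR : ∀ i ∈ R, a0 ≤ a i ∧ a i ≤ b i ∧ b i ≤ b0) (h0 : a0 ≤ b0)
    (hD : ∀ x : ℝ, ∑ i ∈ R.filter (fun i => a i ≤ x ∧ x ≤ b i), w i * ‖g i x‖ ^ 2 ≤ D) :
    ∑ i ∈ R, w i * ‖∫ x in a i..b i, g i x‖ ^ 2 ≤ (b0 - a0) ^ 2 * D := by
  let F : ι → ℝ → ℝ := fun i => (Set.Ioc (a i) (b i)).indicator fun x => w i * ‖g i x‖ ^ 2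
  have hF : ∀ i, IntervalIntegrable (F i) MeasureTheory.volume a0 b0 := fun i => by
    have := hg i
    rw [intervalIntegrable_iff]
    exact (Continuous.intervalIntegrable (by fun_prop) a0 b0).def'.indicator measurableSet_Ioc
  have h1 : ∀ i ∈ R, w i * ‖∫ x in a i..b i, g i x‖ ^ 2 ≤ (b0 - a0) * ∫ x in a0..b0, F i x := by
    intro i hi
    obtain ⟨k1, k2, k3⟩ := hR i hi
    have e : ∫ x in a0..b0, F i x = w i * ∫ x in a i..b i, ‖g i x‖ ^ 2 := by
      rw [intervalIntegral.integral_of_le h0, MeasureTheory.setIntegral_indicator measurableSet_Ioc,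
        Set.inter_eq_right.2 (Set.Ioc_subset_Ioc k1 k3), ← intervalIntegral.integral_of_le k2,
        intervalIntegral.integral_const_mul]
    rw [e, mul_left_comm]
    refine mul_le_mul_of_nonneg_left ?_ (hw i)
    refine (pow_le_pow_left₀ (norm_nonneg _)
      (intervalIntegral.norm_integral_le_integral_norm k2) 2).trans ((sup_cs (hg i).norm k2).trans ?_)
    exact mul_le_mul_of_nonneg_right (by linarith)
      (intervalIntegral.integral_nonneg k2 fun _ _ => sq_nonneg _)
  refine (sum_le_sum h1).trans ?_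
  rw [← mul_sum, ← intervalIntegral.integral_finsetSum fun i _ => hF i, sq, mul_assoc]
  refine mul_le_mul_of_nonneg_left ?_ (sub_nonneg.2 h0)
  rw [← smul_eq_mul, ← intervalIntegral.integral_const]
  refine intervalIntegral.integral_mono_on h0 ?_ (by simp) fun x _ => le_trans ?_ (hD x)
  · have := IntervalIntegrable.sum R fun i _ => hF i
    rwa [Finset.sum_fn] at this
  · rw [sum_filter]
    refine sum_le_sum fun i _ => ?_
    simp only [F, Set.indicator_apply, Set.mem_Ioc]
    split_ifs with k1 k2 k2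
    · exact le_rfl
    · exact absurd ⟨k1.1.le, k1.2⟩ k2
    · exact mul_nonneg (hw i) (sq_nonneg _)
    · exact le_rfl

theorem t_SUP : S_SUP := by
  intro ι R w a b c d f a0 b0 c0 d0 D hw hf hR h1 h2 hD
  rw [mul_pow, mul_assoc]
  refine sup_one R w a b _ a0 b0 _ hw
    (fun i => intervalIntegral.continuous_parametric_intervalIntegral_of_continuous' (hf i) _ _)
    (fun i hi => ⟨(hR i hi).1, (hR i hi).2.1, (hR i hi).2.2.1⟩) h1 fun x => ?_
  refine sup_one _ w c d (fun i => f i x) c0 d0 D hw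
    (fun i => (hf i).comp (Continuous.prodMk_right x))
    (fun i hi => (hR i (mem_filter.1 hi).1).2.2.2) h2 fun y => ?_
  rw [filter_filter]
  exact hD x y

end Pool.Agent.P.MP_8be758_nt.Av2
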