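import Pool.Agent.P.MP_8be758_nt.Av2.Basic

/-! The step `S_SWAP`. -/

namespace Pool.Agent.P.MP_8be758_nt.Av2

open Finset Real Filter Topology
open Pool.Agent.P.MP_e86632_nt (ee)
open Pool.Agent.P.MP_8be758_nt.Avg

theorem swap_al (ρ j1 j2 τ d : ℝ) (E1 E2 a n : ℕ) : al ρ j1 j2 τ (τ + n * d) E1 E2 a =
    ∑ i ∈ range n, al ρ j1 j2 (τ + i * d) (τ + (i + 1) * d) E1 E2 a := by
  induction n with
  | zero => simp [al, WW]
  | succ n ih => rw [sum_range_succ, ← ih, al_add, Nat.cast_succ]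

theorem swap_len {N B j j' l τ1 τ2 : ℝ} (h : Sw N B j j' l τ1 τ2) (hN : 0 < N) (hB : 0 < B) :
    τ2 - τ1 ≤ 1 / 2 := by
  by_contra h0
  have h1 : Real.exp (2 * τ1) * 2 ≤ Real.exp (2 * τ2) := by
    refine le_trans ?_ (Real.exp_le_exp.2 (show 2 * τ1 + 1 ≤ 2 * τ2 by linarith))
    rw [Real.exp_add]
    have := Real.add_one_le_exp 1
    gcongr
    linarith
  have h2 := mul_le_mul_of_nonneg_right h1 hB.le
  have h3 := h.a1
  have h4 := h.a2
  nlinarith [sq_pos_of_pos hN]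

theorem swap_cell {N B j j' l τ1 τ2 s t : ℝ} (h : Sw N B j j' l τ1 τ2) (hB : 0 < B) (h1 : τ1 ≤ s)
    (h2 : s ≤ t) (h3 : t ≤ τ2) : Sw N B j j' l s t :=
  ⟨h.l0, h2, h.a1.trans (by gcongr), le_trans (by gcongr) h.a2, h.u, h.u',
    h.v.trans (by gcongr), h.v'.trans (by gcongr)⟩

theorem t_SWAP (hCELL : S_CELL) : S_SWAP := by
  intro W hW
  filter_upwards [hCELL W hW, ev_zs0 2, eventually_gt_atTop 0] with N h1 hZ hN K z B j j' l τ1 τ2
    S β lam hT hS hl hE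
  have hB : 0 < B := (Real.rpow_pos_of_pos hN _).trans_le hT.b1
  have hρ := rh_pos hN
  set Z := Zs N with hZ'
  set ρ := rh N with hρ'
  have z0 : 0 < Z := by linarith
  have z1 : 2 ≤ Z ^ 20 := hZ.trans (le_self_pow₀ (by linarith) (by norm_num))
  obtain ⟨n, n1, n2⟩ : ∃ n : ℕ, Z ^ 20 / 2 ≤ n ∧ (n : ℝ) ≤ Z ^ 20 :=
    ⟨⌈Z ^ 20 / 2⌉₊, Nat.le_ceil _, by
      have := Nat.ceil_lt_add_one (show 0 ≤ Z ^ 20 / 2 by positivity)
      linarith⟩
  have n0 : (0 : ℝ) < n := by linarith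
  obtain ⟨d, rfl⟩ : ∃ d, τ2 = τ1 + n * d := ⟨(τ2 - τ1) / n, by field_simp; ring⟩
  have d0 : 0 ≤ d := nonneg_of_mul_nonneg_right (by linarith [hS.s12]) n0
  have d1 : d ≤ 1 / Z ^ 20 := by
    have := swap_len hS hN hB
    rw [le_div_iff₀ (by positivity)]
    nlinarith
  have hX : 0 ≤ K * N / Z ^ 5 := by positivity
  have key : ∀ E1 ∈ (PL z).powerset, ∀ E2 ∈ (PL z).powerset,
      tb K W S β (AR N B) (fun a => lam E1 * lam E2 * ∑ i ∈ range n,
        (al ρ j (j + l) (τ1 + i * d) (τ1 + (i + 1) * d) (∏ p ∈ E1, p) (∏ p ∈ E2, p) a -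
          al ρ j' (j' + l) (τ1 + i * d) (τ1 + (i + 1) * d) (∏ p ∈ E1, p) (∏ p ∈ E2, p) a)) ≤
      |lam E1| * |lam E2| * (ρ ^ 2 * (K * N / Z ^ 5)) := fun E1 hE1 E2 hE2 => by
    rw [tb_smul, abs_mul]
    by_cases c1 : lam E1 = 0
    · simp [c1]
    by_cases c2 : lam E2 = 0
    · simp [c2]
    refine mul_le_mul_of_nonneg_left ((tb_sum_le _ _ _ _ _ _ _).trans
      ((sum_le_card_nsmul _ _ (ρ ^ 2 / Z ^ 20 * (K * N / Z ^ 5)) fun i hi => ?_).trans ?_))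
      (by positivity)
    · have i0 : (0 : ℝ) ≤ i := Nat.cast_nonneg _
      have i1 : (i : ℝ) + 1 ≤ n := by exact_mod_cast mem_range.1 hi
      refine h1 K _ _ B j j' l _ _ S β hT (swap_cell hS hB (by nlinarith) (by nlinarith)
        (by nlinarith)) (by linarith) (ti_prod_pos (mem_powerset.1 hE1))
        (ti_prod_pos (mem_powerset.1 hE2)) ?_ ?_
      · rw [Nat.cast_prod]
        exact hE E1 hE1 c1
      · rw [Nat.cast_prod]
        exact hE E2 hE2 c2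
    · rw [card_range, nsmul_eq_mul, ← mul_assoc]
      refine mul_le_mul_of_nonneg_right ?_ hX
      rw [mul_div_assoc', div_le_iff₀ (by positivity), mul_comm]
      gcongr
  refine le_trans (le_of_eq (tb_congr (fun _ _ => rfl) fun a _ => ?_))
    (((tb_smul K W S β (AR N B) (1 / ρ ^ 2) _).trans_le (mul_le_mul_of_nonneg_left
      ((tb_sum_le _ _ _ _ _ _ _).trans (sum_le_sum fun E1 hE1 => (tb_sum_le _ _ _ _ _ _ _).trans
        (sum_le_sum (key E1 hE1)))) (abs_nonneg _))).trans ?_)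
  · simp only [als, swap_al, sum_sub_distrib, mul_sub]
  · simp only [← sum_mul, ← mul_sum]
    have s0 : 0 ≤ ∑ E ∈ (PL z).powerset, |lam E| := sum_nonneg fun _ _ => abs_nonneg _
    rw [abs_of_pos (by positivity)]
    calc _ ≤ 1 / ρ ^ 2 * (Z * Z * (ρ ^ 2 * (K * N / Z ^ 5))) := by gcongr
      _ = _ := by field_simp

end Pool.Agent.P.MP_8be758_nt.Av2
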