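import Pool.Agent.P.MP_8be758_nt.Av2.Basic

/-! The step `S_TH`. -/

namespace Pool.Agent.P.MP_8be758_nt.Av2

open Finset Real Filter Topology
open Pool.Agent.P.MP_e86632_nt (ee)
open Pool.Agent.P.MP_8be758_nt.Avg
open MeasureTheory

theorem th_ne {ε : ℝ} (hε : 0 < ε) (j : ℤ) : (ε : ℂ) + j * Complex.I ≠ 0 := fun h => by
  have := congrArg Complex.re h
  simp at this
  exact hε.ne' this

theorem th_re {ε : ℝ} (hε : 0 < ε) (j : ℤ) : 0 < ((π : ℂ) / (ε + j * Complex.I)).re := by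
  rw [div_eq_mul_inv, Complex.re_ofReal_mul, Complex.inv_re]
  have h1 := Complex.normSq_pos.2 (th_ne hε j)
  have h2 : ((ε : ℂ) + j * Complex.I).re = ε := by simp
  rw [h2]
  positivity

theorem th_chp (ε : ℝ) (j : ℤ) (θ : ℝ) :
    chp ε j θ = Complex.exp (-((π : ℂ) / (ε + j * Complex.I)) * θ ^ 2) := by
  rw [chp]; congr 1; ring

theorem th_int {ε : ℝ} (hε : 0 < ε) (j : ℤ) (x : ℝ) :
    Integrable fun θ : ℝ => chp ε j θ * ee (θ * x) := by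
  refine Integrable.mul_bdd (c := 1) ?_ ?_ ?_
  · exact (integrable_cexp_neg_mul_sq (th_re hε j)).congr
      (Eventually.of_forall fun θ => (th_chp ε j θ).symm)
  · exact (continuous_ee.comp (by fun_prop)).aestronglyMeasurable
  · exact Eventually.of_forall fun x => (Pool.Agent.P.MP_e86632_nt.norm_ee _).le

theorem th_four {ε : ℝ} (hε : 0 < ε) (j : ℤ) (x : ℝ) :
    ∫ θ : ℝ, chp ε j θ * ee (θ * x) = ((ε : ℂ) + j * Complex.I) ^ (1 / 2 : ℂ) *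
      ((Real.exp (-(π * x ^ 2 * ε)) : ℝ) * ee (-(j / 2 * x ^ 2))) := by
  have h := fourierIntegral_gaussian (th_re hε j) ((2 * π * x : ℝ) : ℂ)
  have hm := th_ne hε j
  have hp : (π : ℂ) ≠ 0 := by exact_mod_cast Real.pi_ne_zero
  have h1 : ∀ θ : ℝ, chp ε j θ * ee (θ * x) =
      Complex.exp (Complex.I * ((2 * π * x : ℝ) : ℂ) * θ) *
        Complex.exp (-((π : ℂ) / (ε + j * Complex.I)) * θ ^ 2) := fun θ => by
    rw [th_chp, mul_comm, ee]
    congr 2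
    push_cast; ring
  simp only [h1]
  rw [h, div_div_cancel₀ hp, Complex.ofReal_exp, ee, ← Complex.exp_add]
  congr 2
  push_cast
  field_simp
  ring

theorem th_sum (α : ℕ → ℝ) (I : Finset ℕ) (μ0 : ℕ) {ε : ℝ} (hε : 0 < ε) (j : ℤ) :
    ∫ θ : ℝ, chp ε j θ * cG α I μ0 θ = ((ε : ℂ) + j * Complex.I) ^ (1 / 2 : ℂ) *
      ∑ a1 ∈ I, ∑ a2 ∈ I, ∑ μ ∈ (Icc 1 μ0).filter (fun μ => Cg μ a1 a2),
        ((α a1 / √(a1 : ℝ) * (α a2 / √(a2 : ℝ)) : ℝ) : ℂ) *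
          ((Real.exp (-(π * (sg a1 a2 / μ) ^ 2 * ε)) : ℝ) *
            ee (-(j / 2 * (sg a1 a2 / μ) ^ 2))) := by
  have e : ∀ θ : ℝ, chp ε j θ * cG α I μ0 θ =
      ∑ a1 ∈ I, ∑ a2 ∈ I, ∑ μ ∈ (Icc 1 μ0).filter (fun μ => Cg μ a1 a2),
        ((α a1 / √(a1 : ℝ) * (α a2 / √(a2 : ℝ)) : ℝ) : ℂ) *
          (chp ε j θ * ee (θ * (sg a1 a2 / μ))) := fun θ => by
    simp only [cG, mul_sum, mul_left_comm (chp ε j θ)]
  simp only [e]
  rw [integral_finsetSum _ fun a1 _ => integrable_finsetSum _ fun a2 _ =>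
    integrable_finsetSum _ fun μ _ => (th_int hε j _).const_mul _, mul_sum]
  refine sum_congr rfl fun a1 _ => ?_
  rw [integral_finsetSum _ fun a2 _ =>
    integrable_finsetSum _ fun μ _ => (th_int hε j _).const_mul _, mul_sum]
  refine sum_congr rfl fun a2 _ => ?_
  rw [integral_finsetSum _ fun μ _ => (th_int hε j _).const_mul _, mul_sum]
  refine sum_congr rfl fun μ _ => ?_
  rw [integral_const_mul, th_four hε, mul_left_comm]

theorem th_le {ε : ℝ} {j : ℤ} (hj : j ≠ 0) (V : ℂ) :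
    ‖V‖ ≤ 1 / √|(j : ℝ)| * ‖((ε : ℂ) + j * Complex.I) ^ (1 / 2 : ℂ) * V‖ := by
  have h0 : 0 < √|(j : ℝ)| := Real.sqrt_pos.2 (abs_pos.2 (by exact_mod_cast hj))
  have h1 : |(j : ℝ)| ≤ ‖(ε : ℂ) + j * Complex.I‖ := by
    simpa using Complex.abs_im_le_norm ((ε : ℂ) + j * Complex.I)
  rw [norm_mul, show (1 / 2 : ℂ) = ((1 / 2 : ℝ) : ℂ) by push_cast; ring, Complex.norm_cpow_real,
    ← Real.sqrt_eq_rpow, one_div_mul_eq_div, le_div_iff₀ h0, mul_comm]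
  gcongr

theorem t_TH : S_TH := by
  intro α I B μ0 j hB hj
  rw [th_sum α I μ0 (by positivity), th_sum α I μ0 (by positivity), mul_add]
  refine le_trans (le_of_eq (congrArg _ ?_)) ((norm_sub_le _ _).trans
    (add_le_add (th_le hj _) (th_le hj _)))
  simp only [oscF, ← sum_sub_distrib]
  refine sum_congr rfl fun a1 _ => sum_congr rfl fun a2 _ => sum_congr rfl fun μ _ => ?_
  rw [psi, div_pow, show π * (sg a1 a2 ^ 2 / (μ : ℝ) ^ 2) * (1 / B) =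
    π * (sg a1 a2 ^ 2 / (μ : ℝ) ^ 2) / B by ring, show π * (sg a1 a2 ^ 2 / (μ : ℝ) ^ 2) * (2 / B) =
    2 * π * (sg a1 a2 ^ 2 / (μ : ℝ) ^ 2) / B by ring]
  simp only [Complex.ofReal_mul, Complex.ofReal_sub]
  ring

end Pool.Agent.P.MP_8be758_nt.Av2
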