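import Pool.Agent.P.MP_8be758_nt.Av2.Basic

/-! The step `S_TRU`. -/

namespace Pool.Agent.P.MP_8be758_nt.Av2

open Finset Real Filter Topology
open Pool.Agent.P.MP_e86632_nt (ee)
open Pool.Agent.P.MP_8be758_nt.Avg

theorem tru_SR (ρ : ℝ) (n1 : ℕ) (j1 j2 τ1 τ2 γ θ : ℝ) :
    SR ρ n1 j1 j2 τ1 τ2 γ θ = ∑ p ∈ Icc 1 n1 ×ˢ Icc 1 n1, (WW ρ j1 j2 τ1 τ2 p.1 p.2 : ℂ) *
      (((1 / √((p.1 : ℝ) * p.2) : ℝ) : ℂ) * ee (p.1 * p.2 * γ + θ * √((p.1 : ℝ) * p.2))) := by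
  have e1 : ∀ t1 t2, SA ρ n1 t1 t2 γ θ = ∑ p ∈ Icc 1 n1 ×ˢ Icc 1 n1,
      ((om ρ t1 p.1 * om ρ t2 p.2 : ℝ) : ℂ) *
      (((1 / √((p.1 : ℝ) * p.2) : ℝ) : ℂ) * ee (p.1 * p.2 * γ + θ * √((p.1 : ℝ) * p.2))) := by
    intro t1 t2
    rw [SA, sum_product]
    exact sum_congr rfl fun u _ => sum_congr rfl fun v _ => by push_cast; ring
  have e2 : ∀ t1, ∫ t in τ1..τ2, SA ρ n1 t1 (t - t1) γ θ = ∑ p ∈ Icc 1 n1 ×ˢ Icc 1 n1,
      ((∫ t in τ1..τ2, om ρ t1 p.1 * om ρ (t - t1) p.2 : ℝ) : ℂ) *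
      (((1 / √((p.1 : ℝ) * p.2) : ℝ) : ℂ) * ee (p.1 * p.2 * γ + θ * √((p.1 : ℝ) * p.2))) := by
    intro t1
    simp only [e1]
    rw [intervalIntegral.integral_finsetSum fun p _ => Continuous.intervalIntegrable
      (by fun_prop) _ _]
    refine sum_congr rfl fun p _ => ?_
    rw [intervalIntegral.integral_mul_const, intervalIntegral.integral_ofReal]
  rw [SR]
  simp only [e2]
  rw [intervalIntegral.integral_finsetSum fun p _ => Continuous.intervalIntegrable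
    ((Complex.continuous_ofReal.comp (continuous_WW_inner ρ τ1 τ2 p.1 p.2)).mul
      continuous_const) _ _]
  refine sum_congr rfl fun p _ => ?_
  rw [intervalIntegral.integral_mul_const, intervalIntegral.integral_ofReal, WW]

theorem tru_WW (ρ j1 j2 τ1 τ2 : ℝ) {E1 E2 : ℕ} (h1 : 1 ≤ E1) (h2 : 1 ≤ E2) (u v : ℕ) :
    WW ρ (j1 - Real.log E1 / 2) (j2 - Real.log E1 / 2) (τ1 - Real.log (E1 * E2) / 2)
      (τ2 - Real.log (E1 * E2) / 2) u v = WW ρ j1 j2 τ1 τ2 (E1 * u) (E2 * v) := by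
  have p1 : (0 : ℝ) < E1 := by exact_mod_cast h1
  have p2 : (0 : ℝ) < E2 := by exact_mod_cast h2
  unfold WW
  rw [← intervalIntegral.integral_comp_sub_right (fun t1 => ∫ t in
    (τ1 - Real.log (E1 * E2) / 2)..(τ2 - Real.log (E1 * E2) / 2), om ρ t1 u * om ρ (t - t1) v)]
  congr 1
  funext t1
  rw [← intervalIntegral.integral_comp_sub_right
    (fun t => om ρ (t1 - Real.log E1 / 2) u * om ρ (t - (t1 - Real.log E1 / 2)) v)]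
  congr 1
  funext t
  rw [om_mul ρ _ h1, om_mul ρ _ h2, Real.log_mul p1.ne' p2.ne']
  congr 2
  ring

theorem tru_SI (ρ j1 j2 τ1 τ2 γ θ : ℝ) {n1 E1 E2 : ℕ} (h1 : 1 ≤ E1) (h2 : 1 ≤ E2) {I : Finset ℕ}
    (hI : I ⊆ Icc 1 n1) :
    SI I (al ρ j1 j2 τ1 τ2 E1 E2) γ θ =
      ∑ p ∈ (Icc 1 n1 ×ˢ Icc 1 n1).filter (fun p : ℕ × ℕ => E1 * p.1 * (E2 * p.2) ∈ I),
        (WW ρ j1 j2 τ1 τ2 (E1 * p.1) (E2 * p.2) : ℂ) *
        (((1 / √((E1 * p.1 * (E2 * p.2) : ℕ) : ℝ) : ℝ) : ℂ) *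
          ee ((E1 * p.1 * (E2 * p.2) : ℕ) * γ + θ * √((E1 * p.1 * (E2 * p.2) : ℕ) : ℝ))) := by
  have e : SI I (al ρ j1 j2 τ1 τ2 E1 E2) γ θ = ∑ a ∈ I,
      ∑ q ∈ a.divisorsAntidiagonal.filter (fun p => E1 ∣ p.1 ∧ E2 ∣ p.2),
        (WW ρ j1 j2 τ1 τ2 q.1 q.2 : ℂ) *
        (((1 / √(a : ℝ) : ℝ) : ℂ) * ee (a * γ + θ * √(a : ℝ))) := by
    refine sum_congr rfl fun a _ => ?_
    rw [← sum_mul, al]
    push_cast
    ring
  rw [e, sum_sigma']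
  symm
  refine sum_bij (fun p _ => ⟨E1 * p.1 * (E2 * p.2), (E1 * p.1, E2 * p.2)⟩) ?_ ?_ ?_ ?_
  · intro p hp
    simp only [mem_filter, mem_product, mem_Icc] at hp
    have := (mem_Icc.1 (hI hp.2)).1
    simp only [mem_sigma, mem_filter, Nat.mem_divisorsAntidiagonal, true_and]
    exact ⟨hp.2, by omega, Dvd.intro _ rfl, Dvd.intro _ rfl⟩
  · intro p _ q _ h
    have h3 : (E1 * p.1, E2 * p.2) = (E1 * q.1, E2 * q.2) :=
      congrArg (fun x : (_ : ℕ) × (ℕ × ℕ) => x.2) h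
    rw [Prod.mk.injEq] at h3
    exact Prod.ext (Nat.eq_of_mul_eq_mul_left h1 h3.1) (Nat.eq_of_mul_eq_mul_left h2 h3.2)
  · rintro ⟨a, U, V⟩ hq
    simp only [mem_sigma, mem_filter, Nat.mem_divisorsAntidiagonal] at hq
    obtain ⟨ha, ⟨h4, h5⟩, ⟨u, rfl⟩, ⟨v, rfl⟩⟩ := hq
    subst h4
    have h6 := (mem_Icc.1 (hI ha)).2
    have hu : 1 ≤ u := Nat.pos_of_ne_zero fun c => h5 (by simp [c])
    have hv : 1 ≤ v := Nat.pos_of_ne_zero fun c => h5 (by simp [c])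
    have a1 : 1 * u * (1 * 1) ≤ E1 * u * (E2 * v) := by gcongr
    have a2 : 1 * 1 * (1 * v) ≤ E1 * u * (E2 * v) := by gcongr
    refine ⟨(u, v), ?_, rfl⟩
    simp only [mem_filter, mem_product, mem_Icc]
    exact ⟨⟨⟨hu, by omega⟩, hv, by omega⟩, ha⟩
  · intro p _
    rfl

theorem t_TRU (hWW : S_WW) : S_TRU := by
  obtain ⟨C, -, hC⟩ := hWW
  intro Y n1 E1 E2 ρ T j1 j2 τ1 τ2 γ θ I hP hI
  have p1 : (0 : ℝ) < E1 := by exact_mod_cast hP.e1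
  have p2 : (0 : ℝ) < E2 := by exact_mod_cast hP.e2
  have hn : (n1 : ℝ) ≤ Y := by exact_mod_cast hP.n
  have hY : (2 : ℝ) ≤ Y := by exact_mod_cast hP.y2
  have hj1 : 0 ≤ j1 := by
    have h1 : (1 : ℝ) ≤ E1 := by exact_mod_cast hP.e1
    have := Real.one_le_exp_iff.1 (h1.trans hP.u1)
    linarith
  have hj2 : j2 - j1 ≤ Y := by
    have h1 := Real.add_one_le_exp (2 * j2)
    have h2 := hP.u2
    have h3 := hP.j12
    linarith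
  have e : ((1 / √((E1 : ℝ) * E2) : ℝ) : ℂ) *
      SR ρ n1 (j1 - Real.log E1 / 2) (j2 - Real.log E1 / 2) (τ1 - Real.log (E1 * E2) / 2)
      (τ2 - Real.log (E1 * E2) / 2) ((E1 * E2 : ℕ) * γ) (√((E1 : ℝ) * E2) * θ) =
      ∑ p ∈ Icc 1 n1 ×ˢ Icc 1 n1, (WW ρ j1 j2 τ1 τ2 (E1 * p.1) (E2 * p.2) : ℂ) *
        (((1 / √((E1 * p.1 * (E2 * p.2) : ℕ) : ℝ) : ℝ) : ℂ) *
          ee ((E1 * p.1 * (E2 * p.2) : ℕ) * γ + θ * √((E1 * p.1 * (E2 * p.2) : ℕ) : ℝ))) := by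
    rw [tru_SR, mul_sum]
    refine sum_congr rfl fun p _ => ?_
    have s : √((E1 * p.1 * (E2 * p.2) : ℕ) : ℝ) = √((E1 : ℝ) * E2) * √((p.1 : ℝ) * p.2) := by
      rw [← Real.sqrt_mul (by positivity)]
      congr 1
      push_cast
      ring
    rw [tru_WW ρ j1 j2 τ1 τ2 hP.e1 hP.e2, s,
      show ((E1 * p.1 * (E2 * p.2) : ℕ) : ℝ) * γ + θ * (√((E1 : ℝ) * E2) * √((p.1 : ℝ) * p.2)) =
        p.1 * p.2 * ((E1 * E2 : ℕ) * γ) + √((E1 : ℝ) * E2) * θ * √((p.1 : ℝ) * p.2) by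
        push_cast; ring]
    push_cast
    ring
  rw [e, tru_SI ρ j1 j2 τ1 τ2 γ θ hP.e1 hP.e2 hI.1, ← sum_filter_add_sum_filter_not
    (Icc 1 n1 ×ˢ Icc 1 n1) (fun p : ℕ × ℕ => E1 * p.1 * (E2 * p.2) ∈ I), sub_add_cancel_left,
    norm_neg]
  refine (norm_sum_le _ _).trans ?_
  refine (sum_le_card_nsmul _ _ (Y * gs T) fun p hp => ?_).trans ?_
  · simp only [mem_filter, mem_product, mem_Icc] at hp
    obtain ⟨⟨⟨hu, -⟩, hv, -⟩, ha⟩ := hp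
    have b1 : 1 ≤ E1 * p.1 := Nat.mul_pos hP.e1 hu
    have b2 : 1 ≤ E2 * p.2 := Nat.mul_pos hP.e2 hv
    have b3 : (1 : ℝ) ≤ ((E1 * p.1 * (E2 * p.2) : ℕ) : ℝ) := by exact_mod_cast Nat.mul_pos b1 b2
    have b4 : ((E1 * p.1 * (E2 * p.2) : ℕ) : ℝ) = ((E1 * p.1 : ℕ) : ℝ) * ((E2 * p.2 : ℕ) : ℝ) :=
      Nat.cast_mul _ _
    have w := (hC ρ T Y j1 j2 τ1 τ2 (E1 * p.1) (E2 * p.2) hP.r0 hP.t1 hP.t2 b1 b2 hP.j12 hP.s12
      (by linarith) hj2 (by have := hP.s21; linarith)).1 (by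
        right; right
        rw [← b4]
        by_contra hc
        rw [not_or, not_le, not_le] at hc
        refine ha (hI.2 _ ?_ ?_)
        · rw [← Real.lt_log_iff_exp_lt (by linarith)]
          linarith [hc.1]
        · rw [← Real.log_le_iff_le_exp (by linarith)]
          linarith [hc.2])
    have w0 := WW_nonneg ρ hP.j12 hP.s12 (E1 * p.1) (E2 * p.2)
    have s1 : 1 / √((E1 * p.1 * (E2 * p.2) : ℕ) : ℝ) ≤ 1 := by
      have := Real.one_le_sqrt.2 b3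
      rw [div_le_one (by linarith)]
      exact this
    rw [norm_mul, norm_mul, Pool.Agent.P.MP_e86632_nt.norm_ee, mul_one, Complex.norm_real,
      Complex.norm_real, Real.norm_of_nonneg w0, Real.norm_of_nonneg (by positivity)]
    exact (mul_le_of_le_one_right w0 s1).trans w
  · have c1 := card_filter_le (Icc 1 n1 ×ˢ Icc 1 n1)
      (fun p : ℕ × ℕ => ¬ E1 * p.1 * (E2 * p.2) ∈ I)
    rw [card_product, Nat.card_Icc, Nat.add_sub_cancel] at c1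
    have c2 : (((Icc 1 n1 ×ˢ Icc 1 n1).filter
        (fun p : ℕ × ℕ => ¬ E1 * p.1 * (E2 * p.2) ∈ I)).card : ℝ) ≤ Y * Y := by
      exact_mod_cast c1.trans (Nat.mul_le_mul hP.n hP.n)
    rw [nsmul_eq_mul]
    have g := gs_pos T
    calc _ ≤ (Y : ℝ) * Y * (Y * gs T) := by gcongr
      _ = _ := by ring

end Pool.Agent.P.MP_8be758_nt.Av2
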