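import Pool.Agent.P.MP_8be758_nt.Av2.Basic

/-! The step `S_UPD2`. -/

namespace Pool.Agent.P.MP_8be758_nt.Av2

open Finset Real Filter Topology
open Pool.Agent.P.MP_e86632_nt (ee)
open Pool.Agent.P.MP_8be758_nt.Avg

theorem t_UPD2 : S_UPD2 := by
  obtain ⟨C, hC, H⟩ := lib_UP
  refine ⟨2 * C + 2, by positivity, fun W hW => ?_⟩
  filter_upwards [ev_const (W : ℝ) (show (0 : ℝ) < 4 / 5 by norm_num),
    ev_const 2 (show (0 : ℝ) < 13 / 20 by norm_num),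
    ev_pow (2 * C ^ 2) 0 (show (239 / 100 : ℝ) < 12 / 5 by norm_num),
    eventually_ge_atTop 1] with N e1 e2 e3 e5 K B S1 S2 hK hB1 hB2 h1 h2
  have hN : 0 < N := by linarith
  have hWK : (W : ℝ) ≤ K := e1.trans hK
  have hW1 : (1 : ℝ) ≤ W := by exact_mod_cast hW
  have hK0 : (0 : ℝ) < K := by linarith
  have hK1 : 1 ≤ K := by exact_mod_cast (hW1.trans hWK)
  have hB0 : 0 < B := by linarith
  have p1 : N ^ (13 / 20 : ℝ) * N ^ (27 / 20 : ℝ) = N ^ 2 := by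
    rw [← Real.rpow_add hN, ← Real.rpow_natCast]; norm_num
  have p2 : N * N ^ (27 / 20 : ℝ) = N ^ (47 / 20 : ℝ) := by
    rw [show (47 / 20 : ℝ) = 1 + 27 / 20 by norm_num, Real.rpow_add hN, Real.rpow_one]
  have p3 : (N ^ (4 / 5 : ℝ)) ^ 3 = N ^ (12 / 5 : ℝ) := by
    rw [← Real.rpow_natCast, ← Real.rpow_mul hN.le]; norm_num
  have q1 : 0 < N ^ (27 / 20 : ℝ) := by positivity
  have q2 : 0 < N ^ (13 / 20 : ℝ) := by positivity
  set A := N ^ 2 / (2 * B) with hA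
  have hAB : A * B = N ^ 2 / 2 := by rw [hA]; field_simp
  have hA1 : 1 ≤ A := by
    rw [hA, le_div_iff₀ (by positivity)]; nlinarith
  have hA2 : A ≤ N ^ (27 / 20 : ℝ) := by
    rw [hA, div_le_iff₀ (by positivity)]; nlinarith
  have r1 : √(A * B) ≤ N := Real.sqrt_le_iff.2 ⟨hN.le, by rw [hAB]; nlinarith⟩
  have r2 : N / 2 ≤ √(A * B) := Real.le_sqrt_of_sq_le (by rw [hAB]; nlinarith)
  have key := H A B K S1 S2 hA1 (by linarith) hK1 (fun b hb => ⟨(h1 b hb).1, by linarith [(h1 b hb).2]⟩)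
    (fun a ha => ⟨(h2 a ha).1, (h2 a ha).2.trans (le_of_eq (by rw [hA]; field_simp; norm_num))⟩)
  have m1 : ∑ k ∈ Icc 1 K, ∑ b ∈ S1, ∑ a ∈ S2, md W k (a * b) ≤
      2 * (K / N) * S1.card * S2.card := by
    calc _ = ∑ b ∈ S1, ∑ a ∈ S2, ∑ k ∈ Icc 1 K, md W k (a * b) := by
          rw [sum_comm]; exact sum_congr rfl fun b _ => sum_comm
      _ ≤ ∑ _b ∈ S1, ∑ _a ∈ S2, 2 * (K / N) := by
          refine sum_le_sum fun b hb => sum_le_sum fun a ha => ?_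
          have r3 : N / 2 ≤ √((a * b : ℕ) : ℝ) := by
            refine r2.trans (Real.sqrt_le_sqrt ?_)
            push_cast
            exact mul_le_mul (h2 a ha).1 (h1 b hb).1 hB0.le (Nat.cast_nonneg _)
          simp only [md]
          rw [← sum_div]
          calc _ ≤ (K + W) / (2 * √((a * b : ℕ) : ℝ)) :=
              div_le_div_of_nonneg_right (lib_ROOT.2.2.2.2.2 W (a * b) K hW) (by positivity)
            _ ≤ (K + K) / (2 * (N / 2)) := by gcongr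
            _ = _ := by field_simp; ring
      _ = _ := by simp only [sum_const, nsmul_eq_mul]; ring
  have m2 : (K : ℝ) / √(A * B) ≤ 2 * (K / N) := by
    calc _ ≤ K / (N / 2) := by gcongr
      _ = _ := by field_simp
  have hL : 0 < N ^ (1 / 50 : ℝ) := by positivity
  have p4 : N ^ (47 / 20 : ℝ) * (N ^ (1 / 50 : ℝ)) ^ 2 = N ^ (239 / 100 : ℝ) := by
    rw [← Real.rpow_natCast, ← Real.rpow_mul hN.le, ← Real.rpow_add hN]; norm_num
  have p5 : N ^ (49 / 50 : ℝ) = N / N ^ (1 / 50 : ℝ) := by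
    rw [eq_div_iff hL.ne', ← Real.rpow_add hN]; norm_num
  have m3 : √(√(A * B) * (A + B) / K) ≤ K / (C * N ^ (1 / 50 : ℝ)) := by
    refine Real.sqrt_le_iff.2 ⟨by positivity, ?_⟩
    have u1 : √(A * B) * (A + B) ≤ 2 * N ^ (47 / 20 : ℝ) := by
      calc _ ≤ N * (N ^ (27 / 20 : ℝ) + N ^ (27 / 20 : ℝ)) := by gcongr
        _ = _ := by rw [← p2]; ring
    have u2 : N ^ (12 / 5 : ℝ) ≤ (K : ℝ) ^ 3 := by rw [← p3]; gcongr
    rw [div_pow, div_le_div_iff₀ hK0 (by positivity)]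
    calc _ ≤ 2 * N ^ (47 / 20 : ℝ) * (C * N ^ (1 / 50 : ℝ)) ^ 2 := by gcongr
      _ = 2 * C ^ 2 * N ^ (239 / 100 : ℝ) * Real.log N ^ 0 := by rw [← p4]; ring
      _ ≤ (K : ℝ) ^ 3 := e3.trans u2
      _ = _ := by ring
  calc _ ≤ ∑ k ∈ Icc 1 K, ∑ b ∈ S1, ∑ a ∈ S2, (rr k (a * b) + md W k (a * b)) :=
        sum_le_sum fun k _ => sum_le_sum fun b _ => sum_le_sum fun a _ => abs_dd_le _ _ _
    _ = ∑ k ∈ Icc 1 K, ∑ b ∈ S1, ∑ a ∈ S2, rr k (a * b) +
        ∑ k ∈ Icc 1 K, ∑ b ∈ S1, ∑ a ∈ S2, md W k (a * b) := by simp only [sum_add_distrib]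
    _ ≤ C * (2 * (K / N) * S1.card * S2.card + N * (K / (C * N ^ (1 / 50 : ℝ)))) +
        2 * (K / N) * S1.card * S2.card := by
        refine add_le_add (key.trans ?_) m1
        gcongr
    _ = _ := by rw [p5]; field_simp; ring

end Pool.Agent.P.MP_8be758_nt.Av2
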