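import Pool.Agent.P.MP_8be758_nt.Av2.Basic

/-! The step `S_VOR`. -/

namespace Pool.Agent.P.MP_8be758_nt.Av2

open Finset Real Filter Topology
open Pool.Agent.P.MP_e86632_nt (ee ee_add ee_add_int norm_ee)
open Pool.Agent.P.MP_8be758_nt.Avg

theorem vor_gp (hGP : S_GP) : ∃ C : ℝ, 0 < C ∧ ∀ (G : ℝ → ℂ) (B ρ s : ℝ) (Y e m n1 : ℕ) (h : ℤ → ℂ),
    0 < ρ → ρ ≤ 1 → 1 ≤ s → 4 * s ^ 2 ≤ n1 → n1 ≤ Y → 0 < e → e ≤ Y → (∀ n, ‖h n‖ ≤ 1) →
    (∀ n, h (n + e) = h n) → (∀ X, ‖G X‖ ≤ gs ((X - 1) / ρ)) →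
    (∃ κ a b : ℂ, 1 + ‖a‖ + ‖b‖ ≤ B ∧ ∀ X : ℝ, G X = κ * Complex.exp (a * X ^ 2 + b * X)) →
    ‖∑ u ∈ Icc 1 n1, h u * (G (√(u : ℝ) / s) / ((√(u : ℝ) : ℝ) : ℂ)) -
      2 * s * ∑ p ∈ Icc (-((Y ^ m : ℕ) : ℤ)) (Y ^ m : ℕ), hat e h p *
        ∫ X : ℝ, G X * ee (-(p * s ^ 2 / e * X ^ 2))‖ ≤
      C * ((Y : ℝ) ^ 2 * B ^ 2 / Y ^ m + 2 * Y ^ (m + 1) * gs (1 / (6 * ρ))) := by
  obtain ⟨C, hC, H⟩ := hGP
  refine ⟨C, hC, fun G B ρ s Y e m n1 h h1 h2 h3 h4 h5 h6 h7 h8 h9 g1 ⟨κ, a, b, g2, g3⟩ => ?_⟩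
  have y0 : 0 < Y := h6.trans_le h7
  have := H κ a b ρ s 1 e (Y ^ m) n1 h h1 h2 h3 h4 h6 (by positivity) h8 h9 fun X => by
    rw [← g3, one_mul]; exact g1 X
  simp only [← g3] at this
  refine this.trans ?_
  have y1 : (1 : ℝ) ≤ Y := by exact_mod_cast y0
  have e1 : (e : ℝ) ≤ Y := by exact_mod_cast h7
  have e2 : (n1 : ℝ) ≤ Y := by exact_mod_cast h5
  have e3 : s ≤ Y := by nlinarith
  have e4 : (n1 : ℝ) + s * Y ^ m ≤ 2 * Y ^ (m + 1) := by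
    have k1 : (Y : ℝ) ≤ Y ^ (m + 1) := le_self_pow₀ y1 (by omega)
    have k2 : s * Y ^ m ≤ Y * Y ^ m := by gcongr
    rw [← pow_succ'] at k2
    linarith
  have := gs_pos (1 / (6 * ρ))
  rw [mul_one, Nat.cast_pow]
  gcongr

theorem vor_g1 {ρ c Y : ℝ} (h0 : 0 < ρ) (h1 : 1 / ρ ≤ Y) (hY : 1 ≤ Y) (hc : |c| ≤ Y ^ 2) :
    ∃ κ a b : ℂ, 1 + ‖a‖ + ‖b‖ ≤ 19 * Y ^ 2 ∧ ∀ W : ℝ,
      (gs ((W - 1) / ρ) : ℂ) * ee (c * W) = κ * Complex.exp (a * W ^ 2 + b * W) := by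
  have h2 : (1 / ρ) ^ 2 ≤ Y ^ 2 := by gcongr
  have h3 := Real.pi_lt_d2
  have h4 := Real.pi_pos
  refine ⟨Complex.exp (-(π * (1 / ρ) ^ 2 : ℝ)), -(π * (1 / ρ) ^ 2 : ℝ),
    (2 * π * (1 / ρ) ^ 2 : ℝ) + (2 * π * c : ℝ) * Complex.I, ?_, fun W => ?_⟩
  · have h5 := norm_add_le ((2 * π * (1 / ρ) ^ 2 : ℝ) : ℂ) ((2 * π * c : ℝ) * Complex.I)
    rw [norm_mul, Complex.norm_I, mul_one, Complex.norm_real, Complex.norm_real, Real.norm_eq_abs,
      Real.norm_eq_abs, abs_of_pos (by positivity), abs_mul, abs_of_pos (by positivity)] at h5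
    rw [norm_neg, Complex.norm_real, Real.norm_eq_abs, abs_of_pos (by positivity)]
    have h6 : π * (1 / ρ) ^ 2 ≤ 3.15 * Y ^ 2 := by gcongr
    have h7 : π * |c| ≤ 3.15 * Y ^ 2 := by gcongr
    have h8 : 1 ≤ Y ^ 2 := one_le_pow₀ hY
    linarith
  · have : (ρ : ℂ) ≠ 0 := by exact_mod_cast h0.ne'
    rw [gs, ee_eq, Complex.ofReal_exp, ← Complex.exp_add, ← Complex.exp_add]
    congr 1
    push_cast
    field_simp
    ring

theorem vor_hat1 {e : ℕ} (he : 0 < e) (u r : ℕ) (q : ℤ) :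
    hat e (fun v => ee (u * v * ((r : ℝ) / e))) q = if (e : ℤ) ∣ u * r + q then 1 else 0 := by
  have h0 : (e : ℂ) ≠ 0 := by exact_mod_cast he.ne'
  rw [hat, sum_congr rfl (g := fun x : ℕ => ee ((x : ℝ) / e * ((u * r + q : ℤ) : ℝ))) fun x _ => by
    rw [← ee_add]; congr 1; push_cast; ring, far_two e _ he]
  split_ifs <;> simp [h0]

theorem vor_hat2 {e r r' : ℕ} (he : 0 < e) (h : r * r' ≡ 1 [MOD e]) (p q : ℤ) :
    hat e (fun u => if (e : ℤ) ∣ u * r + q then 1 else 0) p =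
      1 / (e : ℂ) * ee (-(p * q * ((r' : ℝ) / e))) := by
  obtain ⟨c, hc⟩ := h.dvd
  push_cast at hc
  have h0 : (e : ℤ) ≠ 0 := by exact_mod_cast he.ne'
  have h1 := Int.emod_nonneg (-(q * r')) h0
  have h2 := Int.emod_lt_of_pos (-(q * r')) (show (0 : ℤ) < e by exact_mod_cast he)
  have h3 := Int.emod_add_mul_ediv (-(q * r')) e
  obtain ⟨x, hx⟩ := Int.eq_ofNat_of_zero_le h1
  rw [hx] at h2 h3
  generalize -(q * r') / e = d at h3
  rw [hat, sum_eq_single x (fun y hy hne => ?_) fun hn => absurd (mem_range.2 (by omega)) hn,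
    if_pos ⟨q * c - d * r, by linear_combination r * h3 + q * hc⟩, one_mul,
    ← ee_add_int _ (p * d)]
  · congr 2
    have h4 : (e : ℝ) ≠ 0 := by exact_mod_cast he.ne'
    have h5 : (x : ℝ) + e * d = -(q * r') := by exact_mod_cast h3
    push_cast
    field_simp
    linear_combination p * h5
  · rw [if_neg, zero_mul]
    rintro ⟨k, hk⟩
    have h4 : (e : ℤ) ∣ y - x := ⟨k * r' + y * c + d, by
      linear_combination r' * hk + y * hc - h3⟩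
    have h5 := mem_range.1 hy
    have := Int.eq_zero_of_abs_lt_dvd h4 (abs_lt.2 ⟨by omega, by omega⟩)
    omega

theorem vor_alg (U : Finset ℕ) (Q : Finset ℤ) (w V V' : ℕ → ℂ) (a b : ℕ → ℤ → ℂ) (c D : ℂ)
    (g : ℤ → ℂ) (h1 : ∀ u, V' u = w u * V u) (h2 : ∀ u q, b u q = w u * a u q)
    (h3 : D = c * ∑ q ∈ Q, g q) : ∑ u ∈ U, V' u - D =
      ∑ u ∈ U, w u * (V u - c * ∑ q ∈ Q, a u q) + c * ∑ q ∈ Q, (∑ u ∈ U, b u q - g q) := by
  simp only [h1, h2, h3, mul_sub, sum_sub_distrib]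
  rw [sum_comm (s := Q), mul_sum U]
  simp only [← mul_sum, mul_left_comm c]
  ring

theorem t_VOR (hGP : S_GP) (hGI0 : S_GI0) : S_VOR := by
  obtain ⟨C, hC, H⟩ := vor_gp hGP
  refine ⟨C * 1948, by positivity, fun Y n1 e r r' ρ x y φ hY hn he heY hr h0 h1 h2 h3 hx hy a1 a2 =>
    ?_⟩
  have e0 : (0 : ℝ) < e := by exact_mod_cast he
  have y1 : (1 : ℝ) ≤ Y := by exact_mod_cast le_trans one_le_two hY
  have n0 : (n1 : ℝ) ≤ Y := by exact_mod_cast hn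
  have k1 : ∀ z, Real.exp (2 * (z + Real.log e / 2)) = Real.exp (z + Real.log e / 2) ^ 2 :=
    fun z => by rw [← Real.exp_nat_mul, Nat.cast_ofNat]
  have k2 : ∀ z w, Real.exp (z + Real.log e / 2) * Real.exp (w + Real.log e / 2) =
      e * Real.exp (z + w) := fun z w => by
    rw [← Real.exp_add, ← Real.exp_log e0, ← Real.exp_add, Real.log_exp]
    congr 1
    ring
  have k3 : ∀ z (p : ℤ), p * Real.exp (z + Real.log e / 2) ^ 2 / e = p * Real.exp (2 * z) :=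
    fun z p => by rw [sq, k2, two_mul]; field_simp
  have k4 : ∀ t (u : ℕ), om ρ t u = gs ((√(u : ℝ) / Real.exp t - 1) / ρ) := fun t u => by
    rw [om, Real.exp_neg, ← div_eq_mul_inv]
  have b1 := Real.one_le_exp hx
  have b2 := Real.one_le_exp hy
  have k5 := k2 x y
  have k6 := k3 x
  have k7 := k3 y
  rw [k1] at a1 a2
  simp only [SA, k4]
  generalize Real.exp (x + Real.log e / 2) = s1 at *
  generalize Real.exp (y + Real.log e / 2) = s2 at *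
  have hF : φ * Real.exp (x + y) = φ / e * s1 * s2 := by rw [mul_assoc, k5]; field_simp
  set F := φ * Real.exp (x + y)
  have s0 : 0 < s1 := by linarith
  have s0' : 0 < s2 := by linarith
  have g0 := gs_pos (1 / (6 * ρ))
  have F1 : |F| ≤ (Y : ℝ) ^ 2 := by
    rw [hF, mul_assoc, abs_mul, abs_of_pos (mul_pos s0 s0'), sq]
    exact mul_le_mul h3 (by nlinarith [sq_nonneg (s1 - s2)]) (by positivity) (by positivity)
  have H1 := fun (u : ℕ) (hu : u ∈ Icc 1 n1) => H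
    (fun W => (gs ((W - 1) / ρ) : ℂ) * ee (F * (√(u : ℝ) / s1) * W)) (19 * (Y : ℝ) ^ 2) ρ s2 Y e 12 n1
    (fun v => ee (u * v * ((r : ℝ) / e))) h0 h1 b2 a2 hn he heY (fun _ => (norm_ee _).le)
    (fun n => by
      rw [← ee_add_int (u * n * _) (u * r)]
      congr 1
      push_cast
      field_simp)
    (fun X => by rw [norm_mul, norm_ee, mul_one, Complex.norm_real, Real.norm_of_nonneg (gs_pos _).le])
    (vor_g1 h0 h2 y1 (by
      have u1 : (u : ℝ) ≤ n1 := by exact_mod_cast (mem_Icc.1 hu).2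
      have u2 := Real.sq_sqrt (Nat.cast_nonneg (α := ℝ) u)
      rw [show F * (√(u : ℝ) / s1) = φ / e * (s2 * √(u : ℝ)) by rw [hF]; field_simp, abs_mul,
        abs_of_nonneg (a := s2 * _) (by positivity), sq]
      exact mul_le_mul h3 (by nlinarith [sq_nonneg (s2 - √(u : ℝ))]) (by positivity)
        (by positivity)))
  have H2 := fun q : ℤ => H
    (fun X => (gs ((X - 1) / ρ) : ℂ) * I1 ρ (q * Real.exp (2 * y)) F X) (23 * (Y : ℝ) ^ 4) ρ s1 Y e 28 n1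
    (fun u => if (e : ℤ) ∣ u * r + q then 1 else 0) h0 h1 b1 a1 hn he heY
    (fun _ => by split_ifs <;> simp)
    (fun n => if_congr (by rw [add_mul, add_right_comm, dvd_add_left (dvd_mul_right _ _)]) rfl rfl)
    (fun X => by
      rw [norm_mul, Complex.norm_real, Real.norm_of_nonneg (gs_pos _).le]
      exact mul_le_of_le_one_right (gs_pos _).le (((hGI0 ρ _ F h0).1 X).trans h1))
    (by
      obtain ⟨κ, a, b, c1, c2, c3⟩ := (hGI0 ρ (q * Real.exp (2 * y)) F h0).2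
      refine ⟨κ, a, b, ?_, c3⟩
      have c4 : 1 / ρ ^ 2 ≤ (Y : ℝ) ^ 2 := by
        rw [← one_pow 2, ← div_pow]
        gcongr
      have c5 : F ^ 2 * ρ ^ 2 ≤ ((Y : ℝ) ^ 2) ^ 2 * 1 ^ 2 := by
        rw [← sq_abs F]
        gcongr
      have c6 : (Y : ℝ) ^ 2 ≤ Y ^ 4 := pow_le_pow_right₀ y1 (by norm_num)
      have c7 : 1 ≤ (Y : ℝ) ^ 4 := one_le_pow₀ y1
      linarith)
  have i1 : ∀ Q X : ℝ, ∫ W : ℝ, (gs ((W - 1) / ρ) : ℂ) * ee (F * X * W) * ee (-(Q * W ^ 2)) =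
      I1 ρ Q F X := fun Q X => by
    unfold I1
    congr 1
    funext W
    rw [mul_assoc, ← ee_add, ← sub_eq_add_neg]
  simp only [vor_hat1 he, k7, i1] at H1
  simp only [vor_hat2 he hr, k6] at H2
  set P := Icc (-((Y ^ 12 : ℕ) : ℤ)) (Y ^ 12 : ℕ)
  have E1 := (norm_sum_le _ _).trans (sum_le_sum fun (u : ℕ) (hu : u ∈ Icc 1 n1) =>
    (norm_mul_le ((gs ((√(u : ℝ) / s1 - 1) / ρ) / √(u : ℝ) : ℝ) : ℂ) _).trans (mul_le_mul
      (show _ ≤ (1 : ℝ) by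
        have u1 : (1 : ℝ) ≤ u := by exact_mod_cast (mem_Icc.1 hu).1
        rw [Complex.norm_real, Real.norm_of_nonneg (div_nonneg (gs_pos _).le (by positivity))]
        exact div_le_one_of_le₀ ((gs_le_one _).trans (Real.one_le_sqrt.2 u1)) (by positivity))
      (H1 u hu) (norm_nonneg _) zero_le_one))
  have E2 := (norm_sum_le _ _).trans (sum_le_sum (s := P) fun q _ => H2 q)
  have E3 := (norm_mul_le (2 * s2 : ℂ) _).trans (mul_le_mul (show _ ≤ (Y : ℝ) by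
    rw [norm_mul, Complex.norm_real, Real.norm_of_nonneg s0'.le, Complex.norm_two]
    nlinarith) E2 (norm_nonneg _) (by positivity))
  refine le_trans (le_of_eq (congrArg _ ?_)) ((norm_add_le _ _).trans ((add_le_add E1 E3).trans ?_))
  · refine vor_alg _ _ _ _ _ _ _ _ _ _ (fun u => ?_) (fun u q => ?_) ?_
    · rw [mul_sum]
      refine sum_congr rfl fun v _ => ?_
      rw [Real.sqrt_mul (Nat.cast_nonneg u), ee_add, show F * (√(u : ℝ) / s1) * (√(v : ℝ) / s2) =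
        φ / e * (√(u : ℝ) * √(v : ℝ)) by rw [hF]; field_simp]
      push_cast
      ring
    · push_cast
      ring
    · have k8 : (s1 : ℂ) * s2 = e * Real.exp (x + y) := by exact_mod_cast k5
      have k9 : (e : ℂ) ≠ 0 := by exact_mod_cast e0.ne'
      rw [DS, sum_comm, mul_sum, mul_sum]
      refine sum_congr rfl fun q _ => ?_
      rw [mul_sum, mul_sum, mul_sum]
      refine sum_congr rfl fun p _ => ?_
      have k : ∀ a b : ℂ, 4 * Real.exp (x + y) * (a * b) = 2 * s2 * (2 * s1 * (1 / e * a * b)) :=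
        fun a b => by
          field_simp
          linear_combination (-(4 : ℂ) * a * b) * k8
      exact k _ _
  · have c1 : (P.card : ℝ) ≤ 3 * Y ^ 12 := by
      have : 1 ≤ (Y : ℝ) ^ 12 := one_le_pow₀ y1
      rw [Int.card_Icc, show ((Y ^ 12 : ℕ) : ℤ) + 1 - -((Y ^ 12 : ℕ) : ℤ) = (2 * Y ^ 12 + 1 : ℕ) by
        push_cast; ring, Int.toNat_natCast]
      push_cast
      linarith
    have c2 : (Y : ℝ) ^ 14 ≤ Y ^ 42 := pow_le_pow_right₀ y1 (by norm_num)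
    rw [sum_const, sum_const, Nat.card_Icc, Nat.add_sub_cancel, nsmul_eq_mul, nsmul_eq_mul]
    calc _ ≤ (Y : ℝ) * (1 * (C * ((Y : ℝ) ^ 2 * (19 * Y ^ 2) ^ 2 / Y ^ 12 +
          2 * Y ^ (12 + 1) * gs (1 / (6 * ρ))))) + Y * (3 * Y ^ 12 * (C * ((Y : ℝ) ^ 2 *
          (23 * Y ^ 4) ^ 2 / Y ^ 28 + 2 * Y ^ (28 + 1) * gs (1 / (6 * ρ))))) := by gcongr
      _ = C * (1948 * (1 / (Y : ℝ) ^ 5) + (2 * Y ^ 14 + 6 * Y ^ 42) * gs (1 / (6 * ρ))) := by
        field_simp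
        ring
      _ ≤ C * (1948 * (1 / (Y : ℝ) ^ 5) + (1948 * Y ^ 42) * gs (1 / (6 * ρ))) := by
        gcongr
        linarith [pow_nonneg (Nat.cast_nonneg (α := ℝ) Y) 42]
      _ = _ := by ring

end Pool.Agent.P.MP_8be758_nt.Av2
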