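import Pool.Agent.P.MP_8be758_nt.Av2.Basic

/-! The step `S_WW`. -/

namespace Pool.Agent.P.MP_8be758_nt.Av2

open Finset Real Filter Topology
open Pool.Agent.P.MP_e86632_nt (ee)
open Pool.Agent.P.MP_8be758_nt.Avg

theorem ww_lin {o : ℝ → ℝ} (ho : Continuous o) (a b c g : ℝ) :
    ∫ x in a..b, (c * o x + g) = c * (∫ x in a..b, o x) + (b - a) * g := by
  rw [intervalIntegral.integral_add ((ho.const_mul c).intervalIntegrable _ _)
    (continuous_const.intervalIntegrable _ _), intervalIntegral.integral_const_mul,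
    intervalIntegral.integral_const, smul_eq_mul]

theorem ww_le {f o : ℝ → ℝ} (hf : Continuous f) (ho : Continuous o) {a b c g : ℝ} (hab : a ≤ b)
    (h : ∀ x ∈ Set.Icc a b, f x ≤ c * o x + g) :
    ∫ x in a..b, f x ≤ c * (∫ x in a..b, o x) + (b - a) * g :=
  (intervalIntegral.integral_mono_on hab (hf.intervalIntegrable _ _)
    (((ho.const_mul c).add continuous_const).intervalIntegrable _ _) h).trans_eq
      (ww_lin ho a b c g)

theorem ww_ge {f o : ℝ → ℝ} (hf : Continuous f) (ho : Continuous o) {a b c g : ℝ} (hab : a ≤ b)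
    (h : ∀ x ∈ Set.Icc a b, c * o x + g ≤ f x) :
    c * (∫ x in a..b, o x) + (b - a) * g ≤ ∫ x in a..b, f x :=
  (ww_lin ho a b c g).symm.trans_le (intervalIntegral.integral_mono_on hab
    (((ho.const_mul c).add continuous_const).intervalIntegrable _ _) (hf.intervalIntegrable _ _) h)

theorem ww_inner (ρ τ1 τ2 t1 : ℝ) (u v : ℕ) : ∫ t in τ1..τ2, om ρ t1 u * om ρ (t - t1) v =
    om ρ t1 u * ∫ t in τ1 - t1..τ2 - t1, om ρ t v := by
  rw [intervalIntegral.integral_const_mul,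
    intervalIntegral.integral_comp_sub_right (fun t => om ρ t v)]

theorem t_WW (hOM : S_OM) : S_WW := by
  obtain ⟨C, hC, hO⟩ := hOM
  refine ⟨12 * C + 1, by positivity, fun ρ T L j1 j2 τ1 τ2 u v hρ hT hκ hu hv hj hτ hL hjL hτ1 => ?_⟩
  obtain ⟨u1, u2⟩ := hO ρ T u hρ hT hκ hu
  obtain ⟨v1, v2⟩ := hO ρ T v hρ hT hκ hv
  have hl : Real.log (u * v) = Real.log u + Real.log v :=
    Real.log_mul (by positivity) (by positivity)
  rw [hl]
  generalize Real.log u = lam at *
  generalize Real.log v = mu at *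
  have g0 := gs_pos T
  generalize gs T = g at *
  have cW := continuous_WW_inner ρ τ1 τ2 u v
  have cu := continuous_om ρ u
  have jg : (j2 - j1) * g ≤ L * g := by gcongr
  have τg : (τ2 - τ1) * g ≤ g := by nlinarith
  refine ⟨fun h => ?_, fun hg => ?_⟩
  · have h1 := ww_le cW cu hj (c := 0) (g := g) fun t1 ht1 => by
      have h2 := ww_le (f := fun t => om ρ t1 u * om ρ (t - t1) v) (by fun_prop) cu hτ (c := 0)
        (g := g) fun t ht => by
          have a1 := om_pos ρ t1 u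
          have a2 := om_pos ρ (t - t1) v
          have a3 := om_le_one ρ t1 u
          have a4 := om_le_one ρ (t - t1) v
          have : 2 * (ρ * T) ≤ |lam / 2 - t1| ∨ 2 * (ρ * T) ≤ |mu / 2 - (t - t1)| := by
            by_contra h3
            rw [not_or, not_le, not_le, abs_lt, abs_lt] at h3
            rcases h with h | h | h | h <;> linarith [ht.1, ht.2, ht1.1, ht1.2, h3.1.1, h3.1.2,
              h3.2.1, h3.2.2]
          rcases this with h3 | h3
          · have := u1 _ h3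
            nlinarith
          · have := v1 _ h3
            nlinarith
      linarith
    unfold WW
    linarith
  have ρ1 : ρ ≤ 1 / 6 := by nlinarith
  have g1 : g ≤ ρ ^ 3 := by nlinarith
  have ρ3 : ρ ^ 3 ≤ ρ := by
    have := pow_le_pow_of_le_one hρ.le (by linarith) (show 1 ≤ 3 by norm_num)
    rwa [pow_one] at this
  have T3 : 1 ≤ T ^ 3 := one_le_pow₀ hT
  have ρ4 : ρ ^ 3 ≤ ρ ^ 2 * T ^ 3 := by
    rw [pow_succ ρ 2]
    gcongr
    linarith
  have Ψ1 : ∀ t1, (∫ t in τ1 - t1..τ2 - t1, om ρ t v) ≤ 3 * ρ := fun t1 => by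
    have := (v2 _ _ (sub_le_sub_right hτ t1)).1
    rw [sub_sub_sub_cancel_right] at this
    linarith
  have Ψ0 : ∀ t1, 0 ≤ ∫ t in τ1 - t1..τ2 - t1, om ρ t v := fun t1 =>
    intervalIntegral.integral_nonneg (sub_le_sub_right hτ t1) fun _ _ => (om_pos _ _ _).le
  have I1 : (∫ t in j1..j2, om ρ t u) ≤ 3 * ρ := by
    have := (u2 _ _ hj).1
    linarith
  have I0 : 0 ≤ ∫ t in j1..j2, om ρ t u :=
    intervalIntegral.integral_nonneg hj fun _ _ => (om_pos _ _ _).le
  refine ⟨?_, fun b1 b2 b3 b4 => ?_⟩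
  · have h1 := ww_le cW cu hj (c := 3 * ρ) (g := 0) fun t1 _ => by
      rw [ww_inner, add_zero, mul_comm]
      exact mul_le_mul_of_nonneg_right (Ψ1 t1) (om_pos _ _ _).le
    unfold WW
    nlinarith
  obtain ⟨η, hη⟩ : ∃ η, η = 3 * C * (ρ ^ 2 * T ^ 3) := ⟨_, rfl⟩
  have η0 : 0 ≤ η := by rw [hη]; positivity
  have I2 : |(∫ t in j1..j2, om ρ t u) - ρ| ≤ η := by
    refine ((u2 _ _ hj).2 b1 (by linarith)).trans ?_
    rw [hη, mul_comm 3 C, mul_assoc]
    gcongr
    linarith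
  have key : ∀ t1, |om ρ t1 u * ((∫ t in τ1 - t1..τ2 - t1, om ρ t v) - ρ)| ≤
      η * om ρ t1 u + g := fun t1 => by
    have a1 := om_pos ρ t1 u
    rw [abs_mul, abs_of_pos a1]
    rcases le_total (2 * (ρ * T)) |lam / 2 - t1| with h | h
    · have a2 := u1 _ h
      have a3 : |(∫ t in τ1 - t1..τ2 - t1, om ρ t v) - ρ| ≤ 1 :=
        abs_le.2 ⟨by linarith [Ψ0 t1], by linarith [Ψ1 t1]⟩
      nlinarith
    · obtain ⟨h1, h2⟩ := abs_le.1 h
      have a3 : |(∫ t in τ1 - t1..τ2 - t1, om ρ t v) - ρ| ≤ η := by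
        refine ((v2 _ _ (sub_le_sub_right hτ t1)).2 (by linarith) (by linarith)).trans ?_
        rw [hη, mul_comm 3 C, mul_assoc]
        gcongr
        linarith
      nlinarith
  have h1 := ww_le cW cu hj (c := ρ + η) (g := g) fun t1 _ => by
    rw [ww_inner]
    linarith [(abs_le.1 (key t1)).2]
  have h2 := ww_ge cW cu hj (c := ρ - η) (g := -g) fun t1 _ => by
    rw [ww_inner]
    linarith [(abs_le.1 (key t1)).1]
  obtain ⟨i1, i2⟩ := abs_le.1 I2
  have e : (12 * C + 1) * ρ ^ 3 * T ^ 3 = 4 * (ρ * η) + ρ ^ 3 * T ^ 3 := by rw [hη]; ring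
  have r3 : ρ ^ 3 ≤ ρ ^ 3 * T ^ 3 := le_mul_of_one_le_right (by positivity) T3
  have m1 := mul_le_mul_of_nonneg_left I1 η0
  have m2 := mul_le_mul_of_nonneg_left i1 hρ.le
  have m3 := mul_le_mul_of_nonneg_left i2 hρ.le
  unfold WW
  rw [e, abs_le]
  constructor <;> linarith

end Pool.Agent.P.MP_8be758_nt.Av2
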