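import Pool.Agent.P.MP_8be758_nt.Av2.Basic

/-! The step `S_ZF`. -/

namespace Pool.Agent.P.MP_8be758_nt.Av2

open Finset Real Filter Topology
open Pool.Agent.P.MP_e86632_nt (ee)
open Pool.Agent.P.MP_8be758_nt.Avg

theorem zf_int {ρ a b s1 s2 γ M : ℝ} {n1 : ℕ} {f : ℝ → ℂ} (hf : Continuous f) (hab : a ≤ b)
    (hs : s1 ≤ s2) (h : ∀ t1 t, a ≤ t1 → t1 ≤ b → s1 ≤ t → t ≤ s2 →
      ‖SA ρ n1 t1 (t - t1) γ 0 - f t‖ ≤ M) :
    ‖SR ρ n1 a b s1 s2 γ 0 - ((b - a : ℝ) : ℂ) * ∫ t in s1..s2, f t‖ ≤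
      M * (s2 - s1) * (b - a) := by
  have c0 : Continuous fun p : ℝ × ℝ => SA ρ n1 p.1 (p.2 - p.1) γ 0 :=
    (continuous_SA ρ n1).comp (f := fun p : ℝ × ℝ => (p.1, p.2 - p.1, γ, (0 : ℝ))) (by fun_prop)
  have c1 : Continuous fun t1 => ∫ t in s1..s2, SA ρ n1 t1 (t - t1) γ 0 :=
    intervalIntegral.continuous_parametric_intervalIntegral_of_continuous'
      (f := fun t1 t => SA ρ n1 t1 (t - t1) γ 0) c0 s1 s2
  have e : ((b - a : ℝ) : ℂ) * ∫ t in s1..s2, f t = ∫ _t1 in a..b, ∫ t in s1..s2, f t := by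
    rw [intervalIntegral.integral_const, Complex.real_smul]
  rw [e, SR, ← intervalIntegral.integral_sub (c1.intervalIntegrable _ _)
    (continuous_const.intervalIntegrable _ _)]
  refine (intervalIntegral.norm_integral_le_of_norm_le_const (C := M * (s2 - s1))
    fun t1 ht1 => ?_).trans_eq (by rw [abs_of_nonneg (sub_nonneg.2 hab)])
  rw [Set.uIoc_of_le hab] at ht1
  have c2 : Continuous fun t => SA ρ n1 t1 (t - t1) γ 0 :=
    c0.comp (f := fun t : ℝ => (t1, t)) (by fun_prop)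
  rw [← intervalIntegral.integral_sub (c2.intervalIntegrable _ _) (hf.intervalIntegrable _ _)]
  refine (intervalIntegral.norm_integral_le_of_norm_le_const (C := M)
    fun t ht => ?_).trans_eq (by rw [abs_of_nonneg (sub_nonneg.2 hs)])
  rw [Set.uIoc_of_le hs] at ht
  exact h t1 t ht1.1.le ht1.2 ht.1.le ht.2

theorem zf_exp {x y E t : ℝ} (hE : 1 ≤ E) (h : x * E < Real.exp (2 * y))
    (ht : y - Real.log E / 2 ≤ t) : x < Real.exp (2 * t) := by
  have h0 : 0 < E := by linarith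
  refine lt_of_lt_of_le ((lt_div_iff₀ h0).2 h) ?_
  rw [← Real.exp_log h0, ← Real.exp_sub]
  exact Real.exp_le_exp.2 (by linarith)

theorem t_ZF (hZF0 : S_ZF0) (hTRU : S_TRU) : S_ZF := by
  obtain ⟨C, hC, H⟩ := hZF0
  refine ⟨2 + C, by positivity, ?_⟩
  intro Y n1 E1 E2 q r ρ T j j' l τ1 τ2 I P P' hI hq a1 a1' a2 a2'
  have hg : 0 < Nat.gcd (E1 * E2 * r) q := Nat.gcd_pos_of_pos_right _ hq
  obtain ⟨r1, hr1⟩ := Nat.gcd_dvd_left (E1 * E2 * r) q
  obtain ⟨e, he⟩ := Nat.gcd_dvd_right (E1 * E2 * r) q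
  have hco : r1.Coprime e := by
    have := Nat.coprime_div_gcd_div_gcd hg
    rwa [Nat.div_eq_of_eq_mul_right hg hr1, Nat.div_eq_of_eq_mul_right hg he] at this
  generalize Nat.gcd (E1 * E2 * r) q = g at hg hr1 he
  have e1 : 1 ≤ e := Nat.pos_of_ne_zero fun h => by rw [h] at he; omega
  have e2 : (e : ℝ) ≤ q := by exact_mod_cast he ▸ Nat.le_mul_of_pos_left e hg
  have e3 : ((E1 * E2 : ℕ) : ℝ) * ((r : ℝ) / q) = (r1 : ℝ) / e := by
    have b1 : (g : ℝ) ≠ 0 := by exact_mod_cast hg.ne'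
    rw [← mul_div_assoc, ← Nat.cast_mul, hr1, he, Nat.cast_mul, Nat.cast_mul,
      mul_div_mul_left _ _ b1]
  have hE1 : (1 : ℝ) ≤ E1 := by exact_mod_cast P.e1
  have hE2 : (1 : ℝ) ≤ E2 := by exact_mod_cast P.e2
  have l1 := Real.log_nonneg hE1
  have l2 := Real.log_nonneg hE2
  have l3 : Real.log (E1 * E2) = Real.log E1 + Real.log E2 :=
    Real.log_mul (by linarith) (by linarith)
  have hN := neg_nonneg' Y T
  have hY : (2 : ℝ) ≤ Y := by exact_mod_cast P.y2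
  have hl0 : 0 ≤ l := by linarith [P.j12]
  have hl : l ≤ Y := by
    have b1 : 0 ≤ 2 * j := Real.one_le_exp_iff.1 (hE1.trans P.u1)
    have b2 := Real.add_one_le_exp (2 * (j + l))
    have b3 : (n1 : ℝ) ≤ Y := by exact_mod_cast P.n
    linarith [P.u2]
  have hT : 0 ≤ T := by linarith [P.t1]
  have hρ := P.r0
  have e4 : e * T / ρ ≤ q * T / ρ := by gcongr
  obtain ⟨m, hm⟩ : ∃ m : ℂ, m = (l : ℂ) * ∫ t in (τ1 - Real.log (E1 * E2) / 2)..(τ2 -
    Real.log (E1 * E2) / 2), ((4 * Real.exp t * ρ ^ 2 / e : ℝ) : ℂ) := ⟨_, rfl⟩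
  have key : ∀ j : ℝ, Par Y n1 ρ T j (j + l) τ1 τ2 E1 E2 → q * T / ρ * E1 < Real.exp (2 * j) →
      q * T / ρ * E2 < Real.exp (2 * (τ1 - (j + l))) →
      ‖SI I (al ρ j (j + l) τ1 τ2 E1 E2) ((r : ℝ) / q) 0 -
        ((1 / √((E1 : ℝ) * E2) : ℝ) : ℂ) * m‖ ≤ (1 + C / 2) * (Y * Neg Y T) := by
    intro j P a1 a2
    have h1 := hTRU Y n1 E1 E2 ρ T j (j + l) τ1 τ2 ((r : ℝ) / q) 0 I P hI
    rw [mul_zero, e3] at h1
    have h2 := zf_int (ρ := ρ) (n1 := n1) (γ := (r1 : ℝ) / e) (M := C * Neg Y T)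
      (a := j - Real.log E1 / 2) (b := j + l - Real.log E1 / 2)
      (s1 := τ1 - Real.log (E1 * E2) / 2) (s2 := τ2 - Real.log (E1 * E2) / 2)
      (f := fun t => ((4 * Real.exp t * ρ ^ 2 / e : ℝ) : ℂ)) (by fun_prop) (by linarith)
      (by linarith [P.s12]) fun t1 t b1 b2 b3 b4 => by
        have := H Y n1 e r1 ρ T t1 (t - t1) P.y2 P.n e1 hco hρ P.r1 P.t1 P.t2
          (e4.trans_lt (zf_exp hE1 a1 b1)) (e4.trans_lt (zf_exp hE2 a2 (by linarith)))
          (le_trans (by gcongr; linarith) P.u2) (le_trans (mul_le_mul_of_nonneg_left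
            (Real.exp_le_exp.2 (by linarith)) (by norm_num)) P.v2)
        rwa [add_sub_cancel] at this
    rw [show j + l - Real.log E1 / 2 - (j - Real.log E1 / 2) = l by ring, ← hm,
      show τ2 - Real.log (E1 * E2) / 2 - (τ1 - Real.log (E1 * E2) / 2) = τ2 - τ1 by ring] at h2
    have h3 : ‖((1 / √((E1 : ℝ) * E2) : ℝ) : ℂ)‖ ≤ 1 := by
      rw [Complex.norm_real, Real.norm_of_nonneg (by positivity)]
      exact div_le_one_of_le₀ (Real.one_le_sqrt.2 (by nlinarith)) (by positivity)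
    have h4 : (Y : ℝ) ^ 3 * gs T ≤ Y * Neg Y T := by
      have b1 := gs_pos T
      have b2 : (Y : ℝ) ^ 3 ≤ (Y : ℝ) ^ 50 := pow_le_pow_right₀ (by linarith) (by norm_num)
      have b3 : (Y : ℝ) ^ 3 * gs T ≤ Neg Y T :=
        le_add_of_nonneg_of_le (by positivity) (mul_le_mul_of_nonneg_right b2 b1.le)
      nlinarith
    have h5 : C * Neg Y T * (τ2 - τ1) * l ≤ C * Neg Y T * (1 / 2) * Y := by
      have := P.s12
      have := P.s21
      gcongr
      linarith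
    refine (norm_sub_le_norm_sub_add_norm_sub _ _ _).trans ((add_le_add h1 ?_).trans
      (show (Y : ℝ) ^ 3 * gs T + 1 * (C * Neg Y T * (1 / 2) * Y) ≤ _ by linarith))
    rw [← mul_sub, norm_mul]
    exact mul_le_mul h3 (h2.trans h5) (norm_nonneg _) zero_le_one
  rw [SI_sub]
  refine (norm_sub_le_norm_sub_add_norm_sub _ _ _).trans ((add_le_add (key j P a1 a2)
    ((norm_sub_rev _ _).trans_le (key j' P' a1' a2'))).trans_eq (by ring))

end Pool.Agent.P.MP_8be758_nt.Av2
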