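import Pool.Agent.P.MP_8be758_nt.Av2.Basic

/-! The step `S_ZF0`. -/

namespace Pool.Agent.P.MP_8be758_nt.Av2

open Finset Real Filter Topology
open Pool.Agent.P.MP_e86632_nt (ee)
open Pool.Agent.P.MP_8be758_nt.Avg

theorem zf0_zero {p : ℤ} {X u c : ℝ} (hc : c < X) (hu : 1 / 2 ≤ u) (h : |p * X * u| ≤ c / 2) :
    p = 0 := by
  by_contra h0
  have h1 : (1 : ℝ) ≤ |(p : ℝ)| := by exact_mod_cast Int.one_le_abs h0
  have h2 : 0 < X := by linarith [abs_nonneg (p * X * u)]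
  rw [abs_mul, abs_mul, abs_of_pos h2, abs_of_pos (by linarith : 0 < u)] at h
  have h3 : X * (1 / 2) ≤ |(p : ℝ)| * X * u :=
    mul_le_mul (le_mul_of_one_le_left h2.le h1) hu (by norm_num) (by positivity)
  linarith

theorem zf0_ds (hGI : S_GI) {ρ T x y γ : ℝ} (P1 P2 : ℕ) (hρ : 0 < ρ) (hT : 1 ≤ T)
    (hρT : ρ * T ≤ 1 / 6) (hx : T / ρ < Real.exp (2 * x)) (hy : T / ρ < Real.exp (2 * y)) :
    ‖DS ρ P1 P2 x y 0 γ - (ρ : ℂ) ^ 2‖ ≤ (2 * P1 + 1) * (2 * P2 + 1) * gs T := by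
  obtain ⟨h1, h2⟩ := hGI ρ hρ
  have hm : ((0, 0) : ℤ × ℤ) ∈ Icc (-(P1 : ℤ)) P1 ×ˢ Icc (-(P2 : ℤ)) P2 := by simp
  rw [DS, ← sum_product', ← add_sum_erase _ _ hm]
  simp only [Int.cast_zero, zero_mul, neg_zero, Pool.Agent.P.MP_e86632_nt.ee_zero, one_mul, h1,
    add_sub_cancel_left]
  have hρ1 : ρ ≤ 1 := by nlinarith
  refine (norm_sum_le_of_le _ (n := fun _ => gs T) fun z hz => ?_).trans ?_
  · rw [norm_mul, Pool.Agent.P.MP_e86632_nt.norm_ee, one_mul]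
    rcases (h2 _ _ 0).2 T (by linarith) (by linarith) with h | ⟨u, v, u1, -, v1, -, k1, k2⟩
    · exact h.trans (mul_le_of_le_one_left (gs_pos _).le (pow_le_one₀ hρ.le hρ1))
    · rw [zero_mul, zero_div, sub_zero, mul_comm 2 ρ, ← div_div] at k1 k2
      exact absurd (Prod.ext (zf0_zero hx u1 k1) (zf0_zero hy v1 k2)) (ne_of_mem_erase hz)
  · rw [sum_const, nsmul_eq_mul]
    refine mul_le_mul_of_nonneg_right ?_ (gs_pos _).le
    have h3 := card_erase_le (s := Icc (-(P1 : ℤ)) P1 ×ˢ Icc (-(P2 : ℤ)) P2) (a := (0, 0))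
    have h4 : ∀ P : ℕ, (Icc (-(P : ℤ)) P).card = 2 * P + 1 := fun P => by
      rw [Int.card_Icc]
      omega
    rw [card_product, h4, h4] at h3
    exact_mod_cast h3

theorem t_ZF0 (hVOR : S_VOR) (hGI : S_GI) : S_ZF0 := by
  obtain ⟨C, hC, hV⟩ := hVOR
  refine ⟨C + 9, by positivity, fun Y n1 e r ρ T t1 t2 hY hn he hr hρ hρY hT hρT h1 h2 h3 h4 => ?_⟩
  have he1 : (1 : ℝ) ≤ e := by exact_mod_cast he
  have he0 : (0 : ℝ) < e := by linarith
  have hY2 : (2 : ℝ) ≤ Y := by exact_mod_cast hY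
  have hnY : (n1 : ℝ) ≤ Y := by exact_mod_cast hn
  have hρ1 : ρ ≤ 1 := by nlinarith
  have hq : 1 ≤ T / ρ := by rw [le_div_iff₀ hρ]; linarith
  rw [mul_div_assoc] at h1 h2
  have heq : (e : ℝ) ≤ e * (T / ρ) := le_mul_of_one_le_right he0.le hq
  have hpos : ∀ t : ℝ, e * (T / ρ) < Real.exp (2 * t) → 0 ≤ t := fun t h => by
    have := Real.one_le_exp_iff.1 (by linarith : 1 ≤ Real.exp (2 * t))
    linarith
  have hex : ∀ t : ℝ, e * (T / ρ) < Real.exp (2 * t) →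
      T / ρ < Real.exp (2 * (t - Real.log e / 2)) := fun t h => by
    rw [show 2 * (t - Real.log e / 2) = 2 * t - Real.log e by ring, Real.exp_sub, Real.exp_log he0,
      lt_div_iff₀ he0]
    linarith
  obtain ⟨r', hr'⟩ : ∃ r' : ℕ, r * r' ≡ 1 [MOD e] := by
    rcases he.eq_or_lt with rfl | h
    · exact ⟨0, Nat.modEq_one⟩
    · obtain ⟨r', -, k⟩ := Nat.exists_mul_mod_eq_one_of_coprime hr h
      exact ⟨r', by rw [Nat.ModEq, k, Nat.mod_eq_of_lt h]⟩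
  have hE := Real.exp_pos (2 * t1)
  have k1 := hV Y n1 e r r' ρ (t1 - Real.log e / 2) (t2 - Real.log e / 2) 0 hY hn he
    (by exact_mod_cast (by linarith : (e : ℝ) ≤ Y)) hr' hρ hρ1 hρY (by simp)
  simp only [sub_add_cancel, zero_div] at k1
  have k2 := k1 (hpos _ h1) (hpos _ h2) h3 h4
  have k3 := zf0_ds hGI (γ := (r' : ℝ) / e) (Y ^ 28) (Y ^ 12) hρ hT hρT (hex _ h1) (hex _ h2)
  have e1 : Real.exp (t1 - Real.log e / 2 + (t2 - Real.log e / 2)) = Real.exp (t1 + t2) / e := by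
    rw [show t1 - Real.log e / 2 + (t2 - Real.log e / 2) = t1 + t2 - Real.log e by ring,
      Real.exp_sub, Real.exp_log he0]
  rw [e1] at k2
  set D := DS ρ (Y ^ 28) (Y ^ 12) (t1 - Real.log e / 2) (t2 - Real.log e / 2) 0 ((r' : ℝ) / e)
  set u := Real.exp (t1 + t2) / e with hu
  have hu0 : 0 < u := by positivity
  have hu1 : 4 * u ≤ Y := by
    have a1 : u ≤ Real.exp (t1 + t2) := div_le_self (Real.exp_pos _).le he1
    have a2 : Real.exp (t1 + t2) ≤ max (Real.exp (2 * t1)) (Real.exp (2 * t2)) := by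
      rcases le_total t1 t2 with k | k
      · exact le_max_of_le_right (Real.exp_le_exp.2 (by linarith))
      · exact le_max_of_le_left (Real.exp_le_exp.2 (by linarith))
    have a3 : max (Real.exp (2 * t1)) (Real.exp (2 * t2)) ≤ Y / 4 :=
      max_le (by linarith) (by linarith)
    linarith
  have e2 : SA ρ n1 t1 t2 ((r : ℝ) / e) 0 - ((4 * Real.exp (t1 + t2) * ρ ^ 2 / e : ℝ) : ℂ) =
      (SA ρ n1 t1 t2 ((r : ℝ) / e) 0 - 4 * (u : ℂ) * D) + ((4 * u : ℝ) : ℂ) * (D - (ρ : ℂ) ^ 2) := by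
    rw [hu]
    push_cast
    ring
  rw [e2]
  refine (norm_add_le _ _).trans ?_
  rw [norm_mul, Complex.norm_real, Real.norm_of_nonneg (by positivity)]
  have hY1 : (1 : ℝ) ≤ Y := by linarith
  have hg := gs_pos T
  have b1 : 1 / (Y : ℝ) ^ 5 ≤ 1 / (Y : ℝ) ^ 3 :=
    one_div_le_one_div_of_le (by positivity) (pow_le_pow_right₀ hY1 (by norm_num))
  have b2 : (Y : ℝ) ^ 42 * gs (1 / (6 * ρ)) ≤ (Y : ℝ) ^ 50 * gs T :=
    mul_le_mul (pow_le_pow_right₀ hY1 (by norm_num))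
      (gs_mono (by linarith) (by rw [le_div_iff₀ (by positivity)]; linarith)) (gs_pos _).le
      (by positivity)
  have b3 : 4 * u * ‖D - (ρ : ℂ) ^ 2‖ ≤ 9 * ((Y : ℝ) ^ 50 * gs T) := by
    have c1 : (1 : ℝ) ≤ (Y : ℝ) ^ 28 := one_le_pow₀ hY1
    have c2 : (1 : ℝ) ≤ (Y : ℝ) ^ 12 := one_le_pow₀ hY1
    push_cast at k3
    calc 4 * u * ‖D - (ρ : ℂ) ^ 2‖ ≤ Y * ((3 * (Y : ℝ) ^ 28) * (3 * (Y : ℝ) ^ 12) * gs T) := by
          refine mul_le_mul hu1 (k3.trans ?_) (norm_nonneg _) (by positivity)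
          gcongr <;> linarith
      _ = 9 * ((Y : ℝ) ^ 41 * gs T) := by ring
      _ ≤ _ := by gcongr; norm_num
  have b4 : 0 ≤ 1 / (Y : ℝ) ^ 3 := by positivity
  have b5 := mul_le_mul_of_nonneg_left (add_le_add b1 b2) hC.le
  unfold Neg
  linarith

end Pool.Agent.P.MP_8be758_nt.Av2
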