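import Pool.Agent.P.MP_8be758_nt.Av2.POI
import Pool.Agent.P.MP_8be758_nt.Av2.CUT
import Pool.Agent.P.MP_8be758_nt.Av2.GP
import Pool.Agent.P.MP_8be758_nt.Av2.GI0
import Pool.Agent.P.MP_8be758_nt.Av2.GI
import Pool.Agent.P.MP_8be758_nt.Av2.VOR
import Pool.Agent.P.MP_8be758_nt.Av2.LSV
import Pool.Agent.P.MP_8be758_nt.Av2.SUP
import Pool.Agent.P.MP_8be758_nt.Av2.GR1
import Pool.Agent.P.MP_8be758_nt.Av2.GR
import Pool.Agent.P.MP_8be758_nt.Av2.GE0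
import Pool.Agent.P.MP_8be758_nt.Av2.OM
import Pool.Agent.P.MP_8be758_nt.Av2.WW
import Pool.Agent.P.MP_8be758_nt.Av2.TRU
import Pool.Agent.P.MP_8be758_nt.Av2.GA
import Pool.Agent.P.MP_8be758_nt.Av2.ZF0
import Pool.Agent.P.MP_8be758_nt.Av2.ZF
import Pool.Agent.P.MP_8be758_nt.Av2.BES
import Pool.Agent.P.MP_8be758_nt.Av2.TH
import Pool.Agent.P.MP_8be758_nt.Av2.CH
import Pool.Agent.P.MP_8be758_nt.Av2.CG
import Pool.Agent.P.MP_8be758_nt.Av2.PB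
import Pool.Agent.P.MP_8be758_nt.Av2.OSC3
import Pool.Agent.P.MP_8be758_nt.Av2.PRIM
import Pool.Agent.P.MP_8be758_nt.Av2.FRZ
import Pool.Agent.P.MP_8be758_nt.Av2.QF0
import Pool.Agent.P.MP_8be758_nt.Av2.QF
import Pool.Agent.P.MP_8be758_nt.Av2.MD
import Pool.Agent.P.MP_8be758_nt.Av2.CELL0
import Pool.Agent.P.MP_8be758_nt.Av2.CELL
import Pool.Agent.P.MP_8be758_nt.Av2.SWAP
import Pool.Agent.P.MP_8be758_nt.Av2.FLT
import Pool.Agent.P.MP_8be758_nt.Av2.SVS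
import Pool.Agent.P.MP_8be758_nt.Av2.SMO
import Pool.Agent.P.MP_8be758_nt.Av2.REP
import Pool.Agent.P.MP_8be758_nt.Av2.UPD2
import Pool.Agent.P.MP_8be758_nt.Av2.UPW
import Pool.Agent.P.MP_8be758_nt.Av2.SW2
import Pool.Agent.P.MP_8be758_nt.Av2.EDG
import Pool.Agent.P.MP_8be758_nt.Av2.BOX3
import Pool.Agent.P.MP_8be758_nt.Av2.HYP
import Pool.Agent.P.MP_8be758_nt.Av2.PER2
import Pool.Agent.P.MP_8be758_nt.Av2.BX2
import Pool.Agent.P.MP_8be758_nt.Av2.GAP2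
import Pool.Agent.P.MP_8be758_nt.Av2.II2
import Pool.Agent.P.MP_8be758_nt.Av2.RG
import Pool.Agent.P.MP_8be758_nt.Av2.III
import Pool.Agent.P.MP_8be758_nt.Av2.LAY
import Pool.Agent.P.MP_8be758_nt.Av2.KER2
import Pool.Agent.P.MP_8be758_nt.Av2.TI2
import Pool.Agent.P.MP_8be758_nt.Av2.I2
import Pool.Agent.P.MP_8be758_nt.Av2.HBI
import Pool.Agent.P.MP_8be758_nt.Av2.EXP
import Pool.Agent.P.MP_8be758_nt.Av2.PRB
import Pool.Agent.P.MP_8be758_nt.Av2.G1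
import Pool.Agent.P.MP_8be758_nt.Av2.G2
import Pool.Agent.P.MP_8be758_nt.Av2.G3
import Pool.Agent.P.MP_8be758_nt.Av2.PR3
import Pool.Agent.P.MP_8be758_nt.Av2.PR2
import Pool.Agent.P.MP_8be758_nt.Av2.PR1
import Pool.Agent.P.MP_8be758_nt.Av2.HB
import Pool.Agent.P.MP_8be758_nt.Av2.CORE2
import Pool.Agent.P.MP_8be758_nt.Av2.PIECES2
import Pool.Agent.P.MP_8be758_nt.Av2.FINAL2

/-! Assembly of all the steps. -/

namespace Pool.Agent.P.MP_8be758_nt.Av2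

theorem all_steps (θ δ : ℝ) (hθ : 4 / 5 < θ) (hδ : 0 < δ) : S_FINAL2 θ δ := by
  have h45 : 4 / 5 ≤ θ := hθ.le
  have hGI := t_GI t_GI0
  have hVOR := t_VOR (t_GP t_POI t_CUT) t_GI0
  have hWW := t_WW t_OM
  have hTRU := t_TRU hWW
  have hGA := t_GA hTRU t_GE0 (t_GR (t_GR1 hVOR (t_LSV hGI)) t_SUP)
  have hQF := t_QF (t_QF0 t_PRIM t_FRZ) (t_OSC3 t_PB t_TH t_CG (t_CH t_BES))
  have hCELL := t_CELL (t_CELL0 hQF t_MD) hGA (t_ZF (t_ZF0 hVOR hGI) hTRU) hWW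
  have hUPW := t_UPW t_UPD2
  have hBOX3 := t_BOX3 (t_SW2 t_FLT (t_REP (t_SMO hWW) t_SVS) (t_SWAP hCELL) hUPW) t_EDG hUPW
  have hHYP := t_HYP t_UPD2
  have hII : ∀ θ' β : ℝ, 4 / 5 ≤ θ' → 13 / 20 ≤ β → 2 - 3 * θ' / 2 < β → S_II2 θ' (δ / 2) β :=
    fun θ' β h1 h2 h3 => t_II2 hHYP (t_GAP2 t_UPD2) θ' _ β h1 h2
      (t_BX2 t_PER2 θ' _ β h1 (half_pos hδ) h2 h3)
  have hIII := t_III hHYP hBOX3 θ _ h45 (t_RG θ _ (hII θ _ h45 (by norm_num) (by linarith)))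
    (hII _ _ (by norm_num) le_rfl (by norm_num))
  obtain ⟨κ, k0, k1, k2⟩ : ∃ κ : ℝ, 0 < κ ∧ κ ≤ θ - 4 / 5 ∧ κ ≤ 1 / 10 :=
    ⟨min (θ - 4 / 5) (1 / 10), lt_min (by linarith) (by norm_num), min_le_left _ _,
      min_le_right _ _⟩
  have hG2 := t_G2 θ _ _ (hII θ (4 / 5 - κ) h45 (by linarith) (by linarith))
  have hPR3 := t_PR3 t_EXP t_PRB θ _ (4 / 5 - κ) (κ / 40) (by linarith) (by linarith)
    (by linarith) (by linarith) (by linarith) (by linarith) hG2 (t_G3 t_LAY θ _ hIII)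
  have hPR1 := t_PR1 t_PRB θ _ _ (by linarith) (by linarith)
    (t_G1 θ _ h45 (t_I2 t_KER2 t_TI2 θ _ hθ (half_pos hδ))) hG2
    (t_PR2 θ _ _ _ (by linarith) (by linarith) hPR3)
  exact t_FINAL2 θ δ h45 hδ (t_PIECES2 θ δ h45 hδ (t_CORE2 θ _ h45 (t_HB t_HBI θ _ hPR1)))

end Pool.Agent.P.MP_8be758_nt.Av2
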