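import Pool.Agent.P.MP_8be758_nt.Av2.Lib

/-! Small facts about the definitions, shared by all steps. -/

namespace Pool.Agent.P.MP_8be758_nt.Av2

open Finset Real Filter Topology
open Pool.Agent.P.MP_e86632_nt (ee)
open Pool.Agent.P.MP_8be758_nt.Avg

/-! ### `ee` and `gs` -/

@[fun_prop] theorem continuous_ee : Continuous ee := by unfold ee; fun_prop

@[fun_prop] theorem continuous_gs : Continuous gs := by unfold gs; fun_prop

theorem ee_eq (x : ℝ) : ee x = Complex.exp (2 * π * Complex.I * x) := by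
  unfold ee; congr 1; push_cast; ring

theorem gs_eq_pow (x : ℝ) : gs x = gs (x / 2) ^ 4 := by
  rw [gs, gs, ← Real.exp_nat_mul]; congr 1; push_cast; ring

theorem gs_mono {x y : ℝ} (hx : 0 ≤ x) (h : x ≤ y) : gs y ≤ gs x :=
  gs_anti (by rwa [abs_of_nonneg hx, abs_of_nonneg (hx.trans h)])

theorem gs_mul_gs (x y : ℝ) : gs x * gs y = gs √(x ^ 2 + y ^ 2) := by
  rw [gs, gs, gs, ← Real.exp_add, Real.sq_sqrt (by positivity)]; congr 1; ring

theorem gs_le_half (x : ℝ) : gs x ≤ gs (x / 2) ^ 2 := by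
  rw [gs_eq_pow x]
  exact pow_le_pow_of_le_one (gs_pos _).le (gs_le_one _) (by norm_num)

/-- a Gaussian beyond `T` splits into a small factor and a wider Gaussian -/
theorem gs_split {x T : ℝ} (hT : 0 ≤ T) (h : T ≤ |x|) : gs x ≤ gs (T / 2) * gs (x / 2) := by
  refine (gs_le_half x).trans ?_
  rw [sq]
  refine mul_le_mul_of_nonneg_right (gs_anti ?_) (gs_pos _).le
  rw [abs_div, abs_div, abs_of_nonneg hT]
  gcongr

theorem integrable_gs {ρ : ℝ} (h : 0 < ρ) (c : ℝ) :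
    MeasureTheory.Integrable fun x : ℝ => gs ((x - c) / ρ) := by
  have h1 := (integrable_exp_neg_mul_sq (b := π / ρ ^ 2) (by positivity)).comp_sub_right c
  refine h1.congr (Filter.Eventually.of_forall fun x => ?_)
  simp only [gs]
  congr 1
  field_simp

theorem integral_gs {ρ : ℝ} (h : 0 < ρ) (c : ℝ) : ∫ x : ℝ, gs ((x - c) / ρ) = ρ := by
  rw [MeasureTheory.integral_sub_right_eq_self (fun x : ℝ => gs (x / ρ)) c]
  have e : ∀ x : ℝ, gs (x / ρ) = Real.exp (-(π / ρ ^ 2) * x ^ 2) := fun x => by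
    rw [gs]; congr 1; field_simp
  simp only [e]
  rw [integral_gaussian, show π / (π / ρ ^ 2) = ρ ^ 2 by field_simp, Real.sqrt_sq h.le]

/-- tail of the Gaussian -/
theorem integral_gs_tail {ρ T : ℝ} (h : 0 < ρ) (hT : 0 ≤ T) (c : ℝ) {s : Set ℝ}
    (hs : MeasurableSet s) (hc : ∀ x ∈ s, ρ * T ≤ |x - c|) :
    ∫ x in s, gs ((x - c) / ρ) ≤ 2 * ρ * gs T := by
  have key : ∀ x ∈ s, gs ((x - c) / ρ) ≤
      gs T * (gs ((x - (c + ρ * T)) / ρ) + gs ((x - (c - ρ * T)) / ρ)) := fun x hx => by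
    have h1 := hc x hx
    have aux : ∀ y : ℝ, T ≤ y → gs y ≤ gs T * gs (y - T) := fun y hy => by
      rw [gs, gs, gs, ← Real.exp_add]
      refine Real.exp_le_exp.2 ?_
      have : 0 ≤ π * (T * (y - T)) := by have := sub_nonneg.2 hy; positivity
      nlinarith
    have p1 := gs_pos T
    have p2 := gs_pos ((x - (c + ρ * T)) / ρ)
    have p3 := gs_pos ((x - (c - ρ * T)) / ρ)
    rcases le_abs.1 h1 with h2 | h2
    · have h3 := aux ((x - c) / ρ) (by rw [le_div_iff₀ h]; linarith)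
      rw [show (x - c) / ρ - T = (x - (c + ρ * T)) / ρ by field_simp; ring] at h3
      nlinarith
    · have h3 := aux (-((x - c) / ρ)) (by rw [← neg_div, le_div_iff₀ h]; linarith)
      rw [gs_neg, show -((x - c) / ρ) - T = -((x - (c - ρ * T)) / ρ) by field_simp; ring,
        gs_neg] at h3
      nlinarith
  have i1 := ((integrable_gs h (c + ρ * T)).add (integrable_gs h (c - ρ * T))).const_mul (gs T)
  calc ∫ x in s, gs ((x - c) / ρ)
      ≤ ∫ x in s, gs T * (gs ((x - (c + ρ * T)) / ρ) + gs ((x - (c - ρ * T)) / ρ)) :=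
        MeasureTheory.setIntegral_mono_on (integrable_gs h c).integrableOn i1.integrableOn hs key
    _ ≤ ∫ x, gs T * (gs ((x - (c + ρ * T)) / ρ) + gs ((x - (c - ρ * T)) / ρ)) :=
        MeasureTheory.setIntegral_le_integral i1 (Filter.Eventually.of_forall fun x =>
          mul_nonneg (gs_pos _).le (add_nonneg (gs_pos _).le (gs_pos _).le))
    _ = _ := by
        rw [MeasureTheory.integral_const_mul, MeasureTheory.integral_add (integrable_gs h _)
          (integrable_gs h _), integral_gs h, integral_gs h]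
        ring

/-- a Gaussian at a power of `N` beats every power of `N` -/
theorem ev_gs (a : ℝ) {c e : ℝ} (hc : 0 < c) (he : 0 < e) :
    ∀ᶠ N : ℝ in atTop, N ^ a * gs (c * N ^ e) ≤ 1 := by
  filter_upwards [ev_pow (|a| / c ^ 2) 1 (show (0 : ℝ) < e * 2 by positivity),
    eventually_ge_atTop 1] with N h1 h2
  have h3 : 0 < N := by linarith
  have h4 := Real.log_nonneg h2
  rw [Real.rpow_zero, mul_one, pow_one, Real.rpow_mul h3.le, Real.rpow_two, div_mul_eq_mul_div,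
    div_le_iff₀ (by positivity)] at h1
  rw [gs, Real.rpow_def_of_pos h3 a, ← Real.exp_add, Real.exp_le_one_iff]
  have h5 : Real.log N * a ≤ |a| * Real.log N := by nlinarith [le_abs_self a]
  have h6 : 0 ≤ (N ^ e) ^ 2 * c ^ 2 := by positivity
  nlinarith [Real.pi_gt_three]

theorem neg_nonneg' (Y : ℕ) (T : ℝ) : 0 ≤ Neg Y T := by
  have := gs_pos T
  unfold Neg; positivity

theorem shp_nonneg {s M : ℝ} (hs : 0 ≤ s) (hM : 0 ≤ M) (θ : ℝ) : 0 ≤ shp s M θ := by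
  have : 0 ≤ min 1 (M / |θ|) := le_min zero_le_one (by positivity)
  unfold shp; positivity

/-! ### divisor bounds -/

theorem TauB.mono {x x' τ τ' : ℝ} (h : TauB x τ) (hx : x' ≤ x) (hτ : τ ≤ τ') : TauB x' τ' :=
  fun m hm => (h m (hm.trans hx)).trans hτ

theorem TauB.one_le {x τ : ℝ} (h : TauB x τ) (hx : 1 ≤ x) : 1 ≤ τ := by
  simpa using h 1 (by simpa using hx)

theorem ev_tau (a : ℝ) {e : ℝ} (he : 0 < e) : ∀ᶠ N : ℝ in atTop, TauB (N ^ a) (N ^ e) := by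
  have h0 : 0 < |a| + 1 := by positivity
  obtain ⟨C, hC, h⟩ := lib_DIV (e / (2 * (|a| + 1))) (by positivity)
  filter_upwards [bx_ev2 C (show e / 2 < e by linarith), eventually_ge_atTop 1] with N h1 h2 m hm
  refine (h m).trans (le_trans ?_ h1)
  have h3 : (m : ℝ) ≤ N ^ (|a| + 1) :=
    hm.trans (Real.rpow_le_rpow_of_exponent_le h2 (by linarith [le_abs_self a]))
  have h4 : N ^ (e / 2) = (N ^ (|a| + 1)) ^ (e / (2 * (|a| + 1))) := by
    rw [← Real.rpow_mul (by linarith)]; congr 1; field_simp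
  rw [h4]
  gcongr

/-! ### the small power -/

theorem zs_pow {N : ℝ} (hN : 0 < N) (j : ℕ) : Zs N ^ j = N ^ ((j : ℝ) / 10000) := by
  rw [Zs, bx_pw hN]; congr 1; ring

theorem zs_pos {N : ℝ} (hN : 0 < N) : 0 < Zs N := Real.rpow_pos_of_pos hN _

theorem rh_pos {N : ℝ} (hN : 0 < N) : 0 < rh N := by
  have := zs_pos hN
  unfold rh; positivity

theorem ev_zs (C : ℝ) (k : ℕ) : ∀ᶠ N : ℝ in atTop, C * Real.log N ^ k ≤ Zs N :=
  bx_ev3 C k (by norm_num)

theorem ev_zs0 (C : ℝ) : ∀ᶠ N : ℝ in atTop, C ≤ Zs N := ev_const C (by norm_num)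

/-- `C Z ^ j N ^ a ≤ N ^ b` when the exponents allow it -/
theorem ev_zs_pow (C : ℝ) (j : ℕ) {a b : ℝ} (h : (j : ℝ) / 10000 + a < b) :
    ∀ᶠ N : ℝ in atTop, C * Zs N ^ j * N ^ a ≤ N ^ b := by
  filter_upwards [bx_ev2 C h, eventually_gt_atTop 0] with N h1 h2
  rwa [zs_pow h2, mul_assoc, ← Real.rpow_add h2]

theorem ev_zs_gs (j : ℕ) {c : ℝ} (hc : 0 < c) :
    ∀ᶠ N : ℝ in atTop, N ^ j * gs (c * Zs N) ≤ 1 := by
  filter_upwards [ev_gs j hc (show (0 : ℝ) < 1 / 10000 by norm_num)] with N h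
  rwa [Real.rpow_natCast] at h

theorem ev_zs_tau (j : ℕ) : ∀ᶠ N : ℝ in atTop, TauB (N ^ j) (Zs N) := by
  filter_upwards [ev_tau j (show (0 : ℝ) < 1 / 10000 by norm_num)] with N h
  rwa [Real.rpow_natCast] at h

/-! ### the seminorm `tb` -/

theorem tb_nonneg (K W : ℕ) (S : Finset ℕ) (β : ℕ → ℝ) (I : Finset ℕ) (α : ℕ → ℝ) :
    0 ≤ tb K W S β I α := sum_nonneg fun _ _ => abs_nonneg _

theorem tb_congr {K W : ℕ} {S I : Finset ℕ} {β β' α α' : ℕ → ℝ} (h : ∀ b ∈ S, β b = β' b)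
    (h' : ∀ a ∈ I, α a = α' a) : tb K W S β I α = tb K W S β' I α' :=
  sum_congr rfl fun _ _ => congrArg _ (sum_congr rfl fun b hb => sum_congr rfl fun a ha => by
    rw [h b hb, h' a ha])

theorem tb_add_le (K W : ℕ) (S : Finset ℕ) (β : ℕ → ℝ) (I : Finset ℕ) (α α' : ℕ → ℝ) :
    tb K W S β I (fun a => α a + α' a) ≤ tb K W S β I α + tb K W S β I α' := by
  unfold tb
  rw [← sum_add_distrib]
  refine sum_le_sum fun k _ => le_trans (le_of_eq ?_) (abs_add_le _ _)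
  simp only [mul_add, add_mul, sum_add_distrib]

theorem tb_smul (K W : ℕ) (S : Finset ℕ) (β : ℕ → ℝ) (I : Finset ℕ) (c : ℝ) (α : ℕ → ℝ) :
    tb K W S β I (fun a => c * α a) = |c| * tb K W S β I α := by
  unfold tb
  rw [mul_sum]
  refine sum_congr rfl fun k _ => ?_
  rw [← abs_mul, mul_sum]
  congr 1
  refine sum_congr rfl fun b _ => ?_
  rw [mul_sum]
  exact sum_congr rfl fun a _ => by ring

theorem tb_sub_le (K W : ℕ) (S : Finset ℕ) (β : ℕ → ℝ) (I : Finset ℕ) (α α' : ℕ → ℝ) :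
    tb K W S β I (fun a => α a - α' a) ≤ tb K W S β I α + tb K W S β I α' := by
  have h := tb_add_le K W S β I α fun a => -1 * α' a
  rw [tb_smul] at h
  simpa [sub_eq_add_neg] using h

theorem tb_sum_le {ι : Type*} (K W : ℕ) (S : Finset ℕ) (β : ℕ → ℝ) (I : Finset ℕ) (s : Finset ι)
    (α : ι → ℕ → ℝ) : tb K W S β I (fun a => ∑ i ∈ s, α i a) ≤ ∑ i ∈ s, tb K W S β I (α i) := by
  classical
  induction s using Finset.induction_on with
  | empty => simp [tb]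
  | insert i s hi ih =>
    simp only [sum_insert hi]
    exact (tb_add_le K W S β I _ _).trans (add_le_add le_rfl ih)

theorem tb_subset {K W : ℕ} {S I J : Finset ℕ} {β α : ℕ → ℝ} (h : I ⊆ J)
    (h0 : ∀ a ∈ J, a ∉ I → α a = 0) : tb K W S β I α = tb K W S β J α :=
  sum_congr rfl fun _ _ => congrArg _ (sum_congr rfl fun _ _ =>
    sum_subset h fun a ha hn => by rw [h0 a ha hn]; simp)

theorem tb_ite {K W : ℕ} {S I J : Finset ℕ} (β α : ℕ → ℝ) (h : I ⊆ J) :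
    tb K W S β I α = tb K W S β J (fun a => if a ∈ I then α a else 0) := by
  rw [← tb_subset h fun a _ hn => if_neg hn]
  exact tb_congr (fun _ _ => rfl) fun a ha => (if_pos ha).symm

theorem tb_sdiff_le {K W : ℕ} {S I J : Finset ℕ} (β α : ℕ → ℝ) (h : I ⊆ J) :
    tb K W S β J α ≤ tb K W S β I α + tb K W S β (J \ I) α := by
  rw [tb_ite β α h, tb_ite β α (sdiff_subset (s := J) (t := I))]
  refine le_trans (le_of_eq (tb_congr (fun _ _ => rfl) fun a ha => ?_)) (tb_add_le _ _ _ _ _ _ _)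
  by_cases h1 : a ∈ I <;> simp [h1, ha]

theorem tb_le_abs (K W : ℕ) (S : Finset ℕ) (β : ℕ → ℝ) (I : Finset ℕ) (α : ℕ → ℝ) :
    tb K W S β I α ≤ ∑ k ∈ Icc 1 K, ∑ b ∈ S, ∑ a ∈ I, |β b| * |α a| * |dd W k (a * b)| := by
  refine sum_le_sum fun k _ => (abs_sum_le_sum_abs _ _).trans (sum_le_sum fun b _ => ?_)
  refine (abs_sum_le_sum_abs _ _).trans (le_of_eq (sum_congr rfl fun a _ => ?_))
  rw [abs_mul, abs_mul]

theorem mem_AR {N B : ℝ} (h : 0 ≤ 2 * N ^ 2 / B) {a : ℕ} :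
    a ∈ AR N B ↔ 1 ≤ a ∧ N ^ 2 / (2 * B) ≤ a ∧ (a : ℝ) ≤ 2 * N ^ 2 / B := by
  rw [AR, mem_filter, mem_Icc, Nat.le_floor_iff h]; tauto

theorem card_AR {N B : ℝ} (h : 0 ≤ 2 * N ^ 2 / B) : ((AR N B).card : ℝ) ≤ 2 * N ^ 2 / B := by
  have h1 := card_filter_le (Icc 1 ⌊2 * N ^ 2 / B⌋₊) fun a : ℕ => N ^ 2 / (2 * B) ≤ a
  rw [Nat.card_Icc, Nat.add_sub_cancel] at h1
  exact le_trans (by exact_mod_cast h1) (Nat.floor_le h)

theorem ioc_sub_AR {N B : ℝ} {A1 A2 : ℕ} (hB : 0 < B) (h1 : 24 / 25 * N ^ 2 ≤ A1 * B)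
    (h2 : A2 * B ≤ 6 / 5 * N ^ 2) : Ioc A1 A2 ⊆ AR N B := fun a ha => by
  have a1 : (A1 : ℝ) < a := by exact_mod_cast (mem_Ioc.1 ha).1
  have a2 : (a : ℝ) ≤ A2 := by exact_mod_cast (mem_Ioc.1 ha).2
  have hN := sq_nonneg N
  refine (mem_AR (by positivity)).2 ⟨by have := (mem_Ioc.1 ha).1; omega, ?_, ?_⟩
  · rw [div_le_iff₀ (by positivity)]; nlinarith
  · rw [le_div_iff₀ hB]; nlinarith

theorem mem_Ry {y z : ℝ} (hy : 0 ≤ y) {d : ℕ} :
    d ∈ Ry y z ↔ 1 ≤ d ∧ (d : ℝ) ≤ y ∧ Rough z d := by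
  rw [Ry, mem_filter, mem_Icc, Nat.le_floor_iff hy]; tauto

theorem ms_nonneg (y z : ℝ) (c : ℕ → ℝ) : 0 ≤ ms y z c := sum_nonneg fun _ _ => by positivity

theorem Setup2.mono {θ θ' δ δ' N : ℝ} {K X1 X2 : ℕ} (h : Setup2 θ δ N K X1 X2) (hθ : θ' ≤ θ)
    (hδ : δ' ≤ δ) (hN : 1 ≤ N) : Setup2 θ' δ' N K X1 X2 :=
  ⟨(Real.rpow_le_rpow_of_exponent_le hN hθ).trans h.lo,
    h.hi.trans (Real.rpow_le_rpow_of_exponent_le hN (by linarith)), h.x1, h.x12, h.x2⟩

/-! ### the predicate `Good` -/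

section good

variable {N z : ℝ} {R K X1 X2 : ℕ} {g g' : ℕ → ℝ} {C C' η η' : ℝ}

theorem Good.mono (h : Good N z R K X1 X2 g C η) (hN : 1 ≤ N) (hC : C ≤ C') (hη : η ≤ η') :
    Good N z R K X1 X2 g C' η' := by
  obtain ⟨c, h1, h2⟩ := h
  have := Real.log_nonneg hN
  exact ⟨c, h1.trans hC, h2.trans (by gcongr)⟩

theorem Good.congr (h : Good N z R K X1 X2 g C η)
    (e : ∀ m, X1 < m → m ≤ X2 → Rough z m → g m = g' m) : Good N z R K X1 X2 g' C η := by
  obtain ⟨c, h1, h2⟩ := h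
  refine ⟨c, h1, le_trans (le_of_eq (sum_congr rfl fun k _ => ?_)) h2⟩
  congr 2
  refine sum_congr rfl fun m hm => ?_
  rw [mem_filter, mem_Ioc] at hm
  rw [e m hm.1.1 hm.1.2 hm.2]

theorem good_zero (N z : ℝ) (R K X1 X2 : ℕ) : Good N z R K X1 X2 (fun _ => 0) 0 0 :=
  ⟨0, by simp, by simp⟩

theorem Good.add (h : Good N z R K X1 X2 g C η) (h' : Good N z R K X1 X2 g' C' η') :
    Good N z R K X1 X2 (fun m => g m + g' m) (C + C') (η + η') := by
  obtain ⟨c, h1, h2⟩ := h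
  obtain ⟨c', h1', h2'⟩ := h'
  refine ⟨c + c', (abs_add_le _ _).trans (add_le_add h1 h1'), ?_⟩
  refine le_trans ?_ ((add_le_add h2 h2').trans_eq (by ring))
  rw [← sum_add_distrib]
  refine sum_le_sum fun k _ => le_trans (le_of_eq ?_) (abs_add_le _ _)
  simp only [add_mul, sum_add_distrib]
  congr 1
  ring

theorem Good.smul (h : Good N z R K X1 X2 g C η) (t : ℝ) :
    Good N z R K X1 X2 (fun m => t * g m) (|t| * C) (|t| * η) := by
  obtain ⟨c, h1, h2⟩ := h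
  refine ⟨t * c, by rw [abs_mul]; gcongr, ?_⟩
  refine le_trans (le_of_eq ?_) ((mul_le_mul_of_nonneg_left h2 (abs_nonneg t)).trans_eq (by ring))
  rw [mul_sum]
  refine sum_congr rfl fun k _ => ?_
  rw [← abs_mul, mul_sub, mul_sum]
  simp only [mul_assoc]

theorem good_sum {ι : Type*} (s : Finset ι) {f : ι → ℕ → ℝ} {c e : ι → ℝ}
    (h : ∀ i ∈ s, Good N z R K X1 X2 (f i) (c i) (e i)) :
    Good N z R K X1 X2 (fun m => ∑ i ∈ s, f i m) (∑ i ∈ s, c i) (∑ i ∈ s, e i) := by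
  classical
  induction s using Finset.induction_on with
  | empty => simpa using good_zero N z R K X1 X2
  | insert i s hi ih =>
    simp only [sum_insert hi]
    exact (h i (mem_insert_self _ _)).add (ih fun j hj => h j (mem_insert_of_mem hj))

theorem good_of_le (h : ∑ k ∈ Icc 1 K, |∑ m ∈ (Ioc X1 X2).filter (Rough z),
    g m * dd R.factorial k m| ≤ η * K * N / Real.log N) : Good N z R K X1 X2 g 0 η :=
  ⟨0, by simp, by simpa using h⟩

end good

/-! ### narrow weights -/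

theorem om_pos (ρ t : ℝ) (u : ℕ) : 0 < om ρ t u := gs_pos _

theorem om_le_one (ρ t : ℝ) (u : ℕ) : om ρ t u ≤ 1 := gs_le_one _

@[fun_prop] theorem continuous_om (ρ : ℝ) (u : ℕ) : Continuous fun t => om ρ t u := by
  unfold om; fun_prop

theorem om_mul (ρ t : ℝ) {E : ℕ} (hE : 1 ≤ E) (u : ℕ) :
    om ρ t (E * u) = om ρ (t - Real.log E / 2) u := by
  have h : (0 : ℝ) < E := by exact_mod_cast hE
  have e : √(E : ℝ) = Real.exp (Real.log E / 2) := by
    rw [Real.sqrt_eq_rpow, Real.rpow_def_of_pos h]; congr 1; ring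
  unfold om
  rw [Nat.cast_mul, Real.sqrt_mul h.le, e, neg_sub, sub_eq_add_neg (Real.log E / 2), Real.exp_add]
  congr 3
  ring

theorem continuous_om2 (ρ : ℝ) (u v : ℕ) :
    Continuous fun p : ℝ × ℝ => om ρ p.1 u * om ρ (p.2 - p.1) v :=
  ((continuous_om ρ u).comp continuous_fst).mul
    ((continuous_om ρ v).comp (continuous_snd.sub continuous_fst))

theorem continuous_WW_inner (ρ τ1 τ2 : ℝ) (u v : ℕ) :
    Continuous fun t1 => ∫ t in τ1..τ2, om ρ t1 u * om ρ (t - t1) v :=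
  intervalIntegral.continuous_parametric_intervalIntegral_of_continuous'
    (f := fun t1 t => om ρ t1 u * om ρ (t - t1) v) (continuous_om2 ρ u v) τ1 τ2

theorem WW_nonneg (ρ : ℝ) {j1 j2 τ1 τ2 : ℝ} (h1 : j1 ≤ j2) (h2 : τ1 ≤ τ2) (u v : ℕ) :
    0 ≤ WW ρ j1 j2 τ1 τ2 u v :=
  intervalIntegral.integral_nonneg h1 fun _ _ => intervalIntegral.integral_nonneg h2 fun _ _ =>
    (mul_pos (om_pos _ _ _) (om_pos _ _ _)).le

theorem WW_add (ρ j1 j2 τ1 τ2 τ3 : ℝ) (u v : ℕ) :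
    WW ρ j1 j2 τ1 τ2 u v + WW ρ j1 j2 τ2 τ3 u v = WW ρ j1 j2 τ1 τ3 u v := by
  unfold WW
  rw [← intervalIntegral.integral_add ((continuous_WW_inner ρ _ _ u v).intervalIntegrable _ _)
    ((continuous_WW_inner ρ _ _ u v).intervalIntegrable _ _)]
  congr 1
  funext t1
  have h : Continuous fun t => om ρ t1 u * om ρ (t - t1) v :=
    continuous_const.mul ((continuous_om ρ v).comp (continuous_id.sub continuous_const))
  exact intervalIntegral.integral_add_adjacent_intervals (h.intervalIntegrable _ _)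
    (h.intervalIntegrable _ _)

theorem al_nonneg (ρ : ℝ) {j1 j2 τ1 τ2 : ℝ} (h1 : j1 ≤ j2) (h2 : τ1 ≤ τ2) (E1 E2 a : ℕ) :
    0 ≤ al ρ j1 j2 τ1 τ2 E1 E2 a := sum_nonneg fun _ _ => WW_nonneg ρ h1 h2 _ _

theorem al_add (ρ j1 j2 τ1 τ2 τ3 : ℝ) (E1 E2 a : ℕ) :
    al ρ j1 j2 τ1 τ2 E1 E2 a + al ρ j1 j2 τ2 τ3 E1 E2 a = al ρ j1 j2 τ1 τ3 E1 E2 a := by
  unfold al
  rw [← sum_add_distrib]
  exact sum_congr rfl fun _ _ => WW_add _ _ _ _ _ _ _ _

@[fun_prop] theorem continuous_SA (ρ : ℝ) (n1 : ℕ) :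
    Continuous fun p : ℝ × ℝ × ℝ × ℝ => SA ρ n1 p.1 p.2.1 p.2.2.1 p.2.2.2 := by
  unfold SA om; fun_prop

theorem SA_add_int (ρ : ℝ) (n1 : ℕ) (t1 t2 γ θ : ℝ) (n : ℤ) :
    SA ρ n1 t1 t2 (γ + n) θ = SA ρ n1 t1 t2 γ θ := by
  refine sum_congr rfl fun u _ => sum_congr rfl fun v _ => ?_
  rw [← Pool.Agent.P.MP_e86632_nt.ee_add_int (u * v * γ + _) (u * v * n)]
  congr 2
  push_cast
  ring

theorem SR_add_int (ρ : ℝ) (n1 : ℕ) (j1 j2 τ1 τ2 γ θ : ℝ) (n : ℤ) :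
    SR ρ n1 j1 j2 τ1 τ2 (γ + n) θ = SR ρ n1 j1 j2 τ1 τ2 γ θ := by
  simp only [SR, SA_add_int]

/-! ### `SI` and `GG` -/

theorem SI_sub (I : Finset ℕ) (α α' : ℕ → ℝ) (γ θ : ℝ) :
    SI I (fun a => α a - α' a) γ θ = SI I α γ θ - SI I α' γ θ := by
  unfold SI
  rw [← sum_sub_distrib]
  exact sum_congr rfl fun a _ => by push_cast; ring

theorem SI_smul (I : Finset ℕ) (c : ℝ) (α : ℕ → ℝ) (γ θ : ℝ) :
    SI I (fun a => c * α a) γ θ = c * SI I α γ θ := by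
  unfold SI
  rw [mul_sum]
  exact sum_congr rfl fun a _ => by push_cast; ring

theorem SI_congr {I : Finset ℕ} {α α' : ℕ → ℝ} (h : ∀ a ∈ I, α a = α' a) : SI I α = SI I α' := by
  funext γ θ
  exact sum_congr rfl fun a ha => by rw [h a ha]

theorem SI_zero (I : Finset ℕ) (α : ℕ → ℝ) (γ : ℝ) : SI I α γ 0 = ft I (gam α) γ := by
  simp [SI, ft, gam]

theorem GG_nonneg (S : ℝ → ℝ → ℂ) (ν0 : ℕ) (θ : ℝ) : 0 ≤ GG S ν0 θ :=
  sum_nonneg fun _ _ => by positivity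

theorem GG_mono (S : ℝ → ℝ → ℂ) {ν0 ν1 : ℕ} (h : ν0 ≤ ν1) (θ : ℝ) : GG S ν0 θ ≤ GG S ν1 θ :=
  sum_le_sum_of_subset_of_nonneg (Icc_subset_Icc_right h) fun _ _ _ => by positivity

theorem GG_smul (S : ℝ → ℝ → ℂ) (c : ℂ) (ν0 : ℕ) (θ : ℝ) :
    GG (fun γ t => c * S γ t) ν0 θ = ‖c‖ ^ 2 * GG S ν0 θ := by
  unfold GG
  simp only [norm_mul, mul_pow, ← mul_sum]
  rw [mul_sum]
  exact sum_congr rfl fun _ _ => by ring

/-- comparison with two other functions -/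
theorem GG_le_two {S S1 S2 : ℝ → ℝ → ℂ} (h : ∀ γ t, ‖S γ t‖ ≤ ‖S1 γ t‖ + ‖S2 γ t‖) (ν0 : ℕ)
    (θ : ℝ) : GG S ν0 θ ≤ 2 * GG S1 ν0 θ + 2 * GG S2 ν0 θ := by
  unfold GG
  rw [mul_sum, mul_sum, ← sum_add_distrib]
  refine sum_le_sum fun ν _ => ?_
  rw [mul_left_comm 2, mul_left_comm 2, ← mul_add]
  refine mul_le_mul_of_nonneg_left ?_ (by positivity)
  rw [mul_sum, mul_sum, ← sum_add_distrib]
  refine sum_le_sum fun r _ => ?_
  have h1 := pow_le_pow_left₀ (norm_nonneg _) (h (r / ν) (θ / ν)) 2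
  nlinarith [sq_nonneg (‖S1 (r / ν) (θ / ν)‖ - ‖S2 (r / ν) (θ / ν)‖)]

theorem GG_le_const {S : ℝ → ℝ → ℂ} {e : ℝ} (h : ∀ γ t, ‖S γ t‖ ≤ e) (ν0 : ℕ) (θ : ℝ) :
    GG S ν0 θ ≤ ν0 * e ^ 2 := by
  calc GG S ν0 θ ≤ ∑ _ν ∈ Icc 1 ν0, e ^ 2 := sum_le_sum fun ν hν => by
        have h0 : (0 : ℝ) < ν := by exact_mod_cast (mem_Icc.1 hν).1
        rw [one_div_mul_eq_div, div_le_iff₀ h0]
        refine (sum_le_sum fun r _ => pow_le_pow_left₀ (norm_nonneg _) (h _ _) 2).trans_eq ?_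
        rw [sum_const, card_range, nsmul_eq_mul, mul_comm]
    _ = _ := by rw [sum_const, Nat.card_Icc, nsmul_eq_mul, Nat.add_sub_cancel]

/-! ### the indicator of the odd integers -/

theorem nuo_bd (b : ℤ) : 0 ≤ nuo b ∧ nuo b ≤ 1 := by unfold nuo; split_ifs <;> norm_num

theorem nuo_even {b : ℤ} (h : Even b) : nuo b = 0 := if_neg (Int.not_odd_iff_even.2 h)

theorem nuo_odd {b : ℤ} (h : Odd b) : nuo b = 1 := if_pos h

theorem nuo_eq (b : ℤ) : (nuo b : ℂ) = 1 / 2 - 1 / 2 * ee (1 / 2 * b) := by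
  rcases Int.even_or_odd' b with ⟨m, rfl | rfl⟩
  · rw [nuo_even (even_two_mul m), show (1 / 2 * ((2 * m : ℤ) : ℝ)) = m by push_cast; ring,
      Pool.Agent.P.MP_e86632_nt.ee_int]
    simp
  · rw [nuo_odd (odd_two_mul_add_one m),
      show (1 / 2 * ((2 * m + 1 : ℤ) : ℝ)) = 1 / 2 + m by push_cast; ring,
      Pool.Agent.P.MP_e86632_nt.ee_add_int, ee_eq]
    rw [show 2 * (π : ℂ) * Complex.I * ((1 / 2 : ℝ) : ℂ) = π * Complex.I by push_cast; ring,
      Complex.exp_pi_mul_I]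
    norm_num

theorem nuo_data : NuData nuo (1 / 2) 1 (1 / 2) := by
  refine ⟨fun b => (nuo_bd b).1, fun b => nuo_even, by norm_num, by norm_num, Unit, univ,
    fun _ => -(1 / 2), fun _ => 1 / 2, fun b => ?_, by norm_num [abs_of_pos], fun _ _ j => ?_⟩
  · rw [nuo_eq]; simp [sub_eq_add_neg]
  · rcases le_or_gt j 0 with h | h
    · have : (j : ℝ) ≤ 0 := by exact_mod_cast h
      exact le_abs.2 (Or.inr (by linarith))
    · have : (1 : ℝ) ≤ j := by exact_mod_cast h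
      exact le_abs.2 (Or.inl (by linarith))

/-! ### arithmetic functions -/

theorem ze_apply {n : ℕ} (h : n ≠ 0) : ze n = 1 := if_neg h

theorem lg_apply (N : ℝ) (n : ℕ) : lg N n = Real.log n / (3 * Real.log N) := rfl

theorem rs_apply (a b : ℕ) (f : ArithmeticFunction ℝ) (n : ℕ) :
    rs a b f n = if a < n ∧ n ≤ b then f n else 0 := rfl

theorem up_apply (a : ℕ) (f : ArithmeticFunction ℝ) (n : ℕ) :
    up a f n = if a < n then f n else 0 := rfl

theorem rs_add_up (a : ℕ) (f : ArithmeticFunction ℝ) : rs 0 a f + up a f = f := by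
  ext n
  rw [ArithmeticFunction.add_apply, rs_apply, up_apply]
  rcases Nat.eq_zero_or_pos n with rfl | h
  · simp
  · by_cases h1 : n ≤ a
    · rw [if_pos ⟨h, h1⟩, if_neg (by omega), add_zero]
    · rw [if_neg fun c => h1 c.2, if_pos (by omega), zero_add]

theorem Smo.bd {N : ℝ} {f : ArithmeticFunction ℝ} (h : Smo N f) (hN : 1 < N) {n : ℕ}
    (hn : (n : ℝ) ≤ N ^ 3) : 0 ≤ f n ∧ f n ≤ 1 := by
  have hL := Real.log_pos hN
  rcases h with rfl | rfl
  · change 0 ≤ (if n = 0 then (0 : ℝ) else 1) ∧ (if n = 0 then (0 : ℝ) else 1) ≤ 1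
    split_ifs <;> norm_num
  · rw [lg_apply, div_le_one (by positivity)]
    refine ⟨div_nonneg (Real.log_natCast_nonneg n) (by positivity), ?_⟩
    rcases Nat.eq_zero_or_pos n with rfl | h0
    · simp only [Nat.cast_zero, Real.log_zero]; positivity
    · refine (Real.log_le_log (by exact_mod_cast h0) hn).trans_eq ?_
      rw [Real.log_pow]; norm_num

theorem Smo.mono {N : ℝ} {f : ArithmeticFunction ℝ} (h : Smo N f) (hN : 1 < N) {m n : ℕ}
    (hm : 0 < m) (hmn : m ≤ n) : f m ≤ f n := by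
  have hL := Real.log_pos hN
  rcases h with rfl | rfl
  · rw [ze_apply hm.ne', ze_apply (by omega)]
  · rw [lg_apply, lg_apply]
    gcongr

/-- a bilinear form with rough coefficients as a sum over rough numbers -/
theorem bil_eq_conv (z : ℝ) (X1 X2 : ℕ) (φ ψ f : ℕ → ℝ) :
    bil X1 X2 (fun u => if Rough z u then φ u else 0) (fun u => if Rough z u then ψ u else 0) f =
      ∑ m ∈ (Ioc X1 X2).filter (Rough z), (∑ p ∈ m.divisorsAntidiagonal, φ p.1 * ψ p.2) * f m := by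
  simp only [sum_mul]
  rw [bil, sum_sigma', ← sum_filter_add_sum_filter_not _ (fun p : ℕ × ℕ => Rough z (p.1 * p.2)),
    sum_eq_zero (s := filter (fun p : ℕ × ℕ => ¬ Rough z (p.1 * p.2)) _) fun p hp => ?_, add_zero]
  · refine sum_bij' (fun p _ => ⟨p.1 * p.2, p⟩) (fun q _ => q.2) ?_ ?_ ?_ ?_ ?_
    · intro p hp
      simp only [pairs, mem_filter, mem_product, mem_Icc] at hp
      simp only [mem_sigma, mem_filter, mem_Ioc, Nat.mem_divisorsAntidiagonal, true_and]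
      exact ⟨⟨hp.1.2, hp.2⟩, by omega⟩
    · intro q hq
      simp only [mem_sigma, mem_filter, mem_Ioc, Nat.mem_divisorsAntidiagonal] at hq
      obtain ⟨⟨⟨h1, h2⟩, h3⟩, h4, h5⟩ := hq
      simp only [pairs, mem_filter, mem_product, mem_Icc, h4]
      have a1 : q.2.1 ≠ 0 := fun c => h5 (by rw [← h4, c, zero_mul])
      have a2 : q.2.2 ≠ 0 := fun c => h5 (by rw [← h4, c, mul_zero])
      refine ⟨⟨⟨⟨by omega, ?_⟩, by omega, ?_⟩, h1, h2⟩, h3⟩
      · exact le_trans (Nat.le_mul_of_pos_right _ (by omega)) (h4.le.trans h2)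
      · exact le_trans (Nat.le_mul_of_pos_left _ (by omega)) (h4.le.trans h2)
    · intro p _; rfl
    · intro q hq
      simp only [mem_sigma, Nat.mem_divisorsAntidiagonal] at hq
      obtain ⟨a, p⟩ := q
      obtain ⟨-, h4, -⟩ := hq
      simp only at h4
      subst h4
      rfl
    · intro p hp
      have h := rough_mul.1 (mem_filter.1 hp).2
      simp only [if_pos h.1, if_pos h.2]
  · have h := (mem_filter.1 hp).2
    rw [rough_mul, not_and_or] at h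
    rcases h with h | h <;> simp [h]

end Pool.Agent.P.MP_8be758_nt.Av2
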