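import Pool.Agent.P.MP_8be758_nt.Avg.All

/-! Definitions for the average form of Conjecture F with exponent `4 / 5`. -/

namespace Pool.Agent.P.MP_8be758_nt.Av2

open Finset Real Filter Topology
open Pool.Agent.P.MP_e86632_nt (ee)
open Pool.Agent.P.MP_8be758_nt.Avg

noncomputable section

/-- the standing size conditions -/
structure Setup2 (θ δ N : ℝ) (K X1 X2 : ℕ) : Prop where
  lo : N ^ θ ≤ K
  hi : (K : ℝ) ≤ N ^ (2 - δ)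
  x1 : N ^ 2 ≤ X1
  x12 : X1 ≤ X2
  x2 : (X2 : ℝ) ≤ 6 / 5 * N ^ 2

/-- size conditions for one box -/
structure Bx (N e1 B : ℝ) (A1 A2 : ℕ) (S : Finset ℕ) : Prop where
  a1 : 24 / 25 * N ^ 2 ≤ A1 * B
  a2 : A1 * B ≤ 2 * N ^ 2
  a3 : A2 * B ≤ 6 / 5 * N ^ 2
  s : ∀ b ∈ S, B < b ∧ (b : ℝ) ≤ 2 * B ∧ Squarefree b ∧ Rough (N ^ e1) b

/-- the bilinear sum over a box, summed over the constant term -/
def tb (K W : ℕ) (S : Finset ℕ) (β : ℕ → ℝ) (I : Finset ℕ) (α : ℕ → ℝ) : ℝ :=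
  ∑ k ∈ Icc 1 K, |∑ b ∈ S, ∑ a ∈ I, β b * α a * dd W k (a * b)|

/-- the range of the long variable -/
def AR (N B : ℝ) : Finset ℕ :=
  (Icc 1 ⌊2 * N ^ 2 / B⌋₊).filter fun a : ℕ => N ^ 2 / (2 * B) ≤ a

/-- rough numbers up to `y` -/
def Ry (y z : ℝ) : Finset ℕ := (Icc 1 ⌊y⌋₊).filter (Rough z)

/-- logarithmic mass on rough numbers up to `y` -/
def ms (y z : ℝ) (c : ℕ → ℝ) : ℝ := ∑ d ∈ Ry y z, |c d| / d

/-- the secondary term of the type I sums -/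
def MT (R : ℕ) (z : ℝ) (X1 X2 k : ℕ) : ℝ :=
  (√(X2 : ℝ) - √(X1 : ℝ)) * Vz z * sing R k * (TT k R z - 1)

/-- the coefficient `g` is controlled: constant at most `C`, error at most `η` -/
def Good (N z : ℝ) (R K X1 X2 : ℕ) (g : ℕ → ℝ) (C η : ℝ) : Prop :=
  ∃ c0 : ℝ, |c0| ≤ C ∧ ∑ k ∈ Icc 1 K,
    |∑ m ∈ (Ioc X1 X2).filter (Rough z), g m * dd R.factorial k m - c0 * MT R z X1 X2 k| ≤
      η * K * N / Real.log N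

/-- the constant function one -/
def ze : ArithmeticFunction ℝ := ⟨fun n => if n = 0 then 0 else 1, by simp⟩

/-- the normalized logarithm -/
def lg (N : ℝ) : ArithmeticFunction ℝ := ⟨fun n => Real.log n / (3 * Real.log N), by simp⟩

/-- restriction to `(a, b]` -/
def rs (a b : ℕ) (f : ArithmeticFunction ℝ) : ArithmeticFunction ℝ :=
  ⟨fun n => if a < n ∧ n ≤ b then f n else 0, by simp⟩

/-- restriction to the integers above `a` -/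
def up (a : ℕ) (f : ArithmeticFunction ℝ) : ArithmeticFunction ℝ :=
  ⟨fun n => if a < n then f n else 0, by simp⟩

/-- one of the two smooth factors -/
def Smo (N : ℝ) (f : ArithmeticFunction ℝ) : Prop := f = ze ∨ f = lg N

/-- a bounded factor with short support -/
def Sml (N : ℝ) (f : ArithmeticFunction ℝ) : Prop :=
  (∀ n, |f n| ≤ 1) ∧ ∀ n : ℕ, f n ≠ 0 → (n : ℝ) ≤ 2 * N ^ (2 / 5 : ℝ)

/-- bound on rough numbers up to `N ^ 3` -/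
def Bdd (N z D : ℝ) (f : ℕ → ℝ) : Prop := ∀ n : ℕ, Rough z n → (n : ℝ) ≤ N ^ 3 → |f n| ≤ D

/-- weighted factorizations of a rough number with both factors in given ranges -/
def tauG (z : ℝ) (g1 g2 : ℕ → ℝ) (U1 U2 V1 V2 a : ℕ) : ℝ :=
  if Rough z a then ∑ p ∈ a.divisorsAntidiagonal.filter
    (fun p => (U1 < p.1 ∧ p.1 ≤ U2) ∧ V1 < p.2 ∧ p.2 ≤ V2), g1 p.1 * g2 p.2 else 0

/-- factorizations of a rough number with both factors in given ranges -/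
def tauR (z : ℝ) (U1 U2 V1 V2 a : ℕ) : ℝ := tauG z (fun _ => 1) (fun _ => 1) U1 U2 V1 V2 a

/-- divisors of a rough number in `(x, y]` -/
def tauJ (z x y : ℝ) (a : ℕ) : ℝ :=
  if Rough z a then ((a.divisors.filter fun u : ℕ => x < u ∧ (u : ℝ) ≤ y).card : ℝ) else 0

/-- left end of the range of the first factor -/
def loB (N B : ℝ) (U1 V2 : ℕ) : ℝ := max (U1 : ℝ) (6 / 5 * N ^ 2 / (B * V2))

/-- ratio of the ends of the range of the first factor -/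
def lamB (N B : ℝ) (U1 U2 V1 V2 : ℕ) : ℝ :=
  max 1 (min (U2 : ℝ) (24 / 25 * N ^ 2 / (B * V1)) / loB N B U1 V2)

/-- narrow weight at scale `exp (2 t)` -/
def om (ρ t : ℝ) (u : ℕ) : ℝ := gs ((√(u : ℝ) * Real.exp (-t) - 1) / ρ)

/-- superposition of narrow weights -/
def WW (ρ j1 j2 τ1 τ2 : ℝ) (u v : ℕ) : ℝ :=
  ∫ t1 in j1..j2, ∫ t in τ1..τ2, om ρ t1 u * om ρ (t - t1) v

/-- smooth divisor function with divisibility conditions -/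
def al (ρ j1 j2 τ1 τ2 : ℝ) (E1 E2 a : ℕ) : ℝ :=
  ∑ p ∈ a.divisorsAntidiagonal.filter (fun p => E1 ∣ p.1 ∧ E2 ∣ p.2), WW ρ j1 j2 τ1 τ2 p.1 p.2

/-- smooth divisor function with sieve weights -/
def als (ρ z j1 j2 τ1 τ2 : ℝ) (lam : Finset ℕ → ℝ) (a : ℕ) : ℝ :=
  1 / ρ ^ 2 * ∑ E1 ∈ (PL z).powerset, ∑ E2 ∈ (PL z).powerset,
    lam E1 * lam E2 * al ρ j1 j2 τ1 τ2 (∏ p ∈ E1, p) (∏ p ∈ E2, p) a

/-- Fourier coefficients of a periodic function -/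
def hat (e : ℕ) (h : ℤ → ℂ) (p : ℤ) : ℂ := 1 / (e : ℂ) * ∑ x ∈ range e, h x * ee (p * x / e)

/-- inner Gaussian integral -/
def I1 (ρ Q F X : ℝ) : ℂ := ∫ Y : ℝ, (gs ((Y - 1) / ρ) : ℂ) * ee (F * X * Y - Q * Y ^ 2)

/-- double Gaussian integral -/
def II (ρ P Q F : ℝ) : ℂ := ∫ X : ℝ, (gs ((X - 1) / ρ) : ℂ) * I1 ρ Q F X * ee (-(P * X ^ 2))

/-- exponential sum with narrow weights -/
def SA (ρ : ℝ) (n1 : ℕ) (t1 t2 γ θ : ℝ) : ℂ :=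
  ∑ u ∈ Icc 1 n1, ∑ v ∈ Icc 1 n1,
    ((om ρ t1 u * om ρ t2 v / √((u : ℝ) * v) : ℝ) : ℂ) * ee (u * v * γ + θ * √((u : ℝ) * v))

/-- dual sum -/
def DS (ρ : ℝ) (P1 P2 : ℕ) (x y φ γ : ℝ) : ℂ :=
  ∑ p ∈ Icc (-(P1 : ℤ)) P1, ∑ q ∈ Icc (-(P2 : ℤ)) P2, ee (-(p * q * γ)) *
    II ρ (p * Real.exp (2 * x)) (q * Real.exp (2 * y)) (φ * Real.exp (x + y))

/-- superposition of the sums `SA` -/
def SR (ρ : ℝ) (n1 : ℕ) (j1 j2 τ1 τ2 γ θ : ℝ) : ℂ :=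
  ∫ t1 in j1..j2, ∫ t in τ1..τ2, SA ρ n1 t1 (t - t1) γ θ

/-- exponential sum with coefficients `α` -/
def SI (I : Finset ℕ) (α : ℕ → ℝ) (γ θ : ℝ) : ℂ :=
  ∑ a ∈ I, ((α a / √(a : ℝ) : ℝ) : ℂ) * ee (a * γ + θ * √(a : ℝ))

/-- energy along the lines through rational points -/
def GG (S : ℝ → ℝ → ℂ) (ν0 : ℕ) (θ : ℝ) : ℝ :=
  ∑ ν ∈ Icc 1 ν0, 1 / (ν : ℝ) * ∑ r ∈ range ν, ‖S ((r : ℝ) / ν) (θ / ν)‖ ^ 2

/-- the shape of the bound for `GG` -/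
def shp (s M θ : ℝ) : ℝ := |θ| / s + M + s * min 1 (M / |θ|)

/-- a negligible quantity -/
def Neg (Y : ℕ) (T : ℝ) : ℝ := 1 / (Y : ℝ) ^ 3 + (Y : ℝ) ^ 50 * gs T

/-- all integers up to `x` have at most `τ` divisors -/
def TauB (x τ : ℝ) : Prop := ∀ m : ℕ, (m : ℝ) ≤ x → (m.divisors.card : ℝ) ≤ τ

/-- `I` lies in `(A, (1 + η) A]` -/
def Nar (A η : ℝ) (I : Finset ℕ) : Prop := ∀ a ∈ I, A < a ∧ (a : ℝ) ≤ (1 + η) * A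

/-- indicator of the odd integers -/
def nuo (b : ℤ) : ℝ := if Odd b then 1 else 0

/-- model with frozen width -/
def modF (B K A : ℝ) (μ a1 a2 : ℕ) : ℝ :=
  psi B (sg a1 a2 ^ 2 / (μ : ℝ) ^ 2) * (A / √((a1 : ℝ) * a2)) *
    ∑' b : ℤ, nuo b * gs (A / K * (b - sg a1 a2 ^ 2 / (μ : ℝ) ^ 2))

/-- contribution of the frequency `ξ` -/
def oscF (α : ℕ → ℝ) (I : Finset ℕ) (B : ℝ) (μ0 : ℕ) (ξ : ℝ) : ℂ :=
  ∑ a1 ∈ I, ∑ a2 ∈ I, ∑ μ ∈ (Icc 1 μ0).filter (fun μ => Cg μ a1 a2),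
    ((α a1 / √(a1 : ℝ) * (α a2 / √(a2 : ℝ)) * psi B (sg a1 a2 ^ 2 / (μ : ℝ) ^ 2) : ℝ) : ℂ) *
      ee (-(ξ * (sg a1 a2 ^ 2 / (μ : ℝ) ^ 2)))

/-- the function paired with the chirps -/
def cG (α : ℕ → ℝ) (I : Finset ℕ) (μ0 : ℕ) (θ : ℝ) : ℂ :=
  ∑ a1 ∈ I, ∑ a2 ∈ I, ∑ μ ∈ (Icc 1 μ0).filter (fun μ => Cg μ a1 a2),
    ((α a1 / √(a1 : ℝ) * (α a2 / √(a2 : ℝ)) : ℝ) : ℂ) * ee (θ * (sg a1 a2 / μ))

/-- damped chirp -/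
def chp (ε : ℝ) (j : ℤ) (θ : ℝ) : ℂ := Complex.exp (-(π * θ ^ 2 / (ε + j * Complex.I)))

/-- the small power of `N` -/
def Zs (N : ℝ) : ℝ := N ^ (1 / 10000 : ℝ)

/-- the width of the narrow weights -/
def rh (N : ℝ) : ℝ := 1 / Zs N ^ 22

/-- parameters of one smooth divisor function -/
structure Par (Y n1 : ℕ) (ρ T j1 j2 τ1 τ2 : ℝ) (E1 E2 : ℕ) : Prop where
  y2 : 2 ≤ Y
  r0 : 0 < ρ
  r1 : 1 / ρ ≤ Y
  t1 : 1 ≤ T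
  t2 : ρ * T ≤ 1 / 6
  j12 : j1 ≤ j2
  s12 : τ1 ≤ τ2
  s21 : τ2 ≤ τ1 + 1 / 4
  e1 : 1 ≤ E1
  e2 : 1 ≤ E2
  u1 : (E1 : ℝ) ≤ Real.exp (2 * j1)
  v1 : (E2 : ℝ) ≤ Real.exp (2 * (τ1 - j2))
  u2 : 4 * Real.exp (2 * j2) ≤ n1
  v2 : 4 * Real.exp (2 * (τ2 - j1)) ≤ n1
  n : n1 ≤ Y

/-- `I` contains the essential support of the smooth divisor function -/
def Cov (n1 : ℕ) (ρ T τ1 τ2 : ℝ) (I : Finset ℕ) : Prop :=
  I ⊆ Icc 1 n1 ∧ ∀ a : ℕ, Real.exp (2 * τ1 - 8 * (ρ * T)) < a →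
    (a : ℝ) ≤ Real.exp (2 * τ2 + 8 * (ρ * T)) → a ∈ I

/-- size conditions of the type III estimate -/
structure T3 (N : ℝ) (K : ℕ) (B : ℝ) (S : Finset ℕ) (β : ℕ → ℝ) : Prop where
  lo : N ^ (4 / 5 : ℝ) ≤ K
  hi : (K : ℝ) ≤ N ^ (91 / 100 : ℝ)
  b1 : N ^ (13 / 20 : ℝ) ≤ B
  b2 : B ≤ N ^ (4 / 5 : ℝ)
  s : ∀ b ∈ S, B ≤ b ∧ (b : ℝ) ≤ 2 * B ∧ Squarefree b ∧ Odd b
  c : ∀ b, |β b| ≤ 1

/-- size conditions for two translated ranges -/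
structure Sw (N B j j' l τ1 τ2 : ℝ) : Prop where
  l0 : 0 ≤ l
  s12 : τ1 ≤ τ2
  a1 : 9 / 10 * N ^ 2 ≤ Real.exp (2 * τ1) * B
  a2 : Real.exp (2 * τ2) * B ≤ 13 / 10 * N ^ 2
  u : N ^ (1 / 10 : ℝ) ≤ Real.exp (2 * j)
  u' : N ^ (1 / 10 : ℝ) ≤ Real.exp (2 * j')
  v : N ^ (1 / 10 : ℝ) ≤ Real.exp (2 * (τ1 - (j + l)))
  v' : N ^ (1 / 10 : ℝ) ≤ Real.exp (2 * (τ1 - (j' + l)))

end

end Pool.Agent.P.MP_8be758_nt.Av2
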