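import Pool.Agent.P.MP_8be758_nt.Av2.G1a

/-! The step `S_G1`. -/

namespace Pool.Agent.P.MP_8be758_nt.Av2

open Finset Real Filter Topology
open Pool.Agent.P.MP_e86632_nt (ee)
open Pool.Agent.P.MP_8be758_nt.Avg

theorem t_G1 (θ δ : ℝ) (hθ : 4 / 5 ≤ θ) (hI2 : S_I2 θ δ) : S_G1 θ δ :=
  g1_main θ δ hθ hI2

end Pool.Agent.P.MP_8be758_nt.Av2
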