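import Pool.Agent.P.MP_8be758_nt.Av2.Basic

/-! The step `S_G3`, for the Dirichlet product. -/

namespace Pool.Agent.P.MP_8be758_nt.Av2

open Finset Real Filter Topology
open Pool.Agent.P.MP_e86632_nt (ee)
open Pool.Agent.P.MP_8be758_nt.Avg

theorem g3_tau (z : ℝ) (f1 f2 : ArithmeticFunction ℝ) (U1 U2 V1 V2 : ℕ) :
    tauG z f1 f2 U1 U2 V1 V2 = fun a => if Rough z a then (rs U1 U2 f1 * rs V1 V2 f2) a else 0 := by
  funext a
  rw [tauG, ArithmeticFunction.mul_apply, sum_filter]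
  congr 1
  refine sum_congr rfl fun p _ => ?_
  rw [rs_apply, rs_apply]
  by_cases h1 : U1 < p.1 ∧ p.1 ≤ U2 <;> by_cases h2 : V1 < p.2 ∧ p.2 ≤ V2 <;> simp [h1, h2]

theorem g3_conv (z : ℝ) {D : ℝ} (hD : 0 < D) (c g : ArithmeticFunction ℝ) (X1 X2 : ℕ)
    (f : ℕ → ℝ) : ∑ m ∈ (Ioc X1 X2).filter (Rough z), (c * g) m * f m =
      D * bil X1 X2 (fun b => if Rough z b then c b / D else 0)
        (fun a => if Rough z a then g a else 0) f := by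
  rw [bil_eq_conv z X1 X2 (fun b => c b / D) g f, mul_sum]
  refine sum_congr rfl fun m _ => ?_
  rw [ArithmeticFunction.mul_apply, ← mul_assoc, mul_sum]
  congr 1
  exact sum_congr rfl fun p _ => by field_simp

theorem g3_ms {y z D : ℝ} (hD : 0 < D) (c : ℕ → ℝ) :
    D * ms y z (fun b => if Rough z b then c b / D else 0) = ms y z c := by
  rw [ms, ms, mul_sum]
  refine sum_congr rfl fun d hd => ?_
  rw [if_pos (mem_filter.1 hd).2, abs_div, abs_of_pos hD]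
  field_simp

theorem g3_main (hLAY : S_LAY) (θ δ : ℝ) (hIII : S_III θ δ) : ∀ (j : ℕ) (ε : ℝ), 0 < ε →
    ∃ e0 : ℝ, 0 < e0 ∧ ∀ e1 : ℝ, 0 < e1 → e1 ≤ e0 → ∀ D ε' : ℝ, 0 < D → 0 < ε' → ∃ R1 : ℕ,
    ∀ R : ℕ, R1 ≤ R → ∀ᶠ N : ℝ in atTop,
      ∀ (K X1 X2 U1 U2 V1 V2 : ℕ) (c f1 f2 : ArithmeticFunction ℝ),
      Setup2 θ δ N K X1 X2 → Bdd N (N ^ e1) D c →
      (∀ d, c d ≠ 0 → N ^ (13 / 20 : ℝ) < d ∧ (d : ℝ) ≤ N ^ (4 / 5 : ℝ)) → Smo N f1 → Smo N f2 →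
      N ^ (1 / 5 : ℝ) ≤ U1 → N ^ (1 / 5 : ℝ) ≤ V1 → (U2 : ℝ) ≤ U1 * N ^ (1 / 20 : ℝ) →
      (U2 : ℝ) ≤ N ^ 3 → (V2 : ℝ) ≤ N ^ 3 →
      Good N (N ^ e1) R K X1 X2 (c * (rs U1 U2 f1 * rs V1 V2 f2) : ArithmeticFunction ℝ) 0
        (ε * e1 ^ j * ms (N ^ (4 / 5 : ℝ)) (N ^ e1) c + ε') := by
  intro j ε hε
  obtain ⟨e0, he0, hIII⟩ := hIII j ε hε
  refine ⟨e0, he0, fun e1 he1 h1e D ε' hD hε' => ?_⟩
  obtain ⟨R1, hIII⟩ := hIII e1 he1 h1e (ε' / D) (by positivity)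
  refine ⟨R1, fun R hR => ?_⟩
  filter_upwards [hIII R hR, eventually_gt_atTop 1] with N h hN K X1 X2 U1 U2 V1 V2 c f1 f2 hst
    hc hs h1 h2 u1 v1 u2 u3 v3
  have hL := Real.log_pos hN
  have hN0 : 0 < N := by linarith
  have h45 : N ^ (4 / 5 : ℝ) ≤ N ^ 3 := by
    rw [← Real.rpow_natCast]
    exact Real.rpow_le_rpow_of_exponent_le hN.le (by norm_num)
  obtain ⟨β, hβ⟩ : ∃ β : ℕ → ℝ, β = fun b => if Rough (N ^ e1) b then c b / D else 0 := ⟨_, rfl⟩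
  have b0 : ∀ b, β b ≠ 0 → Rough (N ^ e1) b ∧ c b ≠ 0 := fun b hb => by
    simp only [hβ] at hb
    by_cases r : Rough (N ^ e1) b
    · exact ⟨r, fun e => hb (by rw [if_pos r, e, zero_div])⟩
    · exact absurd (if_neg r) hb
  have b1 : Coef (N ^ e1) (N ^ (13 / 20 : ℝ)) β := by
    refine ⟨fun b => ?_, fun b hb => ⟨(b0 b hb).1, (hs b (b0 b hb).2).1⟩⟩
    by_cases hb : β b = 0
    · rw [hb, abs_zero]; exact zero_le_one
    · obtain ⟨r, e⟩ := b0 b hb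
      simp only [hβ, if_pos r]
      rw [abs_div, abs_of_pos hD, div_le_one hD]
      exact hc b r ((hs b e).2.trans h45)
  have hm := ms_nonneg (N ^ (4 / 5 : ℝ)) (N ^ e1) β
  have key := hLAY (N ^ e1) ((ε * e1 ^ j * ms (N ^ (4 / 5 : ℝ)) (N ^ e1) β + ε' / D) * K * N /
    Real.log N) K X1 X2 U1 U2 V1 V2 β f1 f2 (fun k => dd R.factorial k) (by positivity)
    (fun u _ hu => h1.bd hN (le_trans (by exact_mod_cast hu) u3))
    (fun u u' hu hu' => h1.mono hN (by omega) hu')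
    (fun v _ hv => h2.bd hN (le_trans (by exact_mod_cast hv) v3))
    (fun v v' hv hv' => h2.mono hN (by omega) hv')
    (fun t t' ht ht' => by
      have a1 : (U1 : ℝ) ≤ t := by exact_mod_cast ht
      have a2 : (V1 : ℝ) ≤ t' := by exact_mod_cast ht'
      exact h K X1 X2 t U2 t' V2 β hst b1 (fun b hb => (hs b (b0 b hb).2).2) (u1.trans a1)
        (v1.trans a2) (u2.trans (by gcongr)))
  refine good_of_le ?_
  rw [g3_tau] at key
  rw [sum_congr rfl fun k _ => by rw [g3_conv _ hD, abs_mul, abs_of_pos hD, ← hβ], ← mul_sum]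
  refine (mul_le_mul_of_nonneg_left key hD.le).trans_eq ?_
  rw [← g3_ms hD c, ← hβ]
  field_simp

end Pool.Agent.P.MP_8be758_nt.Av2
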