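import Pool.Agent.P.MP_8be758_nt.Av2.Basic

/-! The step `S_GE0`. -/

namespace Pool.Agent.P.MP_8be758_nt.Av2

open Finset Real Filter Topology
open Pool.Agent.P.MP_e86632_nt (ee)
open Pool.Agent.P.MP_8be758_nt.Avg

theorem ge0_inj {α β : Type} [DecidableEq β] {s : Finset α} {t : Finset β} (e : α → β)
    (g : β → ℝ) (h1 : Set.InjOn e s) (h2 : ∀ a ∈ s, e a ∈ t) (h3 : ∀ b, 0 ≤ g b) :
    ∑ a ∈ s, g (e a) ≤ ∑ b ∈ t, g b := by
  rw [← sum_image h1]
  exact sum_le_sum_of_subset_of_nonneg (image_subset_iff.2 h2) fun b _ _ => h3 b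

theorem ge0_term {F : ℕ → ℝ} {E m : ℕ} (d : ℕ) (hm : 0 < m) (hc : E.Coprime m)
    (hF : ∀ a k, F (a + m * k) = F a) (h0 : ∀ a, 0 ≤ F a) :
    ∑ r ∈ range (m * d), F (E * r) ≤ d * ∑ r ∈ range m, F r := by
  rw [per0_rep (f := fun r => F (E * r)) fun a => by rw [mul_add, mul_comm E m, hF]]
  refine mul_le_mul_of_nonneg_left (le_of_eq_of_le (sum_congr rfl fun r _ => ?_)
    (ge0_inj (fun r => E * r % m) F (fun a ha b hb e => ?_)
      (fun a _ => mem_range.2 (Nat.mod_lt _ hm)) h0)) (Nat.cast_nonneg _)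
  · rw [← hF (E * r % m) (E * r / m), Nat.mod_add_div]
  · exact (Nat.ModEq.cancel_left_of_coprime hc.symm e).eq_of_lt_of_lt (mem_range.1 ha)
      (mem_range.1 hb)

theorem t_GE0 : S_GE0 := by
  intro S E ν0 c θ hE hS
  simp only [GG]
  rw [← sum_product' (f := fun d ν : ℕ => 1 / (ν : ℝ) *
    ∑ r ∈ range ν, ‖S ((r : ℝ) / ν) (c * θ / d / ν)‖ ^ 2)]
  refine le_trans (sum_le_sum fun ν hν => ?_) (ge0_inj (fun ν => (E.gcd ν, ν / E.gcd ν)) _
    (fun a _ b _ e => ?_) (fun a ha => ?_) fun b => by positivity)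
  · have h1 : 0 < ν := (mem_Icc.1 hν).1
    obtain ⟨E', m, hc, h2, h3⟩ := Nat.exists_coprime E ν
    have h4 : 0 < E.gcd ν := Nat.gcd_pos_of_pos_right _ h1
    generalize E.gcd ν = d at *
    subst h2 h3
    have h5 : 0 < m := Nat.pos_of_mul_pos_right h1
    have m0 : (m : ℝ) ≠ 0 := by positivity
    have d0 : (d : ℝ) ≠ 0 := by positivity
    have := ge0_term (F := fun r => ‖S ((r : ℝ) / m) (c * θ / d / m)‖ ^ 2) d h5 hc
      (fun a k => by
        rw [← hS (a / m) _ k]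
        congr 3
        push_cast
        field_simp) fun a => by positivity
    rw [Nat.mul_div_cancel _ h4]
    refine (mul_le_mul_of_nonneg_left (le_of_eq_of_le (sum_congr rfl fun r _ => ?_) this)
      (by positivity)).trans_eq ?_
    · congr 3 <;>
      · push_cast
        field_simp
    · push_cast
      field_simp
  · obtain ⟨e1, e2⟩ := Prod.ext_iff.1 e
    dsimp only at e1 e2
    rw [← Nat.div_mul_cancel (Nat.gcd_dvd_right E a), e2, e1,
      Nat.div_mul_cancel (Nat.gcd_dvd_right E b)]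
  · obtain ⟨h1, h2⟩ := mem_Icc.1 ha
    exact mem_product.2 ⟨Nat.mem_divisors.2 ⟨Nat.gcd_dvd_left _ _, by omega⟩, mem_Icc.2
      ⟨Nat.div_pos (Nat.gcd_le_right _ h1) (Nat.gcd_pos_of_pos_right _ h1),
        (Nat.div_le_self _ _).trans h2⟩⟩

end Pool.Agent.P.MP_8be758_nt.Av2
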