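import Pool.Agent.P.MP_8be758_nt.Av2.Basic

/-! The step `S_HB`, from the estimate for Dirichlet products. -/

namespace Pool.Agent.P.MP_8be758_nt.Av2

open Finset Real Filter Topology
open Pool.Agent.P.MP_e86632_nt (ee)
open Pool.Agent.P.MP_8be758_nt.Avg
open ArithmeticFunction (moebius vonMangoldt)

theorem hb_prod {A : Type*} [CommMonoid A] (M Z L : A) (j : ℕ) :
    ∏ i, Fin.append (fun _ : Fin (j + 1) => M) (Fin.cons L (fun _ : Fin j => Z) : Fin (j + 1) → A) i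
      = M ^ (j + 1) * Z ^ j * L := by
  rw [Fin.prod_univ_add]
  simp only [Fin.append_left, Fin.append_right, Fin.prod_cons, prod_const, card_univ,
    Fintype.card_fin]
  rw [mul_assoc, mul_comm L]

theorem hb_sml {N : ℝ} (hN : 0 ≤ N) :
    Sml N (rs 0 ⌊2 * N ^ (2 / 5 : ℝ)⌋₊ (moebius : ArithmeticFunction ℝ)) := by
  refine ⟨fun n => ?_, fun n hn => ?_⟩
  · rw [rs_apply]
    split_ifs
    · rw [ArithmeticFunction.intCoe_apply]
      exact_mod_cast ArithmeticFunction.abs_moebius_le_one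
    · simp
  · rw [rs_apply] at hn
    split_ifs at hn with h
    · exact (Nat.le_floor_iff (by positivity)).1 h.2
    · exact absurd rfl hn

theorem hb_pow {N : ℝ} (hN : 0 < N) (h : 2 ≤ N ^ (2 / 5 : ℝ)) :
    6 / 5 * N ^ 2 ≤ (⌊2 * N ^ (2 / 5 : ℝ)⌋₊ : ℝ) ^ 5 := by
  have h1 := Nat.lt_floor_add_one (2 * N ^ (2 / 5 : ℝ))
  have h2 : (N ^ (2 / 5 : ℝ)) ^ 5 = N ^ 2 := by
    rw [← Real.rpow_mul_natCast hN.le]; norm_num
  calc 6 / 5 * N ^ 2 ≤ (3 / 2 * N ^ (2 / 5 : ℝ)) ^ 5 := by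
        rw [mul_pow, h2]; nlinarith [sq_nonneg N]
    _ ≤ _ := by gcongr; linarith

theorem hb_main (hHBI : S_HBI) (θ δ : ℝ) (hPR1 : ∀ ε : ℝ, 0 < ε → ∃ e0 : ℝ, 0 < e0 ∧
    ∀ e1 : ℝ, 0 < e1 → e1 ≤ e0 → ∃ C : ℝ, ∃ R1 : ℕ, ∀ R : ℕ, R1 ≤ R → ∀ᶠ N : ℝ in atTop,
      ∀ (K X1 X2 n : ℕ) (f : Fin n → ArithmeticFunction ℝ), Setup2 θ δ N K X1 X2 →
        n ≤ 10 → (∀ i, Sml N (f i) ∨ Smo N (f i)) →
        Good N (N ^ e1) R K X1 X2 (∏ i, f i : ArithmeticFunction ℝ) C ε) : S_HB θ δ := by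
  intro ε hε
  obtain ⟨e0, he0, h⟩ := hPR1 (ε / 31) (by positivity)
  refine ⟨e0, he0, fun e1 he1 h1e => ?_⟩
  obtain ⟨C, R1, h⟩ := h e1 he1 h1e
  refine ⟨31 * C, R1, fun R hR => ?_⟩
  filter_upwards [h R hR, eventually_gt_atTop 1, ev_const 2 (show (0 : ℝ) < 2 / 5 by norm_num)]
    with N h hN h2 K X1 X2 hst
  have hN0 : 0 < N := by linarith
  have key := good_sum (range 5) fun j hj => (h K X1 X2 _ (Fin.append
    (fun _ : Fin (j + 1) => rs 0 ⌊2 * N ^ (2 / 5 : ℝ)⌋₊ (moebius : ArithmeticFunction ℝ))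
    (Fin.cons (lg N) (fun _ : Fin j => ze) : Fin (j + 1) → _)) hst
    (by have := mem_range.1 hj; omega) fun i => by
      refine Fin.addCases (fun i => ?_) (fun i => ?_) i
      · rw [Fin.append_left]; exact Or.inl (hb_sml hN0.le)
      · rw [Fin.append_right]
        refine Fin.cases (Or.inr (Or.inr rfl)) (fun i => Or.inr (Or.inl rfl)) i).smul
    ((-1) ^ j * (Nat.choose 5 (j + 1) : ℝ))
  simp only [hb_prod, ← sum_mul] at key
  have e : ∑ j ∈ range 5, |(-1) ^ j * (Nat.choose 5 (j + 1) : ℝ)| = 31 := by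
    simp only [abs_mul, abs_pow, abs_neg, abs_one, one_pow, one_mul, Nat.abs_cast]
    norm_num [sum_range_succ, Nat.choose]
  rw [e] at key
  refine (key.congr fun m _ hm _ => (hHBI N _ m hN ?_).symm).mono hN.le le_rfl (by linarith)
  have a : (m : ℝ) ≤ X2 := by exact_mod_cast hm
  exact_mod_cast (a.trans hst.x2).trans (hb_pow hN0 h2)

end Pool.Agent.P.MP_8be758_nt.Av2
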