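import Pool.Agent.P.MP_8be758_nt.Av2.Defs

/-! Statements of the steps of the proof. -/

namespace Pool.Agent.P.MP_8be758_nt.Av2

open Finset Real Filter Topology
open Pool.Agent.P.MP_e86632_nt (ee)
open Pool.Agent.P.MP_8be758_nt.Avg
open ArithmeticFunction (moebius vonMangoldt)

/-! ### The Voronoi type formula and the large sieve -/

def S_POI : Prop := ∀ (f f1 f2 : ℝ → ℂ) (a b : ℝ) (e P : ℕ) (h : ℤ → ℂ) (s : Finset ℤ),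
  0 < e → 0 < P → (∀ x, HasDerivAt f (f1 x) x) → (∀ x, HasDerivAt f1 (f2 x) x) → Continuous f2 →
  (∀ x, x ∉ Set.Icc a b → f x = 0) → (∀ n, ‖h n‖ ≤ 1) → (∀ n, h (n + e) = h n) →
  (∀ n : ℤ, n ∉ s → f n = 0) →
  ‖∑ n ∈ s, h n * f n - ∑ p ∈ Icc (-(P : ℤ)) P, hat e h p * ∫ t : ℝ, f t * ee (-(p * t / e))‖ ≤
    (e : ℝ) ^ 2 / P * ∫ t : ℝ, ‖f2 t‖

def S_CUT : Prop := ∃ C : ℝ, 0 < C ∧ ∃ χ : ℝ → ℝ, (∀ w, 0 ≤ χ w ∧ χ w ≤ 1) ∧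
  (∀ w, 1 / 2 ≤ w → w ≤ 2 → χ w = 1) ∧ (∀ w, w ∉ Set.Icc (1 / 4 : ℝ) 4 → χ w = 0) ∧
  ∀ (κ a b : ℂ) (M s : ℝ), 1 ≤ s → (∀ X : ℝ, ‖κ * Complex.exp (a * X ^ 2 + b * X)‖ ≤ M) →
    ∃ f1 f2 : ℝ → ℂ,
      (∀ u, HasDerivAt (fun u : ℝ => (χ (u / s ^ 2) : ℂ) *
        (κ * Complex.exp (a * ((√u / s : ℝ) : ℂ) ^ 2 + b * ((√u / s : ℝ) : ℂ))) / ((√u : ℝ) : ℂ))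
          (f1 u) u) ∧
      (∀ u, HasDerivAt f1 (f2 u) u) ∧ Continuous f2 ∧
      ∫ u : ℝ, ‖f2 u‖ ≤ C * M * (1 + ‖a‖ + ‖b‖) ^ 2

def S_GP : Prop := ∃ C : ℝ, 0 < C ∧
  ∀ (κ a b : ℂ) (ρ s M : ℝ) (e P n1 : ℕ) (h : ℤ → ℂ), 0 < ρ → ρ ≤ 1 → 1 ≤ s → 4 * s ^ 2 ≤ n1 →
    0 < e → 0 < P → (∀ n, ‖h n‖ ≤ 1) → (∀ n, h (n + e) = h n) →
    (∀ X : ℝ, ‖κ * Complex.exp (a * X ^ 2 + b * X)‖ ≤ M * gs ((X - 1) / ρ)) →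
    ‖∑ u ∈ Icc 1 n1, h u * (κ * Complex.exp (a * ((√(u : ℝ) / s : ℝ) : ℂ) ^ 2 +
        b * ((√(u : ℝ) / s : ℝ) : ℂ)) / ((√(u : ℝ) : ℝ) : ℂ)) -
      2 * s * ∑ p ∈ Icc (-(P : ℤ)) P, hat e h p *
        ∫ X : ℝ, κ * Complex.exp (a * X ^ 2 + b * X) * ee (-(p * s ^ 2 / e * X ^ 2))‖ ≤
      C * M * ((e : ℝ) ^ 2 * (1 + ‖a‖ + ‖b‖) ^ 2 / P + (n1 + s * P) * gs (1 / (6 * ρ)))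

def S_GI0 : Prop := ∀ ρ Q F : ℝ, 0 < ρ →
  (∀ X : ℝ, ‖I1 ρ Q F X‖ ≤ ρ) ∧
  ∃ κ a b : ℂ, ‖a‖ ≤ 4 * (1 / ρ ^ 2 + F ^ 2 * ρ ^ 2) ∧ ‖b‖ ≤ 7 * (1 / ρ ^ 2 + |F|) ∧
    ∀ X : ℝ, (gs ((X - 1) / ρ) : ℂ) * I1 ρ Q F X = κ * Complex.exp (a * X ^ 2 + b * X)

def S_GI : Prop := ∀ ρ : ℝ, 0 < ρ → II ρ 0 0 0 = (ρ : ℂ) ^ 2 ∧ ∀ P Q F : ℝ,
  (F ≠ 0 → ‖II ρ P Q F‖ ≤ ρ / √|F|) ∧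
  ∀ T : ℝ, 0 ≤ T → ρ * T ≤ 1 / 2 → ‖II ρ P Q F‖ ≤ ρ ^ 2 * gs T ∨
    ∃ x y : ℝ, 1 / 2 ≤ x ∧ x ≤ 3 / 2 ∧ 1 / 2 ≤ y ∧ y ≤ 3 / 2 ∧
      |P * x - F * y / 2| ≤ T / (2 * ρ) ∧ |Q * y - F * x / 2| ≤ T / (2 * ρ)

def S_VOR : Prop := ∃ C : ℝ, 0 < C ∧
  ∀ (Y n1 e r r' : ℕ) (ρ x y φ : ℝ), 2 ≤ Y → n1 ≤ Y → 1 ≤ e → e ≤ Y → r * r' ≡ 1 [MOD e] →
    0 < ρ → ρ ≤ 1 → 1 / ρ ≤ Y → |φ / e| ≤ Y → 0 ≤ x + Real.log e / 2 → 0 ≤ y + Real.log e / 2 →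
    4 * Real.exp (2 * (x + Real.log e / 2)) ≤ n1 → 4 * Real.exp (2 * (y + Real.log e / 2)) ≤ n1 →
    ‖SA ρ n1 (x + Real.log e / 2) (y + Real.log e / 2) ((r : ℝ) / e) (φ / e) -
      4 * Real.exp (x + y) * DS ρ (Y ^ 28) (Y ^ 12) x y φ ((r' : ℝ) / e)‖ ≤
      C * (1 / (Y : ℝ) ^ 5 + (Y : ℝ) ^ 42 * gs (1 / (6 * ρ)))

def S_LSV : Prop := ∃ C : ℝ, 0 < C ∧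
  ∀ (ρ T τ x y φ : ℝ) (E P1 P2 : ℕ), 0 < ρ → 1 ≤ T → ρ * T ≤ 1 / 2 → 1 ≤ E →
    16 * T / ρ ≤ |φ| * Real.exp (x + y) → TauB (φ ^ 2) τ →
    ∑ e ∈ Icc 1 E, ∑ r ∈ red e, ‖DS ρ P1 P2 x y φ ((r : ℝ) / e)‖ ^ 2 ≤
      C * ((if 1 ≤ |φ| then (T * |φ| / (ρ * Real.exp (x + y)) + (E : ℝ) ^ 2) *
          (T * |φ| / (ρ * Real.exp (x + y)) + 1) * τ ^ 2 * ρ ^ 2 / (|φ| * Real.exp (x + y))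
        else 0) + (E : ℝ) ^ 2 * (((P1 : ℝ) + 1) * (P2 + 1) * gs T) ^ 2)

def S_SUP : Prop := ∀ (ι : Type) (R : Finset ι) (w a b c d : ι → ℝ) (f : ι → ℝ → ℝ → ℂ)
  (a0 b0 c0 d0 D : ℝ), (∀ i, 0 ≤ w i) → (∀ i, Continuous fun p : ℝ × ℝ => f i p.1 p.2) →
  (∀ i ∈ R, a0 ≤ a i ∧ a i ≤ b i ∧ b i ≤ b0 ∧ c0 ≤ c i ∧ c i ≤ d i ∧ d i ≤ d0) →
  a0 ≤ b0 → c0 ≤ d0 →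
  (∀ x y : ℝ, ∑ i ∈ R.filter (fun i => (a i ≤ x ∧ x ≤ b i) ∧ c i ≤ y ∧ y ≤ d i),
    w i * ‖f i x y‖ ^ 2 ≤ D) →
  ∑ i ∈ R, w i * ‖∫ x in a i..b i, ∫ y in c i..d i, f i x y‖ ^ 2 ≤ ((b0 - a0) * (d0 - c0)) ^ 2 * D

def S_GR1 : Prop := ∃ C : ℝ, 0 < C ∧
  ∀ (Y n1 ν0 g : ℕ) (ρ T τ j1 j2 τ1 τ2 θ x y : ℝ) (R : Finset ℕ),
    Par Y n1 ρ T j1 j2 τ1 τ2 1 1 → 1 ≤ g → ν0 ≤ Y → |θ| ≤ Y → TauB ((Y : ℝ) ^ 2) τ →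
    16 * T / ρ * ν0 ≤ |θ| * Real.exp τ1 →
    (∀ e ∈ R, 1 ≤ e ∧ g * e ≤ ν0 ∧ (j1 - Real.log e / 2 ≤ x ∧ x ≤ j2 - Real.log e / 2) ∧
      τ1 - Real.log e ≤ y ∧ y ≤ τ2 - Real.log e) →
    ∑ e ∈ R, ∑ r ∈ red e, 1 / ((g : ℝ) * e) *
        ‖SA ρ n1 (x + Real.log e / 2) (y - x + Real.log e / 2) ((r : ℝ) / e) (θ / (g * e))‖ ^ 2 ≤
      C * (τ ^ 2 * T ^ 2 * (|θ| / ((g : ℝ) ^ 2 * Real.exp τ1) + 1 / g + ν0 / (g : ℝ) ^ 2 +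
        if (g : ℝ) ≤ |θ| then Real.exp τ1 / |θ| else 0) + Neg Y T ^ 2 / Y)

def S_GR : Prop := ∃ C : ℝ, 0 < C ∧
  ∀ (Y n1 ν0 : ℕ) (ρ T τ j1 j2 τ1 τ2 θ : ℝ),
    Par Y n1 ρ T j1 j2 τ1 τ2 1 1 → 1 ≤ ν0 → ν0 ≤ Y → |θ| ≤ Y → TauB ((Y : ℝ) ^ 2) τ →
    16 * T / ρ * ν0 ≤ |θ| * Real.exp τ1 →
    GG (SR ρ n1 j1 j2 τ1 τ2) ν0 θ ≤
      C * (1 + Real.log Y) ^ 4 * (τ ^ 2 * T ^ 2 * shp (Real.exp τ1) ν0 θ + Neg Y T ^ 2)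

def S_GE0 : Prop := ∀ (S : ℝ → ℝ → ℂ) (E ν0 : ℕ) (c θ : ℝ), 1 ≤ E →
  (∀ (γ t : ℝ) (n : ℤ), S (γ + n) t = S γ t) →
  GG (fun γ t => S (E * γ) (c * t)) ν0 θ ≤ ∑ d ∈ E.divisors, GG S ν0 (c * θ / d)

def S_OM : Prop := ∃ C : ℝ, 0 < C ∧ ∀ (ρ T : ℝ) (u : ℕ), 0 < ρ → 1 ≤ T → ρ * T ≤ 1 / 6 → 1 ≤ u →
  (∀ t, 2 * (ρ * T) ≤ |Real.log u / 2 - t| → om ρ t u ≤ gs T) ∧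
  ∀ a b : ℝ, a ≤ b → (∫ t in a..b, om ρ t u) ≤ 2 * ρ + (b - a) * gs T ∧
    (a + 2 * (ρ * T) ≤ Real.log u / 2 → Real.log u / 2 + 2 * (ρ * T) ≤ b →
      |(∫ t in a..b, om ρ t u) - ρ| ≤ C * (ρ ^ 2 * T ^ 3 + (1 + b - a) * gs T))

def S_WW : Prop := ∃ C : ℝ, 0 < C ∧ ∀ (ρ T L j1 j2 τ1 τ2 : ℝ) (u v : ℕ), 0 < ρ → 1 ≤ T →
  ρ * T ≤ 1 / 6 → 1 ≤ u → 1 ≤ v → j1 ≤ j2 → τ1 ≤ τ2 → 1 ≤ L → j2 - j1 ≤ L → τ2 - τ1 ≤ 1 →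
  ((Real.log u / 2 ≤ j1 - 2 * (ρ * T) ∨ j2 + 2 * (ρ * T) ≤ Real.log u / 2 ∨
      Real.log (u * v) / 2 ≤ τ1 - 4 * (ρ * T) ∨ τ2 + 4 * (ρ * T) ≤ Real.log (u * v) / 2) →
    WW ρ j1 j2 τ1 τ2 u v ≤ L * gs T) ∧
  (L * gs T ≤ ρ ^ 3 → WW ρ j1 j2 τ1 τ2 u v ≤ 9 * ρ ^ 2 ∧
    (j1 + 2 * (ρ * T) ≤ Real.log u / 2 → Real.log u / 2 ≤ j2 - 2 * (ρ * T) →
      τ1 + 4 * (ρ * T) ≤ Real.log (u * v) / 2 → Real.log (u * v) / 2 ≤ τ2 - 4 * (ρ * T) →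
      |WW ρ j1 j2 τ1 τ2 u v - ρ ^ 2| ≤ C * ρ ^ 3 * T ^ 3))

def S_TRU : Prop := ∀ (Y n1 E1 E2 : ℕ) (ρ T j1 j2 τ1 τ2 γ θ : ℝ) (I : Finset ℕ),
  Par Y n1 ρ T j1 j2 τ1 τ2 E1 E2 → Cov n1 ρ T τ1 τ2 I →
  ‖SI I (al ρ j1 j2 τ1 τ2 E1 E2) γ θ - ((1 / √((E1 : ℝ) * E2) : ℝ) : ℂ) *
    SR ρ n1 (j1 - Real.log E1 / 2) (j2 - Real.log E1 / 2) (τ1 - Real.log (E1 * E2) / 2)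
      (τ2 - Real.log (E1 * E2) / 2) ((E1 * E2 : ℕ) * γ) (√((E1 : ℝ) * E2) * θ)‖ ≤
    (Y : ℝ) ^ 3 * gs T

def S_GA : Prop := ∃ C : ℝ, 0 < C ∧
  ∀ (Y n1 E1 E2 ν0 : ℕ) (ρ T τ j1 j2 τ1 τ2 θ : ℝ) (I : Finset ℕ),
    Par Y n1 ρ T j1 j2 τ1 τ2 E1 E2 → Cov n1 ρ T τ1 τ2 I → 1 ≤ ν0 → ν0 ≤ Y →
    |θ| * (E1 * E2) ≤ Y → TauB ((Y : ℝ) ^ 2) τ → 16 * T / ρ * ν0 * (E1 * E2) ≤ |θ| * Real.exp τ1 →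
    GG (SI I (al ρ j1 j2 τ1 τ2 E1 E2)) ν0 θ ≤ C * (1 + Real.log Y) ^ 4 *
      (E1 * E2 * τ ^ 2 * T ^ 2 * shp (Real.exp τ1) ν0 θ + Neg Y T ^ 2)

def S_ZF0 : Prop := ∃ C : ℝ, 0 < C ∧
  ∀ (Y n1 e r : ℕ) (ρ T t1 t2 : ℝ), 2 ≤ Y → n1 ≤ Y → 1 ≤ e → r.Coprime e → 0 < ρ → 1 / ρ ≤ Y →
    1 ≤ T → ρ * T ≤ 1 / 6 → e * T / ρ < Real.exp (2 * t1) → e * T / ρ < Real.exp (2 * t2) →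
    4 * Real.exp (2 * t1) ≤ n1 → 4 * Real.exp (2 * t2) ≤ n1 →
    ‖SA ρ n1 t1 t2 ((r : ℝ) / e) 0 - ((4 * Real.exp (t1 + t2) * ρ ^ 2 / e : ℝ) : ℂ)‖ ≤ C * Neg Y T

def S_ZF : Prop := ∃ C : ℝ, 0 < C ∧
  ∀ (Y n1 E1 E2 q r : ℕ) (ρ T j j' l τ1 τ2 : ℝ) (I : Finset ℕ),
    Par Y n1 ρ T j (j + l) τ1 τ2 E1 E2 → Par Y n1 ρ T j' (j' + l) τ1 τ2 E1 E2 →
    Cov n1 ρ T τ1 τ2 I → 1 ≤ q →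
    q * T / ρ * E1 < Real.exp (2 * j) → q * T / ρ * E1 < Real.exp (2 * j') →
    q * T / ρ * E2 < Real.exp (2 * (τ1 - (j + l))) →
    q * T / ρ * E2 < Real.exp (2 * (τ1 - (j' + l))) →
    ‖SI I (fun a => al ρ j (j + l) τ1 τ2 E1 E2 a - al ρ j' (j' + l) τ1 τ2 E1 E2 a)
      ((r : ℝ) / q) 0‖ ≤ C * (Y * Neg Y T)

/-! ### The dispersion estimate with a bound for `GG` -/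

def S_BES : Prop := ∃ C : ℝ, 0 < C ∧ ∀ (ε a b G : ℝ) (J : ℕ) (g : ℝ → ℂ), 0 < ε → ε ≤ 2 →
  0 < a → a ≤ b → 1 ≤ J → Continuous g → (∀ θ, a ≤ θ → θ ≤ b → ‖g θ‖ ≤ G) →
  ∑ j ∈ Icc (-(J : ℤ)) J, ‖∫ θ in a..b, chp ε j θ * g θ‖ ^ 2 ≤
    C * (b ^ 2 + (J : ℝ) ^ 2 * (1 + Real.log J)) * G ^ 2 * Real.log (b / a)

def S_TH : Prop := ∀ (α : ℕ → ℝ) (I : Finset ℕ) (B : ℝ) (μ0 : ℕ) (j : ℤ), 0 < B → j ≠ 0 →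
  ‖oscF α I B μ0 (j / 2)‖ ≤ 1 / √|(j : ℝ)| *
    (‖∫ θ : ℝ, chp (1 / B) j θ * cG α I μ0 θ‖ + ‖∫ θ : ℝ, chp (2 / B) j θ * cG α I μ0 θ‖)

def S_CG : Prop := ∀ (α : ℕ → ℝ) (I : Finset ℕ) (μ0 : ℕ),
  (∀ θ, ‖cG α I μ0 θ‖ ≤ GG (SI I α) (2 * μ0) (2 * θ) + GG (SI I α) (2 * μ0) θ) ∧
  ∀ A τ : ℝ, 1 ≤ A → Rng A I → (∀ a, |α a| ≤ 1) → TauB (2 * A) τ →
    (∀ θ, ‖cG α I μ0 θ‖ ≤ 2 * μ0 + 4 * A * τ) ∧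
    ∀ B ξ, 0 < B → ‖oscF α I B μ0 ξ‖ ≤ 2 * μ0 + 4 * A * τ

def S_PB : Prop := ∀ (α : ℕ → ℝ) (I : Finset ℕ) (A B K G : ℝ) (μ0 J : ℕ), 0 < A → 0 < K →
  (∀ a ∈ I, 1 ≤ a) → (∀ ξ, ‖oscF α I B μ0 ξ‖ ≤ G) →
  |offS α I μ0 (modF B K A) - K / 2 * mainS α I B μ0| ≤
    K / 2 * (∑ j ∈ (Icc (-(J : ℤ)) J).erase 0, ‖oscF α I B μ0 (j / 2)‖ +
      G * (gs (J * K / (4 * A)) * (4 * (1 + 4 * A / K))))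

def S_CH : Prop := ∃ C : ℝ, 0 < C ∧
  ∀ (ε B T G0 G1 G2 t0 t1 t2 : ℝ) (J : ℕ) (g : ℝ → ℂ), 1 / B ≤ ε → ε ≤ 1 → 0 < B → 1 ≤ T →
    1 ≤ J → 0 < t0 → t0 ≤ t1 → t1 ≤ t2 → 2 * √B * J * T ≤ t2 → Continuous g →
    (∀ θ, ‖g θ‖ ≤ G0) → (∀ θ, t0 ≤ |θ| → |θ| ≤ t1 → ‖g θ‖ ≤ G1) →
    (∀ θ, t1 ≤ |θ| → |θ| ≤ t2 → ‖g θ‖ ≤ G2) →
    ∑ j ∈ (Icc (-(J : ℤ)) J).erase 0, 1 / √|(j : ℝ)| * ‖∫ θ : ℝ, chp ε j θ * g θ‖ ≤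
      C * (√(J : ℝ) * t0 * G0 +
        (1 + Real.log J) * ((t1 + J) * G1 * √(Real.log (t1 / t0)) +
          (t2 + J) * G2 * √(Real.log (t2 / t1))) + (J : ℝ) ^ 2 * √B * G0 * gs T)

def S_OSC3 : Prop := ∃ C : ℝ, 0 < C ∧
  ∀ (A B K T Γ τ : ℝ) (μ0 : ℕ) (I : Finset ℕ) (α : ℕ → ℝ), 2 ≤ B → B ≤ K → K ≤ A → A ≤ K ^ 2 →
    1 ≤ T → 1 ≤ Γ → Γ ^ 2 ≤ B → 30 * T ^ 2 * √B ≤ K → (μ0 : ℝ) ≤ A → Rng A I → (∀ a, |α a| ≤ 1) →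
    TauB (2 * A) τ →
    (∀ θ, Γ / √B ≤ |θ| → |θ| ≤ A → GG (SI I α) (2 * μ0) θ ≤ Γ * shp (√A) (√(A / B)) θ) →
    |offS α I μ0 (modF B K A) - K / 2 * mainS α I B μ0| ≤
      C * K * (Γ * τ * (1 + Real.log A) ^ 2 * T ^ 4 * A * (√(A / K / B) + √(√A / K)) +
        τ * A ^ 3 * gs (T / 2))

def S_PRIM : Prop := ∃ C : ℝ, 0 < C ∧
  ∀ (A B K η T : ℝ) (n0 : ℕ) (I : Finset ℕ), 1 ≤ B → B ≤ K → B ≤ A → 0 < η → η ≤ 1 / 4 → 1 ≤ T →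
    4 * K * T ≤ η * A → (n0 : ℝ) ≤ 3 * A → Nar A η I →
    ∑ b ∈ Icc 1 n0, ∑ k ∈ KR n0, wt nuo B K b (4 * k - 1) * Qf (fun _ => 1) I n0 b k ≤
      C * (K * (η ^ 2 * A + √(A * B)) + A ^ 5 * gs (T / 2))

def S_FRZ : Prop := ∃ C : ℝ, 0 < C ∧
  ∀ (A B K η : ℝ) (n0 μ0 : ℕ) (I : Finset ℕ) (α : ℕ → ℝ), 0 < A → 0 < B → 0 < K → 0 < η →
    η ≤ 1 / 4 → √(A / B) ≤ μ0 → μ0 ≤ n0 → Nar A η I → (∀ a, |α a| ≤ 1) →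
    |offS α I n0 (modT nuo B K) - offS α I μ0 (modF B K A)| ≤
      C * (η * offS (fun _ => 1) I n0 (modT nuo B (2 * K)) +
        η ^ 2 * offS (fun _ => 1) I n0 (modT nuo (η ^ 2 * B) (2 * K))) ∧
    ∀ τ : ℝ, 1 ≤ η * A → TauB (2 * A) τ →
      |mainS α I B n0 - mainS α I B μ0| ≤ C * τ * η ^ 4 * A

def S_QF0 : Prop := ∃ C : ℝ, 0 < C ∧
  ∀ (A B η T τ O : ℝ) (K μ0 : ℕ) (I S : Finset ℕ) (α : ℕ → ℝ), B ≤ K → B ≤ A → 0 < η →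
    η ≤ 1 / 4 → 1 ≤ η ^ 2 * B → 1 ≤ T → 8 * K * T ≤ η * A → √(A / B) ≤ μ0 → (μ0 : ℝ) ≤ A →
    Nar A η I → (∀ a, |α a| ≤ 1) → TauB (4 * A ^ 2) τ →
    (∀ b ∈ S, B ≤ b ∧ (b : ℝ) ≤ 2 * B ∧ Odd b) →
    |offS α I μ0 (modF B K A) - K / 2 * mainS α I B μ0| ≤ K * O →
    ∑ k ∈ Icc 1 K, ∑ b ∈ S, Qf α I ⌈2 * A⌉₊ b k ≤
      C * K * (|mainS α I B ⌈2 * A⌉₊| + O + τ * η ^ 3 * A + τ * √(A * B) +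
        (1 + Real.log A) * A / B + A ^ 5 * gs (T / 2))

def S_QF : Prop := ∃ C : ℝ, 0 < C ∧
  ∀ (A B Z : ℝ) (K : ℕ) (I S : Finset ℕ) (α : ℕ → ℝ), 2 ≤ Z → Z ^ 600 * B ≤ A → Z ^ 300 ≤ B →
    B ≤ K → Z ^ 30 * K ≤ A → Z ^ 800 * A ≤ (K : ℝ) ^ 2 → Z ^ 400 * A ≤ K * B →
    1 + Real.log A ≤ Z → A ^ 5 * gs (Z / 2) ≤ 1 → TauB (4 * A ^ 2) Z → Nar A (4 / Z ^ 20) I →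
    (∀ a, |α a| ≤ 1) → (∀ b ∈ S, B ≤ b ∧ (b : ℝ) ≤ 2 * B ∧ Odd b) →
    (∀ θ, Z ^ 120 / √B ≤ |θ| → |θ| ≤ A →
      GG (SI I α) (2 * ⌈√(A / B)⌉₊) θ ≤ Z ^ 120 * shp (√A) (√(A / B)) θ) →
    ∑ k ∈ Icc 1 K, ∑ b ∈ S, Qf α I ⌈2 * A⌉₊ b k ≤
      C * K * (enS I (gam α) ⌊Z ^ 60⌋₊ + A / Z ^ 56)

def S_MD : Prop := ∀ (W k b : ℕ) (I : Finset ℕ) (α : ℕ → ℝ) (e : ℝ), 1 ≤ W → 1 ≤ b →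
  (∀ r < W, ‖SI I α ((r : ℝ) / W) 0‖ ≤ e) → |∑ a ∈ I, α a * md W k (a * b)| ≤ (W : ℝ) ^ 2 * e

def S_CELL0 : Prop := ∃ C : ℝ, 0 < C ∧
  ∀ (A B Z : ℝ) (K W : ℕ) (I S : Finset ℕ) (α β : ℕ → ℝ), 2 ≤ Z → Z ^ 600 * B ≤ A →
    Z ^ 300 ≤ B → B ≤ K → Z ^ 30 * K ≤ A → Z ^ 800 * A ≤ (K : ℝ) ^ 2 → Z ^ 400 * A ≤ K * B →
    1 + Real.log A ≤ Z → A ^ 5 * gs (Z / 2) ≤ 1 → TauB (4 * A ^ 2) Z → Nar A (4 / Z ^ 20) I →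
    (∀ a, |α a| ≤ 1) → (∀ b ∈ S, B ≤ b ∧ (b : ℝ) ≤ 2 * B ∧ Squarefree b ∧ Odd b) →
    (∀ b, |β b| ≤ 1) → 1 ≤ W → (W : ℝ) ≤ Z →
    (∀ θ, Z ^ 120 / √B ≤ |θ| → |θ| ≤ A →
      GG (SI I α) (2 * ⌈√(A / B)⌉₊) θ ≤ Z ^ 120 * shp (√A) (√(A / B)) θ) →
    (∀ q r : ℕ, 1 ≤ q → (q : ℝ) ≤ Z ^ 60 → ‖SI I α ((r : ℝ) / q) 0‖ ≤ 1) →
    tb K W S β I α ≤ C * K * √(A * B) / Z ^ 27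

def S_CELL : Prop := ∀ W : ℕ, 1 ≤ W → ∀ᶠ N : ℝ in atTop,
  ∀ (K E1 E2 : ℕ) (B j j' l τ1 τ2 : ℝ) (S : Finset ℕ) (β : ℕ → ℝ), T3 N K B S β →
    Sw N B j j' l τ1 τ2 → τ2 ≤ τ1 + 1 / Zs N ^ 20 → 1 ≤ E1 → 1 ≤ E2 → (E1 : ℝ) ≤ Zs N ^ 2 →
    (E2 : ℝ) ≤ Zs N ^ 2 →
    tb K W S β (AR N B)
      (fun a => al (rh N) j (j + l) τ1 τ2 E1 E2 a - al (rh N) j' (j' + l) τ1 τ2 E1 E2 a) ≤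
      rh N ^ 2 / Zs N ^ 20 * (K * N / Zs N ^ 5)

/-! ### The type III estimate -/

def S_SWAP : Prop := ∀ W : ℕ, 1 ≤ W → ∀ᶠ N : ℝ in atTop,
  ∀ (K : ℕ) (z B j j' l τ1 τ2 : ℝ) (S : Finset ℕ) (β : ℕ → ℝ) (lam : Finset ℕ → ℝ),
    T3 N K B S β → Sw N B j j' l τ1 τ2 → ∑ E ∈ (PL z).powerset, |lam E| ≤ Zs N →
    (∀ E ∈ (PL z).powerset, lam E ≠ 0 → ∏ p ∈ E, (p : ℝ) ≤ Zs N ^ 2) →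
    tb K W S β (AR N B)
      (fun a => als (rh N) z j (j + l) τ1 τ2 lam a - als (rh N) z j' (j' + l) τ1 τ2 lam a) ≤
      K * N / Zs N ^ 3

def S_FLT : Prop := ∀ (z L δ : ℝ) (lam Del : Finset ℕ → ℝ), 1 ≤ L → FLData z L δ lam Del →
  ∃ lam' Del' : Finset ℕ → ℝ, FLData z (4 * L) (δ + 2 / L) lam' Del' ∧
    ∀ E ∈ (PL z).powerset, lam' E ≠ 0 → ∏ p ∈ E, (p : ℝ) ≤ L ^ 2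

def S_SVS : Prop := ∀ (z L δ : ℝ) (lam Del : Finset ℕ → ℝ), FLData z L δ lam Del → 0 ≤ δ →
  ∃ Λ Δ : ℕ → ℝ,
    (∀ u, Λ u = ∑ E ∈ (PL z).powerset, if (∏ p ∈ E, p) ∣ u then lam E else 0) ∧
    (∀ u, (if Rough z u then 1 else 0) ≤ Λ u ∧ Λ u ≤ (if Rough z u then 1 else 0) + Δ u ∧
      0 ≤ Δ u ∧ Λ u ≤ L ∧ Δ u ≤ L) ∧
    (∀ x : ℝ, 0 ≤ x → ∑ v ∈ Icc 1 ⌊x⌋₊, Λ v ≤ x * (Vz z + δ) + L ∧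
      ∑ v ∈ Icc 1 ⌊x⌋₊, Δ v ≤ x * δ + L) ∧
    ∀ x y : ℝ, 1 ≤ x → x ≤ y →
      ∑ u ∈ Icc ⌈x⌉₊ ⌊y⌋₊, Λ u / u ≤ (Vz z + δ) * Real.log (y / x) + L / x ∧
      ∑ u ∈ Icc ⌈x⌉₊ ⌊y⌋₊, Δ u / u ≤ δ * Real.log (y / x) + L / x

open Classical in
def S_SMO : Prop := ∀ᶠ N : ℝ in atTop, ∀ (B x y : ℝ) (A1 A2 : ℕ),
  N ^ (13 / 20 : ℝ) ≤ B → B ≤ N ^ (4 / 5 : ℝ) → 24 / 25 * N ^ 2 ≤ A1 * B → A1 ≤ A2 →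
  A2 * B ≤ 6 / 5 * N ^ 2 → N ^ (1 / 10 : ℝ) ≤ x → x ≤ y → y * N ^ (1 / 10 : ℝ) ≤ A1 →
  (∀ u v : ℕ, 1 ≤ u → 1 ≤ v →
    WW (rh N) (Real.log x / 2) (Real.log y / 2) (Real.log A1 / 2) (Real.log A2 / 2) u v /
      rh N ^ 2 ≤ if x / 2 ≤ u ∧ (u : ℝ) ≤ 2 * y then 9 else 1 / N ^ 3) ∧
  ∑ a ∈ AR N B, ∑ p ∈ a.divisorsAntidiagonal,
    |WW (rh N) (Real.log x / 2) (Real.log y / 2) (Real.log A1 / 2) (Real.log A2 / 2) p.1 p.2 /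
      rh N ^ 2 - if (x < p.1 ∧ (p.1 : ℝ) ≤ y) ∧ A1 < a ∧ a ≤ A2 then 1 else 0| ≤
    N ^ 2 / B / Zs N ^ 10

def S_REP : Prop := ∃ C : ℝ, 0 < C ∧ ∀ᶠ N : ℝ in atTop,
  ∀ (z L δ B x y : ℝ) (A1 A2 : ℕ) (lam Del : Finset ℕ → ℝ), FLData z L δ lam Del → L ≤ Zs N →
    0 ≤ δ → δ ≤ 1 → N ^ (13 / 20 : ℝ) ≤ B → B ≤ N ^ (4 / 5 : ℝ) → 24 / 25 * N ^ 2 ≤ A1 * B →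
    A1 ≤ A2 → A2 * B ≤ 6 / 5 * N ^ 2 → N ^ (1 / 10 : ℝ) ≤ x → x ≤ y → y * N ^ (1 / 10 : ℝ) ≤ A1 →
    (∀ a ∈ AR N B, |als (rh N) z (Real.log x / 2) (Real.log y / 2) (Real.log A1 / 2)
      (Real.log A2 / 2) lam a - if a ∈ Ioc A1 A2 then tauJ z x y a else 0| ≤ 10 * Zs N ^ 3) ∧
    ∑ a ∈ AR N B, |als (rh N) z (Real.log x / 2) (Real.log y / 2) (Real.log A1 / 2)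
      (Real.log A2 / 2) lam a - if a ∈ Ioc A1 A2 then tauJ z x y a else 0| ≤
      C * (N ^ 2 / B) * (δ * (Vz z + δ) * Real.log N + 1 / Zs N ^ 10)

def S_UPD2 : Prop := ∃ C : ℝ, 0 < C ∧ ∀ W : ℕ, 1 ≤ W → ∀ᶠ N : ℝ in atTop,
  ∀ (K : ℕ) (B : ℝ) (S1 S2 : Finset ℕ), N ^ (4 / 5 : ℝ) ≤ K → N ^ (13 / 20 : ℝ) ≤ B →
    B ≤ N ^ (27 / 20 : ℝ) → (∀ b ∈ S1, B ≤ b ∧ (b : ℝ) ≤ 2 * B) →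
    (∀ a ∈ S2, N ^ 2 / (2 * B) ≤ a ∧ (a : ℝ) ≤ 2 * N ^ 2 / B) →
    ∑ k ∈ Icc 1 K, ∑ b ∈ S1, ∑ a ∈ S2, |dd W k (a * b)| ≤
      C * (K / N) * S1.card * S2.card + K * N ^ (49 / 50 : ℝ)

def S_UPW : Prop := ∃ C : ℝ, 0 < C ∧ ∀ W : ℕ, 1 ≤ W → ∀ᶠ N : ℝ in atTop,
  ∀ (K : ℕ) (B Ω : ℝ) (S I : Finset ℕ) (β α : ℕ → ℝ), N ^ (4 / 5 : ℝ) ≤ K →
    N ^ (13 / 20 : ℝ) ≤ B → B ≤ N ^ (27 / 20 : ℝ) → (∀ b ∈ S, B ≤ b ∧ (b : ℝ) ≤ 2 * B) →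
    I ⊆ AR N B → (∀ b, |β b| ≤ 1) → 0 ≤ Ω → (∀ a ∈ I, |α a| ≤ Ω) →
    tb K W S β I α ≤
      C * (K / N) * (∑ b ∈ S, |β b|) * (∑ a ∈ I, |α a|) + Ω * (K * N ^ (49 / 50 : ℝ))

def S_SW2 : Prop := ∀ (j : ℕ) (ε : ℝ), 0 < ε → ∃ e0 : ℝ, 0 < e0 ∧ ∀ e1 : ℝ, 0 < e1 → e1 ≤ e0 →
  ∀ W : ℕ, 1 ≤ W → ∀ᶠ N : ℝ in atTop,
    ∀ (K A1 A2 : ℕ) (B x x' r : ℝ) (S : Finset ℕ) (β : ℕ → ℝ), T3 N K B S β →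
      24 / 25 * N ^ 2 ≤ A1 * B → A2 * B ≤ 6 / 5 * N ^ 2 → 1 ≤ r →
      N ^ (1 / 10 : ℝ) ≤ x → N ^ (1 / 10 : ℝ) ≤ x' → x * r * N ^ (1 / 10 : ℝ) ≤ A1 →
      x' * r * N ^ (1 / 10 : ℝ) ≤ A1 →
      tb K W S β (Ioc A1 A2) (fun a => tauJ (N ^ e1) x (x * r) a - tauJ (N ^ e1) x' (x' * r) a) ≤
        (ε * e1 ^ j * ∑ b ∈ S, |β b| / b + 1 / Real.log N ^ 3) * K * N / Real.log N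

def S_EDG : Prop := ∃ C : ℝ, 0 < C ∧ ∀ e1 : ℝ, 0 < e1 → e1 ≤ 1 / 30 → ∀ᶠ N : ℝ in atTop,
  ∀ (B : ℝ) (A1 A2 U1 U2 V1 V2 : ℕ), 1 ≤ B → 24 / 25 * N ^ 2 ≤ A1 * B → A2 * B ≤ 6 / 5 * N ^ 2 →
    N ^ (1 / 5 : ℝ) ≤ U1 → N ^ (1 / 5 : ℝ) ≤ V1 → V1 ≤ V2 →
    ∑ a ∈ Ioc A1 A2, |tauR (N ^ e1) U1 U2 V1 V2 a -
      tauJ (N ^ e1) (loB N B U1 V2) (loB N B U1 V2 * lamB N B U1 U2 V1 V2) a| ≤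
      C * (N ^ 2 / B) / (e1 * Real.log N) ^ 2

def S_BOX3 : Prop := ∀ (j : ℕ) (ε : ℝ), 0 < ε → ∃ e0 : ℝ, 0 < e0 ∧ ∀ e1 : ℝ, 0 < e1 → e1 ≤ e0 →
  ∀ W : ℕ, 1 ≤ W → ∀ᶠ N : ℝ in atTop,
    ∀ (K A1 A2 U1 U2 V1 V2 : ℕ) (B : ℝ) (S : Finset ℕ) (β : ℕ → ℝ), T3 N K B S β →
      24 / 25 * N ^ 2 ≤ A1 * B → A2 * B ≤ 6 / 5 * N ^ 2 → N ^ (1 / 5 : ℝ) ≤ U1 →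
      N ^ (1 / 5 : ℝ) ≤ V1 → V1 ≤ V2 → (U2 : ℝ) ≤ U1 * N ^ (1 / 20 : ℝ) →
      tb K W S β (Ioc A1 A2) (fun a => tauR (N ^ e1) U1 U2 V1 V2 a -
        tauJ (N ^ e1) (N ^ (3 / 20 : ℝ)) (N ^ (3 / 20 : ℝ) * lamB N B U1 U2 V1 V2) a) ≤
        (ε * e1 ^ j * ∑ b ∈ S, |β b| / b + 1 / Real.log N ^ 2) * K * N / Real.log N

def S_HYP : Prop := ∀ e1 : ℝ, 0 < e1 → e1 ≤ 1 / 10 → ∀ ε : ℝ, 0 < ε → ∃ η : ℝ, 0 < η ∧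
  ∀ W : ℕ, 1 ≤ W → ∀ᶠ N : ℝ in atTop,
    ∀ (K X1 X2 : ℕ) (y y' M : ℝ) (φ m : ℕ → ℝ) (ψ : ℝ → ℕ → ℝ), N ^ (4 / 5 : ℝ) ≤ K →
      N ^ 2 ≤ X1 → X1 ≤ X2 → (X2 : ℝ) ≤ 6 / 5 * N ^ 2 → N ^ (13 / 20 : ℝ) ≤ y → y' ≤ N → 0 ≤ M →
      (∀ b, 0 ≤ m b) → Coef (N ^ e1) y φ → (∀ u, φ u ≠ 0 → (u : ℝ) ≤ y') →
      (∀ B, Coef (N ^ e1) 0 (ψ B)) →
      (∀ (B : ℝ) (A1 A2 : ℕ) (S : Finset ℕ), y ≤ B → B ≤ y' → Bx N e1 B A1 A2 S →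
        tb K W S φ (Ioc A1 A2) (ψ B) ≤ ∑ b ∈ S, m b + M) →
      ∃ Bf : ℕ → ℝ, ∑ k ∈ Icc 1 K,
        |∑ b ∈ Icc 1 X2, ∑ a ∈ half_P X1 X2 b, φ b * ψ (Bf b) a * dd W k (a * b)| ≤
        ∑ b ∈ Icc 1 X2, m b + Real.log N / η * M + ε * K * N / Real.log N

def S_PER2 : Prop := ∀ δ e1 eg : ℝ, 0 < δ → 0 < e1 → 0 < eg → ∀ W : ℕ, 1 ≤ W →
  ∀ᶠ N : ℝ in atTop, ∀ (K A1 A2 : ℕ) (B : ℝ) (S : Finset ℕ) (f β : ℕ → ℝ), N ^ (4 / 5 : ℝ) ≤ K →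
    (K : ℝ) ≤ N ^ (2 - δ) → 1 ≤ B → B ≤ N ^ (1 - eg) → Bx N e1 B A1 A2 S → (∀ a, |f a| ≤ 1) →
    (∀ a, f (a + W) = f a) → (∀ b, |β b| ≤ 1) →
    tb K W S β (Ioc A1 A2) f ≤ K * N / Real.log N ^ 3

def S_BX2 (θ δ β : ℝ) : Prop := ∀ e1 : ℝ, 0 < e1 → e1 ≤ 1 / 10 → ∃ g0 : ℝ, 0 < g0 ∧
  ∀ eg : ℝ, 0 < eg → eg ≤ g0 → ∃ C : ℝ, 0 < C ∧ ∀ R : ℕ, 2 ≤ R → ∀ᶠ N : ℝ in atTop,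
    ∀ (K A1 A2 : ℕ) (B : ℝ) (S : Finset ℕ) (φ ψ : ℕ → ℝ), N ^ θ ≤ K → (K : ℝ) ≤ N ^ (2 - δ) →
      N ^ β ≤ B → B ≤ N ^ (1 - eg) → Bx N e1 B A1 A2 S → (∀ b, |φ b| ≤ 1) →
      Coef (N ^ e1) 0 ψ →
      tb K R.factorial S φ (Ioc A1 A2) ψ ≤ C * √(Real.log R / R) * K * N / Real.log N ^ 2

def S_GAP2 : Prop := ∃ C : ℝ, 0 < C ∧ ∀ e1 eg : ℝ, 0 < e1 → e1 ≤ 1 / 10 → 0 < eg → eg ≤ 1 / 4 →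
  ∀ W : ℕ, 1 ≤ W → ∀ᶠ N : ℝ in atTop,
    ∀ (K X1 X2 : ℕ) (φ ψ : ℕ → ℝ), N ^ (4 / 5 : ℝ) ≤ K → N ^ 2 ≤ X1 → (X2 : ℝ) ≤ 6 / 5 * N ^ 2 →
      Coef (N ^ e1) (N ^ (1 - eg)) φ → Coef (N ^ e1) (N ^ (1 - eg)) ψ →
      ∑ k ∈ Icc 1 K, |bil X1 X2 φ ψ (dd W k)| ≤ C * (eg / e1 ^ 2) * K * N / Real.log N

def S_II2 (θ δ β : ℝ) : Prop := ∀ e1 : ℝ, 0 < e1 → e1 ≤ 1 / 10 → ∀ ε : ℝ, 0 < ε →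
  ∃ R1 : ℕ, ∀ R : ℕ, R1 ≤ R → ∀ᶠ N : ℝ in atTop,
    ∀ (K X1 X2 : ℕ) (φ ψ : ℕ → ℝ), Setup2 θ δ N K X1 X2 → Coef (N ^ e1) (N ^ β) φ →
      Coef (N ^ e1) (N ^ β) ψ →
      ∑ k ∈ Icc 1 K, |bil X1 X2 φ ψ (dd R.factorial k)| ≤ ε * K * N / Real.log N

def S_RG (θ δ : ℝ) : Prop := ∀ e1 : ℝ, 0 < e1 → e1 ≤ 1 / 10 → ∀ ε : ℝ, 0 < ε →
  ∃ R1 : ℕ, ∀ R : ℕ, R1 ≤ R → ∀ᶠ N : ℝ in atTop,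
    ∀ (K X1 X2 : ℕ) (β r : ℕ → ℝ), Setup2 θ δ N K X1 X2 → Coef (N ^ e1) (N ^ (13 / 20 : ℝ)) β →
      (∀ b, β b ≠ 0 → (b : ℝ) ≤ N ^ (4 / 5 : ℝ)) → (∀ b, r b ≤ N ^ (1 / 20 : ℝ)) →
      ∑ k ∈ Icc 1 K, |∑ b ∈ Icc 1 X2, ∑ a ∈ half_P X1 X2 b, β b *
        tauJ (N ^ e1) (N ^ (3 / 20 : ℝ)) (N ^ (3 / 20 : ℝ) * r b) a * dd R.factorial k (a * b)| ≤
        ε * K * N / Real.log N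

def S_III (θ δ : ℝ) : Prop := ∀ (j : ℕ) (ε : ℝ), 0 < ε → ∃ e0 : ℝ, 0 < e0 ∧
  ∀ e1 : ℝ, 0 < e1 → e1 ≤ e0 → ∀ ε' : ℝ, 0 < ε' → ∃ R1 : ℕ, ∀ R : ℕ, R1 ≤ R →
    ∀ᶠ N : ℝ in atTop, ∀ (K X1 X2 U1 U2 V1 V2 : ℕ) (β : ℕ → ℝ), Setup2 θ δ N K X1 X2 →
      Coef (N ^ e1) (N ^ (13 / 20 : ℝ)) β → (∀ b, β b ≠ 0 → (b : ℝ) ≤ N ^ (4 / 5 : ℝ)) →
      N ^ (1 / 5 : ℝ) ≤ U1 → N ^ (1 / 5 : ℝ) ≤ V1 → (U2 : ℝ) ≤ U1 * N ^ (1 / 20 : ℝ) →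
      ∑ k ∈ Icc 1 K, |bil X1 X2 β (tauR (N ^ e1) U1 U2 V1 V2) (dd R.factorial k)| ≤
        (ε * e1 ^ j * ms (N ^ (4 / 5 : ℝ)) (N ^ e1) β + ε') * K * N / Real.log N

def S_LAY : Prop := ∀ (z D : ℝ) (K X1 X2 U1 U2 V1 V2 : ℕ) (β g1 g2 : ℕ → ℝ) (f : ℕ → ℕ → ℝ),
  0 ≤ D → (∀ u, U1 < u → u ≤ U2 → 0 ≤ g1 u ∧ g1 u ≤ 1) →
  (∀ u u', U1 < u → u ≤ u' → g1 u ≤ g1 u') → (∀ v, V1 < v → v ≤ V2 → 0 ≤ g2 v ∧ g2 v ≤ 1) →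
  (∀ v v', V1 < v → v ≤ v' → g2 v ≤ g2 v') →
  (∀ t t', U1 ≤ t → V1 ≤ t' → ∑ k ∈ Icc 1 K, |bil X1 X2 β (tauR z t U2 t' V2) (f k)| ≤ D) →
  ∑ k ∈ Icc 1 K, |bil X1 X2 β (tauG z g1 g2 U1 U2 V1 V2) (f k)| ≤ D

/-! ### Type I sums -/

def S_KER2 : Prop := ∃ C : ℝ, 0 < C ∧ ∀ (N : ℝ) (K X1 X2 q : ℕ), 1 ≤ N → N ^ 2 ≤ X1 → X1 ≤ X2 →
  1 ≤ q → ∑ k ∈ Icc 1 K, |∑ m ∈ (Ioc X1 X2).filter (q ∣ ·), rr k m -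
      (√(X2 : ℝ) - √(X1 : ℝ)) * rho k q / q| ≤ C * (K + q) + C * (K : ℝ) ^ 2 / N / q

def S_TI2 : Prop := ∀ (z y L δ Er Er2 l : ℝ) (K : ℕ) (J Dd : Finset ℕ) (t κ : ℕ → ℕ → ℝ)
  (c : ℕ → ℝ) (lam Del : Finset ℕ → ℝ), FLData z L δ lam Del → 0 ≤ y → 0 ≤ l → 0 ≤ Er → 0 ≤ Er2 →
  (∀ k m, 0 ≤ t k m) → (∀ d ∈ Dd, 1 ≤ d ∧ (d : ℝ) ≤ y ∧ Rough z d ∧ |c d| ≤ 1) →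
  (∀ q : ℕ, 1 ≤ q →
    ∑ k ∈ Icc 1 K, |∑ m ∈ J.filter (q ∣ ·), t k m - l * κ k q / q| ≤ Er * (K + q) + Er2 / q) →
  (∀ q : ℕ, 1 ≤ q → |∑ k ∈ Icc 1 K, κ k q - K| ≤ q) →
  (∀ k q, 0 ≤ κ k q) → (∀ k p, p.Prime → κ k p ≤ p) →
  (∀ k, ∀ d ∈ Dd, ∀ E ⊆ PL z, κ k (d * ∏ p ∈ E, p) = κ k d * ∏ p ∈ E, κ k p) →
  ∑ k ∈ Icc 1 K, |∑ m ∈ J.filter (Rough z), (∑ d ∈ Dd.filter (· ∣ m), c d) * t k m -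
      l * (∑ d ∈ Dd, c d * κ k d / d) * ∏ p ∈ PL z, (1 - κ k p / p)| ≤
    (Er * (K + y) + l) * L * y + Er2 * L * ∑ d ∈ Dd, 1 / (d : ℝ) +
      l * K * δ * ∑ d ∈ Dd, |c d| / d

def S_I2 (θ δ : ℝ) : Prop := ∀ (j : ℕ) (ε : ℝ), 0 < ε → ∃ e0 : ℝ, 0 < e0 ∧
  ∀ e1 : ℝ, 0 < e1 → e1 ≤ e0 → ∀ R : ℕ, 2 ≤ R → ∀ᶠ N : ℝ in atTop,
    ∀ (K X1 X2 : ℕ) (c : ℕ → ℝ), Setup2 θ δ N K X1 X2 → (∀ d, |c d| ≤ 1) →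
      ∑ k ∈ Icc 1 K, |∑ m ∈ (Ioc X1 X2).filter (Rough (N ^ e1)),
          (∑ d ∈ (Ry (N ^ (4 / 5 : ℝ)) (N ^ e1)).filter (· ∣ m), c d) * dd R.factorial k m -
        (∑ d ∈ Ry (N ^ (4 / 5 : ℝ)) (N ^ e1), c d / d) * MT R (N ^ e1) X1 X2 k| ≤
        (ε * e1 ^ j * ms (N ^ (4 / 5 : ℝ)) (N ^ e1) c + 1 / Real.log N) * K * N / Real.log N

/-! ### The combinatorial decomposition -/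

def S_HBI : Prop := ∀ (N : ℝ) (y m : ℕ), 1 < N → m ≤ y ^ 5 →
  vonMangoldt m / (3 * Real.log N) = ∑ j ∈ range 5, (-1) ^ j * (Nat.choose 5 (j + 1) : ℝ) *
    (rs 0 y (moebius : ArithmeticFunction ℝ) ^ (j + 1) * ze ^ j * lg N) m

def S_EXP : Prop := ∀ (n : ℕ) (l : Fin n → ℝ) (β τ : ℝ), (∀ i, 0 ≤ l i ∧ l i ≤ β) →
  τ ≤ ∑ i, l i → 5 * β < 2 * τ → 0 ≤ β →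
  (∃ S : Finset (Fin n), β < ∑ i ∈ S, l i ∧ β < ∑ i ∈ Sᶜ, l i) ∨
  ∃ i2 i3 : Fin n, i2 ≠ i3 ∧ τ - 2 * β ≤ l i2 ∧ τ - 2 * β ≤ l i3 ∧
    ∑ i ∈ (univ.erase i2).erase i3, l i ≤ β ∧ τ / 3 ≤ ∑ i ∈ (univ.erase i2).erase i3, l i

def S_PRB : Prop := ∀ (ι : Type) (s : Finset ι) (f : ι → ArithmeticFunction ℝ),
  (∀ Y : ℝ, (∀ i ∈ s, ∀ n : ℕ, (n : ℝ) ≤ Y → |f i n| ≤ 1) →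
    (∀ m : ℕ, (m : ℝ) ≤ Y → |(∏ i ∈ s, f i) m| ≤ (m.divisors.card : ℝ) ^ s.card) ∧
    ∀ y z : ℝ, 1 ≤ y → y ≤ Y → ms y z ⇑(∏ i ∈ s, f i) ≤ (∑ d ∈ Ry y z, 1 / (d : ℝ)) ^ s.card) ∧
  ∀ lo hi : ι → ℝ, (∀ i ∈ s, 0 ≤ lo i ∧ ∀ n : ℕ, f i n ≠ 0 → lo i ≤ n ∧ (n : ℝ) ≤ hi i) →
    ∀ m : ℕ, (∏ i ∈ s, f i) m ≠ 0 → ∏ i ∈ s, lo i ≤ m ∧ (m : ℝ) ≤ ∏ i ∈ s, hi i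

def S_G1 (θ δ : ℝ) : Prop := ∀ (j : ℕ) (ε : ℝ), 0 < ε → ∃ e0 : ℝ, 0 < e0 ∧
  ∀ e1 : ℝ, 0 < e1 → e1 ≤ e0 → ∀ D ε' : ℝ, 0 < D → 0 < ε' → ∀ R : ℕ, 2 ≤ R →
    ∀ᶠ N : ℝ in atTop, ∀ (K X1 X2 : ℕ) (c f : ArithmeticFunction ℝ), Setup2 θ δ N K X1 X2 →
      Bdd N (N ^ e1) D c → (∀ d, c d ≠ 0 → (d : ℝ) ≤ N ^ (4 / 5 : ℝ)) → Smo N f →
      Good N (N ^ e1) R K X1 X2 ⇑(c * f) (ms (N ^ (4 / 5 : ℝ)) (N ^ e1) c)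
        (ε * e1 ^ j * ms (N ^ (4 / 5 : ℝ)) (N ^ e1) c + ε')

def S_G2 (θ δ β : ℝ) : Prop := ∀ e1 : ℝ, 0 < e1 → e1 ≤ 1 / 10 → ∀ D ε' : ℝ, 0 < D → 0 < ε' →
  ∃ R1 : ℕ, ∀ R : ℕ, R1 ≤ R → ∀ᶠ N : ℝ in atTop,
    ∀ (K X1 X2 : ℕ) (φ ψ : ArithmeticFunction ℝ), Setup2 θ δ N K X1 X2 → Bdd N (N ^ e1) D φ →
      Bdd N (N ^ e1) D ψ → (∀ u, φ u ≠ 0 → N ^ β < u) → (∀ u, ψ u ≠ 0 → N ^ β < u) →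
      Good N (N ^ e1) R K X1 X2 ⇑(φ * ψ) 0 ε'

def S_G3 (θ δ : ℝ) : Prop := ∀ (j : ℕ) (ε : ℝ), 0 < ε → ∃ e0 : ℝ, 0 < e0 ∧
  ∀ e1 : ℝ, 0 < e1 → e1 ≤ e0 → ∀ D ε' : ℝ, 0 < D → 0 < ε' → ∃ R1 : ℕ, ∀ R : ℕ, R1 ≤ R →
    ∀ᶠ N : ℝ in atTop, ∀ (K X1 X2 U1 U2 V1 V2 : ℕ) (c f1 f2 : ArithmeticFunction ℝ),
      Setup2 θ δ N K X1 X2 → Bdd N (N ^ e1) D c →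
      (∀ d, c d ≠ 0 → N ^ (13 / 20 : ℝ) < d ∧ (d : ℝ) ≤ N ^ (4 / 5 : ℝ)) → Smo N f1 → Smo N f2 →
      N ^ (1 / 5 : ℝ) ≤ U1 → N ^ (1 / 5 : ℝ) ≤ V1 → (U2 : ℝ) ≤ U1 * N ^ (1 / 20 : ℝ) →
      (U2 : ℝ) ≤ N ^ 3 → (V2 : ℝ) ≤ N ^ 3 →
      Good N (N ^ e1) R K X1 X2 ⇑(c * (rs U1 U2 f1 * rs V1 V2 f2)) 0
        (ε * e1 ^ j * ms (N ^ (4 / 5 : ℝ)) (N ^ e1) c + ε')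

def S_PR3 (θ δ β h : ℝ) : Prop := ∀ ε : ℝ, 0 < ε → ∃ e0 : ℝ, 0 < e0 ∧
  ∀ e1 : ℝ, 0 < e1 → e1 ≤ e0 → ∃ R1 : ℕ, ∀ R : ℕ, R1 ≤ R → ∀ᶠ N : ℝ in atTop,
    ∀ (K X1 X2 n : ℕ) (f : Fin n → ArithmeticFunction ℝ) (w : Fin n → ℕ), Setup2 θ δ N K X1 X2 →
      n ≤ 10 → (∀ i, Sml N (f i) ∨ Smo N (f i)) →
      Good N (N ^ e1) R K X1 X2
        ⇑(∏ i, rs (⌈N ^ (w i * h)⌉₊ - 1) (min (⌈N ^ ((w i + 1) * h)⌉₊ - 1) ⌊N ^ β⌋₊) (f i)) 0 ε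

def S_PR2 (θ δ β : ℝ) : Prop := ∀ ε : ℝ, 0 < ε → ∃ e0 : ℝ, 0 < e0 ∧
  ∀ e1 : ℝ, 0 < e1 → e1 ≤ e0 → ∃ R1 : ℕ, ∀ R : ℕ, R1 ≤ R → ∀ᶠ N : ℝ in atTop,
    ∀ (K X1 X2 n : ℕ) (f : Fin n → ArithmeticFunction ℝ), Setup2 θ δ N K X1 X2 →
      n ≤ 10 → (∀ i, Sml N (f i) ∨ Smo N (f i)) →
      Good N (N ^ e1) R K X1 X2 ⇑(∏ i, rs 0 ⌊N ^ β⌋₊ (f i)) 0 ε

def S_PR1 (θ δ : ℝ) : Prop := ∀ ε : ℝ, 0 < ε → ∃ e0 : ℝ, 0 < e0 ∧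
  ∀ e1 : ℝ, 0 < e1 → e1 ≤ e0 → ∃ C : ℝ, ∃ R1 : ℕ, ∀ R : ℕ, R1 ≤ R → ∀ᶠ N : ℝ in atTop,
    ∀ (K X1 X2 n : ℕ) (f : Fin n → ArithmeticFunction ℝ), Setup2 θ δ N K X1 X2 →
      n ≤ 10 → (∀ i, Sml N (f i) ∨ Smo N (f i)) → Good N (N ^ e1) R K X1 X2 ⇑(∏ i, f i) C ε

def S_HB (θ δ : ℝ) : Prop := ∀ ε : ℝ, 0 < ε → ∃ e0 : ℝ, 0 < e0 ∧
  ∀ e1 : ℝ, 0 < e1 → e1 ≤ e0 → ∃ C : ℝ, ∃ R1 : ℕ, ∀ R : ℕ, R1 ≤ R → ∀ᶠ N : ℝ in atTop,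
    ∀ K X1 X2 : ℕ, Setup2 θ δ N K X1 X2 →
      Good N (N ^ e1) R K X1 X2 (fun m => vonMangoldt m / (3 * Real.log N)) C ε

/-! ### Assembly -/

open Classical in
def S_CORE2 (θ δ : ℝ) : Prop := ∀ ε : ℝ, 0 < ε → ∃ R1 : ℕ, ∀ R : ℕ, R1 ≤ R →
  ∀ᶠ N : ℝ in atTop, ∀ K X1 X2 : ℕ, Setup2 θ δ N K X1 X2 →
    (((Icc 1 K).filter fun k => ε * N * (1 + sing R k) <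
      |Th k X1 X2 - (√(X2 : ℝ) - √(X1 : ℝ)) * sing R k|).card : ℝ) ≤ ε * K

open Classical in
def S_PIECES2 (θ δ : ℝ) : Prop := ∀ ε : ℝ, 0 < ε → ∃ R1 : ℕ, ∀ R : ℕ, R1 ≤ R →
  ∀ᶠ n : ℕ in atTop, ∀ K : ℕ, (n : ℝ) ^ θ ≤ K → (K : ℝ) ≤ (n : ℝ) ^ (2 - δ) →
    (((Icc 1 K).filter fun k => ε * (1 + sing R k) * (n / Real.log n) <
      |(PC k n : ℝ) - sing R k / 2 * (n / Real.log n)|).card : ℝ) ≤ ε * K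

def S_FINAL2 (θ δ : ℝ) : Prop := ∀ ε : ℝ, 0 < ε → ∃ n₀ : ℕ, ∀ n K : ℕ, n₀ ≤ n →
  (n : ℝ) ^ θ ≤ K → (K : ℝ) ≤ (n : ℝ) ^ (2 - δ) →
  (Set.ncard {A : ℕ | 3 ≤ A ∧ A ≤ K ∧ Odd A ∧ ¬ ∃ C : ℝ, 0 < C ∧
    Tendsto (fun y : ℕ => ∏ p ∈ (Finset.Icc 3 y).filter Nat.Prime,
      (1 - (jacobiSym (1 - 4 * (A : ℤ)) p : ℝ) / ((p : ℝ) - 1))) atTop (𝓝 C) ∧
    |(((Finset.range (n + 1)).filter fun x => (x ^ 2 + x + A).Prime).card : ℝ) -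
        C * (2 * ∫ x in (0 : ℝ)..n, 1 / Real.log (x ^ 2 + x + A))| ≤
      ε * (C * (2 * ∫ x in (0 : ℝ)..n, 1 / Real.log (x ^ 2 + x + A)))} : ℝ) ≤ ε * K

end Pool.Agent.P.MP_8be758_nt.Av2
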