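import Pool.Agent.P.MP_8be758_nt.Av2.Iface

/-! The earlier steps as closed facts. -/

namespace Pool.Agent.P.MP_8be758_nt.Av2

open Pool.Agent.P.MP_8be758_nt.Avg

theorem lib_GS1 : S_GS1 := t_GS1
theorem lib_GS2 : S_GS2 := t_GS2
theorem lib_GS3 : S_GS3 := t_GS3
theorem lib_DLS : S_DLS := t_DLS
theorem lib_LS : S_LS := t_LS
theorem lib_FAR : S_FAR := t_FAR
theorem lib_HR : S_HR := t_HR
theorem lib_NSQ : S_NSQ := t_NSQ
theorem lib_TAU : S_TAU := t_TAU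
theorem lib_DIV : S_DIV := t_DIV
theorem lib_NU : S_NU := t_NU t_FAR t_GT
theorem lib_RC : S_RC := t_RC lib_NU
theorem lib_FL : S_FL := t_FL
theorem lib_CHI : S_CHI := t_CHI
theorem lib_ROOT : S_ROOT := t_ROOT t_CHI
theorem lib_SGW : S_SGW := t_SGW t_CHI lib_ROOT
theorem lib_DIR : S_DIR := t_DIR t_CHI t_DIV
theorem lib_CHAR : S_CHAR := t_CHAR t_CHI t_DIV
theorem lib_RHO : S_RHO := t_RHO lib_CHAR lib_ROOT
theorem lib_SS1 : S_SS1 := t_SS1 lib_DIR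
theorem lib_SING : S_SING :=
  t_SING lib_SS1 (t_SS2 t_MERT (t_LW t_CHI lib_DIR lib_CHAR)) lib_SGW
theorem lib_D1 : S_D1 := t_D1
theorem lib_D2 : S_D2 := t_D2
theorem lib_D3 : S_D3 := t_D3 t_GS1 t_GS2
theorem lib_D4 : S_D4 := t_D4 t_GS1 t_GS2
theorem lib_OSC2 : S_OSC2 := t_OSC2 t_GS1 t_GS2 t_GS3 (t_OSC1 t_DLS t_SEP)
theorem lib_MAIN : S_MAIN := t_MAIN t_FAR (t_LQ t_LSW) (t_SQ t_RS)
theorem lib_DISP : S_DISP := t_DISP lib_D1 lib_D2 lib_D3 lib_D4 lib_OSC2 lib_MAIN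
theorem lib_PS : S_PS := t_PS
theorem lib_UP : S_UP := t_UP t_GS1 t_GS2 t_GS3 t_DLS
theorem lib_UPD : S_UPD := t_UPD lib_UP lib_ROOT
theorem lib_PER0 : S_PER0 := t_PER0 t_PS
theorem lib_PROJ : S_PROJ := t_PROJ (t_SIFT t_LS t_FAR t_GT) lib_RC
theorem lib_KER : S_KER := t_KER t_PS lib_ROOT
theorem lib_TI : S_TI := t_TI
theorem lib_CNT : S_CNT := t_CNT lib_RC lib_ROOT
theorem lib_PNTM : S_PNTM := t_PNTM t_PS lib_SGW
theorem lib_LA : S_LA := t_LA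

end Pool.Agent.P.MP_8be758_nt.Av2
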