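import Pool.Agent.P.MP_8be758_nt.Av2.Basic

/-! The step `S_PB`. -/

namespace Pool.Agent.P.MP_8be758_nt.Av2

open Finset Real Filter Topology
open Pool.Agent.P.MP_e86632_nt (ee)
open Pool.Agent.P.MP_8be758_nt.Avg

theorem pb_odd (r c : ℝ) :
    ((∑' b : ℤ, nuo b * gs (r * (b - c)) : ℝ) : ℂ) = osc2_P (2 * r) ((c - 1) / 2) 0 := by
  have hi : Function.Injective fun n : ℤ => 2 * n + 1 := fun a b h => by
    simp only at h
    omega
  rw [← hi.tsum_eq (f := fun b : ℤ => nuo b * gs (r * (b - c))) fun b hb => by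
    by_contra h
    refine hb ?_
    have : ¬ Odd b := fun ⟨k, hk⟩ => h ⟨k, hk.symm⟩
    simp [nuo, this], Complex.ofReal_tsum, osc2_P]
  refine tsum_congr fun n => ?_
  rw [zero_mul, Pool.Agent.P.MP_e86632_nt.ee_zero, one_mul, nuo, if_pos (odd_two_mul_add_one n),
    one_mul]
  congr 2
  push_cast
  ring

theorem pb_dual {A K : ℝ} (hA : 0 < A) (hK : 0 < K) (c : ℝ) :
    HasSum (fun j : ℤ => ((K / 2 * gs (j * K / (2 * A)) : ℝ) : ℂ) * ee (j / 2) * ee (-(j / 2 * c)))
      ((A * ∑' b : ℤ, nuo b * gs (A / K * (b - c)) : ℝ) : ℂ) := by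
  rw [Complex.ofReal_mul, pb_odd]
  refine osc2_congr ((osc2_dual lib_GS1 (r := 2 * (A / K)) (by positivity) ((c - 1) / 2) 0).mul_left
    (A : ℂ)) fun j => ?_
  rw [mul_assoc, ← Pool.Agent.P.MP_e86632_nt.ee_add, ← mul_assoc, ← Complex.ofReal_mul, sub_zero]
  congr 2
  · rw [show (j : ℝ) / (2 * (A / K)) = j * K / (2 * A) by field_simp]
    field_simp
  · ring

theorem pb_hasSum (α : ℕ → ℝ) (I : Finset ℕ) {A K : ℝ} (B : ℝ) (μ0 : ℕ) (hA : 0 < A)
    (hK : 0 < K) :
    HasSum (fun j : ℤ => ((K / 2 * gs (j * K / (2 * A)) : ℝ) : ℂ) * ee (j / 2) *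
      oscF α I B μ0 (j / 2)) ((offS α I μ0 (modF B K A) : ℝ) : ℂ) := by
  unfold oscF offS
  simp only [mul_sum, Complex.ofReal_sum]
  refine hasSum_sum fun a1 _ => hasSum_sum fun a2 _ => hasSum_sum fun μ _ => ?_
  have h := (pb_dual hA hK (sg a1 a2 ^ 2 / (μ : ℝ) ^ 2)).mul_left
    ((α a1 / √(a1 : ℝ) * (α a2 / √(a2 : ℝ)) * psi B (sg a1 a2 ^ 2 / (μ : ℝ) ^ 2) : ℝ) : ℂ)
  rw [← Complex.ofReal_mul, show _ * (A * _) = α a1 * α a2 * modF B K A μ a1 a2 by
    rw [modF, Real.sqrt_mul (Nat.cast_nonneg a1)]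
    ring] at h
  exact osc2_congr h fun j => mul_left_comm _ _ _

theorem pb_zero (α : ℕ → ℝ) (I : Finset ℕ) (B : ℝ) (μ0 : ℕ) :
    oscF α I B μ0 0 = ((mainS α I B μ0 : ℝ) : ℂ) := by
  unfold oscF mainS offS
  simp only [mul_sum, Complex.ofReal_sum]
  refine sum_congr rfl fun a1 _ => sum_congr rfl fun a2 _ => sum_congr rfl fun μ _ => ?_
  rw [zero_mul, neg_zero, Pool.Agent.P.MP_e86632_nt.ee_zero, mul_one]

theorem t_PB : S_PB := by
  intro α I A B K G μ0 J hA hK _ hG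
  have hG0 : 0 ≤ G := (norm_nonneg _).trans (hG 0)
  have e1 := hasSum_ite_sub_hasSum (pb_hasSum α I B μ0 hA hK) 0
  simp only [Int.cast_zero, zero_mul, zero_div, gs_zero, mul_one,
    Pool.Agent.P.MP_e86632_nt.ee_zero, pb_zero] at e1
  rw [← Complex.ofReal_mul, ← Complex.ofReal_sub] at e1
  rw [← Real.norm_eq_abs, ← Complex.norm_real]
  refine osc2_norm_le e1 fun s => ?_
  set S := (Icc (-(J : ℤ)) J).erase 0
  have h1 : ∀ j ∈ s, ‖if j = 0 then (0 : ℂ) else ((K / 2 * gs (j * K / (2 * A)) : ℝ) : ℂ) *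
      ee (j / 2) * oscF α I B μ0 (j / 2)‖ ≤ K / 2 * ((if j ∈ S then ‖oscF α I B μ0 (j / 2)‖ else 0)
        + G * (gs (J * K / (4 * A)) * gs (K / (4 * A) * (j - 0)))) := fun j _ => by
    have p1 := (gs_pos (J * K / (4 * A))).le
    have p2 := (gs_pos (K / (4 * A) * (j - 0))).le
    have p3 := (gs_pos (j * K / (2 * A))).le
    by_cases h0 : j = 0
    · rw [if_pos h0, norm_zero]
      positivity
    rw [if_neg h0, norm_mul, norm_mul, Pool.Agent.P.MP_e86632_nt.norm_ee, mul_one,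
      Complex.norm_real, Real.norm_of_nonneg (by positivity), mul_assoc]
    refine mul_le_mul_of_nonneg_left ?_ (by positivity)
    split_ifs with hj
    · exact le_add_of_le_of_nonneg (mul_le_of_le_one_left (norm_nonneg _) (gs_le_one _))
        (by positivity)
    · rw [zero_add, mul_comm]
      refine mul_le_mul (hG _) ?_ p3 hG0
      have h2 : (J : ℝ) ≤ |(j : ℝ)| := by
        have : (J : ℤ) ≤ |j| := by
          simp only [S, mem_erase, mem_Icc, not_and_or] at hj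
          rw [le_abs]
          omega
        exact_mod_cast this
      have h3 := gs_split (x := j * K / (2 * A)) (T := J * K / (2 * A)) (by positivity) (by
        rw [mul_div_assoc, mul_div_assoc, abs_mul, abs_of_pos (by positivity : 0 < K / (2 * A))]
        exact mul_le_mul_of_nonneg_right h2 (by positivity))
      rwa [show J * K / (2 * A) / 2 = J * K / (4 * A) by ring,
        show j * K / (2 * A) / 2 = K / (4 * A) * (j - 0) by ring] at h3
  refine (sum_le_sum h1).trans ?_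
  rw [← mul_sum, sum_add_distrib, ← mul_sum, ← mul_sum, ← sum_filter]
  have h4 := d13_fin lib_GS1 lib_GS2 (r := K / (4 * A)) (by positivity) 0 s
  rw [one_div_div] at h4
  have p1 := (gs_pos (J * K / (4 * A))).le
  gcongr
  exact fun j hj => (mem_filter.1 hj).2

end Pool.Agent.P.MP_8be758_nt.Av2
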