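import Pool.Agent.P.MP_8be758_nt.Av2.Basic

/-! The step `S_POI`. -/

namespace Pool.Agent.P.MP_8be758_nt.Av2

open Finset Real Filter Topology
open Pool.Agent.P.MP_e86632_nt (ee)
open Pool.Agent.P.MP_8be758_nt.Avg
open scoped FourierTransform

lemma poi_four (f : ℝ → ℂ) (ξ : ℝ) : 𝓕 f ξ = ∫ t : ℝ, f t * ee (-(ξ * t)) := by
  rw [Real.fourier_real_eq_integral_exp_smul]
  congr 1
  funext t
  rw [ee_eq, smul_eq_mul, mul_comm]
  congr 2
  push_cast
  ring

lemma poi_bound {f f1 f2 : ℝ → ℂ} (h1 : ∀ x, HasDerivAt f (f1 x) x)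
    (h2 : ∀ x, HasDerivAt f1 (f2 x) x) (h3 : Continuous f2) (hc : HasCompactSupport f) (ξ : ℝ) :
    ξ ^ 2 * ‖𝓕 f ξ‖ ≤ (∫ t : ℝ, ‖f2 t‖) / 2 := by
  have d1 : Differentiable ℝ f := fun x => (h1 x).differentiableAt
  have d2 : Differentiable ℝ f1 := fun x => (h2 x).differentiableAt
  obtain rfl : f1 = deriv f := funext fun x => (h1 x).deriv.symm
  obtain rfl : f2 = deriv (deriv f) := funext fun x => (h2 x).deriv.symm
  have i0 := d1.continuous.integrable_of_hasCompactSupport (μ := MeasureTheory.volume) hc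
  have i1 := d2.continuous.integrable_of_hasCompactSupport (μ := MeasureTheory.volume) hc.deriv
  have i2 := h3.integrable_of_hasCompactSupport (μ := MeasureTheory.volume) hc.deriv.deriv
  have e1 : ‖𝓕 (deriv (deriv f)) ξ‖ ≤ ∫ t : ℝ, ‖deriv (deriv f) t‖ := by
    rw [poi_four]
    refine (MeasureTheory.norm_integral_le_integral_norm _).trans_eq ?_
    simp
  rw [Real.fourier_deriv i1 d2 i2, Real.fourier_deriv i0 d1 i1] at e1
  have e2 : ‖(2 * π * Complex.I * ξ : ℂ)‖ = 2 * π * |ξ| := by simp [abs_of_pos Real.pi_pos]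
  simp only [norm_smul, e2] at e1
  have e3 : 0 ≤ ξ ^ 2 * ‖𝓕 f ξ‖ := by positivity
  have e4 : 2 ≤ (2 * π) ^ 2 := by nlinarith [Real.pi_gt_three]
  rw [show 2 * π * |ξ| * (2 * π * |ξ| * ‖𝓕 f ξ‖) = (2 * π) ^ 2 * (|ξ| ^ 2 * ‖𝓕 f ξ‖) by ring,
    sq_abs] at e1
  nlinarith

lemma poi_sum {T : ℤ → ℂ} {C : ℝ} (h : ∀ p : ℤ, p ≠ 0 → ‖T p‖ ≤ C / (p : ℝ) ^ 2) : Summable T := by
  refine Summable.of_norm_bounded_eventually
    ((Real.summable_one_div_int_pow.2 one_lt_two).mul_left C) ?_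
  filter_upwards [eventually_cofinite_ne 0] with p hp
  rw [mul_one_div]
  exact h p hp

lemma poi_tail {T : ℤ → ℂ} {C : ℝ} (hC : 0 ≤ C) (h : ∀ p : ℤ, p ≠ 0 → ‖T p‖ ≤ C / (p : ℝ) ^ 2)
    {P : ℕ} (hP : 0 < P) : ‖∑' p, T p - ∑ p ∈ Icc (-(P : ℤ)) P, T p‖ ≤ 2 * C / P := by
  have h1 : ∀ Q : ℕ, P ≤ Q → ‖∑ p ∈ Icc (-(Q : ℤ)) Q, T p - ∑ p ∈ Icc (-(P : ℤ)) P, T p‖ ≤
      2 * C / P - 2 * C / Q := by
    intro Q hQ
    induction Q, hQ using Nat.le_induction with
    | base => simp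
    | succ Q hQ ih =>
      have hq : (0 : ℝ) < Q := by exact_mod_cast hP.trans_le hQ
      have a1 := h (Q + 1) (by omega)
      have a2 := h (-(Q + 1)) (by omega)
      have a3 : C / ((Q : ℝ) + 1) ^ 2 ≤ C / Q - C / (Q + 1) := by
        rw [show C / Q - C / (Q + 1) = C / (Q * (Q + 1)) by field_simp; ring]
        exact div_le_div_of_nonneg_left hC (by positivity) (by nlinarith)
      push_cast at a1 a2 ⊢
      rw [neg_sq] at a2
      rw [sum_Icc_succ_eq_add_endpoints, add_sub_assoc]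
      refine norm_add₃_le.trans ?_
      rw [mul_div_assoc, mul_div_assoc] at ih ⊢
      linarith
  have h2 : Tendsto (fun Q : ℕ => ∑ p ∈ Icc (-(Q : ℤ)) Q, T p) atTop (𝓝 (∑' p, T p)) :=
    (poi_sum h).hasSum.comp (tendsto_Icc_neg_atTop_atTop.comp tendsto_natCast_atTop_atTop)
  refine le_of_tendsto (h2.sub_const _).norm ?_
  filter_upwards [eventually_ge_atTop P] with Q hQ
  exact (h1 Q hQ).trans (sub_le_self _ (by positivity))

lemma poi_scale (f : ℝ → ℂ) {e : ℝ} (he : 0 < e) (p : ℝ) :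
    𝓕 (fun t => f (e * t)) p = 1 / (e : ℂ) * 𝓕 f (p / e) := by
  have h1 := MeasureTheory.Measure.integral_comp_mul_left (fun t => f t * ee (-(p / e * t))) e
  rw [poi_four, poi_four, one_div, ← Complex.ofReal_inv, ← Complex.real_smul,
    ← abs_of_pos (inv_pos.2 he), ← h1]
  congr 1
  funext t
  congr 3
  field_simp

theorem t_POI : S_POI := by
  intro f f1 f2 a b e P h s he hP h1 h2 h3 h4 h5 h6 h7
  have : NeZero e := ⟨he.ne'⟩
  have he' : (0 : ℝ) < e := by exact_mod_cast he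
  have hc : HasCompactSupport f := HasCompactSupport.intro isCompact_Icc h4
  have hf : Continuous f := continuous_iff_continuousAt.2 fun x => (h1 x).continuousAt
  set N := ∫ t : ℝ, ‖f2 t‖ with hN
  have hN0 : 0 ≤ N := MeasureTheory.integral_nonneg fun t => norm_nonneg _
  have b1 : ∀ p : ℤ, p ≠ 0 → ‖𝓕 f (p / e)‖ ≤ e ^ 2 * N / 2 / (p : ℝ) ^ 2 := fun p hp => by
    have h8 := poi_bound h1 h2 h3 hc (p / e)
    have h9 : (p : ℝ) ≠ 0 := by exact_mod_cast hp
    rw [div_pow, div_mul_eq_mul_div, div_le_iff₀ (by positivity)] at h8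
    rw [le_div_iff₀ (by positivity)]
    linarith
  have s1 := poi_sum b1
  have s2 : ∀ x : ℕ, Summable fun p : ℤ => 1 / (e : ℂ) * (h x * ee (p * x / e)) * 𝓕 f (p / e) :=
    fun x => Summable.of_norm_bounded (s1.norm.mul_left ‖1 / (e : ℂ)‖) fun p => by
      rw [norm_mul, norm_mul, norm_mul, MP_e86632_nt.norm_ee, mul_one]
      gcongr
      exact mul_le_of_le_one_right (norm_nonneg _) (h5 _)
  have p1 : ∀ x : ℕ, ∑' m : ℤ, h x * f (e * (x / e + m)) =
      ∑' p : ℤ, 1 / (e : ℂ) * (h x * ee (p * x / e)) * 𝓕 f (p / e) := fun x => by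
    have hc' : HasCompactSupport fun t : ℝ => f (e * t) :=
      hc.comp_homeomorph (Homeomorph.mulLeft₀ (e : ℝ) he'.ne')
    have k := Real.tsum_eq_tsum_fourier_of_rpow_decay_of_summable (f := fun t => f (e * t))
      (by fun_prop) one_lt_two (Asymptotics.IsBigO.of_bound 0 (by
        filter_upwards [hc'.isCompact.compl_mem_cocompact] with t ht
        rw [image_eq_zero_of_notMem_tsupport ht, norm_zero, zero_mul]))
      (by simp only [poi_scale f he']; exact s1.mul_left _) (x / e)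
    rw [tsum_mul_left, k, ← tsum_mul_left]
    congr 1
    funext p
    rw [poi_scale f he', fourier_coe_apply, ee_eq]
    push_cast
    rw [div_one, mul_assoc _ (p : ℂ), mul_div_assoc]
    ring
  have l1 : HasSum (fun n : ℤ => h n * f n) (∑ n ∈ s, h n * f n) :=
    hasSum_sum_of_ne_finset_zero fun n hn => by rw [h7 n hn, mul_zero]
  have l2 := (((Equiv.prodComm _ _).trans (Int.divModEquiv e).symm).hasSum_iff).2 l1
  have l3 : ∑ n ∈ s, h n * f n = ∑' p : ℤ, hat e h p * 𝓕 f (p / e) := by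
    rw [← l2.tsum_eq, l2.summable.tsum_prod, tsum_fintype]
    simp only [hat, mul_sum, sum_mul]
    rw [Summable.tsum_finsetSum fun x _ => s2 x, sum_range]
    refine sum_congr rfl fun x _ => ?_
    rw [← p1]
    congr 1
    funext m
    change h (m * e + (x : ℕ)) * f ((m * e + (x : ℕ) : ℤ) : ℝ) = _
    rw [add_comm, show h ((x : ℕ) + m * e) = h (x : ℕ) from Function.Periodic.int_mul h6 m _]
    congr 2
    push_cast
    field_simp
  have b2 : ∀ p : ℤ, p ≠ 0 → ‖hat e h p * 𝓕 f (p / e)‖ ≤ e ^ 2 * N / 2 / (p : ℝ) ^ 2 :=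
    fun p hp => by
    refine (norm_mul _ _).trans_le ((mul_le_of_le_one_left (norm_nonneg _) ?_).trans (b1 p hp))
    rw [hat, norm_mul, norm_div, norm_one, Complex.norm_natCast, one_div, inv_mul_le_iff₀ he']
    refine (norm_sum_le_of_le (n := fun _ => 1) _ fun x _ => ?_).trans_eq (by simp)
    rw [norm_mul, MP_e86632_nt.norm_ee, mul_one]
    exact h5 _
  have l4 := poi_tail (by positivity) b2 hP
  rw [← l3] at l4
  simp only [poi_four, div_mul_eq_mul_div] at l4 ⊢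
  refine l4.trans_eq ?_
  ring

end Pool.Agent.P.MP_8be758_nt.Av2
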