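import Pool.Agent.P.MP_8be758_nt.Av2.Basic

/-! Bounds for Dirichlet products. -/

namespace Pool.Agent.P.MP_8be758_nt.Av2

open Finset Real Filter Topology
open Pool.Agent.P.MP_e86632_nt (ee)
open Pool.Agent.P.MP_8be758_nt.Avg

theorem prb_one (m : ℕ) : |(1 : ArithmeticFunction ℝ) m| = if m = 1 then 1 else 0 := by
  rw [ArithmeticFunction.one_apply]
  split_ifs <;> simp

theorem prb_ms_one (y z : ℝ) : ms y z (1 : ArithmeticFunction ℝ) ≤ 1 := by
  simp only [ms, prb_one, ite_div, zero_div, sum_ite_eq']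
  split_ifs <;> simp

theorem prb_ms_mul {y : ℝ} (hy : 0 ≤ y) (z : ℝ) (f g : ArithmeticFunction ℝ) :
    ms y z ⇑(f * g) ≤ ms y z f * ms y z g := by
  have h1 : ms y z ⇑(f * g) ≤ ∑ n ∈ Ry y z, ∑ p ∈ (Ry y z ×ˢ Ry y z).filter
      (fun p => p.1 * p.2 = n), |f p.1| / p.1 * (|g p.2| / p.2) := by
    refine sum_le_sum fun n hn => ?_
    rw [ArithmeticFunction.mul_apply]
    refine (div_le_div_of_nonneg_right (abs_sum_le_sum_abs _ _) (Nat.cast_nonneg n)).trans ?_
    rw [sum_div]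
    refine (le_of_eq (sum_congr rfl fun p hp => ?_)).trans
      (sum_le_sum_of_subset_of_nonneg (fun p hp => ?_) fun _ _ _ => by positivity)
    · rw [← (Nat.mem_divisorsAntidiagonal.1 hp).1, abs_mul, Nat.cast_mul, div_mul_div_comm]
    · obtain ⟨e, h0⟩ := Nat.mem_divisorsAntidiagonal.1 hp
      obtain ⟨-, h2, h3⟩ := (mem_Ry hy).1 hn
      have key : ∀ d, d ∣ n → d ∈ Ry y z := fun d hd => (mem_Ry hy).2
        ⟨Nat.pos_of_dvd_of_pos hd (Nat.pos_of_ne_zero h0), le_trans (by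
          exact_mod_cast Nat.le_of_dvd (Nat.pos_of_ne_zero h0) hd) h2, h3.of_dvd hd⟩
      exact mem_filter.2 ⟨mem_product.2 ⟨key _ (Dvd.intro _ e), key _ (Dvd.intro_left _ e)⟩, e⟩
  rw [sum_fiberwise_eq_sum_filter] at h1
  refine h1.trans ((sum_le_sum_of_subset_of_nonneg (filter_subset _ _)
    fun _ _ _ => by positivity).trans (le_of_eq ?_))
  rw [ms, ms, sum_mul_sum, sum_product]

theorem prb_main (ι : Type) (s : Finset ι) (f : ι → ArithmeticFunction ℝ) :
    (∀ Y : ℝ, (∀ i ∈ s, ∀ n : ℕ, (n : ℝ) ≤ Y → |f i n| ≤ 1) →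
      (∀ m : ℕ, (m : ℝ) ≤ Y → |(∏ i ∈ s, f i) m| ≤ (m.divisors.card : ℝ) ^ s.card) ∧
      ∀ y z : ℝ, 1 ≤ y → y ≤ Y →
        ms y z ⇑(∏ i ∈ s, f i) ≤ (∑ d ∈ Ry y z, 1 / (d : ℝ)) ^ s.card) ∧
    ∀ lo hi : ι → ℝ, (∀ i ∈ s, 0 ≤ lo i ∧ ∀ n : ℕ, f i n ≠ 0 → lo i ≤ n ∧ (n : ℝ) ≤ hi i) →
      ∀ m : ℕ, (∏ i ∈ s, f i) m ≠ 0 → ∏ i ∈ s, lo i ≤ m ∧ (m : ℝ) ≤ ∏ i ∈ s, hi i := by
  classical
  refine ⟨fun Y h => ⟨?_, fun y z h1 h2 => ?_⟩, fun lo hi h => ?_⟩
  · induction s using Finset.induction_on with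
    | empty =>
      intro m _
      rw [prod_empty, prb_one]
      split_ifs <;> simp
    | insert i s hi ih =>
      intro m hm
      rw [prod_insert hi, card_insert_of_notMem hi, ArithmeticFunction.mul_apply, pow_succ',
        Nat.sum_divisorsAntidiagonal fun a b => f i a * (∏ j ∈ s, f j) b, ← nsmul_eq_mul]
      refine (abs_sum_le_sum_abs _ _).trans (sum_le_card_nsmul _ _ _ fun d hd => ?_)
      obtain ⟨h1, h0⟩ := Nat.mem_divisors.1 hd
      have key : ∀ e, e ∣ m → (e : ℝ) ≤ Y := fun e he =>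
        le_trans (by exact_mod_cast Nat.le_of_dvd (Nat.pos_of_ne_zero h0) he) hm
      have h2 := Nat.div_dvd_of_dvd h1
      rw [abs_mul]
      refine (mul_le_of_le_one_left (abs_nonneg _) (h i (mem_insert_self _ _) d (key d h1))).trans
        ((ih (fun j hj => h j (mem_insert_of_mem hj)) _ (key _ h2)).trans ?_)
      exact pow_le_pow_left₀ (Nat.cast_nonneg _)
        (by exact_mod_cast card_le_card (Nat.divisors_subset_of_dvd h0 h2)) _
  · induction s using Finset.induction_on with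
    | empty => simpa using prb_ms_one y z
    | insert i s hi ih =>
      rw [prod_insert hi, card_insert_of_notMem hi, pow_succ']
      refine (prb_ms_mul (by linarith) z _ _).trans (mul_le_mul (sum_le_sum fun d hd => ?_)
        (ih fun j hj => h j (mem_insert_of_mem hj)) (ms_nonneg _ _ _)
        (sum_nonneg fun _ _ => by positivity))
      exact div_le_div_of_nonneg_right (h i (mem_insert_self _ _) d
        (((mem_Ry (by linarith)).1 hd).2.1.trans h2)) (Nat.cast_nonneg d)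
  · induction s using Finset.induction_on with
    | empty =>
      intro m hm
      rw [prod_empty, ArithmeticFunction.one_apply] at hm
      simp [(ite_ne_right_iff.1 hm).1]
    | insert i s hi ih =>
      intro m hm
      rw [prod_insert hi, ArithmeticFunction.mul_apply] at hm
      obtain ⟨p, hp, h1⟩ := exists_ne_zero_of_sum_ne_zero hm
      obtain ⟨a1, a2⟩ := (h i (mem_insert_self _ _)).2 _ (left_ne_zero_of_mul h1)
      obtain ⟨a3, a4⟩ := ih (fun j hj => h j (mem_insert_of_mem hj)) _ (right_ne_zero_of_mul h1)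
      rw [prod_insert hi, prod_insert hi, ← (Nat.mem_divisorsAntidiagonal.1 hp).1, Nat.cast_mul]
      exact ⟨mul_le_mul a1 a3 (prod_nonneg fun j hj => (h j (mem_insert_of_mem hj)).1)
        (Nat.cast_nonneg _), mul_le_mul a2 a4 (Nat.cast_nonneg _) ((Nat.cast_nonneg _).trans a2)⟩

end Pool.Agent.P.MP_8be758_nt.Av2
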