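import Pool.Agent.P.MP_8be758_nt.Av2.Basic

/-! The step `S_SVS`. -/

namespace Pool.Agent.P.MP_8be758_nt.Av2

open Finset Real Filter Topology
open Pool.Agent.P.MP_e86632_nt (ee)
open Pool.Agent.P.MP_8be758_nt.Avg

theorem svs_tel {m n : ℕ} (hm : 1 ≤ m) (h : m ≤ n) :
    Real.log (n + 1) - Real.log m ≤ ∑ t ∈ Icc m n, 1 / (t : ℝ) ∧
      ∑ t ∈ Icc m n, 1 / (t : ℝ) ≤ 1 / m + (Real.log n - Real.log m) := by
  have up : ∀ k : ℝ, 0 < k → Real.log (k + 1) - Real.log k ≤ 1 / k := fun k hk => by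
    rw [← Real.log_div (by positivity) hk.ne']
    refine (Real.log_le_sub_one_of_pos (by positivity)).trans (le_of_eq ?_)
    field_simp
    ring
  induction n, h using Nat.le_induction with
  | base => simpa using up m (by exact_mod_cast hm)
  | succ n h ih =>
    have hn : (0 : ℝ) < n := by exact_mod_cast (by omega : 0 < n)
    have h1 := up (n + 1) (by positivity)
    have h2 : 1 / ((n : ℝ) + 1) ≤ Real.log (n + 1) - Real.log n := by
      rw [← Real.log_div (by positivity) hn.ne']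
      refine le_trans (le_of_eq ?_) (Real.one_sub_inv_le_log_of_pos (by positivity))
      field_simp
      ring
    rw [sum_Icc_succ_top (by omega)]
    push_cast
    constructor <;> linarith [ih.1, ih.2]

theorem svs_H {a b : ℝ} (ha : 0 < a) (h : a ≤ b) :
    |∑ t ∈ Icc ⌈a⌉₊ ⌊b⌋₊, 1 / (t : ℝ) - Real.log (b / a)| ≤ 1 / a := by
  have hb := ha.trans_le h
  have m1 := Nat.le_ceil a
  have m2 := Nat.ceil_lt_add_one ha.le
  have n1 := Nat.floor_le hb.le
  have n2 := Nat.lt_floor_add_one b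
  have key : ∀ c : ℝ, 0 < c → c ≤ a + 1 → Real.log c - Real.log a ≤ 1 / a := fun c hc k => by
    rw [← Real.log_div hc.ne' ha.ne']
    refine (Real.log_le_sub_one_of_pos (by positivity)).trans ?_
    rw [div_sub_one ha.ne']
    exact div_le_div_of_nonneg_right (by linarith) ha.le
  rw [Real.log_div hb.ne' ha.ne', abs_le]
  rcases le_or_gt ⌈a⌉₊ ⌊b⌋₊ with k | k
  · have hm : 0 < ⌈a⌉₊ := Nat.ceil_pos.2 ha
    have hn : (0 : ℝ) < ⌊b⌋₊ := by exact_mod_cast hm.trans_le k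
    obtain ⟨h1, h2⟩ := svs_tel hm k
    have h3 := key _ (ha.trans_le m1) m2.le
    have h4 := Real.log_le_log hb n2.le
    have h5 := Real.log_le_log hn n1
    have h6 := Real.log_le_log ha m1
    have h7 := one_div_le_one_div_of_le ha m1
    constructor <;> linarith
  · have k' : (⌊b⌋₊ : ℝ) + 1 ≤ ⌈a⌉₊ := by exact_mod_cast k
    have h3 := key b hb (by linarith)
    have h4 := Real.log_le_log ha h
    have h5 : 0 ≤ 1 / a := by positivity
    rw [Icc_eq_empty_of_lt k, sum_empty]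
    constructor <;> linarith

theorem svs_cnt {e : ℕ} (he : 1 ≤ e) {x : ℝ} (hx : 0 ≤ x) :
    |∑ v ∈ Icc 1 ⌊x⌋₊, (if e ∣ v then (1 : ℝ) else 0) - x * (1 / e)| ≤ 1 := by
  have h1 := Nat.floor_le (show 0 ≤ x / e by positivity)
  have h2 := Nat.lt_floor_add_one (x / e)
  rw [sum_boole, show Icc 1 ⌊x⌋₊ = Ioc 0 ⌊x⌋₊ from rfl, Nat.Ioc_filter_dvd_card_eq_div,
    ← Nat.floor_div_natCast, mul_one_div, abs_le]
  constructor <;> linarith

theorem svs_har {e : ℕ} (he : 1 ≤ e) {x y : ℝ} (hx : 0 < x) (h : x ≤ y) :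
    |∑ u ∈ Icc ⌈x⌉₊ ⌊y⌋₊, (if e ∣ u then (1 : ℝ) else 0) / u - Real.log (y / x) * (1 / e)| ≤
      1 / x := by
  have he' : (0 : ℝ) < e := by exact_mod_cast he
  have hy := hx.trans_le h
  have h1 := svs_H (div_pos hx he') (div_le_div_of_nonneg_right h he'.le)
  have h2 : ∑ u ∈ Icc ⌈x⌉₊ ⌊y⌋₊, (if e ∣ u then (1 : ℝ) else 0) / u =
      (∑ t ∈ Icc ⌈x / e⌉₊ ⌊y / e⌋₊, 1 / (t : ℝ)) * (1 / e) := by
    have hm : ∀ t : ℕ, e * t ∈ Icc ⌈x⌉₊ ⌊y⌋₊ ↔ t ∈ Icc ⌈x / e⌉₊ ⌊y / e⌋₊ := fun t => by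
      rw [mem_Icc, mem_Icc, Nat.ceil_le, Nat.ceil_le, Nat.le_floor_iff hy.le,
        Nat.le_floor_iff (by positivity), div_le_iff₀' he', le_div_iff₀' he', Nat.cast_mul]
    simp only [ite_div, zero_div]
    rw [← sum_filter, sum_mul]
    symm
    refine sum_bij (fun t _ => e * t) (fun t ht => mem_filter.2 ⟨(hm t).2 ht, dvd_mul_right _ _⟩)
      (fun a _ b _ k => Nat.eq_of_mul_eq_mul_left he k) (fun u hu => ?_) fun t _ => ?_
    · obtain ⟨k, t, rfl⟩ := mem_filter.1 hu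
      exact ⟨t, (hm t).1 k, rfl⟩
    · rw [Nat.cast_mul, one_div_mul_one_div, mul_comm]
  rw [div_div_div_cancel_right₀ he'.ne'] at h1
  rw [h2, ← sub_mul, abs_mul, abs_of_pos (by positivity : (0 : ℝ) < 1 / e)]
  refine (mul_le_mul_of_nonneg_right h1 (by positivity)).trans (le_of_eq ?_)
  field_simp

theorem svs_sum {ι : Type} (P : Finset ι) (I : Finset ℕ) (e : ι → ℕ) (w : ι → ℝ) (c : ℕ → ℝ)
    {X r : ℝ} (h : ∀ E ∈ P, |∑ u ∈ I, (if e E ∣ u then (1 : ℝ) else 0) / c u - X * (1 / e E)| ≤ r) :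
    ∑ u ∈ I, (∑ E ∈ P, if e E ∣ u then w E else 0) / c u ≤
      X * ∑ E ∈ P, w E * (1 / e E) + (∑ E ∈ P, |w E|) * r := by
  simp only [sum_div]
  rw [sum_comm, mul_sum, sum_mul, ← sum_add_distrib]
  refine sum_le_sum fun E hE => ?_
  have h1 : ∑ u ∈ I, (if e E ∣ u then w E else 0) / c u =
      w E * ∑ u ∈ I, (if e E ∣ u then (1 : ℝ) else 0) / c u := by
    rw [mul_sum]
    exact sum_congr rfl fun u _ => by split_ifs <;> ring
  have h2 := (le_abs_self _).trans ((abs_mul (w E) _).le.trans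
    (mul_le_mul_of_nonneg_left (h E hE) (abs_nonneg _)))
  rw [h1]
  linarith

theorem t_SVS : S_SVS := by
  intro z L δ lam Del ⟨h1, h2, h3⟩ hδ
  have pos : ∀ E ∈ (PL z).powerset, 1 ≤ ∏ p ∈ E, p := fun E hE => ti_prod_pos (mem_powerset.1 hE)
  have hL : ∑ E ∈ (PL z).powerset, |lam E| ≤ L ∧ ∑ E ∈ (PL z).powerset, |Del E| ≤ L := by
    constructor <;> refine le_trans (sum_le_sum fun E hE => ?_) h1 <;>
      have : (1 : ℝ) ≤ ∏ p ∈ E, (p : ℝ) :=
        (Nat.one_le_cast.2 (pos E hE)).trans_eq (Nat.cast_prod (fun p => p) E) <;>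
      nlinarith [abs_nonneg (lam E), abs_nonneg (Del E)]
  have ind : ∀ (w : Finset ℕ → ℝ) (u : ℕ), ∑ E ∈ (PL z).powerset,
      w E * ∏ p ∈ E, (if p ∣ u then (1 : ℝ) else 0) =
      ∑ E ∈ (PL z).powerset, if (∏ p ∈ E, p) ∣ u then w E else 0 := fun w u =>
    sum_congr rfl fun E hE => by
      have := ti_dvd (mem_powerset.1 hE) (d := 1)
        (fun p hp k => absurd (Nat.dvd_one.1 k) hp.ne_one) u
      rw [one_mul, and_iff_right (one_dvd u)] at this
      rw [prod_boole, mul_boole]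
      exact if_congr this.symm rfl rfl
  have inv : ∀ w : Finset ℕ → ℝ, ∑ E ∈ (PL z).powerset, w E * (1 / ((∏ p ∈ E, p : ℕ) : ℝ)) =
      ∑ E ∈ (PL z).powerset, w E * ∏ p ∈ E, (1 / (p : ℝ)) := fun w =>
    sum_congr rfl fun E _ => by rw [Nat.cast_prod, prod_div_distrib, prod_const_one]
  have bd : ∀ (w : Finset ℕ → ℝ) (u : ℕ),
      (∑ E ∈ (PL z).powerset, if (∏ p ∈ E, p) ∣ u then w E else 0) ≤
        ∑ E ∈ (PL z).powerset, |w E| := fun w u => sum_le_sum fun E _ => by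
    split_ifs
    exacts [le_abs_self _, abs_nonneg _]
  have h4 : ∑ E ∈ (PL z).powerset, lam E * ∏ p ∈ E, (1 / (p : ℝ)) ≤ Vz z + δ := by
    have := (h2 _ fun p _ => fl_inv p).2
    unfold Vz
    linarith
  refine ⟨_, fun u => ∑ E ∈ (PL z).powerset, if (∏ p ∈ E, p) ∣ u then Del E else 0,
    fun _ => rfl, fun u => ?_, fun x hx => ?_, fun x y hx hxy => ?_⟩
  · have := h2 (fun p => if p ∣ u then 1 else 0) fun p _ => by split_ifs <;> norm_num
    rw [ti_ind, ind, ind] at this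
    exact ⟨this.1, this.2, by linarith [this.1, this.2], (bd _ u).trans hL.1, (bd _ u).trans hL.2⟩
  · have key := fun w => svs_sum (PL z).powerset (Icc 1 ⌊x⌋₊) (fun E => ∏ p ∈ E, p) w (fun _ => 1)
      (X := x) (r := 1) fun E hE => by simpa only [div_one] using svs_cnt (pos E hE) hx
    simp only [div_one, mul_one, inv] at key
    exact ⟨(key lam).trans (add_le_add (mul_le_mul_of_nonneg_left h4 hx) hL.1),
      (key Del).trans (add_le_add (mul_le_mul_of_nonneg_left h3 hx) hL.2)⟩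
  · have hx0 : 0 < x := by linarith
    have hl : 0 ≤ Real.log (y / x) := Real.log_nonneg ((one_le_div hx0).2 hxy)
    have key := fun w => svs_sum (PL z).powerset (Icc ⌈x⌉₊ ⌊y⌋₊) (fun E => ∏ p ∈ E, p) w
      (fun u => u) (X := Real.log (y / x)) (r := 1 / x) fun E hE => svs_har (pos E hE) hx0 hxy
    simp only [inv, mul_one_div _ x] at key
    exact ⟨(key lam).trans (add_le_add (by rw [mul_comm]; exact mul_le_mul_of_nonneg_right h4 hl)
        (div_le_div_of_nonneg_right hL.1 hx0.le)),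
      (key Del).trans (add_le_add (by rw [mul_comm]; exact mul_le_mul_of_nonneg_right h3 hl)
        (div_le_div_of_nonneg_right hL.2 hx0.le))⟩

end Pool.Agent.P.MP_8be758_nt.Av2
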